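import Pool.Agent.Helper55.FT.Def
import Pool.Agent.Helper8.Tern.Coeff

set_option autoImplicit false

/-!
# Flatness bounds the progression sums
-/

namespace Pool.Agent.Helper55.FT

open Finset Polynomial
open Pool.Agent.Helper8.Tern (ee cc coeff_pq coeff_pqr)

variable {p q : ℕ}

theorem mm_zero_eq (p q s : ℕ) : mm p q 0 s = ee p q s := by
  unfold mm ee
  refine sum_congr rfl fun l _ => ?_
  by_cases h : l * q ≤ s
  · have h1 : (l : ℤ) * q ≤ s := by exact_mod_cast h
    have h2 : ((p : ℤ) ∣ (s : ℤ) - 0 - l * q) ↔ p ∣ s - l * q := by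
      rw [← Int.natCast_dvd_natCast, Nat.cast_sub h]
      push_cast
      rw [sub_zero]
    simp only [h, h1, h2]
  · have h1 : ¬ (l : ℤ) * q ≤ s := by
      intro h2; exact h (by exact_mod_cast h2)
    simp [h, h1]

theorem mm_one_succ (hp : 2 ≤ p) (s : ℕ) : mm p q 1 (s + 1 : ℕ) = ee p q s := by
  unfold mm ee
  refine sum_congr rfl fun l _ => ?_
  by_cases h : l * q ≤ s
  · have h1 : (l : ℤ) * q ≤ (s + 1 : ℕ) := by exact_mod_cast h.trans (Nat.le_succ s)
    have h2 : ((p : ℤ) ∣ ((s + 1 : ℕ) : ℤ) - 1 - l * q) ↔ p ∣ s - l * q := by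
      rw [← Int.natCast_dvd_natCast, Nat.cast_sub h]
      push_cast
      rw [add_sub_cancel_right]
    simp only [h, h1, h2]
  · rw [if_neg, if_neg]
    · simp [h]
    · rintro ⟨h1, h2⟩
      have h3 : l * q ≤ s + 1 := by exact_mod_cast h1
      have h4 : l * q = s + 1 := by omega
      have h5 : ((s + 1 : ℕ) : ℤ) - 1 - l * q = -1 := by
        have : (l : ℤ) * q = s + 1 := by exact_mod_cast h4
        rw [this]; push_cast; ring
      rw [h5, dvd_neg] at h2
      have := Int.le_of_dvd one_pos h2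
      omega

theorem mm_one_zero (hp : 2 ≤ p) : mm p q 1 0 = 0 := by
  unfold mm
  apply sum_eq_zero
  intro l _
  rw [if_neg]
  rintro ⟨h1, h2⟩
  have h3 : l * q = 0 := by
    have : ((l * q : ℕ) : ℤ) ≤ 0 := by exact_mod_cast h1
    omega
  have h5 : (0 : ℤ) - 1 - l * q = -1 := by
    have : (l : ℤ) * q = 0 := by exact_mod_cast h3
    rw [this]; ring
  rw [h5, dvd_neg] at h2
  have := Int.le_of_dvd one_pos h2
  omega

theorem ee_zero_or_one (hp : p.Prime) (hq : q.Prime) (hpq : p ≠ q) (s : ℕ) :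
    ee p q s = 0 ∨ ee p q s = 1 := by
  have hcop : Nat.Coprime q p := (Nat.coprime_primes hq hp).2 hpq.symm
  unfold ee
  by_cases h : ∃ l ∈ range p, l * q ≤ s ∧ p ∣ s - l * q
  · right
    obtain ⟨l, hl, h1, h2⟩ := h
    rw [sum_eq_single_of_mem l hl, if_pos ⟨h1, h2⟩]
    intro m hm hml
    rw [if_neg]
    rintro ⟨h3, h4⟩
    apply hml
    rw [mem_range] at hl hm
    have h5 : (p : ℤ) ∣ ((m : ℤ) - l) * q := by
      have e1 : ((m : ℤ) - l) * q = ((s - l * q : ℕ) : ℤ) - ((s - m * q : ℕ) : ℤ) := by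
        rw [Nat.cast_sub h1, Nat.cast_sub h3]; push_cast; ring
      rw [e1]
      exact dvd_sub (by exact_mod_cast h2) (by exact_mod_cast h4)
    have h6 : (p : ℤ) ∣ (m : ℤ) - l := by
      refine IsCoprime.dvd_of_dvd_mul_right ?_ h5
      exact (Nat.isCoprime_iff_coprime.2 hcop).symm
    have h7 := Int.eq_zero_of_abs_lt_dvd h6 (by rw [abs_lt]; omega)
    omega
  · left
    push Not at h
    apply sum_eq_zero
    intro l hl
    rw [if_neg]
    rintro ⟨h1, h2⟩
    exact h l hl h1 h2

theorem av_nat (hp : 2 ≤ p) (s : ℕ) :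
    av p q s = ee p q s - if s = 0 then 0 else ee p q (s - 1) := by
  unfold av
  rw [mm_zero_eq]
  congr 1
  rcases Nat.eq_zero_or_pos s with h | h
  · subst h
    rw [if_pos rfl]
    exact_mod_cast mm_one_zero hp
  · obtain ⟨m, rfl⟩ : ∃ m, s = m + 1 := ⟨s - 1, by omega⟩
    rw [if_neg (by omega), mm_one_succ hp, Nat.add_sub_cancel]

theorem av_coeff (hp : p.Prime) (hq : q.Prime) (hpq : p ≠ q) (s : ℕ) :
    av p q s = (cyclotomic (p * q) ℤ).coeff s := by
  rw [coeff_pq hp hq hpq, av_nat hp.two_le]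

/-- two consecutive coefficients are not equal and nonzero -/
theorem av_consec (hp : p.Prime) (hq : q.Prime) (hpq : p ≠ q) (s : ℕ) :
    ¬ (av p q s = -1 ∧ av p q (s + 1 : ℕ) = -1) ∧ ¬ (av p q s = 1 ∧ av p q (s + 1 : ℕ) = 1) := by
  rw [av_nat hp.two_le, av_nat hp.two_le, if_neg (Nat.succ_ne_zero s),
    Nat.add_sub_cancel]
  have h1 := ee_zero_or_one hp hq hpq s
  have h2 := ee_zero_or_one hp hq hpq (s + 1)
  have h3 := ee_zero_or_one hp hq hpq (s - 1)
  constructor
  · rintro ⟨h4, h5⟩
    split_ifs at h4 <;> omega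
  · rintro ⟨h4, h5⟩
    split_ifs at h4 <;> omega

theorem av_abs (hp : p.Prime) (hq : q.Prime) (hpq : p ≠ q) (s : ℕ) : |av p q s| ≤ 1 := by
  rw [av_nat hp.two_le, abs_le]
  have h1 := ee_zero_or_one hp hq hpq s
  have h3 := ee_zero_or_one hp hq hpq (s - 1)
  split_ifs <;> omega

/-- the two-window function on the integers -/
def c2 (p q : ℕ) (m : ℤ) : ℤ :=
  (if m % (p * q) < p then 1 else 0) - (if q ≤ m % (p * q) ∧ m % (p * q) < q + p then 1 else 0)

theorem c2_nat (p q m : ℕ) : c2 p q m = cc p q m := by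
  unfold c2 cc
  have h1 : ((m : ℤ) % (p * q)) = ((m % (p * q) : ℕ) : ℤ) := by push_cast; rfl
  rw [h1]
  norm_cast

theorem c2_congr {x y : ℤ} (h : ((p * q : ℕ) : ℤ) ∣ x - y) : c2 p q x = c2 p q y := by
  have : x % ((p : ℤ) * q) = y % ((p : ℤ) * q) := by
    push_cast at h
    exact Int.ModEq.symm ((Int.modEq_iff_dvd).2 h)
  unfold c2
  rw [this]

/-- the coefficient sums -/
def FF (p q : ℕ) (r : ℤ) (N : ℕ) (x : ℤ) : ℤ := ∑ s ∈ range (N + 1), av p q s * c2 p q (x - r * s)

theorem FF_congr {r : ℤ} {N : ℕ} {x y : ℤ} (h : ((p * q : ℕ) : ℤ) ∣ x - y) :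
    FF p q r N x = FF p q r N y := by
  unfold FF
  refine sum_congr rfl fun s _ => ?_
  rw [c2_congr (x := x - r * s) (y := y - r * s) (by simpa using h)]

theorem FF_coeff {r : ℕ} (hp : p.Prime) (hq : q.Prime) (hr : r.Prime) (hpq : p < q)
    (hqr : q < r) (N i : ℕ) (hi : i < r) :
    FF p q r N ((r * N + i : ℕ) : ℤ) = (cyclotomic (p * q * r) ℤ).coeff (r * N + i) := by
  rw [coeff_pqr hp hq hr hpq hqr N i hi, FF, ← sum_range_reflect]
  refine sum_congr rfl fun t ht => ?_
  rw [mem_range] at ht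
  have h1 : N + 1 - 1 - t = N - t := by omega
  rw [h1, av_coeff hp hq hpq.ne]
  congr 1
  rw [← c2_nat]
  congr 1
  rw [Nat.cast_sub (by omega)]
  push_cast
  ring

theorem FF_le {r : ℕ} (hp : p.Prime) (hq : q.Prime) (hr : r.Prime) (hpq : p < q) (hqr : q < r)
    (hflat : ∀ n, |(cyclotomic (p * q * r) ℤ).coeff n| ≤ 1) (N : ℕ) :
    ∀ x : ℤ, |FF p q r N x| ≤ 1 := by
  have hM : 0 < p * q := Nat.mul_pos hp.pos hq.pos
  have hMi : (0 : ℤ) < ((p * q : ℕ) : ℤ) := by exact_mod_cast hM
  have hp2 := hp.two_le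
  have hqpM : q + p ≤ p * q := by nlinarith
  induction N with
  | zero =>
    intro x
    unfold FF
    rw [zero_add, sum_range_one]
    have h1 := av_abs hp hq hpq.ne 0
    have h2 : |c2 p q (x - r * (0 : ℕ))| ≤ 1 := by
      unfold c2
      split_ifs <;> simp
    rw [abs_mul]
    exact mul_le_one₀ h1 (abs_nonneg _) h2
  | succ N ih =>
    intro x
    obtain ⟨i, hi⟩ : ∃ i : ℕ, (x - r * (N + 1 : ℕ)) % ((p * q : ℕ) : ℤ) = i :=
      ⟨_, (Int.toNat_of_nonneg (Int.emod_nonneg _ hMi.ne')).symm⟩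
    have hiM : i < p * q := by
      have := Int.emod_lt_of_pos (x - r * (N + 1 : ℕ)) hMi
      rw [hi] at this
      exact_mod_cast this
    have hx : ((p * q : ℕ) : ℤ) ∣ x - ((r * (N + 1) + i : ℕ) : ℤ) := by
      refine ⟨(x - r * (N + 1 : ℕ)) / ((p * q : ℕ) : ℤ), ?_⟩
      have := Int.emod_add_mul_ediv (x - r * (N + 1 : ℕ)) ((p * q : ℕ) : ℤ)
      rw [hi] at this
      push_cast at this ⊢
      linarith
    rw [FF_congr hx]
    by_cases hir : i < r
    · rw [FF_coeff hp hq hr hpq hqr _ _ hir]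
      exact hflat _
    · push Not at hir
      have hstep : FF p q r (N + 1) ((r * (N + 1) + i : ℕ) : ℤ) =
          FF p q r N ((r * (N + 1) + i : ℕ) : ℤ) + av p q (N + 1 : ℕ) * c2 p q i := by
        rw [FF, sum_range_succ, ← FF]
        congr 3
        push_cast
        ring
      have hci : c2 p q i = if i < q + p then -1 else 0 := by
        unfold c2
        have h1 : ((i : ℤ) % (p * q)) = i := by
          rw [Int.emod_eq_of_lt (by positivity)]
          exact_mod_cast hiM
        rw [h1, if_neg (show ¬ (i : ℤ) < p by omega)]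
        by_cases h2 : i < q + p
        · rw [if_pos (by constructor <;> omega), if_pos h2]; rfl
        · rw [if_neg (by omega), if_neg h2]; rfl
      rw [hstep, hci]
      by_cases h2 : i < q + p
      · rw [if_pos h2]
        -- the next level is a coefficient
        have hnext : FF p q r (N + 2) ((r * (N + 1) + i : ℕ) : ℤ) =
            FF p q r (N + 1) ((r * (N + 1) + i : ℕ) : ℤ) + av p q (N + 2 : ℕ) := by
          rw [FF, show N + 2 + 1 = (N + 1 + 1) + 1 by ring, sum_range_succ, ← FF]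
          have e1 : (((r * (N + 1) + i : ℕ) : ℤ) - r * ((N + 1 + 1 : ℕ) : ℤ)) = ((i - r : ℕ) : ℤ) := by
            rw [Nat.cast_sub hir]; push_cast; ring
          rw [e1]
          have e2 : c2 p q ((i - r : ℕ) : ℤ) = 1 := by
            unfold c2
            have h1 : (((i - r : ℕ) : ℤ) % (p * q)) = ((i - r : ℕ) : ℤ) := by
              rw [Int.emod_eq_of_lt (by positivity)]
              have : i - r < p * q := by omega
              exact_mod_cast this
            rw [h1, if_pos (show ((i - r : ℕ) : ℤ) < p by omega), if_neg (by omega), sub_zero]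
          rw [e2, mul_one]
        have hcoef : |FF p q r (N + 2) ((r * (N + 1) + i : ℕ) : ℤ)| ≤ 1 := by
          have e1 : r * (N + 1) + i = r * (N + 2) + (i - r) := by
            have : r * (N + 2) = r * (N + 1) + r := by ring
            omega
          rw [e1, FF_coeff hp hq hr hpq hqr _ _ (by omega)]
          exact hflat _
        rw [hnext, hstep, hci, if_pos h2] at hcoef
        have h3 := ih ((r * (N + 1) + i : ℕ) : ℤ)
        have h4 := av_consec hp hq hpq.ne (N + 1)
        have h5 := av_abs hp hq hpq.ne (N + 1)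
        have h6 := av_abs hp hq hpq.ne (N + 2)
        have e2 : N + 1 + 1 = N + 2 := rfl
        rw [e2] at h4
        generalize FF p q r N ((r * (N + 1) + i : ℕ) : ℤ) = A at *
        generalize av p q (N + 1 : ℕ) = B at *
        generalize av p q (N + 2 : ℕ) = C at *
        rw [abs_le] at *
        omega
      · rw [if_neg h2, mul_zero, add_zero]
        exact ih _

/-- Flatness bounds every progression sum. -/
theorem G_le {r : ℕ} (hp : p.Prime) (hq : q.Prime) (hr : r.Prime) (hpq : p < q) (hqr : q < r)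
    (hflat : ∀ n, |(cyclotomic (p * q * r) ℤ).coeff n| ≤ 1) {D : ℤ}
    (hD : ((p * q : ℕ) : ℤ) ∣ D * r - 1) {N k : ℤ} (hN : 0 ≤ N) (hN1 : N < p * q) :
    |G p q D N k| ≤ 1 := by
  obtain ⟨n, rfl⟩ := Int.eq_ofNat_of_zero_le hN
  have hM : 0 < p * q := Nat.mul_pos hp.pos hq.pos
  have hMi : (0 : ℤ) < ((p * q : ℕ) : ℤ) := by exact_mod_cast hM
  have hp2 := hp.two_le
  have hqpM : q + p ≤ p * q := by nlinarith
  have hn : n < p * q := by exact_mod_cast hN1
  -- `bv` as a sum over `s ≤ n`
  have hbv : ∀ y : ℤ, bv p q n y =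
      ∑ s ∈ range (n + 1), if ((p * q : ℕ) : ℤ) ∣ y - s then av p q s else 0 := by
    intro y
    obtain ⟨i, hi⟩ : ∃ i : ℕ, y % ((p * q : ℕ) : ℤ) = i :=
      ⟨_, (Int.toNat_of_nonneg (Int.emod_nonneg _ hMi.ne')).symm⟩
    have hiM : i < p * q := by
      have := Int.emod_lt_of_pos y hMi
      rw [hi] at this
      exact_mod_cast this
    have hyi : ((p * q : ℕ) : ℤ) ∣ y - i := by
      refine ⟨y / ((p * q : ℕ) : ℤ), ?_⟩
      have := Int.emod_add_mul_ediv y ((p * q : ℕ) : ℤ)
      rw [hi] at this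
      linarith
    have huniq : ∀ s : ℕ, s < p * q → (((p * q : ℕ) : ℤ) ∣ y - s ↔ s = i) := by
      intro s hs
      constructor
      · intro h
        have h1 : ((p * q : ℕ) : ℤ) ∣ (s : ℤ) - i := by
          have := dvd_sub hyi h
          have e1 : y - i - (y - s) = (s : ℤ) - i := by ring
          rwa [e1] at this
        have := Int.eq_zero_of_abs_lt_dvd h1 (by rw [abs_lt]; omega)
        omega
      · rintro rfl
        exact hyi
    have hi' : y % ((p : ℤ) * q) = i := by rw [← hi]; push_cast; rfl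
    unfold bv
    rw [hi']
    have : ∀ s ∈ range (n + 1), (if ((p * q : ℕ) : ℤ) ∣ y - s then av p q s else 0) =
        if s = i then av p q s else 0 := by
      intro s hs
      rw [mem_range] at hs
      simp only [huniq s (by omega)]
    rw [sum_congr rfl this, sum_ite_eq' (range (n + 1)) i]
    by_cases h : i ≤ n
    · rw [if_pos (by exact_mod_cast h), if_pos (mem_range.2 (by omega))]
    · rw [if_neg (by exact_mod_cast h), if_neg (by rw [mem_range]; omega)]
  -- divisibility transfer
  have hcop : IsCoprime ((p * q : ℕ) : ℤ) D := by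
    obtain ⟨w, hw⟩ := hD
    exact ⟨-w, r, by linarith⟩
  have htr : ∀ z : ℤ, ∀ s : ℕ, (((p * q : ℕ) : ℤ) ∣ D * z - s ↔ ((p * q : ℕ) : ℤ) ∣ z - r * s) := by
    intro z s
    obtain ⟨w, hw⟩ := hD
    have e1 : D * z - s = D * (z - r * s) + ((p * q : ℕ) : ℤ) * (w * s) := by
      have : ((p * q : ℕ) : ℤ) * (w * s) = (D * r - 1) * s := by rw [hw]; ring
      rw [this]; ring
    rw [e1, dvd_add_left (dvd_mul_right _ _)]
    exact ⟨fun h => hcop.dvd_of_dvd_mul_left h, fun h => h.mul_left _⟩
  have hG : G p q D n k = FF p q r n (r * k) := by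
    have h1 : G p q D n k = G p q D n (D * (r * k)) := by
      apply G_congr_k
      obtain ⟨w, hw⟩ := hD
      refine ⟨-w * k, ?_⟩
      have : D * (r * k) = (((p * q : ℕ) : ℤ) * w + 1) * k := by rw [← hw]; ring
      rw [this]; ring
    rw [h1]
    unfold G FF
    simp only [hbv]
    rw [sum_congr rfl fun e _ => (sum_sub_distrib _ _).symm, sum_comm]
    refine sum_congr rfl fun s _ => ?_
    have e1 : ∀ e : ℕ, (D * (r * k) - e * D - s : ℤ) = D * (r * k - e) - s := by intro e; ring
    have e2 : ∀ e : ℕ, (D * (r * k) - e * D - q * D - s : ℤ) = D * (r * k - e - q) - s := by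
      intro e; ring
    simp only [e1, e2, htr]
    obtain ⟨i, hi⟩ : ∃ i : ℕ, (r * k - r * s) % ((p * q : ℕ) : ℤ) = i :=
      ⟨_, (Int.toNat_of_nonneg (Int.emod_nonneg _ hMi.ne')).symm⟩
    have hiM : i < p * q := by
      have := Int.emod_lt_of_pos (r * k - r * s) hMi
      rw [hi] at this
      exact_mod_cast this
    have hyi : ((p * q : ℕ) : ℤ) ∣ (r * k - r * s) - i := by
      refine ⟨(r * k - r * s) / ((p * q : ℕ) : ℤ), ?_⟩
      have := Int.emod_add_mul_ediv (r * k - r * s) ((p * q : ℕ) : ℤ)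
      rw [hi] at this
      linarith
    have huniq : ∀ m : ℕ, m < p * q → (((p * q : ℕ) : ℤ) ∣ (r * k - r * s) - m ↔ m = i) := by
      intro m hm
      constructor
      · intro h
        have h1 : ((p * q : ℕ) : ℤ) ∣ (m : ℤ) - i := by
          have := dvd_sub hyi h
          have e1 : (r * k - r * s : ℤ) - i - (r * k - r * s - m) = (m : ℤ) - i := by ring
          rwa [e1] at this
        have := Int.eq_zero_of_abs_lt_dvd h1 (by rw [abs_lt]; omega)
        omega
      · rintro rfl
        exact hyi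
    have f1 : ∀ e ∈ range p, ((if ((p * q : ℕ) : ℤ) ∣ r * k - e - r * s then av p q s else 0) -
        if ((p * q : ℕ) : ℤ) ∣ r * k - e - q - r * s then av p q s else 0) =
        (if e = i then av p q s else 0) - if e + q = i then av p q s else 0 := by
      intro e he
      rw [mem_range] at he
      have g1 : (r * k - e - r * s : ℤ) = (r * k - r * s) - (e : ℕ) := by ring
      have g2 : (r * k - e - q - r * s : ℤ) = (r * k - r * s) - ((e + q : ℕ) : ℤ) := by
        push_cast; ring
      rw [g1, g2]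
      simp only [huniq e (by omega), huniq (e + q) (by omega)]
    rw [sum_congr rfl f1, sum_sub_distrib, sum_ite_eq' (range p) i]
    have f2 : ∑ e ∈ range p, (if e + q = i then av p q s else 0) =
        if q ≤ i ∧ i < q + p then av p q s else 0 := by
      by_cases h : q ≤ i ∧ i < q + p
      · rw [if_pos h, sum_eq_single_of_mem (i - q) (mem_range.2 (by omega)), if_pos (by omega)]
        intro b _ hb
        rw [if_neg (by omega)]
      · rw [if_neg h]
        apply sum_eq_zero
        intro e he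
        rw [mem_range] at he
        rw [if_neg]
        omega
    rw [f2]
    have hi' : (r * k - r * s : ℤ) % ((p : ℤ) * q) = i := by rw [← hi]; push_cast; rfl
    unfold c2
    rw [hi', mul_sub]
    congr 1
    · by_cases h : i < p
      · rw [if_pos (mem_range.2 h), if_pos (by exact_mod_cast h), mul_one]
      · rw [if_neg (by rwa [mem_range]), if_neg (by exact_mod_cast h), mul_zero]
    · by_cases h : q ≤ i ∧ i < q + p
      · rw [if_pos h, if_pos (by exact_mod_cast h), mul_one]
      · rw [if_neg h, if_neg (by exact_mod_cast h), mul_zero]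
  rw [hG]
  exact FF_le hp hq hr hpq hqr hflat n _

end Pool.Agent.Helper55.FT
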