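import Mathlib

set_option autoImplicit false

/-!
# The signed progression counts attached to `Φ_{pqr}`

`av p q y` is the coefficient of `x^y` in `Φ_{pq}`, `bv p q N y` the same coefficient read modulo
`p q` and truncated at `N`, and `G p q D N k` the alternating sum over the two progressions
`k - e D` and `k - e D - q D` (`e < p`).
-/

namespace Pool.Agent.Helper55.FT

open Finset

/-- number of `l < p` with `l q ≤ y` and `p ∣ y - i - l q` -/
def mm (p q : ℕ) (i y : ℤ) : ℤ :=
  ∑ l ∈ range p, if (l : ℤ) * q ≤ y ∧ (p : ℤ) ∣ y - i - l * q then 1 else 0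

/-- coefficient of `Φ_{pq}` -/
def av (p q : ℕ) (y : ℤ) : ℤ := mm p q 0 y - mm p q 1 y

/-- truncated coefficient, read modulo `p q` -/
def bv (p q : ℕ) (N y : ℤ) : ℤ := if y % (p * q) ≤ N then av p q (y % (p * q)) else 0

/-- the alternating progression sum -/
def G (p q : ℕ) (D N k : ℤ) : ℤ :=
  ∑ e ∈ range p, (bv p q N (k - e * D) - bv p q N (k - e * D - q * D))

theorem bv_congr {p q : ℕ} {N y z : ℤ} (h : ((p * q : ℕ) : ℤ) ∣ y - z) :
    bv p q N y = bv p q N z := by
  have : y % ((p : ℤ) * q) = z % ((p : ℤ) * q) := by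
    push_cast at h
    exact (Int.emod_emod_of_dvd _ dvd_rfl).symm.trans (by
      rw [Int.emod_emod_of_dvd _ dvd_rfl]
      exact Int.ModEq.symm ((Int.modEq_iff_dvd).2 h))
  unfold bv
  rw [this]

theorem G_congr_k {p q : ℕ} {D N k k' : ℤ} (h : ((p * q : ℕ) : ℤ) ∣ k - k') :
    G p q D N k = G p q D N k' := by
  unfold G
  refine sum_congr rfl fun e _ => ?_
  rw [bv_congr (z := k' - e * D) (by simpa using h),
    bv_congr (y := k - e * D - q * D) (z := k' - e * D - q * D) (by
      have : k - e * D - q * D - (k' - e * D - q * D) = k - k' := by ring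
      rw [this]; exact h)]

theorem G_congr_D {p q : ℕ} {D D' N k : ℤ} (h : ((p * q : ℕ) : ℤ) ∣ D - D') :
    G p q D N k = G p q D' N k := by
  unfold G
  refine sum_congr rfl fun e _ => ?_
  rw [bv_congr (y := k - e * D) (z := k - e * D') (by
      have : k - e * D - (k - e * D') = -(e * (D - D')) := by ring
      rw [this]; exact (h.mul_left _).neg_right),
    bv_congr (y := k - e * D - q * D) (z := k - e * D' - q * D') (by
      have : k - e * D - q * D - (k - e * D' - q * D') = -((e + q) * (D - D')) := by ring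
      rw [this]; exact (h.mul_left _).neg_right)]

theorem G_neg (p q : ℕ) (D N k : ℤ) :
    G p q (-D) N k = - G p q D N (k + (p - 1) * D + q * D) := by
  unfold G
  rw [← sum_range_reflect, ← sum_neg_distrib]
  refine sum_congr rfl fun e he => ?_
  rw [mem_range] at he
  have h1 : ((p - 1 - e : ℕ) : ℤ) = p - 1 - e := by omega
  rw [h1]
  have e1 : k - (p - 1 - e) * (-D) = k + (p - 1) * D + q * D - e * D - q * D := by ring
  have e2 : k - (p - 1 - e) * (-D) - q * (-D) = k + (p - 1) * D + q * D - e * D := by ring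
  rw [e1] at *
  rw [show k + (p - 1) * D + q * D - e * D - q * D - q * (-D) = k + (p - 1) * D + q * D - e * D by
    ring]
  ring

end Pool.Agent.Helper55.FT
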