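import Pool.Agent.Helper55.FT.Q5x1

set_option autoImplicit false

/-!
# Cell checks
-/

namespace Pool.Agent.Helper55.FT

set_option maxRecDepth 100000
set_option linter.defProp false

theorem rows_5 : ∀ g, g < 5 → ∀ g', g' < 5 → 5 ≤ g + g' → GG T5 5 g g' := by
  intro g hg g' hg' hs
  interval_cases g
  · omega
  · interval_cases g'
    · omega
    · omega
    · omega
    · omega
    · exact gg_5_1_4
  · interval_cases g'
    · omega
    · omega
    · omega
    · exact gg_5_2_3
    · exact gg_5_2_4
  · interval_cases g'
    · omega
    · omega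
    · exact gg_5_3_2
    · exact gg_5_3_3
    · exact gg_5_3_4
  · interval_cases g'
    · omega
    · exact gg_5_4_1
    · exact gg_5_4_2
    · exact gg_5_4_3
    · exact gg_5_4_4

end Pool.Agent.Helper55.FT
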