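import Pool.Agent.Helper55.FT.Q7x1

set_option autoImplicit false

/-!
# Cell checks
-/

namespace Pool.Agent.Helper55.FT

set_option maxRecDepth 100000
set_option linter.defProp false

theorem rows_7 : ∀ g, g < 7 → ∀ g', g' < 7 → 7 ≤ g + g' → GG T7 7 g g' := by
  intro g hg g' hg' hs
  interval_cases g
  · omega
  · interval_cases g'
    · omega
    · omega
    · omega
    · omega
    · omega
    · omega
    · exact gg_7_1_6
  · interval_cases g'
    · omega
    · omega
    · omega
    · omega
    · omega
    · exact gg_7_2_5
    · exact gg_7_2_6
  · interval_cases g'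
    · omega
    · omega
    · omega
    · omega
    · exact gg_7_3_4
    · exact gg_7_3_5
    · exact gg_7_3_6
  · interval_cases g'
    · omega
    · omega
    · omega
    · exact gg_7_4_3
    · exact gg_7_4_4
    · exact gg_7_4_5
    · exact gg_7_4_6
  · interval_cases g'
    · omega
    · omega
    · exact gg_7_5_2
    · exact gg_7_5_3
    · exact gg_7_5_4
    · exact gg_7_5_5
    · exact gg_7_5_6
  · interval_cases g'
    · omega
    · exact gg_7_6_1
    · exact gg_7_6_2
    · exact gg_7_6_3
    · exact gg_7_6_4
    · exact gg_7_6_5
    · exact gg_7_6_6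

end Pool.Agent.Helper55.FT
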