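import Pool.Agent.Helper55.FT.Pack

set_option autoImplicit false

/-!
# The kernel check and its soundness
-/

namespace Pool.Agent.Helper55.FT

open Finset

/-- evaluate the first argument before continuing -/
def frc (n : ℕ) (k : ℕ → Bool) : Bool :=
  Nat.rec (motive := fun _ => Bool) (k 0) (fun m _ => k (Nat.succ m)) n

theorem frc_eq (n : ℕ) (k : ℕ → Bool) : frc n k = k n := by cases n <;> rfl

/-- loop form of `SS` -/
def snL (p q N c J : ℕ) : ℕ :=
  Nat.rec (motive := fun _ => ℕ) 0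
    (fun j acc => Nat.add acc (Nat.mul (Nat.div (Nat.sub (Nat.pow 8 (Nat.mul p
      (Nat.succ (Nat.div (Nat.sub N (Nat.mul j q)) p)))) 1) c) (Nat.pow 8 (Nat.mul j q)))) J

theorem snL_eq (p q N c J : ℕ) : snL p q N c J =
    ∑ j ∈ range J, (8 ^ (p * ((N - j * q) / p + 1)) - 1) / c * 8 ^ (j * q) := by
  induction J with
  | zero => rfl
  | succ J ih => rw [sum_range_succ, ← ih]; rfl

/-- loop form of `cnt` -/
def cntL (p q N J : ℕ) : ℕ :=
  Nat.rec (motive := fun _ => ℕ) 0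
    (fun j acc => Nat.add acc (Bool.rec (motive := fun _ => ℕ) 0 1
      (Nat.beq (Nat.mod (Nat.sub N (Nat.mul j q)) p) 0))) J

theorem cntL_eq (p q N J : ℕ) : cntL p q N J =
    ∑ j ∈ range J, if (N - j * q) % p = 0 then 1 else 0 := by
  induction J with
  | zero => rfl
  | succ J ih =>
    rw [sum_range_succ, ← ih]
    have h : cntL p q N (J + 1) = cntL p q N J + (Bool.rec (motive := fun _ => ℕ) 0 1
      (Nat.beq ((N - J * q) % p) 0)) := rfl
    rw [h]
    congr 1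
    by_cases h1 : (N - J * q) % p = 0
    · rw [if_pos h1, h1]; rfl
    · rw [if_neg h1]
      have : Nat.beq ((N - J * q) % p) 0 = false := by
        rw [← Bool.not_eq_true, Nat.beq_eq]; exact h1
      rw [this]

/-- loop form of the sum of the shifts -/
def gsL (p M D : ℕ) : ℕ :=
  Nat.rec (motive := fun _ => ℕ) 0
    (fun e acc => Nat.add acc (Nat.pow 8 (Nat.mod (Nat.mul e D) M))) p

theorem gsL_eq (p M D : ℕ) : gsL p M D = ∑ e ∈ range p, 8 ^ ((e * D) % M) := by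
  induction p with
  | zero => rfl
  | succ p ih => rw [sum_range_succ, ← ih]; rfl

/-- the digit test -/
def test (Z P Q : ℕ) : Bool :=
  Bool.rec (motive := fun _ => Bool) true
    (Bool.rec (motive := fun _ => Bool) true false
      (Nat.beq (Nat.land (Nat.mod (Nat.add (Nat.add Q (Nat.sub Z P)) (Nat.mul 2 (Nat.div Z 7))) Z)
        (Nat.mul 4 (Nat.div Z 7))) 0))
    (Nat.beq (Nat.land (Nat.mod (Nat.add (Nat.add P (Nat.sub Z Q)) (Nat.mul 2 (Nat.div Z 7))) Z)
        (Nat.mul 4 (Nat.div Z 7))) 0)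

/-- the check for one pair and one `N` -/
def viol (p q D N : ℕ) : Bool :=
  frc N fun N => frc (Nat.mul p q) fun M => frc (Nat.sub (Nat.pow 8 M) 1) fun Z =>
  frc (Nat.mul 7 (snL p q N (Nat.sub (Nat.pow 8 p) 1) (Nat.succ (Nat.div N q)))) fun S =>
  frc (Nat.mul (cntL p q N (Nat.succ (Nat.div N q))) (Nat.pow 8 (Nat.succ N))) fun c =>
  frc (gsL p M D) fun g => frc (Nat.pow 8 (Nat.mod (Nat.mul q D) M)) fun h =>
  frc (Nat.mod (Nat.mul (Nat.add c (Nat.mul S h)) g) Z) fun P =>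
  frc (Nat.mod (Nat.mul (Nat.add (Nat.mul c h) S) g) Z) fun Q => 
  Bool.rec (motive := fun _ => Bool) false (test Z P Q) (Nat.ble (Nat.succ N) M)

theorem land_step {x y a : ℕ} (ha : a ≤ 3) (h : x &&& y = 0) : (8 * x + a) &&& (8 * y + 4) = 0 := by
  apply Nat.eq_of_testBit_eq
  intro i
  rw [Nat.testBit_and, Nat.zero_testBit]
  have h1 := Nat.testBit_two_pow_mul_add x (b := a) (i := 3) (by omega) i
  have h2 := Nat.testBit_two_pow_mul_add y (b := 4) (i := 3) (by norm_num) i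
  norm_num at h1 h2
  rw [h1, h2]
  by_cases hi : i < 3
  · rw [if_pos hi, if_pos hi]
    interval_cases i <;> interval_cases a <;> decide
  · rw [if_neg hi, if_neg hi]
    have h3 := congrArg (fun n => Nat.testBit n (i - 3)) h
    simp only [Nat.testBit_and, Nat.zero_testBit] at h3
    exact h3

theorem land_digits (M : ℕ) : ∀ d : ℕ → ℕ, (∀ k, d k ≤ 3) →
    (∑ k ∈ range M, d k * 8 ^ k) &&& (∑ k ∈ range M, 4 * 8 ^ k) = 0 := by
  induction M with
  | zero => intro d _; simp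
  | succ M ih =>
    intro d hd
    have h1 := ih (fun k => d (k + 1)) (fun k => hd _)
    rw [sum_range_succ', sum_range_succ' (fun k => 4 * 8 ^ k)]
    have e1 : ∑ k ∈ range M, d (k + 1) * 8 ^ (k + 1) = 8 * ∑ k ∈ range M, d (k + 1) * 8 ^ k := by
      rw [mul_sum]
      refine sum_congr rfl fun k _ => ?_
      ring
    have e2 : ∑ k ∈ range M, 4 * 8 ^ (k + 1) = 8 * ∑ k ∈ range M, 4 * 8 ^ k := by
      rw [mul_sum]
      refine sum_congr rfl fun k _ => ?_
      ring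
    rw [e1, e2, pow_zero, mul_one, mul_one]
    exact land_step (hd 0) h1

theorem seven_R (M : ℕ) : (8 ^ M - 1) / 7 = ∑ k ∈ range M, 8 ^ k := by
  have := Nat.geomSum_eq (m := 8) (by norm_num) M
  rw [this]

theorem seven_R' (M : ℕ) : 7 * (∑ k ∈ range M, (8 : ℤ) ^ k) = 8 ^ M - 1 := by
  have := geom_sum_mul (8 : ℤ) M
  linarith

/-- One half of the soundness: packed digits. -/
theorem digits_land {M : ℕ} (hM : 0 < M) (F : ℕ → ℤ) (hF : ∀ k, |F k| ≤ 1) {P Q : ℕ}
    (hQ : Q ≤ 8 ^ M - 1)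
    (hPQ : ((8 : ℤ) ^ M - 1) ∣ ∑ k ∈ range M, F k * 8 ^ k - (P - Q)) :
    Nat.land ((P + (8 ^ M - 1 - Q) + 2 * ((8 ^ M - 1) / 7)) % (8 ^ M - 1))
      (4 * ((8 ^ M - 1) / 7)) = 0 := by
  have h8 : 1 < 8 ^ M := Nat.one_lt_pow hM.ne' (by norm_num)
  set Z := 8 ^ M - 1 with hZ
  have hZi : (Z : ℤ) = 8 ^ M - 1 := by
    rw [hZ, Nat.cast_sub h8.le]; push_cast; ring
  set T : ℕ := ∑ k ∈ range M, (F k + 2).toNat * 8 ^ k with hT
  have hd : ∀ k, ((F k + 2).toNat : ℤ) = F k + 2 := by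
    intro k
    have := abs_le.1 (hF k)
    exact Int.toNat_of_nonneg (by linarith)
  have hd3 : ∀ k, (F k + 2).toNat ≤ 3 := by
    intro k
    have := abs_le.1 (hF k)
    have := hd k
    omega
  have hR := seven_R' M
  have hTi : (T : ℤ) = ∑ k ∈ range M, F k * 8 ^ k + 2 * ∑ k ∈ range M, (8 : ℤ) ^ k := by
    rw [hT]
    push_cast
    simp only [hd]
    rw [mul_sum, ← sum_add_distrib]
    refine sum_congr rfl fun k _ => ?_
    ring
  have hTlt : T < Z := by
    have h1 : T ≤ ∑ k ∈ range M, 3 * 8 ^ k := by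
      rw [hT]
      exact sum_le_sum fun k _ => Nat.mul_le_mul_right _ (hd3 k)
    have h2 : 7 * ∑ k ∈ range M, 8 ^ k = Z := by
      have h3 : ((7 * ∑ k ∈ range M, 8 ^ k : ℕ) : ℤ) = (Z : ℤ) := by
        rw [hZi, ← hR]; push_cast; ring
      exact_mod_cast h3
    rw [← mul_sum] at h1
    omega
  have hmod : (P + (Z - Q) + 2 * (Z / 7)) % Z = T := by
    have h1 : (P + (Z - Q) + 2 * (Z / 7)) ≡ T [MOD Z] := by
      rw [Nat.modEq_iff_dvd]
      have h2 : ((P + (Z - Q) + 2 * (Z / 7) : ℕ) : ℤ) =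
          P - Q + Z + 2 * ∑ k ∈ range M, (8 : ℤ) ^ k := by
        rw [hZ, seven_R, ← hZ]
        push_cast [Nat.cast_sub hQ]
        ring
      rw [h2, hTi]
      obtain ⟨w, hw⟩ := hPQ
      refine ⟨w - 1, ?_⟩
      rw [← hZi] at hw
      linear_combination hw
    unfold Nat.ModEq at h1
    rw [h1, Nat.mod_eq_of_lt hTlt]
  rw [hmod]
  have h4 : 4 * (Z / 7) = ∑ k ∈ range M, 4 * 8 ^ k := by
    rw [hZ, seven_R, mul_sum]
  rw [h4]
  exact land_digits M _ hd3

theorem viol_sound {p q D N : ℕ} (hp : 2 ≤ p) (hq : 0 < q) (hv : viol p q D N = true) :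
    Viol p q D := by
  have hM : 0 < p * q := by positivity
  by_contra hcon
  unfold viol at hv
  simp only [frc_eq] at hv
  have hN : N < p * q := by
    by_contra h
    have : Nat.ble (Nat.succ N) (Nat.mul p q) = false := by
      rw [← Bool.not_eq_true, Nat.ble_eq]
      exact fun h2 => h h2
    rw [this] at hv
    change false = true at hv
    exact absurd hv (by decide)
  have hble : Nat.ble (Nat.succ N) (Nat.mul p q) = true := by
    rw [Nat.ble_eq]; exact hN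
  rw [hble] at hv
  change test _ _ _ = true at hv
  have hF : ∀ k : ℤ, |G p q D N k| ≤ 1 := by
    intro k
    by_contra h
    push Not at h
    exact hcon ⟨N, k, by positivity, by exact_mod_cast hN, by omega⟩
  set M := p * q with hMdef
  have hZ1 : Nat.sub (Nat.pow 8 (Nat.mul p q)) 1 = 8 ^ M - 1 := rfl
  rw [hZ1] at hv
  have h8 : 1 < 8 ^ M := Nat.one_lt_pow hM.ne' (by norm_num)
  have hZpos : 0 < 8 ^ M - 1 := by omega
  set S := SS p q N with hS
  set c := cnt p q N * 8 ^ (N + 1) with hc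
  set g := ∑ e ∈ range p, 8 ^ ((e * D) % M) with hg
  set h := 8 ^ ((q * D) % M) with hh
  have e1 : Nat.mul 7 (snL p q N (Nat.sub (Nat.pow 8 p) 1) (Nat.succ (Nat.div N q))) = 7 * S := by
    rw [snL_eq]; rfl
  have e2 : Nat.mul (cntL p q N (Nat.succ (Nat.div N q))) (Nat.pow 8 (Nat.succ N)) = c := by
    rw [cntL_eq]; rfl
  have e3 : gsL p (Nat.mul p q) D = g := by rw [gsL_eq]; rfl
  have e4 : Nat.pow 8 (Nat.mod (Nat.mul q D) (Nat.mul p q)) = h := rfl
  rw [e1, e2, e3, e4] at hv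
  set P := ((c + 7 * S * h) * g) % (8 ^ M - 1) with hP
  set Q := ((c * h + 7 * S) * g) % (8 ^ M - 1) with hQ
  have e5 : Nat.mod (Nat.mul (Nat.add c (Nat.mul (7 * S) h)) g) (8 ^ M - 1) = P := rfl
  have e6 : Nat.mod (Nat.mul (Nat.add (Nat.mul c h) (7 * S)) g) (8 ^ M - 1) = Q := rfl
  rw [e5, e6] at hv
  have hPlt : P < 8 ^ M - 1 := Nat.mod_lt _ hZpos
  have hQlt : Q < 8 ^ M - 1 := Nat.mod_lt _ hZpos
  have hpk := G_packed p q D N
  rw [beta_eq hp hq hN] at hpk
  have hZi : ((8 ^ M - 1 : ℕ) : ℤ) = (8 : ℤ) ^ M - 1 := by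
    rw [Nat.cast_sub h8.le]; push_cast; ring
  have hPd : ((8 : ℤ) ^ M - 1) ∣ ((c + 7 * S * h) * g : ℕ) - (P : ℤ) := by
    rw [← hZi, hP]
    exact (Nat.modEq_iff_dvd.1 (Nat.mod_modEq _ _))
  have hQd : ((8 : ℤ) ^ M - 1) ∣ ((c * h + 7 * S) * g : ℕ) - (Q : ℤ) := by
    rw [← hZi, hQ]
    exact (Nat.modEq_iff_dvd.1 (Nat.mod_modEq _ _))
  have hmain : ((8 : ℤ) ^ M - 1) ∣ ∑ k ∈ range M, G p q D N k * 8 ^ k - (P - Q) := by
    obtain ⟨a, ha⟩ := hpk
    obtain ⟨b, hb⟩ := hPd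
    obtain ⟨b', hb'⟩ := hQd
    refine ⟨a + b - b', ?_⟩
    have hci : (cnt p q N : ℤ) * 8 ^ (N + 1) = (c : ℤ) := by rw [hc]; push_cast; ring
    have hgi : ∑ e ∈ range p, (8 : ℤ) ^ ((e * D) % M) = (g : ℤ) := by rw [hg]; push_cast; rfl
    have hhi : (8 : ℤ) ^ ((q * D) % M) = (h : ℤ) := by rw [hh]; push_cast; rfl
    rw [hci, hgi, hhi] at ha
    push_cast at hb hb'
    linear_combination ha + hb - hb'
  have t1 := digits_land hM (fun k => G p q D N k) (fun k => hF k) hQlt.le hmain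
  have t2 := digits_land hM (fun k => - G p q D N k) (fun k => by rw [abs_neg]; exact hF k)
    hPlt.le (P := Q) (Q := P) (by
      have := hmain.neg_right
      have e7 : -(∑ k ∈ range M, G p q D N k * 8 ^ k - ((P : ℤ) - Q)) =
          ∑ k ∈ range M, (- G p q D N k) * 8 ^ k - ((Q : ℤ) - P) := by
        simp only [neg_mul, sum_neg_distrib]
        ring
      rwa [e7] at this)
  have hf : test (8 ^ M - 1) P Q = false := by
    have f1 : Nat.beq (Nat.land (Nat.mod (Nat.add (Nat.add P (Nat.sub (8 ^ M - 1) Q))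
        (Nat.mul 2 (Nat.div (8 ^ M - 1) 7))) (8 ^ M - 1)) (Nat.mul 4 (Nat.div (8 ^ M - 1) 7))) 0 =
        true := by
      rw [Nat.beq_eq]; exact t1
    have f2 : Nat.beq (Nat.land (Nat.mod (Nat.add (Nat.add Q (Nat.sub (8 ^ M - 1) P))
        (Nat.mul 2 (Nat.div (8 ^ M - 1) 7))) (8 ^ M - 1)) (Nat.mul 4 (Nat.div (8 ^ M - 1) 7))) 0 =
        true := by
      rw [Nat.beq_eq]; exact t2
    unfold test
    rw [f1, f2]
  rw [hf] at hv
  exact absurd hv (by decide)

end Pool.Agent.Helper55.FT
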