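import Pool.Agent.Helper55.FT.Def

set_option autoImplicit false

/-!
# Domination: a violation for `(q', D')` gives one for every `(q, D)` dominating it
-/

namespace Pool.Agent.Helper55.FT

open Finset

/-- the data shared by the lemmas of this file -/
structure Dm (p q q' : ℕ) (D D' : ℤ) : Prop where
  hp : 0 < p
  hq : 0 < q
  hq' : 0 < q'
  hqq : (p : ℤ) ∣ q - q'
  hDD : (p : ℤ) ∣ D - D'
  H : ∀ l j : ℤ, |l| < p → 0 < l * D' + j * q' → l * D' + j * q' ≤ l * D + j * q
  H0 : ∀ l j : ℤ, |l| < p → l * D' + j * q' = 0 → l * D + j * q = 0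

variable {p q q' : ℕ} {D D' : ℤ}

theorem Dm.sign (h : Dm p q q' D D') (l j : ℤ) (hl : |l| < p) :
    0 ≤ l * D' + j * q' ↔ 0 ≤ l * D + j * q := by
  constructor
  · intro h1
    rcases h1.lt_or_eq with h2 | h2
    · exact h2.le.trans (h.H l j hl h2)
    · exact (h.H0 l j hl h2.symm).ge
  · intro h1
    by_contra h2
    push Not at h2
    have h3 := h.H (-l) (-j) (by rwa [abs_neg]) (by linarith)
    linarith

theorem abs_sub_lt_of_lt {p a b : ℕ} (ha : a < p) (hb : b < p) : |(a : ℤ) - b| < p := by
  rw [abs_lt]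
  constructor <;> omega

theorem Dm.shift (h : Dm p q q' D D') (k' : ℤ) : ∃ k : ℤ, (p : ℤ) ∣ k - k' ∧
    ∀ e : ℕ, e < p → ∀ j : ℤ, 0 ≤ k' - e * D' - j * q' ↔ 0 ≤ k - e * D - j * q := by
  have hp := h.hp
  have hq' : (0 : ℤ) < q' := by exact_mod_cast h.hq'
  obtain ⟨l0, hl0, hmin⟩ := exists_min_image (range p) (fun e : ℕ => (k' - e * D') % q')
    ⟨0, mem_range.2 hp⟩
  rw [mem_range] at hl0
  set t := (k' - l0 * D') % q' with ht
  set j0 := (k' - l0 * D') / q' with hj0
  have ht0 : 0 ≤ t := Int.emod_nonneg _ hq'.ne'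
  have hk' : k' = l0 * D' + j0 * q' + t := by
    have := Int.emod_add_mul_ediv (k' - l0 * D') q'
    rw [← ht, ← hj0] at this
    linarith
  refine ⟨l0 * D + j0 * q + t, ?_, ?_⟩
  · have e1 : l0 * D + j0 * q + t - k' = l0 * (D - D') + j0 * (q - q') := by
      rw [hk']; ring
    rw [e1]
    exact dvd_add (h.hDD.mul_left _) (h.hqq.mul_left _)
  · intro e he j
    have hab := abs_sub_lt_of_lt hl0 he
    have hab' := abs_sub_lt_of_lt he hl0
    constructor
    · intro hv
      have h1 : (k' - e * D') % q' ≤ k' - e * D' - j * q' := by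
        have e1 : (k' - e * D') % q' = (k' - e * D' - j * q') % q' := by
          rw [show k' - e * D' = k' - e * D' - j * q' + q' * j by ring, Int.add_mul_emod_self_left]
          congr 1
          ring
        rw [e1]
        have h2 := Int.emod_add_mul_ediv (k' - e * D' - j * q') q'
        have h3 : 0 ≤ (k' - e * D' - j * q') / q' := Int.ediv_nonneg hv hq'.le
        have h4 := mul_nonneg hq'.le h3
        linarith
      have h2 := hmin e (mem_range.2 he)
      have h3 : 0 ≤ ((l0 : ℤ) - e) * D' + (j0 - j) * q' := by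
        have : ((l0 : ℤ) - e) * D' + (j0 - j) * q' = k' - e * D' - j * q' - t := by
          rw [hk']; ring
        rw [this]
        linarith
      have h4 := (h.sign _ _ hab).1 h3
      have : l0 * D + j0 * q + t - e * D - j * q = ((l0 : ℤ) - e) * D + (j0 - j) * q + t := by ring
      rw [this]
      linarith
    · intro hv
      by_contra h1
      push Not at h1
      have h2 : ((e : ℤ) - l0) * D' + (j - j0) * q' = t - (k' - e * D' - j * q') := by
        rw [hk']; ring
      have h3 := h.H ((e : ℤ) - l0) (j - j0) hab' (by rw [h2]; linarith)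
      rw [h2] at h3
      have : l0 * D + j0 * q + t - e * D - j * q = t - (((e : ℤ) - l0) * D + (j - j0) * q) := by ring
      rw [this] at hv
      linarith

theorem mm_eq (h : Dm p q q' D D') {k k' : ℤ} (hk : (p : ℤ) ∣ k - k')
    (E : ∀ e : ℕ, e < p → ∀ j : ℤ, 0 ≤ k' - e * D' - j * q' ↔ 0 ≤ k - e * D - j * q)
    (e : ℕ) (he : e < p) (j i : ℤ) :
    mm p q i (k - e * D - j * q) = mm p q' i (k' - e * D' - j * q') := by
  unfold mm
  refine sum_congr rfl fun l _ => ?_
  have h1 : ((l : ℤ) * q ≤ k - e * D - j * q) ↔ ((l : ℤ) * q' ≤ k' - e * D' - j * q') := by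
    have h2 := E e he (j + l)
    constructor
    · intro h3
      have := h2.2 (by linarith)
      linarith
    · intro h3
      have := h2.1 (by linarith)
      linarith
  have h2 : ((p : ℤ) ∣ k - e * D - j * q - i - l * q) ↔
      ((p : ℤ) ∣ k' - e * D' - j * q' - i - l * q') := by
    have e1 : k - e * D - j * q - i - l * q = k' - e * D' - j * q' - i - l * q' +
        ((k - k') - e * (D - D') - (j + l) * (q - q')) := by ring
    rw [e1]
    refine dvd_add_left ?_
    exact dvd_sub (dvd_sub hk (h.hDD.mul_left _)) (h.hqq.mul_left _)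
  simp only [h1, h2]

/-- the canonical representative -/
theorem emod_rep {p q : ℕ} {x c : ℤ} (j : ℤ) (hj : (p : ℤ) ∣ j - c)
    (h0 : 0 ≤ x - j * q) (h1 : x - (j + p) * q < 0) : (x - c * q) % (p * q) = x - j * q := by
  obtain ⟨w, hw⟩ := hj
  have e1 : x - c * q = (x - j * q) + (p * q) * w := by
    have : j = c + p * w := by linarith
    rw [this]; ring
  rw [e1, Int.add_mul_emod_self_left, Int.emod_eq_of_lt h0 (by linarith)]

theorem exists_rep {p q : ℕ} (hp : 0 < p) (hq : 0 < q) (x c : ℤ) : ∃ j : ℤ, (p : ℤ) ∣ j - c ∧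
    0 ≤ x - j * q ∧ x - (j + p) * q < 0 ∧ (x - c * q) % (p * q) = x - j * q := by
  have hM : (0 : ℤ) < p * q := by positivity
  refine ⟨c + p * ((x - c * q) / (p * q)), ⟨(x - c * q) / (p * q), by ring⟩, ?_⟩
  have h1 := Int.emod_nonneg (x - c * q) hM.ne'
  have h2 := Int.emod_lt_of_pos (x - c * q) hM
  have h3 := Int.emod_add_mul_ediv (x - c * q) (p * q)
  refine ⟨by linarith, by linarith, by linarith⟩

/-- The domination theorem. -/
theorem dom (h : Dm p q q' D D') {N' k' : ℤ} (hG : G p q' D' N' k' ≠ 0) :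
    ∃ N k : ℤ, 0 ≤ N ∧ N < p * q ∧ G p q D N k = G p q' D' N' k' := by
  have hp := h.hp
  obtain ⟨k, hk, E⟩ := h.shift k'
  -- positions
  let pos : ℕ × Bool → ℤ := fun x =>
    (k' - x.1 * D' - (if x.2 then D' else 0) * q') % (p * q')
  have hbv2 : ∀ (N : ℤ) (e : ℕ), bv p q' N (k' - e * D' - q' * D') =
      if pos (e, true) ≤ N then av p q' (pos (e, true)) else 0 := by
    intro N e
    simp only [pos, bv, if_true, mul_comm (q' : ℤ) D']
  have hbv1 : ∀ (N : ℤ) (e : ℕ), bv p q' N (k' - e * D') =
      if pos (e, false) ≤ N then av p q' (pos (e, false)) else 0 := by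
    intro N e
    simp [pos, bv]
  -- the set of positions at most `N'`
  let P := ((range p) ×ˢ (univ : Finset Bool)).filter fun x => pos x ≤ N'
  have hP : P.Nonempty := by
    by_contra hne
    rw [not_nonempty_iff_eq_empty, filter_eq_empty_iff] at hne
    apply hG
    unfold G
    apply sum_eq_zero
    intro e he
    have h1 := hne (x := (e, true)) (by simp [mem_range.1 he])
    have h2 := hne (x := (e, false)) (by simp [mem_range.1 he])
    rw [hbv1, hbv2, if_neg h1, if_neg h2, sub_zero]
  obtain ⟨⟨l1, b1⟩, hx, hmax⟩ := exists_max_image P pos hP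
  rw [mem_filter, mem_product, mem_range] at hx
  obtain ⟨⟨hl1, -⟩, hxN⟩ := hx
  simp only at hl1
  set c1 : Bool → ℤ := fun b => if b then D' else 0 with hc1
  set c0 : Bool → ℤ := fun b => if b then D else 0 with hc0
  have hcc : ∀ b, (p : ℤ) ∣ c1 b - c0 b := by
    intro b
    cases b
    · simp [c1, c0]
    · simp only [c1, c0, if_true]
      have := h.hDD.neg_right
      rwa [neg_sub] at this
  obtain ⟨j1, hj1, hj1a, hj1b, hj1c⟩ := exists_rep hp h.hq' (k' - l1 * D') (c1 b1)
  have hN'' : pos (l1, b1) = k' - l1 * D' - j1 * q' := hj1c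
  refine ⟨k - l1 * D - j1 * q, k, (E l1 hl1 j1).1 hj1a, ?_, ?_⟩
  · have := (E l1 hl1 (j1 + p)).not.1 (by push Not; exact hj1b)
    push Not at this
    linarith
  -- the key comparison
  have key : ∀ e : ℕ, e < p → ∀ b : Bool,
      bv p q (k - l1 * D - j1 * q) (k - e * D - c0 b * q) =
        if pos (e, b) ≤ N' then av p q' (pos (e, b)) else 0 := by
    intro e he b
    obtain ⟨j, hj, hja, hjb, hjc⟩ := exists_rep hp h.hq' (k' - e * D') (c1 b)
    have hpos : pos (e, b) = k' - e * D' - j * q' := hjc
    have hj' : (p : ℤ) ∣ j - c0 b := by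
      have := dvd_add hj (hcc b)
      have e1 : j - c1 b + (c1 b - c0 b) = j - c0 b := by ring
      rwa [e1] at this
    have hyb := (E e he (j + p)).not.1 (by push Not; exact hjb)
    push Not at hyb
    have hrep := emod_rep (p := p) (q := q) (x := k - e * D) j hj' ((E e he j).1 hja) hyb
    unfold bv
    rw [hrep]
    have hle : (k - e * D - j * q ≤ k - l1 * D - j1 * q) ↔ pos (e, b) ≤ N' := by
      have s1 := h.sign ((e : ℤ) - l1) (j - j1) (abs_sub_lt_of_lt he hl1)
      constructor
      · intro h1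
        have h2 := s1.2 (by linarith)
        have h3 : pos (e, b) ≤ pos (l1, b1) := by rw [hpos, hN'']; linarith
        exact h3.trans hxN
      · intro h1
        have h2 : pos (e, b) ≤ pos (l1, b1) :=
          hmax (e, b) (by simp only [P, mem_filter, mem_product, mem_range, mem_univ, and_true]; exact ⟨he, h1⟩)
        rw [hpos, hN''] at h2
        have h3 := s1.1 (by linarith)
        linarith
    have hav : av p q (k - e * D - j * q) = av p q' (pos (e, b)) := by
      rw [hpos]
      unfold av
      rw [mm_eq h hk E e he, mm_eq h hk E e he]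
    simp only [hle, hav]
  unfold G
  refine sum_congr rfl fun e he => ?_
  rw [mem_range] at he
  have k1 := key e he false
  have k2 := key e he true
  simp only [hc0, if_true, Bool.false_eq_true, if_false, zero_mul, sub_zero] at k1 k2
  rw [hbv1, hbv2, k1]
  rw [show k - e * D - q * D = k - e * D - D * q by ring, k2]

end Pool.Agent.Helper55.FT
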