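import Pool.Agent.Helper55.FT.Dom

set_option autoImplicit false

/-!
# Farey cells and the reduction to small pairs
-/

namespace Pool.Agent.Helper55.FT

open Finset

/-- a cell of order `n` containing `D / q` -/
structure Cell (n : ℕ) (q D f g f' g' : ℕ) : Prop where
  g0 : 0 < g
  g0' : 0 < g'
  gn : g ≤ n
  gn' : g' ≤ n
  sum : n < g + g'
  det : g * f' = g' * f + 1
  lo : f * q < g * D
  hi : g' * D < f' * q

theorem cell_exists {q : ℕ} (hq : 0 < q) (D : ℕ) : ∀ n : ℕ, 1 ≤ n →
    (∀ g, 1 ≤ g → g ≤ n → ¬ q ∣ g * D) → ∃ f g f' g', Cell n q D f g f' g' := by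
  intro n hn
  induction n, hn using Nat.le_induction with
  | base =>
    intro h
    have h1 := h 1 le_rfl le_rfl
    rw [one_mul] at h1
    refine ⟨D / q, 1, D / q + 1, 1, ⟨one_pos, one_pos, le_rfl, le_rfl, by omega, by ring, ?_, ?_⟩⟩
    · rw [one_mul]
      have := Nat.div_mul_le_self D q
      rcases this.lt_or_eq with h2 | h2
      · exact h2
      · exact absurd ⟨D / q, by rw [mul_comm]; exact h2.symm⟩ h1
    · rw [one_mul, add_mul, one_mul]
      have := Nat.div_add_mod D q
      have h2 := Nat.mod_lt D hq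
      rw [mul_comm (D / q) q]
      omega
  | succ n hn ih =>
    intro h
    obtain ⟨f, g, f', g', hc⟩ := ih (fun g h1 h2 => h g h1 (by omega))
    obtain ⟨g0, g0', gn, gn', hsum, det, lo, hi⟩ := hc
    by_cases hs : n + 1 < g + g'
    · exact ⟨f, g, f', g', ⟨g0, g0', by omega, by omega, hs, det, lo, hi⟩⟩
    · have hs' : g + g' = n + 1 := by omega
      have hne : (g + g') * D ≠ (f + f') * q := by
        intro h1
        exact h (g + g') (by omega) (by omega) ⟨f + f', by rw [h1]; ring⟩
      rcases Nat.lt_or_ge ((f + f') * q) ((g + g') * D) with h1 | h1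
      · exact ⟨f + f', g + g', f', g', ⟨by omega, g0', by omega, by omega, by omega, by
          rw [add_mul, mul_add, det]; ring, h1, hi⟩⟩
      · exact ⟨f, g, f + f', g + g', ⟨g0, by omega, by omega, by omega, by omega, by
          rw [mul_add, add_mul, det]; ring, lo, lt_of_le_of_ne h1 hne⟩⟩

/-- Domination inside a cell. -/
theorem cell_dm {p q D f g f' g' : ℕ} (hp : 0 < p) (hc : Cell (p - 1) q D f g f' g')
    {s t : ℕ} (hs : 0 < s) (ht : 0 < t) (hs1 : s + f * q ≤ g * D) (ht1 : t + g' * D ≤ f' * q)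
    (hs2 : (p : ℤ) ∣ (g * D - f * q : ℤ) - s) (ht2 : (p : ℤ) ∣ (f' * q - g' * D : ℤ) - t) :
    Dm p q (g' * s + g * t) D ((f' * s + f * t : ℕ) : ℤ) := by
  obtain ⟨g0, g0', gn, gn', hsum, det, lo, hi⟩ := hc
  have hdet : (g : ℤ) * f' = g' * f + 1 := by exact_mod_cast det
  set S : ℤ := g * D - f * q with hS
  set T : ℤ := f' * q - g' * D with hT
  have hSs : (s : ℤ) ≤ S := by
    have : (s : ℤ) + f * q ≤ g * D := by exact_mod_cast hs1
    linarith
  have hTt : (t : ℤ) ≤ T := by
    have : (t : ℤ) + g' * D ≤ f' * q := by exact_mod_cast ht1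
    linarith
  have hqe : (q : ℤ) = g' * S + g * T := by
    have : (g' : ℤ) * S + g * T = (g * f' - g' * f) * q := by rw [hS, hT]; ring
    rw [this, hdet]; ring
  have hDe : (D : ℤ) = f' * S + f * T := by
    have : (f' : ℤ) * S + f * T = (g * f' - g' * f) * D := by rw [hS, hT]; ring
    rw [this, hdet]; ring
  have hq0 : 0 < q := by
    rcases Nat.eq_zero_or_pos q with h | h
    · subst h; simp at hi
    · exact h
  -- sign analysis
  have sgn : ∀ l j : ℤ, |l| < p → 0 ≤ s * (l * f' + j * g') + t * (l * f + j * g) →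
      0 ≤ l * f' + j * g' ∧ 0 ≤ l * f + j * g := by
    intro l j hl h1
    set X := l * f' + j * g' with hX
    set Y := l * f + j * g with hY
    have hl2 : l = g * X - g' * Y := by
      have : (g : ℤ) * X - g' * Y = l * (g * f' - g' * f) := by rw [hX, hY]; ring
      rw [this, hdet]; ring
    have hsp : (0 : ℤ) < s := by exact_mod_cast hs
    have htp : (0 : ℤ) < t := by exact_mod_cast ht
    have hgp : (0 : ℤ) < g := by exact_mod_cast g0
    have hgp' : (0 : ℤ) < g' := by exact_mod_cast g0'
    have hsum' : (p : ℤ) ≤ g + g' := by omega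
    rw [abs_lt] at hl
    constructor
    · by_contra hX0
      push Not at hX0
      have hY0 : 0 < Y := by
        by_contra h2
        push Not at h2
        have h5 := mul_neg_of_pos_of_neg hsp hX0
        have h6 := mul_nonpos_of_nonneg_of_nonpos htp.le h2
        linarith
      have h3 : (g : ℤ) * X ≤ g * (-1) := mul_le_mul_of_nonneg_left (by omega) hgp.le
      have h4 : (g' : ℤ) * 1 ≤ g' * Y := mul_le_mul_of_nonneg_left (by omega) hgp'.le
      omega
    · by_contra hY0
      push Not at hY0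
      have hX0 : 0 < X := by
        by_contra h2
        push Not at h2
        have h5 := mul_neg_of_pos_of_neg htp hY0
        have h6 := mul_nonpos_of_nonneg_of_nonpos hsp.le h2
        linarith
      have h3 : (g' : ℤ) * Y ≤ g' * (-1) := mul_le_mul_of_nonneg_left (by omega) hgp'.le
      have h4 : (g : ℤ) * 1 ≤ g * X := mul_le_mul_of_nonneg_left (by omega) hgp.le
      omega
  have e1 : ∀ l j : ℤ, l * ((f' * s + f * t : ℕ) : ℤ) + j * ((g' * s + g * t : ℕ) : ℤ) =
      s * (l * f' + j * g') + t * (l * f + j * g) := by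
    intro l j; push_cast; ring
  have e2 : ∀ l j : ℤ, l * (D : ℤ) + j * q = S * (l * f' + j * g') + T * (l * f + j * g) := by
    intro l j
    rw [hDe, hqe]; ring
  refine ⟨hp, hq0, by positivity, ?_, ?_, ?_, ?_⟩
  · have : (q : ℤ) - ((g' * s + g * t : ℕ) : ℤ) = g' * (S - s) + g * (T - t) := by
      rw [hqe]; push_cast; ring
    rw [this]
    exact dvd_add (hs2.mul_left _) (ht2.mul_left _)
  · have : (D : ℤ) - ((f' * s + f * t : ℕ) : ℤ) = f' * (S - s) + f * (T - t) := by
      rw [hDe]; push_cast; ring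
    rw [this]
    exact dvd_add (hs2.mul_left _) (ht2.mul_left _)
  · intro l j hl h1
    rw [e1] at h1 ⊢
    rw [e2]
    obtain ⟨hX, hY⟩ := sgn l j hl h1.le
    exact add_le_add (mul_le_mul_of_nonneg_right hSs hX) (mul_le_mul_of_nonneg_right hTt hY)
  · intro l j hl h1
    rw [e1] at h1
    rw [e2]
    obtain ⟨hX, hY⟩ := sgn l j hl h1.ge
    have hsp : (0 : ℤ) < s := by exact_mod_cast hs
    have htp : (0 : ℤ) < t := by exact_mod_cast ht
    have h5 := mul_nonneg hsp.le hX
    have h6 := mul_nonneg htp.le hY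
    have h2 : l * f' + j * g' = 0 := by
      have h7 : (s : ℤ) * (l * f' + j * g') = 0 := by linarith
      exact (mul_eq_zero.1 h7).resolve_left hsp.ne'
    have h3 : l * f + j * g = 0 := by
      have h7 : (t : ℤ) * (l * f + j * g) = 0 := by linarith
      exact (mul_eq_zero.1 h7).resolve_left htp.ne'
    rw [h2, h3]; ring

end Pool.Agent.Helper55.FT
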