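import Pool.Agent.Helper55.FT.Farey

set_option autoImplicit false

/-!
# For fixed `p` only finitely many pairs have to be checked
-/

namespace Pool.Agent.Helper55.FT

open Finset

/-- the side conditions on a pair -/
structure PC (p q D : ℕ) : Prop where
  q0 : q % p ≠ 0
  q1 : q % p ≠ 1
  q2 : q % p ≠ p - 1
  D0 : D % p ≠ 0
  D1 : D ≠ 1

/-- a coefficient pattern of absolute value at least two -/
def Viol (p q D : ℕ) : Prop := ∃ N k : ℤ, 0 ≤ N ∧ N < p * q ∧ 2 ≤ |G p q D N k|

theorem reduce {p : ℕ} (hp : 3 ≤ p)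
    (hchk : ∀ f g f' g' s t : ℕ, 0 < g → g < p → 0 < g' → g' < p → p ≤ g + g' →
      g * f' = g' * f + 1 → 2 * f' ≤ p * g' → 0 < s → (s ≤ p ∨ f = 0 ∧ s ≤ p + 1) →
      0 < t → t ≤ p → PC p (g' * s + g * t) (f' * s + f * t) →
      Viol p (g' * s + g * t) (f' * s + f * t))
    {q D : ℕ} (hpc : PC p q D) (hD2 : 2 * D < p * q)
    (hw : ∀ g, 1 ≤ g → g < p → ¬ q ∣ g * D) : Viol p q D := by
  have hq : 0 < q := by
    rcases Nat.eq_zero_or_pos q with h | h
    · subst h; exact absurd (Nat.zero_mod p) hpc.q0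
    · exact h
  obtain ⟨f, g, f', g', hc⟩ := cell_exists hq D (p - 1) (by omega)
    (fun g h1 h2 => hw g h1 (by omega))
  have hc' := hc
  obtain ⟨g0, g0', gn, gn', hsum, det, lo, hi⟩ := hc'
  have hsum' : p ≤ g + g' := by omega
  -- the upper end is at most `p / 2`
  have hf' : 2 * f' ≤ p * g' := by
    by_contra hcon
    push Not at hcon
    have h1 : 2 * f < g * p := by
      have h2 : f * q * 2 < g * p * q := by
        calc f * q * 2 < g * D * 2 := by omega
          _ = g * (2 * D) := by ring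
          _ ≤ g * (p * q) := Nat.mul_le_mul_left _ hD2.le
          _ = g * p * q := by ring
      have h3 : 2 * f * q < g * p * q := by linarith
      exact lt_of_mul_lt_mul_right h3 (Nat.zero_le _)
    have h2 : g * (p * g' + 1) ≤ g * (2 * f') := Nat.mul_le_mul_left _ hcon
    have h3 : g' * (2 * f + 1) ≤ g' * (g * p) := Nat.mul_le_mul_left _ h1
    have h4 : g * (2 * f') = 2 * (g' * f + 1) := by rw [← det]; ring
    have h5 : g * (p * g' + 1) = g' * (g * p) + g := by ring
    have h6 : g' * (2 * f + 1) = 2 * (g' * f) + g' := by ring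
    omega
  -- the two cell coordinates
  obtain ⟨S, hS⟩ : ∃ S, g * D = f * q + (S + 1) := ⟨g * D - f * q - 1, by omega⟩
  obtain ⟨T, hT⟩ : ∃ T, f' * q = g' * D + (T + 1) := ⟨f' * q - g' * D - 1, by omega⟩
  have hSi : (g * D - f * q : ℤ) = S + 1 := by
    have : (g : ℤ) * D = f * q + (S + 1) := by exact_mod_cast hS
    linarith
  have hTi : (f' * q - g' * D : ℤ) = T + 1 := by
    have : (f' : ℤ) * q = g' * D + (T + 1) := by exact_mod_cast hT
    linarith
  have hp0 : 0 < p := by omega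
  -- the choice of `s`
  obtain ⟨s, hs0, hs1, hs2, hs3, hs4⟩ : ∃ s : ℕ, 0 < s ∧ s ≤ S + 1 ∧ (p : ℤ) ∣ (S + 1 : ℤ) - s ∧
      (s ≤ p ∨ f = 0 ∧ s ≤ p + 1) ∧ (f = 0 → s ≠ 1) := by
    have hm := Nat.mod_lt S hp0
    have hdm := Nat.div_add_mod S p
    by_cases h1 : f = 0 ∧ S % p = 0
    · obtain ⟨hf0, hS0⟩ := h1
      subst hf0
      have hg1 : g = 1 := by
        have : g * f' = 1 := by rw [det]; ring
        exact Nat.eq_one_of_mul_eq_one_right this
      subst hg1
      have hSD : D = S + 1 := by rw [zero_mul, one_mul, zero_add] at hS; exact hS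
      have hSp : S ≠ 0 := by
        intro h2
        exact hpc.D1 (by rw [hSD, h2])
      have hpS : p ≤ S := by
        have h3 : p ∣ S := Nat.dvd_of_mod_eq_zero hS0
        exact Nat.le_of_dvd (by omega) h3
      refine ⟨p + 1, by omega, by omega, ?_, Or.inr ⟨rfl, le_rfl⟩, fun _ => by omega⟩
      have h3 : (p : ℤ) ∣ S := by exact_mod_cast Nat.dvd_of_mod_eq_zero hS0
      have e1 : (S + 1 : ℤ) - ((p + 1 : ℕ) : ℤ) = S - p := by push_cast; ring
      rw [e1]
      exact dvd_sub h3 dvd_rfl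
    · refine ⟨S % p + 1, by omega, by have := Nat.mod_le S p; omega, ⟨(S / p : ℕ), ?_⟩,
        Or.inl (by omega), fun hf h2 => h1 ⟨hf, by omega⟩⟩
      push_cast
      have : (p : ℤ) * (S / p : ℕ) + (S % p : ℕ) = S := by exact_mod_cast hdm
      push_cast at this
      linarith
  obtain ⟨t, ht0, ht1, ht2, ht3⟩ : ∃ t : ℕ, 0 < t ∧ t ≤ T + 1 ∧ (p : ℤ) ∣ (T + 1 : ℤ) - t ∧
      t ≤ p := by
    have hm := Nat.mod_lt T hp0
    have hdm := Nat.div_add_mod T p
    refine ⟨T % p + 1, by omega, by have := Nat.mod_le T p; omega, ⟨(T / p : ℕ), ?_⟩, by omega⟩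
    push_cast
    have : (p : ℤ) * (T / p : ℕ) + (T % p : ℕ) = T := by exact_mod_cast hdm
    push_cast at this
    linarith
  have hdm := cell_dm hp0 hc hs0 ht0 (by omega) (by omega) (by rw [hSi]; exact hs2)
    (by rw [hTi]; exact ht2)
  have hqm : q % p = (g' * s + g * t) % p := by
    have h1 := hdm.hqq
    exact ((Nat.modEq_iff_dvd).2 h1).symm
  have hDm : D % p = (f' * s + f * t) % p := by
    have h1 := hdm.hDD
    exact ((Nat.modEq_iff_dvd).2 h1).symm
  have hpc' : PC p (g' * s + g * t) (f' * s + f * t) := by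
    refine ⟨by rw [← hqm]; exact hpc.q0, by rw [← hqm]; exact hpc.q1, by rw [← hqm]; exact hpc.q2,
      by rw [← hDm]; exact hpc.D0, ?_⟩
    intro h1
    rcases Nat.eq_zero_or_pos f with hf | hf
    · subst hf
      have h2 : f' * s = 1 := by rw [zero_mul, add_zero] at h1; exact h1
      exact hs4 rfl (Nat.eq_one_of_mul_eq_one_left h2)
    · have hf'0 : 0 < f' := by
        rcases Nat.eq_zero_or_pos f' with h3 | h3
        · subst h3; rw [mul_zero] at det; omega
        · exact h3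
      have h3 := Nat.mul_le_mul hf'0 hs0
      have h4 := Nat.mul_le_mul hf ht0
      omega
  obtain ⟨N', k', -, -, hv⟩ := hchk f g f' g' s t g0 (by omega) g0' (by omega) hsum' det hf' hs0 hs3
    ht0 ht3 hpc'
  obtain ⟨N, k, hN0, hN1, he⟩ := dom hdm (N' := N') (k' := k') (by
    intro h0
    rw [h0] at hv
    norm_num at hv)
  exact ⟨N, k, hN0, hN1, by rw [he]; exact hv⟩

end Pool.Agent.Helper55.FT
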