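import Pool.Agent.Helper55.FT.Flat
import Pool.Agent.Helper55.FT.Reduce

set_option autoImplicit false

/-!
# Packed evaluation of the progression sums
-/

namespace Pool.Agent.Helper55.FT

open Finset
open Pool.Agent.Helper8.Tern (ee)

/-- Rotation of a packed periodic function, one step. -/
theorem rot_one {M : ℕ} (f : ℤ → ℤ) (hf : ∀ y, f (y + M) = f y) :
    ((8 : ℤ) ^ M - 1) ∣ ∑ k ∈ range M, f ((k : ℤ) - 1) * 8 ^ k - 8 * ∑ k ∈ range M, f k * 8 ^ k := by
  have h1 : 8 * ∑ k ∈ range M, f k * 8 ^ k = ∑ k ∈ range M, f (((k + 1 : ℕ) : ℤ) - 1) * 8 ^ (k + 1) := by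
    rw [mul_sum]
    refine sum_congr rfl fun k _ => ?_
    push_cast
    rw [add_sub_cancel_right]
    ring
  have h2 := sum_range_succ' (fun k : ℕ => f ((k : ℤ) - 1) * (8 : ℤ) ^ k) M
  have h3 := sum_range_succ (fun k : ℕ => f ((k : ℤ) - 1) * (8 : ℤ) ^ k) M
  have h4 : f ((M : ℤ) - 1) = f (((0 : ℕ) : ℤ) - 1) := by
    rw [← hf (((0 : ℕ) : ℤ) - 1), show ((0 : ℕ) : ℤ) - 1 + M = M - 1 by push_cast; ring]
  refine ⟨-f (((0 : ℕ) : ℤ) - 1), ?_⟩
  rw [h1]
  rw [h2] at h3
  rw [h4, pow_zero, mul_one] at h3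
  linear_combination -h3

theorem rot {M : ℕ} (f : ℤ → ℤ) (hf : ∀ y, f (y + M) = f y) (s : ℕ) :
    ((8 : ℤ) ^ M - 1) ∣ ∑ k ∈ range M, f ((k : ℤ) - s) * 8 ^ k -
      8 ^ s * ∑ k ∈ range M, f k * 8 ^ k := by
  induction s with
  | zero => simp
  | succ s ih =>
    have h1 := rot_one (M := M) (fun y => f (y - s)) (fun y => by
      rw [show y + (M : ℤ) - s = (y - s) + M by ring, hf])
    have e1 : ∑ k ∈ range M, f ((k : ℤ) - (s + 1 : ℕ)) * 8 ^ k =
        ∑ k ∈ range M, f ((k : ℤ) - 1 - s) * 8 ^ k := by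
      refine sum_congr rfl fun k _ => ?_
      congr 2
      push_cast
      ring
    rw [e1]
    have e2 : ∑ k ∈ range M, f ((k : ℤ) - 1 - s) * 8 ^ k - 8 ^ (s + 1) * ∑ k ∈ range M, f k * 8 ^ k =
        (∑ k ∈ range M, f ((k : ℤ) - 1 - s) * 8 ^ k - 8 * ∑ k ∈ range M, f ((k : ℤ) - s) * 8 ^ k) +
        8 * (∑ k ∈ range M, f ((k : ℤ) - s) * 8 ^ k - 8 ^ s * ∑ k ∈ range M, f k * 8 ^ k) := by
      rw [pow_succ]; ring
    rw [e2]
    exact dvd_add h1 (ih.mul_left _)

theorem pow_mod_dvd (M a : ℕ) : ((8 : ℤ) ^ M - 1) ∣ 8 ^ a - 8 ^ (a % M) := by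
  have h1 : (8 : ℤ) ^ a = 8 ^ (a % M) * (8 ^ M) ^ (a / M) := by
    rw [← pow_mul, ← pow_add, Nat.mod_add_div]
  rw [h1]
  have h2 : (8 : ℤ) ^ (a % M) * (8 ^ M) ^ (a / M) - 8 ^ (a % M) =
      8 ^ (a % M) * ((8 ^ M) ^ (a / M) - 1) := by ring
  rw [h2]
  exact (by simpa using sub_dvd_pow_sub_pow ((8 : ℤ) ^ M) 1 (a / M) : _ ∣ ((8 : ℤ) ^ M) ^ (a / M) - 1).mul_left _

/-- the packed value of the truncated coefficient sequence -/
def beta (p q N : ℕ) : ℤ := ∑ k ∈ range (p * q), bv p q N k * 8 ^ k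

theorem G_packed (p q D N : ℕ) : ((8 : ℤ) ^ (p * q) - 1) ∣
    ∑ k ∈ range (p * q), G p q D N k * 8 ^ k -
      beta p q N * (∑ e ∈ range p, 8 ^ ((e * D) % (p * q))) * (1 - 8 ^ ((q * D) % (p * q))) := by
  set M := p * q with hM
  set Z : ℤ := (8 : ℤ) ^ M - 1 with hZ
  have hper : ∀ y : ℤ, bv p q N (y + M) = bv p q N y := by
    intro y
    exact bv_congr (by rw [add_sub_cancel_left])
  have h1 : ∑ k ∈ range M, G p q D N k * 8 ^ k =
      ∑ e ∈ range p, (∑ k ∈ range M, bv p q N ((k : ℤ) - (e * D : ℕ)) * 8 ^ k -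
        ∑ k ∈ range M, bv p q N ((k : ℤ) - (e * D + q * D : ℕ)) * 8 ^ k) := by
    unfold G
    simp only [sum_mul]
    rw [sum_comm]
    refine sum_congr rfl fun e _ => ?_
    rw [← sum_sub_distrib]
    refine sum_congr rfl fun k _ => ?_
    push_cast
    rw [sub_mul, sub_add_eq_sub_sub]
  have h2 : beta p q N * (∑ e ∈ range p, 8 ^ ((e * D) % M)) * (1 - 8 ^ ((q * D) % M)) =
      ∑ e ∈ range p, (8 ^ ((e * D) % M) * beta p q N -
        8 ^ ((e * D) % M) * 8 ^ ((q * D) % M) * beta p q N) := by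
    rw [mul_sum, sum_mul]
    refine sum_congr rfl fun e _ => ?_
    ring
  rw [h1, h2, ← sum_sub_distrib]
  apply dvd_sum
  intro e _
  have r1 := rot (bv p q N) hper (e * D)
  have r2 := rot (bv p q N) hper (e * D + q * D)
  have m1 := pow_mod_dvd M (e * D)
  have m2 := pow_mod_dvd M (q * D)
  have hb : ∑ k ∈ range M, bv p q N k * 8 ^ k = beta p q N := rfl
  rw [hb] at r1 r2
  rw [← hZ] at r1 r2 m1 m2
  obtain ⟨a1, ha1⟩ := r1
  obtain ⟨a2, ha2⟩ := r2
  obtain ⟨a3, ha3⟩ := m1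
  obtain ⟨a4, ha4⟩ := m2
  refine ⟨a1 - a2 + a3 * beta p q N - a3 * 8 ^ (q * D) * beta p q N -
    8 ^ ((e * D) % M) * a4 * beta p q N, ?_⟩
  rw [pow_add] at ha2
  linear_combination ha1 - ha2 + beta p q N * ha3 - 8 ^ (q * D) * beta p q N * ha3 -
    8 ^ ((e * D) % M) * beta p q N * ha4

/-- the packed indicator of the semigroup -/
def SS (p q N : ℕ) : ℕ :=
  ∑ j ∈ range (N / q + 1), (8 ^ (p * ((N - j * q) / p + 1)) - 1) / (8 ^ p - 1) * 8 ^ (j * q)

/-- number of `j` with `p ∣ N - j q` -/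
def cnt (p q N : ℕ) : ℕ := ∑ j ∈ range (N / q + 1), if (N - j * q) % p = 0 then 1 else 0

theorem geom_eight (p m : ℕ) (hp : 0 < p) :
    (8 ^ (p * m) - 1) / (8 ^ p - 1) = ∑ i ∈ range m, 8 ^ (i * p) := by
  have h8 : 1 < 8 ^ p := Nat.one_lt_pow hp.ne' (by norm_num)
  have h1 : (∑ i ∈ range m, 8 ^ (i * p)) * (8 ^ p - 1) = 8 ^ (p * m) - 1 := by
    have h2 := Nat.geomSum_eq (m := 8 ^ p) (by omega) m
    have h3 : ∑ i ∈ range m, 8 ^ (i * p) = ∑ i ∈ range m, (8 ^ p) ^ i := by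
      refine sum_congr rfl fun i _ => ?_
      rw [← pow_mul, mul_comm]
    rw [h3, h2, Nat.div_mul_cancel, ← pow_mul]
    have := Nat.sub_one_dvd_pow_sub_one  (8 ^ p) m
    exact this
  rw [← h1, Nat.mul_div_cancel]
  omega

theorem sum_class {p q N : ℕ} (hp : 0 < p) (l : ℕ) :
    ∑ y ∈ range (N + 1), (if l * q ≤ y ∧ p ∣ y - l * q then (8 : ℤ) ^ y else 0) =
      if l * q ≤ N then ∑ i ∈ range ((N - l * q) / p + 1), (8 : ℤ) ^ (i * p) * 8 ^ (l * q) else 0 := by
  by_cases h : l * q ≤ N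
  · rw [if_pos h, ← sum_filter]
    symm
    refine sum_bij (fun i _ => i * p + l * q) ?_ ?_ ?_ ?_
    · intro i hi
      rw [mem_range] at hi
      rw [mem_filter, mem_range]
      have h1 : i * p ≤ N - l * q := by
        have h2 : i ≤ (N - l * q) / p := by omega
        exact (Nat.le_div_iff_mul_le hp).1 h2
      refine ⟨by omega, by omega, ?_⟩
      rw [Nat.add_sub_cancel]
      exact dvd_mul_left _ _
    · intro i _ j _ hij
      have : i * p = j * p := by omega
      exact Nat.eq_of_mul_eq_mul_right hp this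
    · intro y hy
      rw [mem_filter, mem_range] at hy
      obtain ⟨hy1, hy2, w, hw⟩ := hy
      refine ⟨w, ?_, by rw [mul_comm]; omega⟩
      rw [mem_range]
      have : w ≤ (N - l * q) / p := by
        rw [Nat.le_div_iff_mul_le hp, mul_comm]
        omega
      omega
    · intro i _
      rw [pow_add]
  · rw [if_neg h]
    apply sum_eq_zero
    intro y hy
    rw [mem_range] at hy
    rw [if_neg]
    rintro ⟨h1, -⟩
    omega

theorem sum_ee {p q N : ℕ} (hp : 0 < p) (hq : 0 < q) (hN : N < p * q) :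
    ∑ y ∈ range (N + 1), ee p q y * (8 : ℤ) ^ y = SS p q N := by
  unfold ee SS
  simp only [geom_eight p _ hp]
  simp only [sum_mul, ite_mul, one_mul, zero_mul]
  rw [sum_comm]
  simp only [sum_class hp]
  have hsub : range (N / q + 1) ⊆ range p := by
    rw [range_subset_range]
    have : N / q < p := (Nat.div_lt_iff_lt_mul hq).2 hN
    omega
  rw [← sum_subset hsub]
  · push_cast
    refine sum_congr rfl fun l hl => ?_
    rw [mem_range] at hl
    have h1 : l * q ≤ N := (Nat.le_div_iff_mul_le hq).1 (by omega)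
    rw [if_pos h1]
  · intro l _ hl
    rw [mem_range, not_lt] at hl
    rw [if_neg]
    intro h1
    have : l ≤ N / q := (Nat.le_div_iff_mul_le hq).2 h1
    omega

theorem ee_cnt {p q N : ℕ} (hq : 0 < q) (hN : N < p * q) :
    ee p q N = cnt p q N := by
  unfold ee cnt
  have hsub : range (N / q + 1) ⊆ range p := by
    rw [range_subset_range]
    have : N / q < p := (Nat.div_lt_iff_lt_mul hq).2 hN
    omega
  rw [← sum_subset hsub]
  · push_cast
    refine sum_congr rfl fun l hl => ?_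
    rw [mem_range] at hl
    have h1 : l * q ≤ N := (Nat.le_div_iff_mul_le hq).1 (by omega)
    simp only [h1, true_and, Nat.dvd_iff_mod_eq_zero]
  · intro l _ hl
    rw [mem_range, not_lt] at hl
    rw [if_neg]
    rintro ⟨h1, -⟩
    have : l ≤ N / q := (Nat.le_div_iff_mul_le hq).2 h1
    omega

theorem beta_eq {p q N : ℕ} (hp : 2 ≤ p) (hq : 0 < q) (hN : N < p * q) :
    beta p q N = cnt p q N * 8 ^ (N + 1) - 7 * SS p q N := by
  have h1 : beta p q N = ∑ y ∈ range (N + 1), av p q y * (8 : ℤ) ^ y := by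
    unfold beta
    have hsub : range (N + 1) ⊆ range (p * q) := by
      rw [range_subset_range]; omega
    rw [← sum_subset hsub]
    · refine sum_congr rfl fun k hk => ?_
      rw [mem_range] at hk
      unfold bv
      have : (k : ℤ) % (p * q) = k := Int.emod_eq_of_lt (by positivity) (by
        have : k < p * q := by omega
        exact_mod_cast this)
      rw [this, if_pos (by omega)]
    · intro k hk1 hk
      rw [mem_range] at hk1 hk
      unfold bv
      have : (k : ℤ) % (p * q) = k := Int.emod_eq_of_lt (by positivity) (by exact_mod_cast hk1)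
      rw [this, if_neg (by omega), zero_mul]
  rw [h1]
  have h2 : ∀ y : ℕ, av p q y = ee p q y - if y = 0 then 0 else ee p q (y - 1) :=
    fun y => av_nat hp y
  simp only [h2, sub_mul, sum_sub_distrib]
  rw [sum_ee (by omega) hq hN, sum_range_succ']
  simp only [Nat.succ_ne_zero, if_false, Nat.add_sub_cancel, if_true, zero_mul, add_zero]
  have h3 : ∑ y ∈ range N, ee p q y * (8 : ℤ) ^ (y + 1) =
      8 * (SS p q N - ee p q N * 8 ^ N) := by
    rw [← sum_ee (by omega) hq hN, sum_range_succ, add_sub_cancel_right, mul_sum]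
    refine sum_congr rfl fun y _ => ?_
    ring
  rw [h3, ee_cnt hq hN]
  ring

end Pool.Agent.Helper55.FT
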