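import Pool.Agent.Helper55.FT.Tab

set_option autoImplicit false

/-!
# Cell checks
-/

namespace Pool.Agent.Helper55.FT

set_option maxRecDepth 100000
set_option linter.defProp false

def c_11_1_10_5 : cellOK T11 11 5 1 ((10 * 5 + 1) / 1) 10 = true := by
  decide +kernel
def c_11_1_10_4 : cellOK T11 11 4 1 ((10 * 4 + 1) / 1) 10 = true := by
  decide +kernel
def c_11_1_10_3 : cellOK T11 11 3 1 ((10 * 3 + 1) / 1) 10 = true := by
  decide +kernel
def c_11_1_10_2 : cellOK T11 11 2 1 ((10 * 2 + 1) / 1) 10 = true := by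
  decide +kernel
def c_11_1_10_1 : cellOK T11 11 1 1 ((10 * 1 + 1) / 1) 10 = true := by
  decide +kernel
def c_11_1_10_0 : cellOK T11 11 0 1 ((10 * 0 + 1) / 1) 10 = true := by
  decide +kernel
theorem gg_11_1_10 : GG T11 11 1 10 := gg_of (l := [5, 4, 3, 2, 1, 0]) (by decide +kernel)
  ⟨c_11_1_10_5, c_11_1_10_4, c_11_1_10_3, c_11_1_10_2, c_11_1_10_1, c_11_1_10_0, trivial⟩

def c_11_2_9_9 : cellOK T11 11 9 2 ((9 * 9 + 1) / 2) 9 = true := by
  decide +kernel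
def c_11_2_9_7 : cellOK T11 11 7 2 ((9 * 7 + 1) / 2) 9 = true := by
  decide +kernel
def c_11_2_9_5 : cellOK T11 11 5 2 ((9 * 5 + 1) / 2) 9 = true := by
  decide +kernel
def c_11_2_9_3 : cellOK T11 11 3 2 ((9 * 3 + 1) / 2) 9 = true := by
  decide +kernel
def c_11_2_9_1 : cellOK T11 11 1 2 ((9 * 1 + 1) / 2) 9 = true := by
  decide +kernel
theorem gg_11_2_9 : GG T11 11 2 9 := gg_of (l := [9, 7, 5, 3, 1]) (by decide +kernel)
  ⟨c_11_2_9_9, c_11_2_9_7, c_11_2_9_5, c_11_2_9_3, c_11_2_9_1, trivial⟩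

theorem gg_11_2_10 : GG T11 11 2 10 := gg_of (l := []) (by decide +kernel)
  trivial

def c_11_3_8_16 : cellOK T11 11 16 3 ((8 * 16 + 1) / 3) 8 = true := by
  decide +kernel
def c_11_3_8_13 : cellOK T11 11 13 3 ((8 * 13 + 1) / 3) 8 = true := by
  decide +kernel
def c_11_3_8_10 : cellOK T11 11 10 3 ((8 * 10 + 1) / 3) 8 = true := by
  decide +kernel
def c_11_3_8_7 : cellOK T11 11 7 3 ((8 * 7 + 1) / 3) 8 = true := by
  decide +kernel
def c_11_3_8_4 : cellOK T11 11 4 3 ((8 * 4 + 1) / 3) 8 = true := by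
  decide +kernel
def c_11_3_8_1 : cellOK T11 11 1 3 ((8 * 1 + 1) / 3) 8 = true := by
  decide +kernel
theorem gg_11_3_8 : GG T11 11 3 8 := gg_of (l := [16, 13, 10, 7, 4, 1]) (by decide +kernel)
  ⟨c_11_3_8_16, c_11_3_8_13, c_11_3_8_10, c_11_3_8_7, c_11_3_8_4, c_11_3_8_1, trivial⟩

theorem gg_11_3_9 : GG T11 11 3 9 := gg_of (l := []) (by decide +kernel)
  trivial

def c_11_3_10_14 : cellOK T11 11 14 3 ((10 * 14 + 1) / 3) 10 = true := by
  decide +kernel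
def c_11_3_10_11 : cellOK T11 11 11 3 ((10 * 11 + 1) / 3) 10 = true := by
  decide +kernel
def c_11_3_10_8 : cellOK T11 11 8 3 ((10 * 8 + 1) / 3) 10 = true := by
  decide +kernel
def c_11_3_10_5 : cellOK T11 11 5 3 ((10 * 5 + 1) / 3) 10 = true := by
  decide +kernel
def c_11_3_10_2 : cellOK T11 11 2 3 ((10 * 2 + 1) / 3) 10 = true := by
  decide +kernel
theorem gg_11_3_10 : GG T11 11 3 10 := gg_of (l := [14, 11, 8, 5, 2]) (by decide +kernel)
  ⟨c_11_3_10_14, c_11_3_10_11, c_11_3_10_8, c_11_3_10_5, c_11_3_10_2, trivial⟩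

def c_11_4_7_21 : cellOK T11 11 21 4 ((7 * 21 + 1) / 4) 7 = true := by
  decide +kernel
def c_11_4_7_17 : cellOK T11 11 17 4 ((7 * 17 + 1) / 4) 7 = true := by
  decide +kernel
def c_11_4_7_13 : cellOK T11 11 13 4 ((7 * 13 + 1) / 4) 7 = true := by
  decide +kernel
def c_11_4_7_9 : cellOK T11 11 9 4 ((7 * 9 + 1) / 4) 7 = true := by
  decide +kernel
def c_11_4_7_5 : cellOK T11 11 5 4 ((7 * 5 + 1) / 4) 7 = true := by
  decide +kernel
def c_11_4_7_1 : cellOK T11 11 1 4 ((7 * 1 + 1) / 4) 7 = true := by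
  decide +kernel
theorem gg_11_4_7 : GG T11 11 4 7 := gg_of (l := [21, 17, 13, 9, 5, 1]) (by decide +kernel)
  ⟨c_11_4_7_21, c_11_4_7_17, c_11_4_7_13, c_11_4_7_9, c_11_4_7_5, c_11_4_7_1, trivial⟩

theorem gg_11_4_8 : GG T11 11 4 8 := gg_of (l := []) (by decide +kernel)
  trivial

def c_11_4_9_19 : cellOK T11 11 19 4 ((9 * 19 + 1) / 4) 9 = true := by
  decide +kernel
def c_11_4_9_15 : cellOK T11 11 15 4 ((9 * 15 + 1) / 4) 9 = true := by
  decide +kernel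
def c_11_4_9_11 : cellOK T11 11 11 4 ((9 * 11 + 1) / 4) 9 = true := by
  decide +kernel
def c_11_4_9_7 : cellOK T11 11 7 4 ((9 * 7 + 1) / 4) 9 = true := by
  decide +kernel
def c_11_4_9_3 : cellOK T11 11 3 4 ((9 * 3 + 1) / 4) 9 = true := by
  decide +kernel
theorem gg_11_4_9 : GG T11 11 4 9 := gg_of (l := [19, 15, 11, 7, 3]) (by decide +kernel)
  ⟨c_11_4_9_19, c_11_4_9_15, c_11_4_9_11, c_11_4_9_7, c_11_4_9_3, trivial⟩

theorem gg_11_4_10 : GG T11 11 4 10 := gg_of (l := []) (by decide +kernel)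
  trivial

def c_11_5_6_24 : cellOK T11 11 24 5 ((6 * 24 + 1) / 5) 6 = true := by
  decide +kernel
def c_11_5_6_19 : cellOK T11 11 19 5 ((6 * 19 + 1) / 5) 6 = true := by
  decide +kernel
def c_11_5_6_14 : cellOK T11 11 14 5 ((6 * 14 + 1) / 5) 6 = true := by
  decide +kernel
def c_11_5_6_9 : cellOK T11 11 9 5 ((6 * 9 + 1) / 5) 6 = true := by
  decide +kernel
def c_11_5_6_4 : cellOK T11 11 4 5 ((6 * 4 + 1) / 5) 6 = true := by
  decide +kernel
theorem gg_11_5_6 : GG T11 11 5 6 := gg_of (l := [24, 19, 14, 9, 4]) (by decide +kernel)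
  ⟨c_11_5_6_24, c_11_5_6_19, c_11_5_6_14, c_11_5_6_9, c_11_5_6_4, trivial⟩

def c_11_5_7_27 : cellOK T11 11 27 5 ((7 * 27 + 1) / 5) 7 = true := by
  decide +kernel
def c_11_5_7_22 : cellOK T11 11 22 5 ((7 * 22 + 1) / 5) 7 = true := by
  decide +kernel
def c_11_5_7_17 : cellOK T11 11 17 5 ((7 * 17 + 1) / 5) 7 = true := by
  decide +kernel
def c_11_5_7_12 : cellOK T11 11 12 5 ((7 * 12 + 1) / 5) 7 = true := by
  decide +kernel
def c_11_5_7_7 : cellOK T11 11 7 5 ((7 * 7 + 1) / 5) 7 = true := by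
  decide +kernel
def c_11_5_7_2 : cellOK T11 11 2 5 ((7 * 2 + 1) / 5) 7 = true := by
  decide +kernel
theorem gg_11_5_7 : GG T11 11 5 7 := gg_of (l := [27, 22, 17, 12, 7, 2]) (by decide +kernel)
  ⟨c_11_5_7_27, c_11_5_7_22, c_11_5_7_17, c_11_5_7_12, c_11_5_7_7, c_11_5_7_2, trivial⟩

def c_11_5_8_23 : cellOK T11 11 23 5 ((8 * 23 + 1) / 5) 8 = true := by
  decide +kernel
def c_11_5_8_18 : cellOK T11 11 18 5 ((8 * 18 + 1) / 5) 8 = true := by
  decide +kernel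
def c_11_5_8_13 : cellOK T11 11 13 5 ((8 * 13 + 1) / 5) 8 = true := by
  decide +kernel
def c_11_5_8_8 : cellOK T11 11 8 5 ((8 * 8 + 1) / 5) 8 = true := by
  decide +kernel
def c_11_5_8_3 : cellOK T11 11 3 5 ((8 * 3 + 1) / 5) 8 = true := by
  decide +kernel
theorem gg_11_5_8 : GG T11 11 5 8 := gg_of (l := [23, 18, 13, 8, 3]) (by decide +kernel)
  ⟨c_11_5_8_23, c_11_5_8_18, c_11_5_8_13, c_11_5_8_8, c_11_5_8_3, trivial⟩

def c_11_5_9_26 : cellOK T11 11 26 5 ((9 * 26 + 1) / 5) 9 = true := by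
  decide +kernel
def c_11_5_9_21 : cellOK T11 11 21 5 ((9 * 21 + 1) / 5) 9 = true := by
  decide +kernel
def c_11_5_9_16 : cellOK T11 11 16 5 ((9 * 16 + 1) / 5) 9 = true := by
  decide +kernel
def c_11_5_9_11 : cellOK T11 11 11 5 ((9 * 11 + 1) / 5) 9 = true := by
  decide +kernel
def c_11_5_9_6 : cellOK T11 11 6 5 ((9 * 6 + 1) / 5) 9 = true := by
  decide +kernel
def c_11_5_9_1 : cellOK T11 11 1 5 ((9 * 1 + 1) / 5) 9 = true := by
  decide +kernel
theorem gg_11_5_9 : GG T11 11 5 9 := gg_of (l := [26, 21, 16, 11, 6, 1]) (by decide +kernel)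
  ⟨c_11_5_9_26, c_11_5_9_21, c_11_5_9_16, c_11_5_9_11, c_11_5_9_6, c_11_5_9_1, trivial⟩

theorem gg_11_5_10 : GG T11 11 5 10 := gg_of (l := []) (by decide +kernel)
  trivial

def c_11_6_5_31 : cellOK T11 11 31 6 ((5 * 31 + 1) / 6) 5 = true := by
  decide +kernel
def c_11_6_5_25 : cellOK T11 11 25 6 ((5 * 25 + 1) / 6) 5 = true := by
  decide +kernel
def c_11_6_5_19 : cellOK T11 11 19 6 ((5 * 19 + 1) / 6) 5 = true := by
  decide +kernel
def c_11_6_5_13 : cellOK T11 11 13 6 ((5 * 13 + 1) / 6) 5 = true := by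
  decide +kernel
def c_11_6_5_7 : cellOK T11 11 7 6 ((5 * 7 + 1) / 6) 5 = true := by
  decide +kernel
def c_11_6_5_1 : cellOK T11 11 1 6 ((5 * 1 + 1) / 6) 5 = true := by
  decide +kernel
theorem gg_11_6_5 : GG T11 11 6 5 := gg_of (l := [31, 25, 19, 13, 7, 1]) (by decide +kernel)
  ⟨c_11_6_5_31, c_11_6_5_25, c_11_6_5_19, c_11_6_5_13, c_11_6_5_7, c_11_6_5_1, trivial⟩

theorem gg_11_6_6 : GG T11 11 6 6 := gg_of (l := []) (by decide +kernel)
  trivial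

def c_11_6_7_29 : cellOK T11 11 29 6 ((7 * 29 + 1) / 6) 7 = true := by
  decide +kernel
def c_11_6_7_23 : cellOK T11 11 23 6 ((7 * 23 + 1) / 6) 7 = true := by
  decide +kernel
def c_11_6_7_17 : cellOK T11 11 17 6 ((7 * 17 + 1) / 6) 7 = true := by
  decide +kernel
def c_11_6_7_11 : cellOK T11 11 11 6 ((7 * 11 + 1) / 6) 7 = true := by
  decide +kernel
def c_11_6_7_5 : cellOK T11 11 5 6 ((7 * 5 + 1) / 6) 7 = true := by
  decide +kernel
theorem gg_11_6_7 : GG T11 11 6 7 := gg_of (l := [29, 23, 17, 11, 5]) (by decide +kernel)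
  ⟨c_11_6_7_29, c_11_6_7_23, c_11_6_7_17, c_11_6_7_11, c_11_6_7_5, trivial⟩

theorem gg_11_6_8 : GG T11 11 6 8 := gg_of (l := []) (by decide +kernel)
  trivial

theorem gg_11_6_9 : GG T11 11 6 9 := gg_of (l := []) (by decide +kernel)
  trivial

theorem gg_11_6_10 : GG T11 11 6 10 := gg_of (l := []) (by decide +kernel)
  trivial

def c_11_7_4_33 : cellOK T11 11 33 7 ((4 * 33 + 1) / 7) 4 = true := by
  decide +kernel
def c_11_7_4_26 : cellOK T11 11 26 7 ((4 * 26 + 1) / 7) 4 = true := by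
  decide +kernel
def c_11_7_4_19 : cellOK T11 11 19 7 ((4 * 19 + 1) / 7) 4 = true := by
  decide +kernel
def c_11_7_4_12 : cellOK T11 11 12 7 ((4 * 12 + 1) / 7) 4 = true := by
  decide +kernel
def c_11_7_4_5 : cellOK T11 11 5 7 ((4 * 5 + 1) / 7) 4 = true := by
  decide +kernel
theorem gg_11_7_4 : GG T11 11 7 4 := gg_of (l := [33, 26, 19, 12, 5]) (by decide +kernel)
  ⟨c_11_7_4_33, c_11_7_4_26, c_11_7_4_19, c_11_7_4_12, c_11_7_4_5, trivial⟩

def c_11_7_5_32 : cellOK T11 11 32 7 ((5 * 32 + 1) / 7) 5 = true := by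
  decide +kernel
def c_11_7_5_25 : cellOK T11 11 25 7 ((5 * 25 + 1) / 7) 5 = true := by
  decide +kernel
def c_11_7_5_18 : cellOK T11 11 18 7 ((5 * 18 + 1) / 7) 5 = true := by
  decide +kernel
def c_11_7_5_11 : cellOK T11 11 11 7 ((5 * 11 + 1) / 7) 5 = true := by
  decide +kernel
def c_11_7_5_4 : cellOK T11 11 4 7 ((5 * 4 + 1) / 7) 5 = true := by
  decide +kernel
theorem gg_11_7_5 : GG T11 11 7 5 := gg_of (l := [32, 25, 18, 11, 4]) (by decide +kernel)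
  ⟨c_11_7_5_32, c_11_7_5_25, c_11_7_5_18, c_11_7_5_11, c_11_7_5_4, trivial⟩

def c_11_7_6_36 : cellOK T11 11 36 7 ((6 * 36 + 1) / 7) 6 = true := by
  decide +kernel
def c_11_7_6_29 : cellOK T11 11 29 7 ((6 * 29 + 1) / 7) 6 = true := by
  decide +kernel
def c_11_7_6_22 : cellOK T11 11 22 7 ((6 * 22 + 1) / 7) 6 = true := by
  decide +kernel
def c_11_7_6_15 : cellOK T11 11 15 7 ((6 * 15 + 1) / 7) 6 = true := by
  decide +kernel
def c_11_7_6_8 : cellOK T11 11 8 7 ((6 * 8 + 1) / 7) 6 = true := by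
  decide +kernel
def c_11_7_6_1 : cellOK T11 11 1 7 ((6 * 1 + 1) / 7) 6 = true := by
  decide +kernel
theorem gg_11_7_6 : GG T11 11 7 6 := gg_of (l := [36, 29, 22, 15, 8, 1]) (by decide +kernel)
  ⟨c_11_7_6_36, c_11_7_6_29, c_11_7_6_22, c_11_7_6_15, c_11_7_6_8, c_11_7_6_1, trivial⟩

theorem gg_11_7_7 : GG T11 11 7 7 := gg_of (l := []) (by decide +kernel)
  trivial

def c_11_7_8_34 : cellOK T11 11 34 7 ((8 * 34 + 1) / 7) 8 = true := by
  decide +kernel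
def c_11_7_8_27 : cellOK T11 11 27 7 ((8 * 27 + 1) / 7) 8 = true := by
  decide +kernel
def c_11_7_8_20 : cellOK T11 11 20 7 ((8 * 20 + 1) / 7) 8 = true := by
  decide +kernel
def c_11_7_8_13 : cellOK T11 11 13 7 ((8 * 13 + 1) / 7) 8 = true := by
  decide +kernel
def c_11_7_8_6 : cellOK T11 11 6 7 ((8 * 6 + 1) / 7) 8 = true := by
  decide +kernel
theorem gg_11_7_8 : GG T11 11 7 8 := gg_of (l := [34, 27, 20, 13, 6]) (by decide +kernel)
  ⟨c_11_7_8_34, c_11_7_8_27, c_11_7_8_20, c_11_7_8_13, c_11_7_8_6, trivial⟩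

def c_11_7_9_38 : cellOK T11 11 38 7 ((9 * 38 + 1) / 7) 9 = true := by
  decide +kernel
def c_11_7_9_31 : cellOK T11 11 31 7 ((9 * 31 + 1) / 7) 9 = true := by
  decide +kernel
def c_11_7_9_24 : cellOK T11 11 24 7 ((9 * 24 + 1) / 7) 9 = true := by
  decide +kernel
def c_11_7_9_17 : cellOK T11 11 17 7 ((9 * 17 + 1) / 7) 9 = true := by
  decide +kernel
def c_11_7_9_10 : cellOK T11 11 10 7 ((9 * 10 + 1) / 7) 9 = true := by
  decide +kernel
def c_11_7_9_3 : cellOK T11 11 3 7 ((9 * 3 + 1) / 7) 9 = true := by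
  decide +kernel
theorem gg_11_7_9 : GG T11 11 7 9 := gg_of (l := [38, 31, 24, 17, 10, 3]) (by decide +kernel)
  ⟨c_11_7_9_38, c_11_7_9_31, c_11_7_9_24, c_11_7_9_17, c_11_7_9_10, c_11_7_9_3, trivial⟩

end Pool.Agent.Helper55.FT
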