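import Pool.Agent.Helper55.FT.Tab

set_option autoImplicit false

/-!
# Cell checks
-/

namespace Pool.Agent.Helper55.FT

set_option maxRecDepth 100000
set_option linter.defProp false

def c_11_7_10_37 : cellOK T11 11 37 7 ((10 * 37 + 1) / 7) 10 = true := by
  decide +kernel
def c_11_7_10_30 : cellOK T11 11 30 7 ((10 * 30 + 1) / 7) 10 = true := by
  decide +kernel
def c_11_7_10_23 : cellOK T11 11 23 7 ((10 * 23 + 1) / 7) 10 = true := by
  decide +kernel
def c_11_7_10_16 : cellOK T11 11 16 7 ((10 * 16 + 1) / 7) 10 = true := by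
  decide +kernel
def c_11_7_10_9 : cellOK T11 11 9 7 ((10 * 9 + 1) / 7) 10 = true := by
  decide +kernel
def c_11_7_10_2 : cellOK T11 11 2 7 ((10 * 2 + 1) / 7) 10 = true := by
  decide +kernel
theorem gg_11_7_10 : GG T11 11 7 10 := gg_of (l := [37, 30, 23, 16, 9, 2]) (by decide +kernel)
  ⟨c_11_7_10_37, c_11_7_10_30, c_11_7_10_23, c_11_7_10_16, c_11_7_10_9, c_11_7_10_2, trivial⟩

def c_11_8_3_37 : cellOK T11 11 37 8 ((3 * 37 + 1) / 8) 3 = true := by
  decide +kernel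
def c_11_8_3_29 : cellOK T11 11 29 8 ((3 * 29 + 1) / 8) 3 = true := by
  decide +kernel
def c_11_8_3_21 : cellOK T11 11 21 8 ((3 * 21 + 1) / 8) 3 = true := by
  decide +kernel
def c_11_8_3_13 : cellOK T11 11 13 8 ((3 * 13 + 1) / 8) 3 = true := by
  decide +kernel
def c_11_8_3_5 : cellOK T11 11 5 8 ((3 * 5 + 1) / 8) 3 = true := by
  decide +kernel
theorem gg_11_8_3 : GG T11 11 8 3 := gg_of (l := [37, 29, 21, 13, 5]) (by decide +kernel)
  ⟨c_11_8_3_37, c_11_8_3_29, c_11_8_3_21, c_11_8_3_13, c_11_8_3_5, trivial⟩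

theorem gg_11_8_4 : GG T11 11 8 4 := gg_of (l := []) (by decide +kernel)
  trivial

def c_11_8_5_43 : cellOK T11 11 43 8 ((5 * 43 + 1) / 8) 5 = true := by
  decide +kernel
def c_11_8_5_35 : cellOK T11 11 35 8 ((5 * 35 + 1) / 8) 5 = true := by
  decide +kernel
def c_11_8_5_27 : cellOK T11 11 27 8 ((5 * 27 + 1) / 8) 5 = true := by
  decide +kernel
def c_11_8_5_19 : cellOK T11 11 19 8 ((5 * 19 + 1) / 8) 5 = true := by
  decide +kernel
def c_11_8_5_11 : cellOK T11 11 11 8 ((5 * 11 + 1) / 8) 5 = true := by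
  decide +kernel
def c_11_8_5_3 : cellOK T11 11 3 8 ((5 * 3 + 1) / 8) 5 = true := by
  decide +kernel
theorem gg_11_8_5 : GG T11 11 8 5 := gg_of (l := [43, 35, 27, 19, 11, 3]) (by decide +kernel)
  ⟨c_11_8_5_43, c_11_8_5_35, c_11_8_5_27, c_11_8_5_19, c_11_8_5_11, c_11_8_5_3, trivial⟩

theorem gg_11_8_6 : GG T11 11 8 6 := gg_of (l := []) (by decide +kernel)
  trivial

def c_11_8_7_41 : cellOK T11 11 41 8 ((7 * 41 + 1) / 8) 7 = true := by
  decide +kernel
def c_11_8_7_33 : cellOK T11 11 33 8 ((7 * 33 + 1) / 8) 7 = true := by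
  decide +kernel
def c_11_8_7_25 : cellOK T11 11 25 8 ((7 * 25 + 1) / 8) 7 = true := by
  decide +kernel
def c_11_8_7_17 : cellOK T11 11 17 8 ((7 * 17 + 1) / 8) 7 = true := by
  decide +kernel
def c_11_8_7_9 : cellOK T11 11 9 8 ((7 * 9 + 1) / 8) 7 = true := by
  decide +kernel
def c_11_8_7_1 : cellOK T11 11 1 8 ((7 * 1 + 1) / 8) 7 = true := by
  decide +kernel
theorem gg_11_8_7 : GG T11 11 8 7 := gg_of (l := [41, 33, 25, 17, 9, 1]) (by decide +kernel)
  ⟨c_11_8_7_41, c_11_8_7_33, c_11_8_7_25, c_11_8_7_17, c_11_8_7_9, c_11_8_7_1, trivial⟩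

theorem gg_11_8_8 : GG T11 11 8 8 := gg_of (l := []) (by decide +kernel)
  trivial

def c_11_8_9_39 : cellOK T11 11 39 8 ((9 * 39 + 1) / 8) 9 = true := by
  decide +kernel
def c_11_8_9_31 : cellOK T11 11 31 8 ((9 * 31 + 1) / 8) 9 = true := by
  decide +kernel
def c_11_8_9_23 : cellOK T11 11 23 8 ((9 * 23 + 1) / 8) 9 = true := by
  decide +kernel
def c_11_8_9_15 : cellOK T11 11 15 8 ((9 * 15 + 1) / 8) 9 = true := by
  decide +kernel
def c_11_8_9_7 : cellOK T11 11 7 8 ((9 * 7 + 1) / 8) 9 = true := by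
  decide +kernel
theorem gg_11_8_9 : GG T11 11 8 9 := gg_of (l := [39, 31, 23, 15, 7]) (by decide +kernel)
  ⟨c_11_8_9_39, c_11_8_9_31, c_11_8_9_23, c_11_8_9_15, c_11_8_9_7, trivial⟩

theorem gg_11_8_10 : GG T11 11 8 10 := gg_of (l := []) (by decide +kernel)
  trivial

def c_11_9_2_49 : cellOK T11 11 49 9 ((2 * 49 + 1) / 9) 2 = true := by
  decide +kernel
def c_11_9_2_40 : cellOK T11 11 40 9 ((2 * 40 + 1) / 9) 2 = true := by
  decide +kernel
def c_11_9_2_31 : cellOK T11 11 31 9 ((2 * 31 + 1) / 9) 2 = true := by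
  decide +kernel
def c_11_9_2_22 : cellOK T11 11 22 9 ((2 * 22 + 1) / 9) 2 = true := by
  decide +kernel
def c_11_9_2_13 : cellOK T11 11 13 9 ((2 * 13 + 1) / 9) 2 = true := by
  decide +kernel
def c_11_9_2_4 : cellOK T11 11 4 9 ((2 * 4 + 1) / 9) 2 = true := by
  decide +kernel
theorem gg_11_9_2 : GG T11 11 9 2 := gg_of (l := [49, 40, 31, 22, 13, 4]) (by decide +kernel)
  ⟨c_11_9_2_49, c_11_9_2_40, c_11_9_2_31, c_11_9_2_22, c_11_9_2_13, c_11_9_2_4, trivial⟩

theorem gg_11_9_3 : GG T11 11 9 3 := gg_of (l := []) (by decide +kernel)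
  trivial

def c_11_9_4_47 : cellOK T11 11 47 9 ((4 * 47 + 1) / 9) 4 = true := by
  decide +kernel
def c_11_9_4_38 : cellOK T11 11 38 9 ((4 * 38 + 1) / 9) 4 = true := by
  decide +kernel
def c_11_9_4_29 : cellOK T11 11 29 9 ((4 * 29 + 1) / 9) 4 = true := by
  decide +kernel
def c_11_9_4_20 : cellOK T11 11 20 9 ((4 * 20 + 1) / 9) 4 = true := by
  decide +kernel
def c_11_9_4_11 : cellOK T11 11 11 9 ((4 * 11 + 1) / 9) 4 = true := by
  decide +kernel
def c_11_9_4_2 : cellOK T11 11 2 9 ((4 * 2 + 1) / 9) 4 = true := by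
  decide +kernel
theorem gg_11_9_4 : GG T11 11 9 4 := gg_of (l := [47, 38, 29, 20, 11, 2]) (by decide +kernel)
  ⟨c_11_9_4_47, c_11_9_4_38, c_11_9_4_29, c_11_9_4_20, c_11_9_4_11, c_11_9_4_2, trivial⟩

def c_11_9_5_43 : cellOK T11 11 43 9 ((5 * 43 + 1) / 9) 5 = true := by
  decide +kernel
def c_11_9_5_34 : cellOK T11 11 34 9 ((5 * 34 + 1) / 9) 5 = true := by
  decide +kernel
def c_11_9_5_25 : cellOK T11 11 25 9 ((5 * 25 + 1) / 9) 5 = true := by
  decide +kernel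
def c_11_9_5_16 : cellOK T11 11 16 9 ((5 * 16 + 1) / 9) 5 = true := by
  decide +kernel
def c_11_9_5_7 : cellOK T11 11 7 9 ((5 * 7 + 1) / 9) 5 = true := by
  decide +kernel
theorem gg_11_9_5 : GG T11 11 9 5 := gg_of (l := [43, 34, 25, 16, 7]) (by decide +kernel)
  ⟨c_11_9_5_43, c_11_9_5_34, c_11_9_5_25, c_11_9_5_16, c_11_9_5_7, trivial⟩

theorem gg_11_9_6 : GG T11 11 9 6 := gg_of (l := []) (by decide +kernel)
  trivial

def c_11_9_7_41 : cellOK T11 11 41 9 ((7 * 41 + 1) / 9) 7 = true := by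
  decide +kernel
def c_11_9_7_32 : cellOK T11 11 32 9 ((7 * 32 + 1) / 9) 7 = true := by
  decide +kernel
def c_11_9_7_23 : cellOK T11 11 23 9 ((7 * 23 + 1) / 9) 7 = true := by
  decide +kernel
def c_11_9_7_14 : cellOK T11 11 14 9 ((7 * 14 + 1) / 9) 7 = true := by
  decide +kernel
def c_11_9_7_5 : cellOK T11 11 5 9 ((7 * 5 + 1) / 9) 7 = true := by
  decide +kernel
theorem gg_11_9_7 : GG T11 11 9 7 := gg_of (l := [41, 32, 23, 14, 5]) (by decide +kernel)
  ⟨c_11_9_7_41, c_11_9_7_32, c_11_9_7_23, c_11_9_7_14, c_11_9_7_5, trivial⟩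

def c_11_9_8_46 : cellOK T11 11 46 9 ((8 * 46 + 1) / 9) 8 = true := by
  decide +kernel
def c_11_9_8_37 : cellOK T11 11 37 9 ((8 * 37 + 1) / 9) 8 = true := by
  decide +kernel
def c_11_9_8_28 : cellOK T11 11 28 9 ((8 * 28 + 1) / 9) 8 = true := by
  decide +kernel
def c_11_9_8_19 : cellOK T11 11 19 9 ((8 * 19 + 1) / 9) 8 = true := by
  decide +kernel
def c_11_9_8_10 : cellOK T11 11 10 9 ((8 * 10 + 1) / 9) 8 = true := by
  decide +kernel
def c_11_9_8_1 : cellOK T11 11 1 9 ((8 * 1 + 1) / 9) 8 = true := by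
  decide +kernel
theorem gg_11_9_8 : GG T11 11 9 8 := gg_of (l := [46, 37, 28, 19, 10, 1]) (by decide +kernel)
  ⟨c_11_9_8_46, c_11_9_8_37, c_11_9_8_28, c_11_9_8_19, c_11_9_8_10, c_11_9_8_1, trivial⟩

theorem gg_11_9_9 : GG T11 11 9 9 := gg_of (l := []) (by decide +kernel)
  trivial

def c_11_9_10_44 : cellOK T11 11 44 9 ((10 * 44 + 1) / 9) 10 = true := by
  decide +kernel
def c_11_9_10_35 : cellOK T11 11 35 9 ((10 * 35 + 1) / 9) 10 = true := by
  decide +kernel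
def c_11_9_10_26 : cellOK T11 11 26 9 ((10 * 26 + 1) / 9) 10 = true := by
  decide +kernel
def c_11_9_10_17 : cellOK T11 11 17 9 ((10 * 17 + 1) / 9) 10 = true := by
  decide +kernel
def c_11_9_10_8 : cellOK T11 11 8 9 ((10 * 8 + 1) / 9) 10 = true := by
  decide +kernel
theorem gg_11_9_10 : GG T11 11 9 10 := gg_of (l := [44, 35, 26, 17, 8]) (by decide +kernel)
  ⟨c_11_9_10_44, c_11_9_10_35, c_11_9_10_26, c_11_9_10_17, c_11_9_10_8, trivial⟩

def c_11_10_1_49 : cellOK T11 11 49 10 ((1 * 49 + 1) / 10) 1 = true := by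
  decide +kernel
def c_11_10_1_39 : cellOK T11 11 39 10 ((1 * 39 + 1) / 10) 1 = true := by
  decide +kernel
def c_11_10_1_29 : cellOK T11 11 29 10 ((1 * 29 + 1) / 10) 1 = true := by
  decide +kernel
def c_11_10_1_19 : cellOK T11 11 19 10 ((1 * 19 + 1) / 10) 1 = true := by
  decide +kernel
def c_11_10_1_9 : cellOK T11 11 9 10 ((1 * 9 + 1) / 10) 1 = true := by
  decide +kernel
theorem gg_11_10_1 : GG T11 11 10 1 := gg_of (l := [49, 39, 29, 19, 9]) (by decide +kernel)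
  ⟨c_11_10_1_49, c_11_10_1_39, c_11_10_1_29, c_11_10_1_19, c_11_10_1_9, trivial⟩

theorem gg_11_10_2 : GG T11 11 10 2 := gg_of (l := []) (by decide +kernel)
  trivial

def c_11_10_3_53 : cellOK T11 11 53 10 ((3 * 53 + 1) / 10) 3 = true := by
  decide +kernel
def c_11_10_3_43 : cellOK T11 11 43 10 ((3 * 43 + 1) / 10) 3 = true := by
  decide +kernel
def c_11_10_3_33 : cellOK T11 11 33 10 ((3 * 33 + 1) / 10) 3 = true := by
  decide +kernel
def c_11_10_3_23 : cellOK T11 11 23 10 ((3 * 23 + 1) / 10) 3 = true := by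
  decide +kernel
def c_11_10_3_13 : cellOK T11 11 13 10 ((3 * 13 + 1) / 10) 3 = true := by
  decide +kernel
def c_11_10_3_3 : cellOK T11 11 3 10 ((3 * 3 + 1) / 10) 3 = true := by
  decide +kernel
theorem gg_11_10_3 : GG T11 11 10 3 := gg_of (l := [53, 43, 33, 23, 13, 3]) (by decide +kernel)
  ⟨c_11_10_3_53, c_11_10_3_43, c_11_10_3_33, c_11_10_3_23, c_11_10_3_13, c_11_10_3_3, trivial⟩

theorem gg_11_10_4 : GG T11 11 10 4 := gg_of (l := []) (by decide +kernel)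
  trivial

theorem gg_11_10_5 : GG T11 11 10 5 := gg_of (l := []) (by decide +kernel)
  trivial

theorem gg_11_10_6 : GG T11 11 10 6 := gg_of (l := []) (by decide +kernel)
  trivial

def c_11_10_7_47 : cellOK T11 11 47 10 ((7 * 47 + 1) / 10) 7 = true := by
  decide +kernel
def c_11_10_7_37 : cellOK T11 11 37 10 ((7 * 37 + 1) / 10) 7 = true := by
  decide +kernel
def c_11_10_7_27 : cellOK T11 11 27 10 ((7 * 27 + 1) / 10) 7 = true := by
  decide +kernel
def c_11_10_7_17 : cellOK T11 11 17 10 ((7 * 17 + 1) / 10) 7 = true := by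
  decide +kernel
def c_11_10_7_7 : cellOK T11 11 7 10 ((7 * 7 + 1) / 10) 7 = true := by
  decide +kernel
theorem gg_11_10_7 : GG T11 11 10 7 := gg_of (l := [47, 37, 27, 17, 7]) (by decide +kernel)
  ⟨c_11_10_7_47, c_11_10_7_37, c_11_10_7_27, c_11_10_7_17, c_11_10_7_7, trivial⟩

theorem gg_11_10_8 : GG T11 11 10 8 := gg_of (l := []) (by decide +kernel)
  trivial

def c_11_10_9_51 : cellOK T11 11 51 10 ((9 * 51 + 1) / 10) 9 = true := by
  decide +kernel
def c_11_10_9_41 : cellOK T11 11 41 10 ((9 * 41 + 1) / 10) 9 = true := by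
  decide +kernel
def c_11_10_9_31 : cellOK T11 11 31 10 ((9 * 31 + 1) / 10) 9 = true := by
  decide +kernel
def c_11_10_9_21 : cellOK T11 11 21 10 ((9 * 21 + 1) / 10) 9 = true := by
  decide +kernel
def c_11_10_9_11 : cellOK T11 11 11 10 ((9 * 11 + 1) / 10) 9 = true := by
  decide +kernel
def c_11_10_9_1 : cellOK T11 11 1 10 ((9 * 1 + 1) / 10) 9 = true := by
  decide +kernel
theorem gg_11_10_9 : GG T11 11 10 9 := gg_of (l := [51, 41, 31, 21, 11, 1]) (by decide +kernel)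
  ⟨c_11_10_9_51, c_11_10_9_41, c_11_10_9_31, c_11_10_9_21, c_11_10_9_11, c_11_10_9_1, trivial⟩

theorem gg_11_10_10 : GG T11 11 10 10 := gg_of (l := []) (by decide +kernel)
  trivial

end Pool.Agent.Helper55.FT
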