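import Pool.Agent.Helper55.FT.Q11x1
import Pool.Agent.Helper55.FT.Q11x2

set_option autoImplicit false

/-!
# Cell checks
-/

namespace Pool.Agent.Helper55.FT

set_option maxRecDepth 100000
set_option linter.defProp false

theorem rows_11 : ∀ g, g < 11 → ∀ g', g' < 11 → 11 ≤ g + g' → GG T11 11 g g' := by
  intro g hg g' hg' hs
  interval_cases g
  · omega
  · interval_cases g'
    · omega
    · omega
    · omega
    · omega
    · omega
    · omega
    · omega
    · omega
    · omega
    · omega
    · exact gg_11_1_10
  · interval_cases g'
    · omega
    · omega
    · omega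
    · omega
    · omega
    · omega
    · omega
    · omega
    · omega
    · exact gg_11_2_9
    · exact gg_11_2_10
  · interval_cases g'
    · omega
    · omega
    · omega
    · omega
    · omega
    · omega
    · omega
    · omega
    · exact gg_11_3_8
    · exact gg_11_3_9
    · exact gg_11_3_10
  · interval_cases g'
    · omega
    · omega
    · omega
    · omega
    · omega
    · omega
    · omega
    · exact gg_11_4_7
    · exact gg_11_4_8
    · exact gg_11_4_9
    · exact gg_11_4_10
  · interval_cases g'
    · omega
    · omega
    · omega
    · omega
    · omega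
    · omega
    · exact gg_11_5_6
    · exact gg_11_5_7
    · exact gg_11_5_8
    · exact gg_11_5_9
    · exact gg_11_5_10
  · interval_cases g'
    · omega
    · omega
    · omega
    · omega
    · omega
    · exact gg_11_6_5
    · exact gg_11_6_6
    · exact gg_11_6_7
    · exact gg_11_6_8
    · exact gg_11_6_9
    · exact gg_11_6_10
  · interval_cases g'
    · omega
    · omega
    · omega
    · omega
    · exact gg_11_7_4
    · exact gg_11_7_5
    · exact gg_11_7_6
    · exact gg_11_7_7
    · exact gg_11_7_8
    · exact gg_11_7_9
    · exact gg_11_7_10
  · interval_cases g'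
    · omega
    · omega
    · omega
    · exact gg_11_8_3
    · exact gg_11_8_4
    · exact gg_11_8_5
    · exact gg_11_8_6
    · exact gg_11_8_7
    · exact gg_11_8_8
    · exact gg_11_8_9
    · exact gg_11_8_10
  · interval_cases g'
    · omega
    · omega
    · exact gg_11_9_2
    · exact gg_11_9_3
    · exact gg_11_9_4
    · exact gg_11_9_5
    · exact gg_11_9_6
    · exact gg_11_9_7
    · exact gg_11_9_8
    · exact gg_11_9_9
    · exact gg_11_9_10
  · interval_cases g'
    · omega
    · exact gg_11_10_1
    · exact gg_11_10_2
    · exact gg_11_10_3
    · exact gg_11_10_4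
    · exact gg_11_10_5
    · exact gg_11_10_6
    · exact gg_11_10_7
    · exact gg_11_10_8
    · exact gg_11_10_9
    · exact gg_11_10_10

end Pool.Agent.Helper55.FT
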