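import Pool.Agent.Helper55.FT.Tab

set_option autoImplicit false

/-!
# Cell checks
-/

namespace Pool.Agent.Helper55.FT

set_option maxRecDepth 100000
set_option linter.defProp false

def c_13_1_12_6 : cellOK T13 13 6 1 ((12 * 6 + 1) / 1) 12 = true := by
  decide +kernel
def c_13_1_12_5 : cellOK T13 13 5 1 ((12 * 5 + 1) / 1) 12 = true := by
  decide +kernel
def c_13_1_12_4 : cellOK T13 13 4 1 ((12 * 4 + 1) / 1) 12 = true := by
  decide +kernel
def c_13_1_12_3 : cellOK T13 13 3 1 ((12 * 3 + 1) / 1) 12 = true := by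
  decide +kernel
def c_13_1_12_2 : cellOK T13 13 2 1 ((12 * 2 + 1) / 1) 12 = true := by
  decide +kernel
def c_13_1_12_1 : cellOK T13 13 1 1 ((12 * 1 + 1) / 1) 12 = true := by
  decide +kernel
def c_13_1_12_0 : cellOK T13 13 0 1 ((12 * 0 + 1) / 1) 12 = true := by
  decide +kernel
theorem gg_13_1_12 : GG T13 13 1 12 := gg_of (l := [6, 5, 4, 3, 2, 1, 0]) (by decide +kernel)
  ⟨c_13_1_12_6, c_13_1_12_5, c_13_1_12_4, c_13_1_12_3, c_13_1_12_2, c_13_1_12_1, c_13_1_12_0, trivial⟩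

def c_13_2_11_11 : cellOK T13 13 11 2 ((11 * 11 + 1) / 2) 11 = true := by
  decide +kernel
def c_13_2_11_9 : cellOK T13 13 9 2 ((11 * 9 + 1) / 2) 11 = true := by
  decide +kernel
def c_13_2_11_7 : cellOK T13 13 7 2 ((11 * 7 + 1) / 2) 11 = true := by
  decide +kernel
def c_13_2_11_5 : cellOK T13 13 5 2 ((11 * 5 + 1) / 2) 11 = true := by
  decide +kernel
def c_13_2_11_3 : cellOK T13 13 3 2 ((11 * 3 + 1) / 2) 11 = true := by
  decide +kernel
def c_13_2_11_1 : cellOK T13 13 1 2 ((11 * 1 + 1) / 2) 11 = true := by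
  decide +kernel
theorem gg_13_2_11 : GG T13 13 2 11 := gg_of (l := [11, 9, 7, 5, 3, 1]) (by decide +kernel)
  ⟨c_13_2_11_11, c_13_2_11_9, c_13_2_11_7, c_13_2_11_5, c_13_2_11_3, c_13_2_11_1, trivial⟩

theorem gg_13_2_12 : GG T13 13 2 12 := gg_of (l := []) (by decide +kernel)
  trivial

def c_13_3_10_17 : cellOK T13 13 17 3 ((10 * 17 + 1) / 3) 10 = true := by
  decide +kernel
def c_13_3_10_14 : cellOK T13 13 14 3 ((10 * 14 + 1) / 3) 10 = true := by
  decide +kernel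
def c_13_3_10_11 : cellOK T13 13 11 3 ((10 * 11 + 1) / 3) 10 = true := by
  decide +kernel
def c_13_3_10_8 : cellOK T13 13 8 3 ((10 * 8 + 1) / 3) 10 = true := by
  decide +kernel
def c_13_3_10_5 : cellOK T13 13 5 3 ((10 * 5 + 1) / 3) 10 = true := by
  decide +kernel
def c_13_3_10_2 : cellOK T13 13 2 3 ((10 * 2 + 1) / 3) 10 = true := by
  decide +kernel
theorem gg_13_3_10 : GG T13 13 3 10 := gg_of (l := [17, 14, 11, 8, 5, 2]) (by decide +kernel)
  ⟨c_13_3_10_17, c_13_3_10_14, c_13_3_10_11, c_13_3_10_8, c_13_3_10_5, c_13_3_10_2, trivial⟩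

def c_13_3_11_19 : cellOK T13 13 19 3 ((11 * 19 + 1) / 3) 11 = true := by
  decide +kernel
def c_13_3_11_16 : cellOK T13 13 16 3 ((11 * 16 + 1) / 3) 11 = true := by
  decide +kernel
def c_13_3_11_13 : cellOK T13 13 13 3 ((11 * 13 + 1) / 3) 11 = true := by
  decide +kernel
def c_13_3_11_10 : cellOK T13 13 10 3 ((11 * 10 + 1) / 3) 11 = true := by
  decide +kernel
def c_13_3_11_7 : cellOK T13 13 7 3 ((11 * 7 + 1) / 3) 11 = true := by
  decide +kernel
def c_13_3_11_4 : cellOK T13 13 4 3 ((11 * 4 + 1) / 3) 11 = true := by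
  decide +kernel
def c_13_3_11_1 : cellOK T13 13 1 3 ((11 * 1 + 1) / 3) 11 = true := by
  decide +kernel
theorem gg_13_3_11 : GG T13 13 3 11 := gg_of (l := [19, 16, 13, 10, 7, 4, 1]) (by decide +kernel)
  ⟨c_13_3_11_19, c_13_3_11_16, c_13_3_11_13, c_13_3_11_10, c_13_3_11_7, c_13_3_11_4, c_13_3_11_1, trivial⟩

theorem gg_13_3_12 : GG T13 13 3 12 := gg_of (l := []) (by decide +kernel)
  trivial

def c_13_4_9_23 : cellOK T13 13 23 4 ((9 * 23 + 1) / 4) 9 = true := by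
  decide +kernel
def c_13_4_9_19 : cellOK T13 13 19 4 ((9 * 19 + 1) / 4) 9 = true := by
  decide +kernel
def c_13_4_9_15 : cellOK T13 13 15 4 ((9 * 15 + 1) / 4) 9 = true := by
  decide +kernel
def c_13_4_9_11 : cellOK T13 13 11 4 ((9 * 11 + 1) / 4) 9 = true := by
  decide +kernel
def c_13_4_9_7 : cellOK T13 13 7 4 ((9 * 7 + 1) / 4) 9 = true := by
  decide +kernel
def c_13_4_9_3 : cellOK T13 13 3 4 ((9 * 3 + 1) / 4) 9 = true := by
  decide +kernel
theorem gg_13_4_9 : GG T13 13 4 9 := gg_of (l := [23, 19, 15, 11, 7, 3]) (by decide +kernel)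
  ⟨c_13_4_9_23, c_13_4_9_19, c_13_4_9_15, c_13_4_9_11, c_13_4_9_7, c_13_4_9_3, trivial⟩

theorem gg_13_4_10 : GG T13 13 4 10 := gg_of (l := []) (by decide +kernel)
  trivial

def c_13_4_11_25 : cellOK T13 13 25 4 ((11 * 25 + 1) / 4) 11 = true := by
  decide +kernel
def c_13_4_11_21 : cellOK T13 13 21 4 ((11 * 21 + 1) / 4) 11 = true := by
  decide +kernel
def c_13_4_11_17 : cellOK T13 13 17 4 ((11 * 17 + 1) / 4) 11 = true := by
  decide +kernel
def c_13_4_11_13 : cellOK T13 13 13 4 ((11 * 13 + 1) / 4) 11 = true := by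
  decide +kernel
def c_13_4_11_9 : cellOK T13 13 9 4 ((11 * 9 + 1) / 4) 11 = true := by
  decide +kernel
def c_13_4_11_5 : cellOK T13 13 5 4 ((11 * 5 + 1) / 4) 11 = true := by
  decide +kernel
def c_13_4_11_1 : cellOK T13 13 1 4 ((11 * 1 + 1) / 4) 11 = true := by
  decide +kernel
theorem gg_13_4_11 : GG T13 13 4 11 := gg_of (l := [25, 21, 17, 13, 9, 5, 1]) (by decide +kernel)
  ⟨c_13_4_11_25, c_13_4_11_21, c_13_4_11_17, c_13_4_11_13, c_13_4_11_9, c_13_4_11_5, c_13_4_11_1, trivial⟩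

theorem gg_13_4_12 : GG T13 13 4 12 := gg_of (l := []) (by decide +kernel)
  trivial

def c_13_5_8_28 : cellOK T13 13 28 5 ((8 * 28 + 1) / 5) 8 = true := by
  decide +kernel
def c_13_5_8_23 : cellOK T13 13 23 5 ((8 * 23 + 1) / 5) 8 = true := by
  decide +kernel
def c_13_5_8_18 : cellOK T13 13 18 5 ((8 * 18 + 1) / 5) 8 = true := by
  decide +kernel
def c_13_5_8_13 : cellOK T13 13 13 5 ((8 * 13 + 1) / 5) 8 = true := by
  decide +kernel
def c_13_5_8_8 : cellOK T13 13 8 5 ((8 * 8 + 1) / 5) 8 = true := by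
  decide +kernel
def c_13_5_8_3 : cellOK T13 13 3 5 ((8 * 3 + 1) / 5) 8 = true := by
  decide +kernel
theorem gg_13_5_8 : GG T13 13 5 8 := gg_of (l := [28, 23, 18, 13, 8, 3]) (by decide +kernel)
  ⟨c_13_5_8_28, c_13_5_8_23, c_13_5_8_18, c_13_5_8_13, c_13_5_8_8, c_13_5_8_3, trivial⟩

def c_13_5_9_31 : cellOK T13 13 31 5 ((9 * 31 + 1) / 5) 9 = true := by
  decide +kernel
def c_13_5_9_26 : cellOK T13 13 26 5 ((9 * 26 + 1) / 5) 9 = true := by
  decide +kernel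
def c_13_5_9_21 : cellOK T13 13 21 5 ((9 * 21 + 1) / 5) 9 = true := by
  decide +kernel
def c_13_5_9_16 : cellOK T13 13 16 5 ((9 * 16 + 1) / 5) 9 = true := by
  decide +kernel
def c_13_5_9_11 : cellOK T13 13 11 5 ((9 * 11 + 1) / 5) 9 = true := by
  decide +kernel
def c_13_5_9_6 : cellOK T13 13 6 5 ((9 * 6 + 1) / 5) 9 = true := by
  decide +kernel
def c_13_5_9_1 : cellOK T13 13 1 5 ((9 * 1 + 1) / 5) 9 = true := by
  decide +kernel
theorem gg_13_5_9 : GG T13 13 5 9 := gg_of (l := [31, 26, 21, 16, 11, 6, 1]) (by decide +kernel)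
  ⟨c_13_5_9_31, c_13_5_9_26, c_13_5_9_21, c_13_5_9_16, c_13_5_9_11, c_13_5_9_6, c_13_5_9_1, trivial⟩

theorem gg_13_5_10 : GG T13 13 5 10 := gg_of (l := []) (by decide +kernel)
  trivial

def c_13_5_11_29 : cellOK T13 13 29 5 ((11 * 29 + 1) / 5) 11 = true := by
  decide +kernel
def c_13_5_11_24 : cellOK T13 13 24 5 ((11 * 24 + 1) / 5) 11 = true := by
  decide +kernel
def c_13_5_11_19 : cellOK T13 13 19 5 ((11 * 19 + 1) / 5) 11 = true := by
  decide +kernel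
def c_13_5_11_14 : cellOK T13 13 14 5 ((11 * 14 + 1) / 5) 11 = true := by
  decide +kernel
def c_13_5_11_9 : cellOK T13 13 9 5 ((11 * 9 + 1) / 5) 11 = true := by
  decide +kernel
def c_13_5_11_4 : cellOK T13 13 4 5 ((11 * 4 + 1) / 5) 11 = true := by
  decide +kernel
theorem gg_13_5_11 : GG T13 13 5 11 := gg_of (l := [29, 24, 19, 14, 9, 4]) (by decide +kernel)
  ⟨c_13_5_11_29, c_13_5_11_24, c_13_5_11_19, c_13_5_11_14, c_13_5_11_9, c_13_5_11_4, trivial⟩

def c_13_5_12_32 : cellOK T13 13 32 5 ((12 * 32 + 1) / 5) 12 = true := by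
  decide +kernel
def c_13_5_12_27 : cellOK T13 13 27 5 ((12 * 27 + 1) / 5) 12 = true := by
  decide +kernel
def c_13_5_12_22 : cellOK T13 13 22 5 ((12 * 22 + 1) / 5) 12 = true := by
  decide +kernel
def c_13_5_12_17 : cellOK T13 13 17 5 ((12 * 17 + 1) / 5) 12 = true := by
  decide +kernel
def c_13_5_12_12 : cellOK T13 13 12 5 ((12 * 12 + 1) / 5) 12 = true := by
  decide +kernel
def c_13_5_12_7 : cellOK T13 13 7 5 ((12 * 7 + 1) / 5) 12 = true := by
  decide +kernel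
def c_13_5_12_2 : cellOK T13 13 2 5 ((12 * 2 + 1) / 5) 12 = true := by
  decide +kernel
theorem gg_13_5_12 : GG T13 13 5 12 := gg_of (l := [32, 27, 22, 17, 12, 7, 2]) (by decide +kernel)
  ⟨c_13_5_12_32, c_13_5_12_27, c_13_5_12_22, c_13_5_12_17, c_13_5_12_12, c_13_5_12_7, c_13_5_12_2, trivial⟩

def c_13_6_7_35 : cellOK T13 13 35 6 ((7 * 35 + 1) / 6) 7 = true := by
  decide +kernel
def c_13_6_7_29 : cellOK T13 13 29 6 ((7 * 29 + 1) / 6) 7 = true := by
  decide +kernel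
def c_13_6_7_23 : cellOK T13 13 23 6 ((7 * 23 + 1) / 6) 7 = true := by
  decide +kernel
def c_13_6_7_17 : cellOK T13 13 17 6 ((7 * 17 + 1) / 6) 7 = true := by
  decide +kernel
def c_13_6_7_11 : cellOK T13 13 11 6 ((7 * 11 + 1) / 6) 7 = true := by
  decide +kernel
def c_13_6_7_5 : cellOK T13 13 5 6 ((7 * 5 + 1) / 6) 7 = true := by
  decide +kernel
theorem gg_13_6_7 : GG T13 13 6 7 := gg_of (l := [35, 29, 23, 17, 11, 5]) (by decide +kernel)
  ⟨c_13_6_7_35, c_13_6_7_29, c_13_6_7_23, c_13_6_7_17, c_13_6_7_11, c_13_6_7_5, trivial⟩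

theorem gg_13_6_8 : GG T13 13 6 8 := gg_of (l := []) (by decide +kernel)
  trivial

theorem gg_13_6_9 : GG T13 13 6 9 := gg_of (l := []) (by decide +kernel)
  trivial

theorem gg_13_6_10 : GG T13 13 6 10 := gg_of (l := []) (by decide +kernel)
  trivial

def c_13_6_11_37 : cellOK T13 13 37 6 ((11 * 37 + 1) / 6) 11 = true := by
  decide +kernel
def c_13_6_11_31 : cellOK T13 13 31 6 ((11 * 31 + 1) / 6) 11 = true := by
  decide +kernel
def c_13_6_11_25 : cellOK T13 13 25 6 ((11 * 25 + 1) / 6) 11 = true := by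
  decide +kernel
def c_13_6_11_19 : cellOK T13 13 19 6 ((11 * 19 + 1) / 6) 11 = true := by
  decide +kernel
def c_13_6_11_13 : cellOK T13 13 13 6 ((11 * 13 + 1) / 6) 11 = true := by
  decide +kernel
def c_13_6_11_7 : cellOK T13 13 7 6 ((11 * 7 + 1) / 6) 11 = true := by
  decide +kernel
def c_13_6_11_1 : cellOK T13 13 1 6 ((11 * 1 + 1) / 6) 11 = true := by
  decide +kernel
theorem gg_13_6_11 : GG T13 13 6 11 := gg_of (l := [37, 31, 25, 19, 13, 7, 1]) (by decide +kernel)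
  ⟨c_13_6_11_37, c_13_6_11_31, c_13_6_11_25, c_13_6_11_19, c_13_6_11_13, c_13_6_11_7, c_13_6_11_1, trivial⟩

theorem gg_13_6_12 : GG T13 13 6 12 := gg_of (l := []) (by decide +kernel)
  trivial

def c_13_7_6_43 : cellOK T13 13 43 7 ((6 * 43 + 1) / 7) 6 = true := by
  decide +kernel
def c_13_7_6_36 : cellOK T13 13 36 7 ((6 * 36 + 1) / 7) 6 = true := by
  decide +kernel
def c_13_7_6_29 : cellOK T13 13 29 7 ((6 * 29 + 1) / 7) 6 = true := by
  decide +kernel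
def c_13_7_6_22 : cellOK T13 13 22 7 ((6 * 22 + 1) / 7) 6 = true := by
  decide +kernel
def c_13_7_6_15 : cellOK T13 13 15 7 ((6 * 15 + 1) / 7) 6 = true := by
  decide +kernel
def c_13_7_6_8 : cellOK T13 13 8 7 ((6 * 8 + 1) / 7) 6 = true := by
  decide +kernel
def c_13_7_6_1 : cellOK T13 13 1 7 ((6 * 1 + 1) / 7) 6 = true := by
  decide +kernel
theorem gg_13_7_6 : GG T13 13 7 6 := gg_of (l := [43, 36, 29, 22, 15, 8, 1]) (by decide +kernel)
  ⟨c_13_7_6_43, c_13_7_6_36, c_13_7_6_29, c_13_7_6_22, c_13_7_6_15, c_13_7_6_8, c_13_7_6_1, trivial⟩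

theorem gg_13_7_7 : GG T13 13 7 7 := gg_of (l := []) (by decide +kernel)
  trivial

def c_13_7_8_41 : cellOK T13 13 41 7 ((8 * 41 + 1) / 7) 8 = true := by
  decide +kernel
def c_13_7_8_34 : cellOK T13 13 34 7 ((8 * 34 + 1) / 7) 8 = true := by
  decide +kernel
def c_13_7_8_27 : cellOK T13 13 27 7 ((8 * 27 + 1) / 7) 8 = true := by
  decide +kernel
def c_13_7_8_20 : cellOK T13 13 20 7 ((8 * 20 + 1) / 7) 8 = true := by
  decide +kernel
def c_13_7_8_13 : cellOK T13 13 13 7 ((8 * 13 + 1) / 7) 8 = true := by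
  decide +kernel
def c_13_7_8_6 : cellOK T13 13 6 7 ((8 * 6 + 1) / 7) 8 = true := by
  decide +kernel
theorem gg_13_7_8 : GG T13 13 7 8 := gg_of (l := [41, 34, 27, 20, 13, 6]) (by decide +kernel)
  ⟨c_13_7_8_41, c_13_7_8_34, c_13_7_8_27, c_13_7_8_20, c_13_7_8_13, c_13_7_8_6, trivial⟩

def c_13_7_9_45 : cellOK T13 13 45 7 ((9 * 45 + 1) / 7) 9 = true := by
  decide +kernel
def c_13_7_9_38 : cellOK T13 13 38 7 ((9 * 38 + 1) / 7) 9 = true := by
  decide +kernel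
def c_13_7_9_31 : cellOK T13 13 31 7 ((9 * 31 + 1) / 7) 9 = true := by
  decide +kernel
def c_13_7_9_24 : cellOK T13 13 24 7 ((9 * 24 + 1) / 7) 9 = true := by
  decide +kernel
def c_13_7_9_17 : cellOK T13 13 17 7 ((9 * 17 + 1) / 7) 9 = true := by
  decide +kernel
def c_13_7_9_10 : cellOK T13 13 10 7 ((9 * 10 + 1) / 7) 9 = true := by
  decide +kernel
def c_13_7_9_3 : cellOK T13 13 3 7 ((9 * 3 + 1) / 7) 9 = true := by
  decide +kernel
theorem gg_13_7_9 : GG T13 13 7 9 := gg_of (l := [45, 38, 31, 24, 17, 10, 3]) (by decide +kernel)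
  ⟨c_13_7_9_45, c_13_7_9_38, c_13_7_9_31, c_13_7_9_24, c_13_7_9_17, c_13_7_9_10, c_13_7_9_3, trivial⟩

def c_13_7_10_44 : cellOK T13 13 44 7 ((10 * 44 + 1) / 7) 10 = true := by
  decide +kernel
def c_13_7_10_37 : cellOK T13 13 37 7 ((10 * 37 + 1) / 7) 10 = true := by
  decide +kernel
def c_13_7_10_30 : cellOK T13 13 30 7 ((10 * 30 + 1) / 7) 10 = true := by
  decide +kernel
def c_13_7_10_23 : cellOK T13 13 23 7 ((10 * 23 + 1) / 7) 10 = true := by
  decide +kernel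
def c_13_7_10_16 : cellOK T13 13 16 7 ((10 * 16 + 1) / 7) 10 = true := by
  decide +kernel
def c_13_7_10_9 : cellOK T13 13 9 7 ((10 * 9 + 1) / 7) 10 = true := by
  decide +kernel
def c_13_7_10_2 : cellOK T13 13 2 7 ((10 * 2 + 1) / 7) 10 = true := by
  decide +kernel
theorem gg_13_7_10 : GG T13 13 7 10 := gg_of (l := [44, 37, 30, 23, 16, 9, 2]) (by decide +kernel)
  ⟨c_13_7_10_44, c_13_7_10_37, c_13_7_10_30, c_13_7_10_23, c_13_7_10_16, c_13_7_10_9, c_13_7_10_2, trivial⟩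

end Pool.Agent.Helper55.FT
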