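import Pool.Agent.Helper55.FT.Tab

set_option autoImplicit false

/-!
# Cell checks
-/

namespace Pool.Agent.Helper55.FT

set_option maxRecDepth 100000
set_option linter.defProp false

def c_13_7_11_40 : cellOK T13 13 40 7 ((11 * 40 + 1) / 7) 11 = true := by
  decide +kernel
def c_13_7_11_33 : cellOK T13 13 33 7 ((11 * 33 + 1) / 7) 11 = true := by
  decide +kernel
def c_13_7_11_26 : cellOK T13 13 26 7 ((11 * 26 + 1) / 7) 11 = true := by
  decide +kernel
def c_13_7_11_19 : cellOK T13 13 19 7 ((11 * 19 + 1) / 7) 11 = true := by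
  decide +kernel
def c_13_7_11_12 : cellOK T13 13 12 7 ((11 * 12 + 1) / 7) 11 = true := by
  decide +kernel
def c_13_7_11_5 : cellOK T13 13 5 7 ((11 * 5 + 1) / 7) 11 = true := by
  decide +kernel
theorem gg_13_7_11 : GG T13 13 7 11 := gg_of (l := [40, 33, 26, 19, 12, 5]) (by decide +kernel)
  ⟨c_13_7_11_40, c_13_7_11_33, c_13_7_11_26, c_13_7_11_19, c_13_7_11_12, c_13_7_11_5, trivial⟩

def c_13_7_12_39 : cellOK T13 13 39 7 ((12 * 39 + 1) / 7) 12 = true := by
  decide +kernel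
def c_13_7_12_32 : cellOK T13 13 32 7 ((12 * 32 + 1) / 7) 12 = true := by
  decide +kernel
def c_13_7_12_25 : cellOK T13 13 25 7 ((12 * 25 + 1) / 7) 12 = true := by
  decide +kernel
def c_13_7_12_18 : cellOK T13 13 18 7 ((12 * 18 + 1) / 7) 12 = true := by
  decide +kernel
def c_13_7_12_11 : cellOK T13 13 11 7 ((12 * 11 + 1) / 7) 12 = true := by
  decide +kernel
def c_13_7_12_4 : cellOK T13 13 4 7 ((12 * 4 + 1) / 7) 12 = true := by
  decide +kernel
theorem gg_13_7_12 : GG T13 13 7 12 := gg_of (l := [39, 32, 25, 18, 11, 4]) (by decide +kernel)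
  ⟨c_13_7_12_39, c_13_7_12_32, c_13_7_12_25, c_13_7_12_18, c_13_7_12_11, c_13_7_12_4, trivial⟩

def c_13_8_5_51 : cellOK T13 13 51 8 ((5 * 51 + 1) / 8) 5 = true := by
  decide +kernel
def c_13_8_5_43 : cellOK T13 13 43 8 ((5 * 43 + 1) / 8) 5 = true := by
  decide +kernel
def c_13_8_5_35 : cellOK T13 13 35 8 ((5 * 35 + 1) / 8) 5 = true := by
  decide +kernel
def c_13_8_5_27 : cellOK T13 13 27 8 ((5 * 27 + 1) / 8) 5 = true := by
  decide +kernel
def c_13_8_5_19 : cellOK T13 13 19 8 ((5 * 19 + 1) / 8) 5 = true := by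
  decide +kernel
def c_13_8_5_11 : cellOK T13 13 11 8 ((5 * 11 + 1) / 8) 5 = true := by
  decide +kernel
def c_13_8_5_3 : cellOK T13 13 3 8 ((5 * 3 + 1) / 8) 5 = true := by
  decide +kernel
theorem gg_13_8_5 : GG T13 13 8 5 := gg_of (l := [51, 43, 35, 27, 19, 11, 3]) (by decide +kernel)
  ⟨c_13_8_5_51, c_13_8_5_43, c_13_8_5_35, c_13_8_5_27, c_13_8_5_19, c_13_8_5_11, c_13_8_5_3, trivial⟩

theorem gg_13_8_6 : GG T13 13 8 6 := gg_of (l := []) (by decide +kernel)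
  trivial

def c_13_8_7_49 : cellOK T13 13 49 8 ((7 * 49 + 1) / 8) 7 = true := by
  decide +kernel
def c_13_8_7_41 : cellOK T13 13 41 8 ((7 * 41 + 1) / 8) 7 = true := by
  decide +kernel
def c_13_8_7_33 : cellOK T13 13 33 8 ((7 * 33 + 1) / 8) 7 = true := by
  decide +kernel
def c_13_8_7_25 : cellOK T13 13 25 8 ((7 * 25 + 1) / 8) 7 = true := by
  decide +kernel
def c_13_8_7_17 : cellOK T13 13 17 8 ((7 * 17 + 1) / 8) 7 = true := by
  decide +kernel
def c_13_8_7_9 : cellOK T13 13 9 8 ((7 * 9 + 1) / 8) 7 = true := by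
  decide +kernel
def c_13_8_7_1 : cellOK T13 13 1 8 ((7 * 1 + 1) / 8) 7 = true := by
  decide +kernel
theorem gg_13_8_7 : GG T13 13 8 7 := gg_of (l := [49, 41, 33, 25, 17, 9, 1]) (by decide +kernel)
  ⟨c_13_8_7_49, c_13_8_7_41, c_13_8_7_33, c_13_8_7_25, c_13_8_7_17, c_13_8_7_9, c_13_8_7_1, trivial⟩

theorem gg_13_8_8 : GG T13 13 8 8 := gg_of (l := []) (by decide +kernel)
  trivial

def c_13_8_9_47 : cellOK T13 13 47 8 ((9 * 47 + 1) / 8) 9 = true := by
  decide +kernel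
def c_13_8_9_39 : cellOK T13 13 39 8 ((9 * 39 + 1) / 8) 9 = true := by
  decide +kernel
def c_13_8_9_31 : cellOK T13 13 31 8 ((9 * 31 + 1) / 8) 9 = true := by
  decide +kernel
def c_13_8_9_23 : cellOK T13 13 23 8 ((9 * 23 + 1) / 8) 9 = true := by
  decide +kernel
def c_13_8_9_15 : cellOK T13 13 15 8 ((9 * 15 + 1) / 8) 9 = true := by
  decide +kernel
def c_13_8_9_7 : cellOK T13 13 7 8 ((9 * 7 + 1) / 8) 9 = true := by
  decide +kernel
theorem gg_13_8_9 : GG T13 13 8 9 := gg_of (l := [47, 39, 31, 23, 15, 7]) (by decide +kernel)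
  ⟨c_13_8_9_47, c_13_8_9_39, c_13_8_9_31, c_13_8_9_23, c_13_8_9_15, c_13_8_9_7, trivial⟩

theorem gg_13_8_10 : GG T13 13 8 10 := gg_of (l := []) (by decide +kernel)
  trivial

def c_13_8_11_45 : cellOK T13 13 45 8 ((11 * 45 + 1) / 8) 11 = true := by
  decide +kernel
def c_13_8_11_37 : cellOK T13 13 37 8 ((11 * 37 + 1) / 8) 11 = true := by
  decide +kernel
def c_13_8_11_29 : cellOK T13 13 29 8 ((11 * 29 + 1) / 8) 11 = true := by
  decide +kernel
def c_13_8_11_21 : cellOK T13 13 21 8 ((11 * 21 + 1) / 8) 11 = true := by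
  decide +kernel
def c_13_8_11_13 : cellOK T13 13 13 8 ((11 * 13 + 1) / 8) 11 = true := by
  decide +kernel
def c_13_8_11_5 : cellOK T13 13 5 8 ((11 * 5 + 1) / 8) 11 = true := by
  decide +kernel
theorem gg_13_8_11 : GG T13 13 8 11 := gg_of (l := [45, 37, 29, 21, 13, 5]) (by decide +kernel)
  ⟨c_13_8_11_45, c_13_8_11_37, c_13_8_11_29, c_13_8_11_21, c_13_8_11_13, c_13_8_11_5, trivial⟩

theorem gg_13_8_12 : GG T13 13 8 12 := gg_of (l := []) (by decide +kernel)
  trivial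

def c_13_9_4_56 : cellOK T13 13 56 9 ((4 * 56 + 1) / 9) 4 = true := by
  decide +kernel
def c_13_9_4_47 : cellOK T13 13 47 9 ((4 * 47 + 1) / 9) 4 = true := by
  decide +kernel
def c_13_9_4_38 : cellOK T13 13 38 9 ((4 * 38 + 1) / 9) 4 = true := by
  decide +kernel
def c_13_9_4_29 : cellOK T13 13 29 9 ((4 * 29 + 1) / 9) 4 = true := by
  decide +kernel
def c_13_9_4_20 : cellOK T13 13 20 9 ((4 * 20 + 1) / 9) 4 = true := by
  decide +kernel
def c_13_9_4_11 : cellOK T13 13 11 9 ((4 * 11 + 1) / 9) 4 = true := by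
  decide +kernel
def c_13_9_4_2 : cellOK T13 13 2 9 ((4 * 2 + 1) / 9) 4 = true := by
  decide +kernel
theorem gg_13_9_4 : GG T13 13 9 4 := gg_of (l := [56, 47, 38, 29, 20, 11, 2]) (by decide +kernel)
  ⟨c_13_9_4_56, c_13_9_4_47, c_13_9_4_38, c_13_9_4_29, c_13_9_4_20, c_13_9_4_11, c_13_9_4_2, trivial⟩

def c_13_9_5_52 : cellOK T13 13 52 9 ((5 * 52 + 1) / 9) 5 = true := by
  decide +kernel
def c_13_9_5_43 : cellOK T13 13 43 9 ((5 * 43 + 1) / 9) 5 = true := by
  decide +kernel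
def c_13_9_5_34 : cellOK T13 13 34 9 ((5 * 34 + 1) / 9) 5 = true := by
  decide +kernel
def c_13_9_5_25 : cellOK T13 13 25 9 ((5 * 25 + 1) / 9) 5 = true := by
  decide +kernel
def c_13_9_5_16 : cellOK T13 13 16 9 ((5 * 16 + 1) / 9) 5 = true := by
  decide +kernel
def c_13_9_5_7 : cellOK T13 13 7 9 ((5 * 7 + 1) / 9) 5 = true := by
  decide +kernel
theorem gg_13_9_5 : GG T13 13 9 5 := gg_of (l := [52, 43, 34, 25, 16, 7]) (by decide +kernel)
  ⟨c_13_9_5_52, c_13_9_5_43, c_13_9_5_34, c_13_9_5_25, c_13_9_5_16, c_13_9_5_7, trivial⟩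

theorem gg_13_9_6 : GG T13 13 9 6 := gg_of (l := []) (by decide +kernel)
  trivial

def c_13_9_7_50 : cellOK T13 13 50 9 ((7 * 50 + 1) / 9) 7 = true := by
  decide +kernel
def c_13_9_7_41 : cellOK T13 13 41 9 ((7 * 41 + 1) / 9) 7 = true := by
  decide +kernel
def c_13_9_7_32 : cellOK T13 13 32 9 ((7 * 32 + 1) / 9) 7 = true := by
  decide +kernel
def c_13_9_7_23 : cellOK T13 13 23 9 ((7 * 23 + 1) / 9) 7 = true := by
  decide +kernel
def c_13_9_7_14 : cellOK T13 13 14 9 ((7 * 14 + 1) / 9) 7 = true := by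
  decide +kernel
def c_13_9_7_5 : cellOK T13 13 5 9 ((7 * 5 + 1) / 9) 7 = true := by
  decide +kernel
theorem gg_13_9_7 : GG T13 13 9 7 := gg_of (l := [50, 41, 32, 23, 14, 5]) (by decide +kernel)
  ⟨c_13_9_7_50, c_13_9_7_41, c_13_9_7_32, c_13_9_7_23, c_13_9_7_14, c_13_9_7_5, trivial⟩

def c_13_9_8_55 : cellOK T13 13 55 9 ((8 * 55 + 1) / 9) 8 = true := by
  decide +kernel
def c_13_9_8_46 : cellOK T13 13 46 9 ((8 * 46 + 1) / 9) 8 = true := by
  decide +kernel
def c_13_9_8_37 : cellOK T13 13 37 9 ((8 * 37 + 1) / 9) 8 = true := by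
  decide +kernel
def c_13_9_8_28 : cellOK T13 13 28 9 ((8 * 28 + 1) / 9) 8 = true := by
  decide +kernel
def c_13_9_8_19 : cellOK T13 13 19 9 ((8 * 19 + 1) / 9) 8 = true := by
  decide +kernel
def c_13_9_8_10 : cellOK T13 13 10 9 ((8 * 10 + 1) / 9) 8 = true := by
  decide +kernel
def c_13_9_8_1 : cellOK T13 13 1 9 ((8 * 1 + 1) / 9) 8 = true := by
  decide +kernel
theorem gg_13_9_8 : GG T13 13 9 8 := gg_of (l := [55, 46, 37, 28, 19, 10, 1]) (by decide +kernel)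
  ⟨c_13_9_8_55, c_13_9_8_46, c_13_9_8_37, c_13_9_8_28, c_13_9_8_19, c_13_9_8_10, c_13_9_8_1, trivial⟩

theorem gg_13_9_9 : GG T13 13 9 9 := gg_of (l := []) (by decide +kernel)
  trivial

def c_13_9_10_53 : cellOK T13 13 53 9 ((10 * 53 + 1) / 9) 10 = true := by
  decide +kernel
def c_13_9_10_44 : cellOK T13 13 44 9 ((10 * 44 + 1) / 9) 10 = true := by
  decide +kernel
def c_13_9_10_35 : cellOK T13 13 35 9 ((10 * 35 + 1) / 9) 10 = true := by
  decide +kernel
def c_13_9_10_26 : cellOK T13 13 26 9 ((10 * 26 + 1) / 9) 10 = true := by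
  decide +kernel
def c_13_9_10_17 : cellOK T13 13 17 9 ((10 * 17 + 1) / 9) 10 = true := by
  decide +kernel
def c_13_9_10_8 : cellOK T13 13 8 9 ((10 * 8 + 1) / 9) 10 = true := by
  decide +kernel
theorem gg_13_9_10 : GG T13 13 9 10 := gg_of (l := [53, 44, 35, 26, 17, 8]) (by decide +kernel)
  ⟨c_13_9_10_53, c_13_9_10_44, c_13_9_10_35, c_13_9_10_26, c_13_9_10_17, c_13_9_10_8, trivial⟩

def c_13_9_11_58 : cellOK T13 13 58 9 ((11 * 58 + 1) / 9) 11 = true := by
  decide +kernel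
def c_13_9_11_49 : cellOK T13 13 49 9 ((11 * 49 + 1) / 9) 11 = true := by
  decide +kernel
def c_13_9_11_40 : cellOK T13 13 40 9 ((11 * 40 + 1) / 9) 11 = true := by
  decide +kernel
def c_13_9_11_31 : cellOK T13 13 31 9 ((11 * 31 + 1) / 9) 11 = true := by
  decide +kernel
def c_13_9_11_22 : cellOK T13 13 22 9 ((11 * 22 + 1) / 9) 11 = true := by
  decide +kernel
def c_13_9_11_13 : cellOK T13 13 13 9 ((11 * 13 + 1) / 9) 11 = true := by
  decide +kernel
def c_13_9_11_4 : cellOK T13 13 4 9 ((11 * 4 + 1) / 9) 11 = true := by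
  decide +kernel
theorem gg_13_9_11 : GG T13 13 9 11 := gg_of (l := [58, 49, 40, 31, 22, 13, 4]) (by decide +kernel)
  ⟨c_13_9_11_58, c_13_9_11_49, c_13_9_11_40, c_13_9_11_31, c_13_9_11_22, c_13_9_11_13, c_13_9_11_4, trivial⟩

theorem gg_13_9_12 : GG T13 13 9 12 := gg_of (l := []) (by decide +kernel)
  trivial

def c_13_10_3_63 : cellOK T13 13 63 10 ((3 * 63 + 1) / 10) 3 = true := by
  decide +kernel
def c_13_10_3_53 : cellOK T13 13 53 10 ((3 * 53 + 1) / 10) 3 = true := by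
  decide +kernel
def c_13_10_3_43 : cellOK T13 13 43 10 ((3 * 43 + 1) / 10) 3 = true := by
  decide +kernel
def c_13_10_3_33 : cellOK T13 13 33 10 ((3 * 33 + 1) / 10) 3 = true := by
  decide +kernel
def c_13_10_3_23 : cellOK T13 13 23 10 ((3 * 23 + 1) / 10) 3 = true := by
  decide +kernel
def c_13_10_3_13 : cellOK T13 13 13 10 ((3 * 13 + 1) / 10) 3 = true := by
  decide +kernel
def c_13_10_3_3 : cellOK T13 13 3 10 ((3 * 3 + 1) / 10) 3 = true := by
  decide +kernel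
theorem gg_13_10_3 : GG T13 13 10 3 := gg_of (l := [63, 53, 43, 33, 23, 13, 3]) (by decide +kernel)
  ⟨c_13_10_3_63, c_13_10_3_53, c_13_10_3_43, c_13_10_3_33, c_13_10_3_23, c_13_10_3_13, c_13_10_3_3, trivial⟩

theorem gg_13_10_4 : GG T13 13 10 4 := gg_of (l := []) (by decide +kernel)
  trivial

theorem gg_13_10_5 : GG T13 13 10 5 := gg_of (l := []) (by decide +kernel)
  trivial

theorem gg_13_10_6 : GG T13 13 10 6 := gg_of (l := []) (by decide +kernel)
  trivial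

def c_13_10_7_57 : cellOK T13 13 57 10 ((7 * 57 + 1) / 10) 7 = true := by
  decide +kernel
def c_13_10_7_47 : cellOK T13 13 47 10 ((7 * 47 + 1) / 10) 7 = true := by
  decide +kernel
def c_13_10_7_37 : cellOK T13 13 37 10 ((7 * 37 + 1) / 10) 7 = true := by
  decide +kernel
def c_13_10_7_27 : cellOK T13 13 27 10 ((7 * 27 + 1) / 10) 7 = true := by
  decide +kernel
def c_13_10_7_17 : cellOK T13 13 17 10 ((7 * 17 + 1) / 10) 7 = true := by
  decide +kernel
def c_13_10_7_7 : cellOK T13 13 7 10 ((7 * 7 + 1) / 10) 7 = true := by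
  decide +kernel
theorem gg_13_10_7 : GG T13 13 10 7 := gg_of (l := [57, 47, 37, 27, 17, 7]) (by decide +kernel)
  ⟨c_13_10_7_57, c_13_10_7_47, c_13_10_7_37, c_13_10_7_27, c_13_10_7_17, c_13_10_7_7, trivial⟩

theorem gg_13_10_8 : GG T13 13 10 8 := gg_of (l := []) (by decide +kernel)
  trivial

def c_13_10_9_61 : cellOK T13 13 61 10 ((9 * 61 + 1) / 10) 9 = true := by
  decide +kernel
def c_13_10_9_51 : cellOK T13 13 51 10 ((9 * 51 + 1) / 10) 9 = true := by
  decide +kernel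
def c_13_10_9_41 : cellOK T13 13 41 10 ((9 * 41 + 1) / 10) 9 = true := by
  decide +kernel
def c_13_10_9_31 : cellOK T13 13 31 10 ((9 * 31 + 1) / 10) 9 = true := by
  decide +kernel
def c_13_10_9_21 : cellOK T13 13 21 10 ((9 * 21 + 1) / 10) 9 = true := by
  decide +kernel
def c_13_10_9_11 : cellOK T13 13 11 10 ((9 * 11 + 1) / 10) 9 = true := by
  decide +kernel
def c_13_10_9_1 : cellOK T13 13 1 10 ((9 * 1 + 1) / 10) 9 = true := by
  decide +kernel
theorem gg_13_10_9 : GG T13 13 10 9 := gg_of (l := [61, 51, 41, 31, 21, 11, 1]) (by decide +kernel)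
  ⟨c_13_10_9_61, c_13_10_9_51, c_13_10_9_41, c_13_10_9_31, c_13_10_9_21, c_13_10_9_11, c_13_10_9_1, trivial⟩

theorem gg_13_10_10 : GG T13 13 10 10 := gg_of (l := []) (by decide +kernel)
  trivial

def c_13_10_11_59 : cellOK T13 13 59 10 ((11 * 59 + 1) / 10) 11 = true := by
  decide +kernel
def c_13_10_11_49 : cellOK T13 13 49 10 ((11 * 49 + 1) / 10) 11 = true := by
  decide +kernel
def c_13_10_11_39 : cellOK T13 13 39 10 ((11 * 39 + 1) / 10) 11 = true := by
  decide +kernel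
def c_13_10_11_29 : cellOK T13 13 29 10 ((11 * 29 + 1) / 10) 11 = true := by
  decide +kernel
def c_13_10_11_19 : cellOK T13 13 19 10 ((11 * 19 + 1) / 10) 11 = true := by
  decide +kernel
def c_13_10_11_9 : cellOK T13 13 9 10 ((11 * 9 + 1) / 10) 11 = true := by
  decide +kernel
theorem gg_13_10_11 : GG T13 13 10 11 := gg_of (l := [59, 49, 39, 29, 19, 9]) (by decide +kernel)
  ⟨c_13_10_11_59, c_13_10_11_49, c_13_10_11_39, c_13_10_11_29, c_13_10_11_19, c_13_10_11_9, trivial⟩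

end Pool.Agent.Helper55.FT
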