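import Pool.Agent.Helper55.FT.Tab

set_option autoImplicit false

/-!
# Cell checks
-/

namespace Pool.Agent.Helper55.FT

set_option maxRecDepth 100000
set_option linter.defProp false

theorem gg_13_10_12 : GG T13 13 10 12 := gg_of (l := []) (by decide +kernel)
  trivial

def c_13_11_2_71 : cellOK T13 13 71 11 ((2 * 71 + 1) / 11) 2 = true := by
  decide +kernel
def c_13_11_2_60 : cellOK T13 13 60 11 ((2 * 60 + 1) / 11) 2 = true := by
  decide +kernel
def c_13_11_2_49 : cellOK T13 13 49 11 ((2 * 49 + 1) / 11) 2 = true := by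
  decide +kernel
def c_13_11_2_38 : cellOK T13 13 38 11 ((2 * 38 + 1) / 11) 2 = true := by
  decide +kernel
def c_13_11_2_27 : cellOK T13 13 27 11 ((2 * 27 + 1) / 11) 2 = true := by
  decide +kernel
def c_13_11_2_16 : cellOK T13 13 16 11 ((2 * 16 + 1) / 11) 2 = true := by
  decide +kernel
def c_13_11_2_5 : cellOK T13 13 5 11 ((2 * 5 + 1) / 11) 2 = true := by
  decide +kernel
theorem gg_13_11_2 : GG T13 13 11 2 := gg_of (l := [71, 60, 49, 38, 27, 16, 5]) (by decide +kernel)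
  ⟨c_13_11_2_71, c_13_11_2_60, c_13_11_2_49, c_13_11_2_38, c_13_11_2_27, c_13_11_2_16, c_13_11_2_5, trivial⟩

def c_13_11_3_62 : cellOK T13 13 62 11 ((3 * 62 + 1) / 11) 3 = true := by
  decide +kernel
def c_13_11_3_51 : cellOK T13 13 51 11 ((3 * 51 + 1) / 11) 3 = true := by
  decide +kernel
def c_13_11_3_40 : cellOK T13 13 40 11 ((3 * 40 + 1) / 11) 3 = true := by
  decide +kernel
def c_13_11_3_29 : cellOK T13 13 29 11 ((3 * 29 + 1) / 11) 3 = true := by
  decide +kernel
def c_13_11_3_18 : cellOK T13 13 18 11 ((3 * 18 + 1) / 11) 3 = true := by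
  decide +kernel
def c_13_11_3_7 : cellOK T13 13 7 11 ((3 * 7 + 1) / 11) 3 = true := by
  decide +kernel
theorem gg_13_11_3 : GG T13 13 11 3 := gg_of (l := [62, 51, 40, 29, 18, 7]) (by decide +kernel)
  ⟨c_13_11_3_62, c_13_11_3_51, c_13_11_3_40, c_13_11_3_29, c_13_11_3_18, c_13_11_3_7, trivial⟩

def c_13_11_4_63 : cellOK T13 13 63 11 ((4 * 63 + 1) / 11) 4 = true := by
  decide +kernel
def c_13_11_4_52 : cellOK T13 13 52 11 ((4 * 52 + 1) / 11) 4 = true := by
  decide +kernel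
def c_13_11_4_41 : cellOK T13 13 41 11 ((4 * 41 + 1) / 11) 4 = true := by
  decide +kernel
def c_13_11_4_30 : cellOK T13 13 30 11 ((4 * 30 + 1) / 11) 4 = true := by
  decide +kernel
def c_13_11_4_19 : cellOK T13 13 19 11 ((4 * 19 + 1) / 11) 4 = true := by
  decide +kernel
def c_13_11_4_8 : cellOK T13 13 8 11 ((4 * 8 + 1) / 11) 4 = true := by
  decide +kernel
theorem gg_13_11_4 : GG T13 13 11 4 := gg_of (l := [63, 52, 41, 30, 19, 8]) (by decide +kernel)
  ⟨c_13_11_4_63, c_13_11_4_52, c_13_11_4_41, c_13_11_4_30, c_13_11_4_19, c_13_11_4_8, trivial⟩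

def c_13_11_5_68 : cellOK T13 13 68 11 ((5 * 68 + 1) / 11) 5 = true := by
  decide +kernel
def c_13_11_5_57 : cellOK T13 13 57 11 ((5 * 57 + 1) / 11) 5 = true := by
  decide +kernel
def c_13_11_5_46 : cellOK T13 13 46 11 ((5 * 46 + 1) / 11) 5 = true := by
  decide +kernel
def c_13_11_5_35 : cellOK T13 13 35 11 ((5 * 35 + 1) / 11) 5 = true := by
  decide +kernel
def c_13_11_5_24 : cellOK T13 13 24 11 ((5 * 24 + 1) / 11) 5 = true := by
  decide +kernel
def c_13_11_5_13 : cellOK T13 13 13 11 ((5 * 13 + 1) / 11) 5 = true := by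
  decide +kernel
def c_13_11_5_2 : cellOK T13 13 2 11 ((5 * 2 + 1) / 11) 5 = true := by
  decide +kernel
theorem gg_13_11_5 : GG T13 13 11 5 := gg_of (l := [68, 57, 46, 35, 24, 13, 2]) (by decide +kernel)
  ⟨c_13_11_5_68, c_13_11_5_57, c_13_11_5_46, c_13_11_5_35, c_13_11_5_24, c_13_11_5_13, c_13_11_5_2, trivial⟩

def c_13_11_6_64 : cellOK T13 13 64 11 ((6 * 64 + 1) / 11) 6 = true := by
  decide +kernel
def c_13_11_6_53 : cellOK T13 13 53 11 ((6 * 53 + 1) / 11) 6 = true := by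
  decide +kernel
def c_13_11_6_42 : cellOK T13 13 42 11 ((6 * 42 + 1) / 11) 6 = true := by
  decide +kernel
def c_13_11_6_31 : cellOK T13 13 31 11 ((6 * 31 + 1) / 11) 6 = true := by
  decide +kernel
def c_13_11_6_20 : cellOK T13 13 20 11 ((6 * 20 + 1) / 11) 6 = true := by
  decide +kernel
def c_13_11_6_9 : cellOK T13 13 9 11 ((6 * 9 + 1) / 11) 6 = true := by
  decide +kernel
theorem gg_13_11_6 : GG T13 13 11 6 := gg_of (l := [64, 53, 42, 31, 20, 9]) (by decide +kernel)
  ⟨c_13_11_6_64, c_13_11_6_53, c_13_11_6_42, c_13_11_6_31, c_13_11_6_20, c_13_11_6_9, trivial⟩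

def c_13_11_7_69 : cellOK T13 13 69 11 ((7 * 69 + 1) / 11) 7 = true := by
  decide +kernel
def c_13_11_7_58 : cellOK T13 13 58 11 ((7 * 58 + 1) / 11) 7 = true := by
  decide +kernel
def c_13_11_7_47 : cellOK T13 13 47 11 ((7 * 47 + 1) / 11) 7 = true := by
  decide +kernel
def c_13_11_7_36 : cellOK T13 13 36 11 ((7 * 36 + 1) / 11) 7 = true := by
  decide +kernel
def c_13_11_7_25 : cellOK T13 13 25 11 ((7 * 25 + 1) / 11) 7 = true := by
  decide +kernel
def c_13_11_7_14 : cellOK T13 13 14 11 ((7 * 14 + 1) / 11) 7 = true := by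
  decide +kernel
def c_13_11_7_3 : cellOK T13 13 3 11 ((7 * 3 + 1) / 11) 7 = true := by
  decide +kernel
theorem gg_13_11_7 : GG T13 13 11 7 := gg_of (l := [69, 58, 47, 36, 25, 14, 3]) (by decide +kernel)
  ⟨c_13_11_7_69, c_13_11_7_58, c_13_11_7_47, c_13_11_7_36, c_13_11_7_25, c_13_11_7_14, c_13_11_7_3, trivial⟩

def c_13_11_8_70 : cellOK T13 13 70 11 ((8 * 70 + 1) / 11) 8 = true := by
  decide +kernel
def c_13_11_8_59 : cellOK T13 13 59 11 ((8 * 59 + 1) / 11) 8 = true := by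
  decide +kernel
def c_13_11_8_48 : cellOK T13 13 48 11 ((8 * 48 + 1) / 11) 8 = true := by
  decide +kernel
def c_13_11_8_37 : cellOK T13 13 37 11 ((8 * 37 + 1) / 11) 8 = true := by
  decide +kernel
def c_13_11_8_26 : cellOK T13 13 26 11 ((8 * 26 + 1) / 11) 8 = true := by
  decide +kernel
def c_13_11_8_15 : cellOK T13 13 15 11 ((8 * 15 + 1) / 11) 8 = true := by
  decide +kernel
def c_13_11_8_4 : cellOK T13 13 4 11 ((8 * 4 + 1) / 11) 8 = true := by
  decide +kernel
theorem gg_13_11_8 : GG T13 13 11 8 := gg_of (l := [70, 59, 48, 37, 26, 15, 4]) (by decide +kernel)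
  ⟨c_13_11_8_70, c_13_11_8_59, c_13_11_8_48, c_13_11_8_37, c_13_11_8_26, c_13_11_8_15, c_13_11_8_4, trivial⟩

def c_13_11_9_61 : cellOK T13 13 61 11 ((9 * 61 + 1) / 11) 9 = true := by
  decide +kernel
def c_13_11_9_50 : cellOK T13 13 50 11 ((9 * 50 + 1) / 11) 9 = true := by
  decide +kernel
def c_13_11_9_39 : cellOK T13 13 39 11 ((9 * 39 + 1) / 11) 9 = true := by
  decide +kernel
def c_13_11_9_28 : cellOK T13 13 28 11 ((9 * 28 + 1) / 11) 9 = true := by
  decide +kernel
def c_13_11_9_17 : cellOK T13 13 17 11 ((9 * 17 + 1) / 11) 9 = true := by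
  decide +kernel
def c_13_11_9_6 : cellOK T13 13 6 11 ((9 * 6 + 1) / 11) 9 = true := by
  decide +kernel
theorem gg_13_11_9 : GG T13 13 11 9 := gg_of (l := [61, 50, 39, 28, 17, 6]) (by decide +kernel)
  ⟨c_13_11_9_61, c_13_11_9_50, c_13_11_9_39, c_13_11_9_28, c_13_11_9_17, c_13_11_9_6, trivial⟩

def c_13_11_10_67 : cellOK T13 13 67 11 ((10 * 67 + 1) / 11) 10 = true := by
  decide +kernel
def c_13_11_10_56 : cellOK T13 13 56 11 ((10 * 56 + 1) / 11) 10 = true := by
  decide +kernel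
def c_13_11_10_45 : cellOK T13 13 45 11 ((10 * 45 + 1) / 11) 10 = true := by
  decide +kernel
def c_13_11_10_34 : cellOK T13 13 34 11 ((10 * 34 + 1) / 11) 10 = true := by
  decide +kernel
def c_13_11_10_23 : cellOK T13 13 23 11 ((10 * 23 + 1) / 11) 10 = true := by
  decide +kernel
def c_13_11_10_12 : cellOK T13 13 12 11 ((10 * 12 + 1) / 11) 10 = true := by
  decide +kernel
def c_13_11_10_1 : cellOK T13 13 1 11 ((10 * 1 + 1) / 11) 10 = true := by
  decide +kernel
theorem gg_13_11_10 : GG T13 13 11 10 := gg_of (l := [67, 56, 45, 34, 23, 12, 1]) (by decide +kernel)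
  ⟨c_13_11_10_67, c_13_11_10_56, c_13_11_10_45, c_13_11_10_34, c_13_11_10_23, c_13_11_10_12, c_13_11_10_1, trivial⟩

theorem gg_13_11_11 : GG T13 13 11 11 := gg_of (l := []) (by decide +kernel)
  trivial

def c_13_11_12_65 : cellOK T13 13 65 11 ((12 * 65 + 1) / 11) 12 = true := by
  decide +kernel
def c_13_11_12_54 : cellOK T13 13 54 11 ((12 * 54 + 1) / 11) 12 = true := by
  decide +kernel
def c_13_11_12_43 : cellOK T13 13 43 11 ((12 * 43 + 1) / 11) 12 = true := by
  decide +kernel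
def c_13_11_12_32 : cellOK T13 13 32 11 ((12 * 32 + 1) / 11) 12 = true := by
  decide +kernel
def c_13_11_12_21 : cellOK T13 13 21 11 ((12 * 21 + 1) / 11) 12 = true := by
  decide +kernel
def c_13_11_12_10 : cellOK T13 13 10 11 ((12 * 10 + 1) / 11) 12 = true := by
  decide +kernel
theorem gg_13_11_12 : GG T13 13 11 12 := gg_of (l := [65, 54, 43, 32, 21, 10]) (by decide +kernel)
  ⟨c_13_11_12_65, c_13_11_12_54, c_13_11_12_43, c_13_11_12_32, c_13_11_12_21, c_13_11_12_10, trivial⟩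

def c_13_12_1_71 : cellOK T13 13 71 12 ((1 * 71 + 1) / 12) 1 = true := by
  decide +kernel
def c_13_12_1_59 : cellOK T13 13 59 12 ((1 * 59 + 1) / 12) 1 = true := by
  decide +kernel
def c_13_12_1_47 : cellOK T13 13 47 12 ((1 * 47 + 1) / 12) 1 = true := by
  decide +kernel
def c_13_12_1_35 : cellOK T13 13 35 12 ((1 * 35 + 1) / 12) 1 = true := by
  decide +kernel
def c_13_12_1_23 : cellOK T13 13 23 12 ((1 * 23 + 1) / 12) 1 = true := by
  decide +kernel
def c_13_12_1_11 : cellOK T13 13 11 12 ((1 * 11 + 1) / 12) 1 = true := by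
  decide +kernel
theorem gg_13_12_1 : GG T13 13 12 1 := gg_of (l := [71, 59, 47, 35, 23, 11]) (by decide +kernel)
  ⟨c_13_12_1_71, c_13_12_1_59, c_13_12_1_47, c_13_12_1_35, c_13_12_1_23, c_13_12_1_11, trivial⟩

theorem gg_13_12_2 : GG T13 13 12 2 := gg_of (l := []) (by decide +kernel)
  trivial

theorem gg_13_12_3 : GG T13 13 12 3 := gg_of (l := []) (by decide +kernel)
  trivial

theorem gg_13_12_4 : GG T13 13 12 4 := gg_of (l := []) (by decide +kernel)
  trivial

def c_13_12_5_67 : cellOK T13 13 67 12 ((5 * 67 + 1) / 12) 5 = true := by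
  decide +kernel
def c_13_12_5_55 : cellOK T13 13 55 12 ((5 * 55 + 1) / 12) 5 = true := by
  decide +kernel
def c_13_12_5_43 : cellOK T13 13 43 12 ((5 * 43 + 1) / 12) 5 = true := by
  decide +kernel
def c_13_12_5_31 : cellOK T13 13 31 12 ((5 * 31 + 1) / 12) 5 = true := by
  decide +kernel
def c_13_12_5_19 : cellOK T13 13 19 12 ((5 * 19 + 1) / 12) 5 = true := by
  decide +kernel
def c_13_12_5_7 : cellOK T13 13 7 12 ((5 * 7 + 1) / 12) 5 = true := by
  decide +kernel
theorem gg_13_12_5 : GG T13 13 12 5 := gg_of (l := [67, 55, 43, 31, 19, 7]) (by decide +kernel)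
  ⟨c_13_12_5_67, c_13_12_5_55, c_13_12_5_43, c_13_12_5_31, c_13_12_5_19, c_13_12_5_7, trivial⟩

theorem gg_13_12_6 : GG T13 13 12 6 := gg_of (l := []) (by decide +kernel)
  trivial

def c_13_12_7_77 : cellOK T13 13 77 12 ((7 * 77 + 1) / 12) 7 = true := by
  decide +kernel
def c_13_12_7_65 : cellOK T13 13 65 12 ((7 * 65 + 1) / 12) 7 = true := by
  decide +kernel
def c_13_12_7_53 : cellOK T13 13 53 12 ((7 * 53 + 1) / 12) 7 = true := by
  decide +kernel
def c_13_12_7_41 : cellOK T13 13 41 12 ((7 * 41 + 1) / 12) 7 = true := by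
  decide +kernel
def c_13_12_7_29 : cellOK T13 13 29 12 ((7 * 29 + 1) / 12) 7 = true := by
  decide +kernel
def c_13_12_7_17 : cellOK T13 13 17 12 ((7 * 17 + 1) / 12) 7 = true := by
  decide +kernel
def c_13_12_7_5 : cellOK T13 13 5 12 ((7 * 5 + 1) / 12) 7 = true := by
  decide +kernel
theorem gg_13_12_7 : GG T13 13 12 7 := gg_of (l := [77, 65, 53, 41, 29, 17, 5]) (by decide +kernel)
  ⟨c_13_12_7_77, c_13_12_7_65, c_13_12_7_53, c_13_12_7_41, c_13_12_7_29, c_13_12_7_17, c_13_12_7_5, trivial⟩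

theorem gg_13_12_8 : GG T13 13 12 8 := gg_of (l := []) (by decide +kernel)
  trivial

theorem gg_13_12_9 : GG T13 13 12 9 := gg_of (l := []) (by decide +kernel)
  trivial

theorem gg_13_12_10 : GG T13 13 12 10 := gg_of (l := []) (by decide +kernel)
  trivial

def c_13_12_11_73 : cellOK T13 13 73 12 ((11 * 73 + 1) / 12) 11 = true := by
  decide +kernel
def c_13_12_11_61 : cellOK T13 13 61 12 ((11 * 61 + 1) / 12) 11 = true := by
  decide +kernel
def c_13_12_11_49 : cellOK T13 13 49 12 ((11 * 49 + 1) / 12) 11 = true := by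
  decide +kernel
def c_13_12_11_37 : cellOK T13 13 37 12 ((11 * 37 + 1) / 12) 11 = true := by
  decide +kernel
def c_13_12_11_25 : cellOK T13 13 25 12 ((11 * 25 + 1) / 12) 11 = true := by
  decide +kernel
def c_13_12_11_13 : cellOK T13 13 13 12 ((11 * 13 + 1) / 12) 11 = true := by
  decide +kernel
def c_13_12_11_1 : cellOK T13 13 1 12 ((11 * 1 + 1) / 12) 11 = true := by
  decide +kernel
theorem gg_13_12_11 : GG T13 13 12 11 := gg_of (l := [73, 61, 49, 37, 25, 13, 1]) (by decide +kernel)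
  ⟨c_13_12_11_73, c_13_12_11_61, c_13_12_11_49, c_13_12_11_37, c_13_12_11_25, c_13_12_11_13, c_13_12_11_1, trivial⟩

theorem gg_13_12_12 : GG T13 13 12 12 := gg_of (l := []) (by decide +kernel)
  trivial

end Pool.Agent.Helper55.FT
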