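import Pool.Agent.Helper55.FT.Q13x1
import Pool.Agent.Helper55.FT.Q13x2
import Pool.Agent.Helper55.FT.Q13x3

set_option autoImplicit false

/-!
# Cell checks
-/

namespace Pool.Agent.Helper55.FT

set_option maxRecDepth 100000
set_option linter.defProp false

theorem rows_13 : ∀ g, g < 13 → ∀ g', g' < 13 → 13 ≤ g + g' → GG T13 13 g g' := by
  intro g hg g' hg' hs
  interval_cases g
  · omega
  · interval_cases g'
    · omega
    · omega
    · omega
    · omega
    · omega
    · omega
    · omega
    · omega
    · omega
    · omega
    · omega
    · omega
    · exact gg_13_1_12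
  · interval_cases g'
    · omega
    · omega
    · omega
    · omega
    · omega
    · omega
    · omega
    · omega
    · omega
    · omega
    · omega
    · exact gg_13_2_11
    · exact gg_13_2_12
  · interval_cases g'
    · omega
    · omega
    · omega
    · omega
    · omega
    · omega
    · omega
    · omega
    · omega
    · omega
    · exact gg_13_3_10
    · exact gg_13_3_11
    · exact gg_13_3_12
  · interval_cases g'
    · omega
    · omega
    · omega
    · omega
    · omega
    · omega
    · omega
    · omega
    · omega
    · exact gg_13_4_9
    · exact gg_13_4_10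
    · exact gg_13_4_11
    · exact gg_13_4_12
  · interval_cases g'
    · omega
    · omega
    · omega
    · omega
    · omega
    · omega
    · omega
    · omega
    · exact gg_13_5_8
    · exact gg_13_5_9
    · exact gg_13_5_10
    · exact gg_13_5_11
    · exact gg_13_5_12
  · interval_cases g'
    · omega
    · omega
    · omega
    · omega
    · omega
    · omega
    · omega
    · exact gg_13_6_7
    · exact gg_13_6_8
    · exact gg_13_6_9
    · exact gg_13_6_10
    · exact gg_13_6_11
    · exact gg_13_6_12
  · interval_cases g'
    · omega
    · omega
    · omega
    · omega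
    · omega
    · omega
    · exact gg_13_7_6
    · exact gg_13_7_7
    · exact gg_13_7_8
    · exact gg_13_7_9
    · exact gg_13_7_10
    · exact gg_13_7_11
    · exact gg_13_7_12
  · interval_cases g'
    · omega
    · omega
    · omega
    · omega
    · omega
    · exact gg_13_8_5
    · exact gg_13_8_6
    · exact gg_13_8_7
    · exact gg_13_8_8
    · exact gg_13_8_9
    · exact gg_13_8_10
    · exact gg_13_8_11
    · exact gg_13_8_12
  · interval_cases g'
    · omega
    · omega
    · omega
    · omega
    · exact gg_13_9_4
    · exact gg_13_9_5
    · exact gg_13_9_6
    · exact gg_13_9_7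
    · exact gg_13_9_8
    · exact gg_13_9_9
    · exact gg_13_9_10
    · exact gg_13_9_11
    · exact gg_13_9_12
  · interval_cases g'
    · omega
    · omega
    · omega
    · exact gg_13_10_3
    · exact gg_13_10_4
    · exact gg_13_10_5
    · exact gg_13_10_6
    · exact gg_13_10_7
    · exact gg_13_10_8
    · exact gg_13_10_9
    · exact gg_13_10_10
    · exact gg_13_10_11
    · exact gg_13_10_12
  · interval_cases g'
    · omega
    · omega
    · exact gg_13_11_2
    · exact gg_13_11_3
    · exact gg_13_11_4
    · exact gg_13_11_5
    · exact gg_13_11_6
    · exact gg_13_11_7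
    · exact gg_13_11_8
    · exact gg_13_11_9
    · exact gg_13_11_10
    · exact gg_13_11_11
    · exact gg_13_11_12
  · interval_cases g'
    · omega
    · exact gg_13_12_1
    · exact gg_13_12_2
    · exact gg_13_12_3
    · exact gg_13_12_4
    · exact gg_13_12_5
    · exact gg_13_12_6
    · exact gg_13_12_7
    · exact gg_13_12_8
    · exact gg_13_12_9
    · exact gg_13_12_10
    · exact gg_13_12_11
    · exact gg_13_12_12

end Pool.Agent.Helper55.FT
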