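import Pool.Agent.Helper55.FT.TabB

set_option autoImplicit false

/-!
# Cell checks
-/

namespace Pool.Agent.Helper55.FT

set_option maxRecDepth 100000
set_option linter.defProp false

def c_17_1_16_8 : cellOK T17 17 8 1 ((16 * 8 + 1) / 1) 16 = true := by
  decide +kernel
def c_17_1_16_7 : cellOK T17 17 7 1 ((16 * 7 + 1) / 1) 16 = true := by
  decide +kernel
def c_17_1_16_6 : cellOK T17 17 6 1 ((16 * 6 + 1) / 1) 16 = true := by
  decide +kernel
def c_17_1_16_5 : cellOK T17 17 5 1 ((16 * 5 + 1) / 1) 16 = true := by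
  decide +kernel
def c_17_1_16_4 : cellOK T17 17 4 1 ((16 * 4 + 1) / 1) 16 = true := by
  decide +kernel
def c_17_1_16_3 : cellOK T17 17 3 1 ((16 * 3 + 1) / 1) 16 = true := by
  decide +kernel
def c_17_1_16_2 : cellOK T17 17 2 1 ((16 * 2 + 1) / 1) 16 = true := by
  decide +kernel
def c_17_1_16_1 : cellOK T17 17 1 1 ((16 * 1 + 1) / 1) 16 = true := by
  decide +kernel
def c_17_1_16_0 : cellOK T17 17 0 1 ((16 * 0 + 1) / 1) 16 = true := by
  decide +kernel
theorem gg_17_1_16 : GG T17 17 1 16 := gg_of (l := [8, 7, 6, 5, 4, 3, 2, 1, 0]) (by decide +kernel)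
  ⟨c_17_1_16_8, c_17_1_16_7, c_17_1_16_6, c_17_1_16_5, c_17_1_16_4, c_17_1_16_3, c_17_1_16_2, c_17_1_16_1, c_17_1_16_0, trivial⟩

def c_17_2_15_15 : cellOK T17 17 15 2 ((15 * 15 + 1) / 2) 15 = true := by
  decide +kernel
def c_17_2_15_13 : cellOK T17 17 13 2 ((15 * 13 + 1) / 2) 15 = true := by
  decide +kernel
def c_17_2_15_11 : cellOK T17 17 11 2 ((15 * 11 + 1) / 2) 15 = true := by
  decide +kernel
def c_17_2_15_9 : cellOK T17 17 9 2 ((15 * 9 + 1) / 2) 15 = true := by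
  decide +kernel
def c_17_2_15_7 : cellOK T17 17 7 2 ((15 * 7 + 1) / 2) 15 = true := by
  decide +kernel
def c_17_2_15_5 : cellOK T17 17 5 2 ((15 * 5 + 1) / 2) 15 = true := by
  decide +kernel
def c_17_2_15_3 : cellOK T17 17 3 2 ((15 * 3 + 1) / 2) 15 = true := by
  decide +kernel
def c_17_2_15_1 : cellOK T17 17 1 2 ((15 * 1 + 1) / 2) 15 = true := by
  decide +kernel
theorem gg_17_2_15 : GG T17 17 2 15 := gg_of (l := [15, 13, 11, 9, 7, 5, 3, 1]) (by decide +kernel)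
  ⟨c_17_2_15_15, c_17_2_15_13, c_17_2_15_11, c_17_2_15_9, c_17_2_15_7, c_17_2_15_5, c_17_2_15_3, c_17_2_15_1, trivial⟩

theorem gg_17_2_16 : GG T17 17 2 16 := gg_of (l := []) (by decide +kernel)
  trivial

def c_17_3_14_25 : cellOK T17 17 25 3 ((14 * 25 + 1) / 3) 14 = true := by
  decide +kernel
def c_17_3_14_22 : cellOK T17 17 22 3 ((14 * 22 + 1) / 3) 14 = true := by
  decide +kernel
def c_17_3_14_19 : cellOK T17 17 19 3 ((14 * 19 + 1) / 3) 14 = true := by
  decide +kernel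
def c_17_3_14_16 : cellOK T17 17 16 3 ((14 * 16 + 1) / 3) 14 = true := by
  decide +kernel
def c_17_3_14_13 : cellOK T17 17 13 3 ((14 * 13 + 1) / 3) 14 = true := by
  decide +kernel
def c_17_3_14_10 : cellOK T17 17 10 3 ((14 * 10 + 1) / 3) 14 = true := by
  decide +kernel
def c_17_3_14_7 : cellOK T17 17 7 3 ((14 * 7 + 1) / 3) 14 = true := by
  decide +kernel
def c_17_3_14_4 : cellOK T17 17 4 3 ((14 * 4 + 1) / 3) 14 = true := by
  decide +kernel
def c_17_3_14_1 : cellOK T17 17 1 3 ((14 * 1 + 1) / 3) 14 = true := by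
  decide +kernel
theorem gg_17_3_14 : GG T17 17 3 14 := gg_of (l := [25, 22, 19, 16, 13, 10, 7, 4, 1]) (by decide +kernel)
  ⟨c_17_3_14_25, c_17_3_14_22, c_17_3_14_19, c_17_3_14_16, c_17_3_14_13, c_17_3_14_10, c_17_3_14_7, c_17_3_14_4, c_17_3_14_1, trivial⟩

theorem gg_17_3_15 : GG T17 17 3 15 := gg_of (l := []) (by decide +kernel)
  trivial

def c_17_3_16_23 : cellOK T17 17 23 3 ((16 * 23 + 1) / 3) 16 = true := by
  decide +kernel
def c_17_3_16_20 : cellOK T17 17 20 3 ((16 * 20 + 1) / 3) 16 = true := by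
  decide +kernel
def c_17_3_16_17 : cellOK T17 17 17 3 ((16 * 17 + 1) / 3) 16 = true := by
  decide +kernel
def c_17_3_16_14 : cellOK T17 17 14 3 ((16 * 14 + 1) / 3) 16 = true := by
  decide +kernel
def c_17_3_16_11 : cellOK T17 17 11 3 ((16 * 11 + 1) / 3) 16 = true := by
  decide +kernel
def c_17_3_16_8 : cellOK T17 17 8 3 ((16 * 8 + 1) / 3) 16 = true := by
  decide +kernel
def c_17_3_16_5 : cellOK T17 17 5 3 ((16 * 5 + 1) / 3) 16 = true := by
  decide +kernel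
def c_17_3_16_2 : cellOK T17 17 2 3 ((16 * 2 + 1) / 3) 16 = true := by
  decide +kernel
theorem gg_17_3_16 : GG T17 17 3 16 := gg_of (l := [23, 20, 17, 14, 11, 8, 5, 2]) (by decide +kernel)
  ⟨c_17_3_16_23, c_17_3_16_20, c_17_3_16_17, c_17_3_16_14, c_17_3_16_11, c_17_3_16_8, c_17_3_16_5, c_17_3_16_2, trivial⟩

def c_17_4_13_31 : cellOK T17 17 31 4 ((13 * 31 + 1) / 4) 13 = true := by
  decide +kernel
def c_17_4_13_27 : cellOK T17 17 27 4 ((13 * 27 + 1) / 4) 13 = true := by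
  decide +kernel
def c_17_4_13_23 : cellOK T17 17 23 4 ((13 * 23 + 1) / 4) 13 = true := by
  decide +kernel
def c_17_4_13_19 : cellOK T17 17 19 4 ((13 * 19 + 1) / 4) 13 = true := by
  decide +kernel
def c_17_4_13_15 : cellOK T17 17 15 4 ((13 * 15 + 1) / 4) 13 = true := by
  decide +kernel
def c_17_4_13_11 : cellOK T17 17 11 4 ((13 * 11 + 1) / 4) 13 = true := by
  decide +kernel
def c_17_4_13_7 : cellOK T17 17 7 4 ((13 * 7 + 1) / 4) 13 = true := by
  decide +kernel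
def c_17_4_13_3 : cellOK T17 17 3 4 ((13 * 3 + 1) / 4) 13 = true := by
  decide +kernel
theorem gg_17_4_13 : GG T17 17 4 13 := gg_of (l := [31, 27, 23, 19, 15, 11, 7, 3]) (by decide +kernel)
  ⟨c_17_4_13_31, c_17_4_13_27, c_17_4_13_23, c_17_4_13_19, c_17_4_13_15, c_17_4_13_11, c_17_4_13_7, c_17_4_13_3, trivial⟩

theorem gg_17_4_14 : GG T17 17 4 14 := gg_of (l := []) (by decide +kernel)
  trivial

def c_17_4_15_33 : cellOK T17 17 33 4 ((15 * 33 + 1) / 4) 15 = true := by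
  decide +kernel
def c_17_4_15_29 : cellOK T17 17 29 4 ((15 * 29 + 1) / 4) 15 = true := by
  decide +kernel
def c_17_4_15_25 : cellOK T17 17 25 4 ((15 * 25 + 1) / 4) 15 = true := by
  decide +kernel
def c_17_4_15_21 : cellOK T17 17 21 4 ((15 * 21 + 1) / 4) 15 = true := by
  decide +kernel
def c_17_4_15_17 : cellOK T17 17 17 4 ((15 * 17 + 1) / 4) 15 = true := by
  decide +kernel
def c_17_4_15_13 : cellOK T17 17 13 4 ((15 * 13 + 1) / 4) 15 = true := by
  decide +kernel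
def c_17_4_15_9 : cellOK T17 17 9 4 ((15 * 9 + 1) / 4) 15 = true := by
  decide +kernel
def c_17_4_15_5 : cellOK T17 17 5 4 ((15 * 5 + 1) / 4) 15 = true := by
  decide +kernel
def c_17_4_15_1 : cellOK T17 17 1 4 ((15 * 1 + 1) / 4) 15 = true := by
  decide +kernel
theorem gg_17_4_15 : GG T17 17 4 15 := gg_of (l := [33, 29, 25, 21, 17, 13, 9, 5, 1]) (by decide +kernel)
  ⟨c_17_4_15_33, c_17_4_15_29, c_17_4_15_25, c_17_4_15_21, c_17_4_15_17, c_17_4_15_13, c_17_4_15_9, c_17_4_15_5, c_17_4_15_1, trivial⟩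

theorem gg_17_4_16 : GG T17 17 4 16 := gg_of (l := []) (by decide +kernel)
  trivial

def c_17_5_12_42 : cellOK T17 17 42 5 ((12 * 42 + 1) / 5) 12 = true := by
  decide +kernel
def c_17_5_12_37 : cellOK T17 17 37 5 ((12 * 37 + 1) / 5) 12 = true := by
  decide +kernel
def c_17_5_12_32 : cellOK T17 17 32 5 ((12 * 32 + 1) / 5) 12 = true := by
  decide +kernel
def c_17_5_12_27 : cellOK T17 17 27 5 ((12 * 27 + 1) / 5) 12 = true := by
  decide +kernel
def c_17_5_12_22 : cellOK T17 17 22 5 ((12 * 22 + 1) / 5) 12 = true := by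
  decide +kernel
def c_17_5_12_17 : cellOK T17 17 17 5 ((12 * 17 + 1) / 5) 12 = true := by
  decide +kernel
def c_17_5_12_12 : cellOK T17 17 12 5 ((12 * 12 + 1) / 5) 12 = true := by
  decide +kernel
def c_17_5_12_7 : cellOK T17 17 7 5 ((12 * 7 + 1) / 5) 12 = true := by
  decide +kernel
def c_17_5_12_2 : cellOK T17 17 2 5 ((12 * 2 + 1) / 5) 12 = true := by
  decide +kernel
theorem gg_17_5_12 : GG T17 17 5 12 := gg_of (l := [42, 37, 32, 27, 22, 17, 12, 7, 2]) (by decide +kernel)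
  ⟨c_17_5_12_42, c_17_5_12_37, c_17_5_12_32, c_17_5_12_27, c_17_5_12_22, c_17_5_12_17, c_17_5_12_12, c_17_5_12_7, c_17_5_12_2, trivial⟩

def c_17_5_13_38 : cellOK T17 17 38 5 ((13 * 38 + 1) / 5) 13 = true := by
  decide +kernel
def c_17_5_13_33 : cellOK T17 17 33 5 ((13 * 33 + 1) / 5) 13 = true := by
  decide +kernel
def c_17_5_13_28 : cellOK T17 17 28 5 ((13 * 28 + 1) / 5) 13 = true := by
  decide +kernel
def c_17_5_13_23 : cellOK T17 17 23 5 ((13 * 23 + 1) / 5) 13 = true := by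
  decide +kernel
def c_17_5_13_18 : cellOK T17 17 18 5 ((13 * 18 + 1) / 5) 13 = true := by
  decide +kernel
def c_17_5_13_13 : cellOK T17 17 13 5 ((13 * 13 + 1) / 5) 13 = true := by
  decide +kernel
def c_17_5_13_8 : cellOK T17 17 8 5 ((13 * 8 + 1) / 5) 13 = true := by
  decide +kernel
def c_17_5_13_3 : cellOK T17 17 3 5 ((13 * 3 + 1) / 5) 13 = true := by
  decide +kernel
theorem gg_17_5_13 : GG T17 17 5 13 := gg_of (l := [38, 33, 28, 23, 18, 13, 8, 3]) (by decide +kernel)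
  ⟨c_17_5_13_38, c_17_5_13_33, c_17_5_13_28, c_17_5_13_23, c_17_5_13_18, c_17_5_13_13, c_17_5_13_8, c_17_5_13_3, trivial⟩

def c_17_5_14_41 : cellOK T17 17 41 5 ((14 * 41 + 1) / 5) 14 = true := by
  decide +kernel
def c_17_5_14_36 : cellOK T17 17 36 5 ((14 * 36 + 1) / 5) 14 = true := by
  decide +kernel
def c_17_5_14_31 : cellOK T17 17 31 5 ((14 * 31 + 1) / 5) 14 = true := by
  decide +kernel
def c_17_5_14_26 : cellOK T17 17 26 5 ((14 * 26 + 1) / 5) 14 = true := by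
  decide +kernel
def c_17_5_14_21 : cellOK T17 17 21 5 ((14 * 21 + 1) / 5) 14 = true := by
  decide +kernel
def c_17_5_14_16 : cellOK T17 17 16 5 ((14 * 16 + 1) / 5) 14 = true := by
  decide +kernel
def c_17_5_14_11 : cellOK T17 17 11 5 ((14 * 11 + 1) / 5) 14 = true := by
  decide +kernel
def c_17_5_14_6 : cellOK T17 17 6 5 ((14 * 6 + 1) / 5) 14 = true := by
  decide +kernel
def c_17_5_14_1 : cellOK T17 17 1 5 ((14 * 1 + 1) / 5) 14 = true := by
  decide +kernel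
theorem gg_17_5_14 : GG T17 17 5 14 := gg_of (l := [41, 36, 31, 26, 21, 16, 11, 6, 1]) (by decide +kernel)
  ⟨c_17_5_14_41, c_17_5_14_36, c_17_5_14_31, c_17_5_14_26, c_17_5_14_21, c_17_5_14_16, c_17_5_14_11, c_17_5_14_6, c_17_5_14_1, trivial⟩

theorem gg_17_5_15 : GG T17 17 5 15 := gg_of (l := []) (by decide +kernel)
  trivial

def c_17_5_16_39 : cellOK T17 17 39 5 ((16 * 39 + 1) / 5) 16 = true := by
  decide +kernel
def c_17_5_16_34 : cellOK T17 17 34 5 ((16 * 34 + 1) / 5) 16 = true := by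
  decide +kernel
def c_17_5_16_29 : cellOK T17 17 29 5 ((16 * 29 + 1) / 5) 16 = true := by
  decide +kernel
def c_17_5_16_24 : cellOK T17 17 24 5 ((16 * 24 + 1) / 5) 16 = true := by
  decide +kernel
def c_17_5_16_19 : cellOK T17 17 19 5 ((16 * 19 + 1) / 5) 16 = true := by
  decide +kernel
def c_17_5_16_14 : cellOK T17 17 14 5 ((16 * 14 + 1) / 5) 16 = true := by
  decide +kernel
def c_17_5_16_9 : cellOK T17 17 9 5 ((16 * 9 + 1) / 5) 16 = true := by
  decide +kernel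
def c_17_5_16_4 : cellOK T17 17 4 5 ((16 * 4 + 1) / 5) 16 = true := by
  decide +kernel
theorem gg_17_5_16 : GG T17 17 5 16 := gg_of (l := [39, 34, 29, 24, 19, 14, 9, 4]) (by decide +kernel)
  ⟨c_17_5_16_39, c_17_5_16_34, c_17_5_16_29, c_17_5_16_24, c_17_5_16_19, c_17_5_16_14, c_17_5_16_9, c_17_5_16_4, trivial⟩

def c_17_6_11_49 : cellOK T17 17 49 6 ((11 * 49 + 1) / 6) 11 = true := by
  decide +kernel
def c_17_6_11_43 : cellOK T17 17 43 6 ((11 * 43 + 1) / 6) 11 = true := by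
  decide +kernel
def c_17_6_11_37 : cellOK T17 17 37 6 ((11 * 37 + 1) / 6) 11 = true := by
  decide +kernel
def c_17_6_11_31 : cellOK T17 17 31 6 ((11 * 31 + 1) / 6) 11 = true := by
  decide +kernel
def c_17_6_11_25 : cellOK T17 17 25 6 ((11 * 25 + 1) / 6) 11 = true := by
  decide +kernel
def c_17_6_11_19 : cellOK T17 17 19 6 ((11 * 19 + 1) / 6) 11 = true := by
  decide +kernel
def c_17_6_11_13 : cellOK T17 17 13 6 ((11 * 13 + 1) / 6) 11 = true := by
  decide +kernel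
def c_17_6_11_7 : cellOK T17 17 7 6 ((11 * 7 + 1) / 6) 11 = true := by
  decide +kernel
def c_17_6_11_1 : cellOK T17 17 1 6 ((11 * 1 + 1) / 6) 11 = true := by
  decide +kernel
theorem gg_17_6_11 : GG T17 17 6 11 := gg_of (l := [49, 43, 37, 31, 25, 19, 13, 7, 1]) (by decide +kernel)
  ⟨c_17_6_11_49, c_17_6_11_43, c_17_6_11_37, c_17_6_11_31, c_17_6_11_25, c_17_6_11_19, c_17_6_11_13, c_17_6_11_7, c_17_6_11_1, trivial⟩

theorem gg_17_6_12 : GG T17 17 6 12 := gg_of (l := []) (by decide +kernel)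
  trivial

def c_17_6_13_47 : cellOK T17 17 47 6 ((13 * 47 + 1) / 6) 13 = true := by
  decide +kernel
def c_17_6_13_41 : cellOK T17 17 41 6 ((13 * 41 + 1) / 6) 13 = true := by
  decide +kernel
def c_17_6_13_35 : cellOK T17 17 35 6 ((13 * 35 + 1) / 6) 13 = true := by
  decide +kernel
def c_17_6_13_29 : cellOK T17 17 29 6 ((13 * 29 + 1) / 6) 13 = true := by
  decide +kernel
def c_17_6_13_23 : cellOK T17 17 23 6 ((13 * 23 + 1) / 6) 13 = true := by
  decide +kernel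
def c_17_6_13_17 : cellOK T17 17 17 6 ((13 * 17 + 1) / 6) 13 = true := by
  decide +kernel
def c_17_6_13_11 : cellOK T17 17 11 6 ((13 * 11 + 1) / 6) 13 = true := by
  decide +kernel
def c_17_6_13_5 : cellOK T17 17 5 6 ((13 * 5 + 1) / 6) 13 = true := by
  decide +kernel
theorem gg_17_6_13 : GG T17 17 6 13 := gg_of (l := [47, 41, 35, 29, 23, 17, 11, 5]) (by decide +kernel)
  ⟨c_17_6_13_47, c_17_6_13_41, c_17_6_13_35, c_17_6_13_29, c_17_6_13_23, c_17_6_13_17, c_17_6_13_11, c_17_6_13_5, trivial⟩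

theorem gg_17_6_14 : GG T17 17 6 14 := gg_of (l := []) (by decide +kernel)
  trivial

theorem gg_17_6_15 : GG T17 17 6 15 := gg_of (l := []) (by decide +kernel)
  trivial

theorem gg_17_6_16 : GG T17 17 6 16 := gg_of (l := []) (by decide +kernel)
  trivial

def c_17_7_10_58 : cellOK T17 17 58 7 ((10 * 58 + 1) / 7) 10 = true := by
  decide +kernel
def c_17_7_10_51 : cellOK T17 17 51 7 ((10 * 51 + 1) / 7) 10 = true := by
  decide +kernel
def c_17_7_10_44 : cellOK T17 17 44 7 ((10 * 44 + 1) / 7) 10 = true := by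
  decide +kernel
def c_17_7_10_37 : cellOK T17 17 37 7 ((10 * 37 + 1) / 7) 10 = true := by
  decide +kernel
def c_17_7_10_30 : cellOK T17 17 30 7 ((10 * 30 + 1) / 7) 10 = true := by
  decide +kernel
def c_17_7_10_23 : cellOK T17 17 23 7 ((10 * 23 + 1) / 7) 10 = true := by
  decide +kernel
def c_17_7_10_16 : cellOK T17 17 16 7 ((10 * 16 + 1) / 7) 10 = true := by
  decide +kernel
def c_17_7_10_9 : cellOK T17 17 9 7 ((10 * 9 + 1) / 7) 10 = true := by
  decide +kernel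
def c_17_7_10_2 : cellOK T17 17 2 7 ((10 * 2 + 1) / 7) 10 = true := by
  decide +kernel
theorem gg_17_7_10 : GG T17 17 7 10 := gg_of (l := [58, 51, 44, 37, 30, 23, 16, 9, 2]) (by decide +kernel)
  ⟨c_17_7_10_58, c_17_7_10_51, c_17_7_10_44, c_17_7_10_37, c_17_7_10_30, c_17_7_10_23, c_17_7_10_16, c_17_7_10_9, c_17_7_10_2, trivial⟩

def c_17_7_11_54 : cellOK T17 17 54 7 ((11 * 54 + 1) / 7) 11 = true := by
  decide +kernel
def c_17_7_11_47 : cellOK T17 17 47 7 ((11 * 47 + 1) / 7) 11 = true := by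
  decide +kernel
def c_17_7_11_40 : cellOK T17 17 40 7 ((11 * 40 + 1) / 7) 11 = true := by
  decide +kernel
def c_17_7_11_33 : cellOK T17 17 33 7 ((11 * 33 + 1) / 7) 11 = true := by
  decide +kernel
def c_17_7_11_26 : cellOK T17 17 26 7 ((11 * 26 + 1) / 7) 11 = true := by
  decide +kernel
def c_17_7_11_19 : cellOK T17 17 19 7 ((11 * 19 + 1) / 7) 11 = true := by
  decide +kernel
def c_17_7_11_12 : cellOK T17 17 12 7 ((11 * 12 + 1) / 7) 11 = true := by
  decide +kernel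
def c_17_7_11_5 : cellOK T17 17 5 7 ((11 * 5 + 1) / 7) 11 = true := by
  decide +kernel
theorem gg_17_7_11 : GG T17 17 7 11 := gg_of (l := [54, 47, 40, 33, 26, 19, 12, 5]) (by decide +kernel)
  ⟨c_17_7_11_54, c_17_7_11_47, c_17_7_11_40, c_17_7_11_33, c_17_7_11_26, c_17_7_11_19, c_17_7_11_12, c_17_7_11_5, trivial⟩

end Pool.Agent.Helper55.FT
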