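import Pool.Agent.Helper55.FT.TabB

set_option autoImplicit false

/-!
# Cell checks
-/

namespace Pool.Agent.Helper55.FT

set_option maxRecDepth 100000
set_option linter.defProp false

def c_17_7_12_53 : cellOK T17 17 53 7 ((12 * 53 + 1) / 7) 12 = true := by
  decide +kernel
def c_17_7_12_46 : cellOK T17 17 46 7 ((12 * 46 + 1) / 7) 12 = true := by
  decide +kernel
def c_17_7_12_39 : cellOK T17 17 39 7 ((12 * 39 + 1) / 7) 12 = true := by
  decide +kernel
def c_17_7_12_32 : cellOK T17 17 32 7 ((12 * 32 + 1) / 7) 12 = true := by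
  decide +kernel
def c_17_7_12_25 : cellOK T17 17 25 7 ((12 * 25 + 1) / 7) 12 = true := by
  decide +kernel
def c_17_7_12_18 : cellOK T17 17 18 7 ((12 * 18 + 1) / 7) 12 = true := by
  decide +kernel
def c_17_7_12_11 : cellOK T17 17 11 7 ((12 * 11 + 1) / 7) 12 = true := by
  decide +kernel
def c_17_7_12_4 : cellOK T17 17 4 7 ((12 * 4 + 1) / 7) 12 = true := by
  decide +kernel
theorem gg_17_7_12 : GG T17 17 7 12 := gg_of (l := [53, 46, 39, 32, 25, 18, 11, 4]) (by decide +kernel)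
  ⟨c_17_7_12_53, c_17_7_12_46, c_17_7_12_39, c_17_7_12_32, c_17_7_12_25, c_17_7_12_18, c_17_7_12_11, c_17_7_12_4, trivial⟩

def c_17_7_13_57 : cellOK T17 17 57 7 ((13 * 57 + 1) / 7) 13 = true := by
  decide +kernel
def c_17_7_13_50 : cellOK T17 17 50 7 ((13 * 50 + 1) / 7) 13 = true := by
  decide +kernel
def c_17_7_13_43 : cellOK T17 17 43 7 ((13 * 43 + 1) / 7) 13 = true := by
  decide +kernel
def c_17_7_13_36 : cellOK T17 17 36 7 ((13 * 36 + 1) / 7) 13 = true := by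
  decide +kernel
def c_17_7_13_29 : cellOK T17 17 29 7 ((13 * 29 + 1) / 7) 13 = true := by
  decide +kernel
def c_17_7_13_22 : cellOK T17 17 22 7 ((13 * 22 + 1) / 7) 13 = true := by
  decide +kernel
def c_17_7_13_15 : cellOK T17 17 15 7 ((13 * 15 + 1) / 7) 13 = true := by
  decide +kernel
def c_17_7_13_8 : cellOK T17 17 8 7 ((13 * 8 + 1) / 7) 13 = true := by
  decide +kernel
def c_17_7_13_1 : cellOK T17 17 1 7 ((13 * 1 + 1) / 7) 13 = true := by
  decide +kernel
theorem gg_17_7_13 : GG T17 17 7 13 := gg_of (l := [57, 50, 43, 36, 29, 22, 15, 8, 1]) (by decide +kernel)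
  ⟨c_17_7_13_57, c_17_7_13_50, c_17_7_13_43, c_17_7_13_36, c_17_7_13_29, c_17_7_13_22, c_17_7_13_15, c_17_7_13_8, c_17_7_13_1, trivial⟩

theorem gg_17_7_14 : GG T17 17 7 14 := gg_of (l := []) (by decide +kernel)
  trivial

def c_17_7_15_55 : cellOK T17 17 55 7 ((15 * 55 + 1) / 7) 15 = true := by
  decide +kernel
def c_17_7_15_48 : cellOK T17 17 48 7 ((15 * 48 + 1) / 7) 15 = true := by
  decide +kernel
def c_17_7_15_41 : cellOK T17 17 41 7 ((15 * 41 + 1) / 7) 15 = true := by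
  decide +kernel
def c_17_7_15_34 : cellOK T17 17 34 7 ((15 * 34 + 1) / 7) 15 = true := by
  decide +kernel
def c_17_7_15_27 : cellOK T17 17 27 7 ((15 * 27 + 1) / 7) 15 = true := by
  decide +kernel
def c_17_7_15_20 : cellOK T17 17 20 7 ((15 * 20 + 1) / 7) 15 = true := by
  decide +kernel
def c_17_7_15_13 : cellOK T17 17 13 7 ((15 * 13 + 1) / 7) 15 = true := by
  decide +kernel
def c_17_7_15_6 : cellOK T17 17 6 7 ((15 * 6 + 1) / 7) 15 = true := by
  decide +kernel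
theorem gg_17_7_15 : GG T17 17 7 15 := gg_of (l := [55, 48, 41, 34, 27, 20, 13, 6]) (by decide +kernel)
  ⟨c_17_7_15_55, c_17_7_15_48, c_17_7_15_41, c_17_7_15_34, c_17_7_15_27, c_17_7_15_20, c_17_7_15_13, c_17_7_15_6, trivial⟩

def c_17_7_16_59 : cellOK T17 17 59 7 ((16 * 59 + 1) / 7) 16 = true := by
  decide +kernel
def c_17_7_16_52 : cellOK T17 17 52 7 ((16 * 52 + 1) / 7) 16 = true := by
  decide +kernel
def c_17_7_16_45 : cellOK T17 17 45 7 ((16 * 45 + 1) / 7) 16 = true := by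
  decide +kernel
def c_17_7_16_38 : cellOK T17 17 38 7 ((16 * 38 + 1) / 7) 16 = true := by
  decide +kernel
def c_17_7_16_31 : cellOK T17 17 31 7 ((16 * 31 + 1) / 7) 16 = true := by
  decide +kernel
def c_17_7_16_24 : cellOK T17 17 24 7 ((16 * 24 + 1) / 7) 16 = true := by
  decide +kernel
def c_17_7_16_17 : cellOK T17 17 17 7 ((16 * 17 + 1) / 7) 16 = true := by
  decide +kernel
def c_17_7_16_10 : cellOK T17 17 10 7 ((16 * 10 + 1) / 7) 16 = true := by
  decide +kernel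
def c_17_7_16_3 : cellOK T17 17 3 7 ((16 * 3 + 1) / 7) 16 = true := by
  decide +kernel
theorem gg_17_7_16 : GG T17 17 7 16 := gg_of (l := [59, 52, 45, 38, 31, 24, 17, 10, 3]) (by decide +kernel)
  ⟨c_17_7_16_59, c_17_7_16_52, c_17_7_16_45, c_17_7_16_38, c_17_7_16_31, c_17_7_16_24, c_17_7_16_17, c_17_7_16_10, c_17_7_16_3, trivial⟩

def c_17_8_9_63 : cellOK T17 17 63 8 ((9 * 63 + 1) / 8) 9 = true := by
  decide +kernel
def c_17_8_9_55 : cellOK T17 17 55 8 ((9 * 55 + 1) / 8) 9 = true := by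
  decide +kernel
def c_17_8_9_47 : cellOK T17 17 47 8 ((9 * 47 + 1) / 8) 9 = true := by
  decide +kernel
def c_17_8_9_39 : cellOK T17 17 39 8 ((9 * 39 + 1) / 8) 9 = true := by
  decide +kernel
def c_17_8_9_31 : cellOK T17 17 31 8 ((9 * 31 + 1) / 8) 9 = true := by
  decide +kernel
def c_17_8_9_23 : cellOK T17 17 23 8 ((9 * 23 + 1) / 8) 9 = true := by
  decide +kernel
def c_17_8_9_15 : cellOK T17 17 15 8 ((9 * 15 + 1) / 8) 9 = true := by
  decide +kernel
def c_17_8_9_7 : cellOK T17 17 7 8 ((9 * 7 + 1) / 8) 9 = true := by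
  decide +kernel
theorem gg_17_8_9 : GG T17 17 8 9 := gg_of (l := [63, 55, 47, 39, 31, 23, 15, 7]) (by decide +kernel)
  ⟨c_17_8_9_63, c_17_8_9_55, c_17_8_9_47, c_17_8_9_39, c_17_8_9_31, c_17_8_9_23, c_17_8_9_15, c_17_8_9_7, trivial⟩

theorem gg_17_8_10 : GG T17 17 8 10 := gg_of (l := []) (by decide +kernel)
  trivial

def c_17_8_11_61 : cellOK T17 17 61 8 ((11 * 61 + 1) / 8) 11 = true := by
  decide +kernel
def c_17_8_11_53 : cellOK T17 17 53 8 ((11 * 53 + 1) / 8) 11 = true := by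
  decide +kernel
def c_17_8_11_45 : cellOK T17 17 45 8 ((11 * 45 + 1) / 8) 11 = true := by
  decide +kernel
def c_17_8_11_37 : cellOK T17 17 37 8 ((11 * 37 + 1) / 8) 11 = true := by
  decide +kernel
def c_17_8_11_29 : cellOK T17 17 29 8 ((11 * 29 + 1) / 8) 11 = true := by
  decide +kernel
def c_17_8_11_21 : cellOK T17 17 21 8 ((11 * 21 + 1) / 8) 11 = true := by
  decide +kernel
def c_17_8_11_13 : cellOK T17 17 13 8 ((11 * 13 + 1) / 8) 11 = true := by
  decide +kernel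
def c_17_8_11_5 : cellOK T17 17 5 8 ((11 * 5 + 1) / 8) 11 = true := by
  decide +kernel
theorem gg_17_8_11 : GG T17 17 8 11 := gg_of (l := [61, 53, 45, 37, 29, 21, 13, 5]) (by decide +kernel)
  ⟨c_17_8_11_61, c_17_8_11_53, c_17_8_11_45, c_17_8_11_37, c_17_8_11_29, c_17_8_11_21, c_17_8_11_13, c_17_8_11_5, trivial⟩

theorem gg_17_8_12 : GG T17 17 8 12 := gg_of (l := []) (by decide +kernel)
  trivial

def c_17_8_13_67 : cellOK T17 17 67 8 ((13 * 67 + 1) / 8) 13 = true := by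
  decide +kernel
def c_17_8_13_59 : cellOK T17 17 59 8 ((13 * 59 + 1) / 8) 13 = true := by
  decide +kernel
def c_17_8_13_51 : cellOK T17 17 51 8 ((13 * 51 + 1) / 8) 13 = true := by
  decide +kernel
def c_17_8_13_43 : cellOK T17 17 43 8 ((13 * 43 + 1) / 8) 13 = true := by
  decide +kernel
def c_17_8_13_35 : cellOK T17 17 35 8 ((13 * 35 + 1) / 8) 13 = true := by
  decide +kernel
def c_17_8_13_27 : cellOK T17 17 27 8 ((13 * 27 + 1) / 8) 13 = true := by
  decide +kernel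
def c_17_8_13_19 : cellOK T17 17 19 8 ((13 * 19 + 1) / 8) 13 = true := by
  decide +kernel
def c_17_8_13_11 : cellOK T17 17 11 8 ((13 * 11 + 1) / 8) 13 = true := by
  decide +kernel
def c_17_8_13_3 : cellOK T17 17 3 8 ((13 * 3 + 1) / 8) 13 = true := by
  decide +kernel
theorem gg_17_8_13 : GG T17 17 8 13 := gg_of (l := [67, 59, 51, 43, 35, 27, 19, 11, 3]) (by decide +kernel)
  ⟨c_17_8_13_67, c_17_8_13_59, c_17_8_13_51, c_17_8_13_43, c_17_8_13_35, c_17_8_13_27, c_17_8_13_19, c_17_8_13_11, c_17_8_13_3, trivial⟩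

theorem gg_17_8_14 : GG T17 17 8 14 := gg_of (l := []) (by decide +kernel)
  trivial

def c_17_8_15_65 : cellOK T17 17 65 8 ((15 * 65 + 1) / 8) 15 = true := by
  decide +kernel
def c_17_8_15_57 : cellOK T17 17 57 8 ((15 * 57 + 1) / 8) 15 = true := by
  decide +kernel
def c_17_8_15_49 : cellOK T17 17 49 8 ((15 * 49 + 1) / 8) 15 = true := by
  decide +kernel
def c_17_8_15_41 : cellOK T17 17 41 8 ((15 * 41 + 1) / 8) 15 = true := by
  decide +kernel
def c_17_8_15_33 : cellOK T17 17 33 8 ((15 * 33 + 1) / 8) 15 = true := by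
  decide +kernel
def c_17_8_15_25 : cellOK T17 17 25 8 ((15 * 25 + 1) / 8) 15 = true := by
  decide +kernel
def c_17_8_15_17 : cellOK T17 17 17 8 ((15 * 17 + 1) / 8) 15 = true := by
  decide +kernel
def c_17_8_15_9 : cellOK T17 17 9 8 ((15 * 9 + 1) / 8) 15 = true := by
  decide +kernel
def c_17_8_15_1 : cellOK T17 17 1 8 ((15 * 1 + 1) / 8) 15 = true := by
  decide +kernel
theorem gg_17_8_15 : GG T17 17 8 15 := gg_of (l := [65, 57, 49, 41, 33, 25, 17, 9, 1]) (by decide +kernel)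
  ⟨c_17_8_15_65, c_17_8_15_57, c_17_8_15_49, c_17_8_15_41, c_17_8_15_33, c_17_8_15_25, c_17_8_15_17, c_17_8_15_9, c_17_8_15_1, trivial⟩

theorem gg_17_8_16 : GG T17 17 8 16 := gg_of (l := []) (by decide +kernel)
  trivial

def c_17_9_8_73 : cellOK T17 17 73 9 ((8 * 73 + 1) / 9) 8 = true := by
  decide +kernel
def c_17_9_8_64 : cellOK T17 17 64 9 ((8 * 64 + 1) / 9) 8 = true := by
  decide +kernel
def c_17_9_8_55 : cellOK T17 17 55 9 ((8 * 55 + 1) / 9) 8 = true := by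
  decide +kernel
def c_17_9_8_46 : cellOK T17 17 46 9 ((8 * 46 + 1) / 9) 8 = true := by
  decide +kernel
def c_17_9_8_37 : cellOK T17 17 37 9 ((8 * 37 + 1) / 9) 8 = true := by
  decide +kernel
def c_17_9_8_28 : cellOK T17 17 28 9 ((8 * 28 + 1) / 9) 8 = true := by
  decide +kernel
def c_17_9_8_19 : cellOK T17 17 19 9 ((8 * 19 + 1) / 9) 8 = true := by
  decide +kernel
def c_17_9_8_10 : cellOK T17 17 10 9 ((8 * 10 + 1) / 9) 8 = true := by
  decide +kernel
def c_17_9_8_1 : cellOK T17 17 1 9 ((8 * 1 + 1) / 9) 8 = true := by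
  decide +kernel
theorem gg_17_9_8 : GG T17 17 9 8 := gg_of (l := [73, 64, 55, 46, 37, 28, 19, 10, 1]) (by decide +kernel)
  ⟨c_17_9_8_73, c_17_9_8_64, c_17_9_8_55, c_17_9_8_46, c_17_9_8_37, c_17_9_8_28, c_17_9_8_19, c_17_9_8_10, c_17_9_8_1, trivial⟩

theorem gg_17_9_9 : GG T17 17 9 9 := gg_of (l := []) (by decide +kernel)
  trivial

def c_17_9_10_71 : cellOK T17 17 71 9 ((10 * 71 + 1) / 9) 10 = true := by
  decide +kernel
def c_17_9_10_62 : cellOK T17 17 62 9 ((10 * 62 + 1) / 9) 10 = true := by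
  decide +kernel
def c_17_9_10_53 : cellOK T17 17 53 9 ((10 * 53 + 1) / 9) 10 = true := by
  decide +kernel
def c_17_9_10_44 : cellOK T17 17 44 9 ((10 * 44 + 1) / 9) 10 = true := by
  decide +kernel
def c_17_9_10_35 : cellOK T17 17 35 9 ((10 * 35 + 1) / 9) 10 = true := by
  decide +kernel
def c_17_9_10_26 : cellOK T17 17 26 9 ((10 * 26 + 1) / 9) 10 = true := by
  decide +kernel
def c_17_9_10_17 : cellOK T17 17 17 9 ((10 * 17 + 1) / 9) 10 = true := by
  decide +kernel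
def c_17_9_10_8 : cellOK T17 17 8 9 ((10 * 8 + 1) / 9) 10 = true := by
  decide +kernel
theorem gg_17_9_10 : GG T17 17 9 10 := gg_of (l := [71, 62, 53, 44, 35, 26, 17, 8]) (by decide +kernel)
  ⟨c_17_9_10_71, c_17_9_10_62, c_17_9_10_53, c_17_9_10_44, c_17_9_10_35, c_17_9_10_26, c_17_9_10_17, c_17_9_10_8, trivial⟩

def c_17_9_11_76 : cellOK T17 17 76 9 ((11 * 76 + 1) / 9) 11 = true := by
  decide +kernel
def c_17_9_11_67 : cellOK T17 17 67 9 ((11 * 67 + 1) / 9) 11 = true := by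
  decide +kernel
def c_17_9_11_58 : cellOK T17 17 58 9 ((11 * 58 + 1) / 9) 11 = true := by
  decide +kernel
def c_17_9_11_49 : cellOK T17 17 49 9 ((11 * 49 + 1) / 9) 11 = true := by
  decide +kernel
def c_17_9_11_40 : cellOK T17 17 40 9 ((11 * 40 + 1) / 9) 11 = true := by
  decide +kernel
def c_17_9_11_31 : cellOK T17 17 31 9 ((11 * 31 + 1) / 9) 11 = true := by
  decide +kernel
def c_17_9_11_22 : cellOK T17 17 22 9 ((11 * 22 + 1) / 9) 11 = true := by
  decide +kernel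
def c_17_9_11_13 : cellOK T17 17 13 9 ((11 * 13 + 1) / 9) 11 = true := by
  decide +kernel
def c_17_9_11_4 : cellOK T17 17 4 9 ((11 * 4 + 1) / 9) 11 = true := by
  decide +kernel
theorem gg_17_9_11 : GG T17 17 9 11 := gg_of (l := [76, 67, 58, 49, 40, 31, 22, 13, 4]) (by decide +kernel)
  ⟨c_17_9_11_76, c_17_9_11_67, c_17_9_11_58, c_17_9_11_49, c_17_9_11_40, c_17_9_11_31, c_17_9_11_22, c_17_9_11_13, c_17_9_11_4, trivial⟩

theorem gg_17_9_12 : GG T17 17 9 12 := gg_of (l := []) (by decide +kernel)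
  trivial

def c_17_9_13_74 : cellOK T17 17 74 9 ((13 * 74 + 1) / 9) 13 = true := by
  decide +kernel
def c_17_9_13_65 : cellOK T17 17 65 9 ((13 * 65 + 1) / 9) 13 = true := by
  decide +kernel
def c_17_9_13_56 : cellOK T17 17 56 9 ((13 * 56 + 1) / 9) 13 = true := by
  decide +kernel
def c_17_9_13_47 : cellOK T17 17 47 9 ((13 * 47 + 1) / 9) 13 = true := by
  decide +kernel
def c_17_9_13_38 : cellOK T17 17 38 9 ((13 * 38 + 1) / 9) 13 = true := by
  decide +kernel
def c_17_9_13_29 : cellOK T17 17 29 9 ((13 * 29 + 1) / 9) 13 = true := by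
  decide +kernel
def c_17_9_13_20 : cellOK T17 17 20 9 ((13 * 20 + 1) / 9) 13 = true := by
  decide +kernel
def c_17_9_13_11 : cellOK T17 17 11 9 ((13 * 11 + 1) / 9) 13 = true := by
  decide +kernel
def c_17_9_13_2 : cellOK T17 17 2 9 ((13 * 2 + 1) / 9) 13 = true := by
  decide +kernel
theorem gg_17_9_13 : GG T17 17 9 13 := gg_of (l := [74, 65, 56, 47, 38, 29, 20, 11, 2]) (by decide +kernel)
  ⟨c_17_9_13_74, c_17_9_13_65, c_17_9_13_56, c_17_9_13_47, c_17_9_13_38, c_17_9_13_29, c_17_9_13_20, c_17_9_13_11, c_17_9_13_2, trivial⟩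

def c_17_9_14_70 : cellOK T17 17 70 9 ((14 * 70 + 1) / 9) 14 = true := by
  decide +kernel
def c_17_9_14_61 : cellOK T17 17 61 9 ((14 * 61 + 1) / 9) 14 = true := by
  decide +kernel
def c_17_9_14_52 : cellOK T17 17 52 9 ((14 * 52 + 1) / 9) 14 = true := by
  decide +kernel
def c_17_9_14_43 : cellOK T17 17 43 9 ((14 * 43 + 1) / 9) 14 = true := by
  decide +kernel
def c_17_9_14_34 : cellOK T17 17 34 9 ((14 * 34 + 1) / 9) 14 = true := by
  decide +kernel
def c_17_9_14_25 : cellOK T17 17 25 9 ((14 * 25 + 1) / 9) 14 = true := by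
  decide +kernel
def c_17_9_14_16 : cellOK T17 17 16 9 ((14 * 16 + 1) / 9) 14 = true := by
  decide +kernel
def c_17_9_14_7 : cellOK T17 17 7 9 ((14 * 7 + 1) / 9) 14 = true := by
  decide +kernel
theorem gg_17_9_14 : GG T17 17 9 14 := gg_of (l := [70, 61, 52, 43, 34, 25, 16, 7]) (by decide +kernel)
  ⟨c_17_9_14_70, c_17_9_14_61, c_17_9_14_52, c_17_9_14_43, c_17_9_14_34, c_17_9_14_25, c_17_9_14_16, c_17_9_14_7, trivial⟩

theorem gg_17_9_15 : GG T17 17 9 15 := gg_of (l := []) (by decide +kernel)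
  trivial

def c_17_9_16_68 : cellOK T17 17 68 9 ((16 * 68 + 1) / 9) 16 = true := by
  decide +kernel
def c_17_9_16_59 : cellOK T17 17 59 9 ((16 * 59 + 1) / 9) 16 = true := by
  decide +kernel
def c_17_9_16_50 : cellOK T17 17 50 9 ((16 * 50 + 1) / 9) 16 = true := by
  decide +kernel
def c_17_9_16_41 : cellOK T17 17 41 9 ((16 * 41 + 1) / 9) 16 = true := by
  decide +kernel
def c_17_9_16_32 : cellOK T17 17 32 9 ((16 * 32 + 1) / 9) 16 = true := by
  decide +kernel
def c_17_9_16_23 : cellOK T17 17 23 9 ((16 * 23 + 1) / 9) 16 = true := by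
  decide +kernel
def c_17_9_16_14 : cellOK T17 17 14 9 ((16 * 14 + 1) / 9) 16 = true := by
  decide +kernel
def c_17_9_16_5 : cellOK T17 17 5 9 ((16 * 5 + 1) / 9) 16 = true := by
  decide +kernel
theorem gg_17_9_16 : GG T17 17 9 16 := gg_of (l := [68, 59, 50, 41, 32, 23, 14, 5]) (by decide +kernel)
  ⟨c_17_9_16_68, c_17_9_16_59, c_17_9_16_50, c_17_9_16_41, c_17_9_16_32, c_17_9_16_23, c_17_9_16_14, c_17_9_16_5, trivial⟩

end Pool.Agent.Helper55.FT
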