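import Pool.Agent.Helper55.FT.TabB

set_option autoImplicit false

/-!
# Cell checks
-/

namespace Pool.Agent.Helper55.FT

set_option maxRecDepth 100000
set_option linter.defProp false

def c_17_10_7_77 : cellOK T17 17 77 10 ((7 * 77 + 1) / 10) 7 = true := by
  decide +kernel
def c_17_10_7_67 : cellOK T17 17 67 10 ((7 * 67 + 1) / 10) 7 = true := by
  decide +kernel
def c_17_10_7_57 : cellOK T17 17 57 10 ((7 * 57 + 1) / 10) 7 = true := by
  decide +kernel
def c_17_10_7_47 : cellOK T17 17 47 10 ((7 * 47 + 1) / 10) 7 = true := by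
  decide +kernel
def c_17_10_7_37 : cellOK T17 17 37 10 ((7 * 37 + 1) / 10) 7 = true := by
  decide +kernel
def c_17_10_7_27 : cellOK T17 17 27 10 ((7 * 27 + 1) / 10) 7 = true := by
  decide +kernel
def c_17_10_7_17 : cellOK T17 17 17 10 ((7 * 17 + 1) / 10) 7 = true := by
  decide +kernel
def c_17_10_7_7 : cellOK T17 17 7 10 ((7 * 7 + 1) / 10) 7 = true := by
  decide +kernel
theorem gg_17_10_7 : GG T17 17 10 7 := gg_of (l := [77, 67, 57, 47, 37, 27, 17, 7]) (by decide +kernel)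
  ⟨c_17_10_7_77, c_17_10_7_67, c_17_10_7_57, c_17_10_7_47, c_17_10_7_37, c_17_10_7_27, c_17_10_7_17, c_17_10_7_7, trivial⟩

theorem gg_17_10_8 : GG T17 17 10 8 := gg_of (l := []) (by decide +kernel)
  trivial

def c_17_10_9_81 : cellOK T17 17 81 10 ((9 * 81 + 1) / 10) 9 = true := by
  decide +kernel
def c_17_10_9_71 : cellOK T17 17 71 10 ((9 * 71 + 1) / 10) 9 = true := by
  decide +kernel
def c_17_10_9_61 : cellOK T17 17 61 10 ((9 * 61 + 1) / 10) 9 = true := by
  decide +kernel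
def c_17_10_9_51 : cellOK T17 17 51 10 ((9 * 51 + 1) / 10) 9 = true := by
  decide +kernel
def c_17_10_9_41 : cellOK T17 17 41 10 ((9 * 41 + 1) / 10) 9 = true := by
  decide +kernel
def c_17_10_9_31 : cellOK T17 17 31 10 ((9 * 31 + 1) / 10) 9 = true := by
  decide +kernel
def c_17_10_9_21 : cellOK T17 17 21 10 ((9 * 21 + 1) / 10) 9 = true := by
  decide +kernel
def c_17_10_9_11 : cellOK T17 17 11 10 ((9 * 11 + 1) / 10) 9 = true := by
  decide +kernel
def c_17_10_9_1 : cellOK T17 17 1 10 ((9 * 1 + 1) / 10) 9 = true := by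
  decide +kernel
theorem gg_17_10_9 : GG T17 17 10 9 := gg_of (l := [81, 71, 61, 51, 41, 31, 21, 11, 1]) (by decide +kernel)
  ⟨c_17_10_9_81, c_17_10_9_71, c_17_10_9_61, c_17_10_9_51, c_17_10_9_41, c_17_10_9_31, c_17_10_9_21, c_17_10_9_11, c_17_10_9_1, trivial⟩

theorem gg_17_10_10 : GG T17 17 10 10 := gg_of (l := []) (by decide +kernel)
  trivial

def c_17_10_11_79 : cellOK T17 17 79 10 ((11 * 79 + 1) / 10) 11 = true := by
  decide +kernel
def c_17_10_11_69 : cellOK T17 17 69 10 ((11 * 69 + 1) / 10) 11 = true := by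
  decide +kernel
def c_17_10_11_59 : cellOK T17 17 59 10 ((11 * 59 + 1) / 10) 11 = true := by
  decide +kernel
def c_17_10_11_49 : cellOK T17 17 49 10 ((11 * 49 + 1) / 10) 11 = true := by
  decide +kernel
def c_17_10_11_39 : cellOK T17 17 39 10 ((11 * 39 + 1) / 10) 11 = true := by
  decide +kernel
def c_17_10_11_29 : cellOK T17 17 29 10 ((11 * 29 + 1) / 10) 11 = true := by
  decide +kernel
def c_17_10_11_19 : cellOK T17 17 19 10 ((11 * 19 + 1) / 10) 11 = true := by
  decide +kernel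
def c_17_10_11_9 : cellOK T17 17 9 10 ((11 * 9 + 1) / 10) 11 = true := by
  decide +kernel
theorem gg_17_10_11 : GG T17 17 10 11 := gg_of (l := [79, 69, 59, 49, 39, 29, 19, 9]) (by decide +kernel)
  ⟨c_17_10_11_79, c_17_10_11_69, c_17_10_11_59, c_17_10_11_49, c_17_10_11_39, c_17_10_11_29, c_17_10_11_19, c_17_10_11_9, trivial⟩

theorem gg_17_10_12 : GG T17 17 10 12 := gg_of (l := []) (by decide +kernel)
  trivial

def c_17_10_13_83 : cellOK T17 17 83 10 ((13 * 83 + 1) / 10) 13 = true := by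
  decide +kernel
def c_17_10_13_73 : cellOK T17 17 73 10 ((13 * 73 + 1) / 10) 13 = true := by
  decide +kernel
def c_17_10_13_63 : cellOK T17 17 63 10 ((13 * 63 + 1) / 10) 13 = true := by
  decide +kernel
def c_17_10_13_53 : cellOK T17 17 53 10 ((13 * 53 + 1) / 10) 13 = true := by
  decide +kernel
def c_17_10_13_43 : cellOK T17 17 43 10 ((13 * 43 + 1) / 10) 13 = true := by
  decide +kernel
def c_17_10_13_33 : cellOK T17 17 33 10 ((13 * 33 + 1) / 10) 13 = true := by
  decide +kernel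
def c_17_10_13_23 : cellOK T17 17 23 10 ((13 * 23 + 1) / 10) 13 = true := by
  decide +kernel
def c_17_10_13_13 : cellOK T17 17 13 10 ((13 * 13 + 1) / 10) 13 = true := by
  decide +kernel
def c_17_10_13_3 : cellOK T17 17 3 10 ((13 * 3 + 1) / 10) 13 = true := by
  decide +kernel
theorem gg_17_10_13 : GG T17 17 10 13 := gg_of (l := [83, 73, 63, 53, 43, 33, 23, 13, 3]) (by decide +kernel)
  ⟨c_17_10_13_83, c_17_10_13_73, c_17_10_13_63, c_17_10_13_53, c_17_10_13_43, c_17_10_13_33, c_17_10_13_23, c_17_10_13_13, c_17_10_13_3, trivial⟩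

theorem gg_17_10_14 : GG T17 17 10 14 := gg_of (l := []) (by decide +kernel)
  trivial

theorem gg_17_10_15 : GG T17 17 10 15 := gg_of (l := []) (by decide +kernel)
  trivial

theorem gg_17_10_16 : GG T17 17 10 16 := gg_of (l := []) (by decide +kernel)
  trivial

def c_17_11_6_86 : cellOK T17 17 86 11 ((6 * 86 + 1) / 11) 6 = true := by
  decide +kernel
def c_17_11_6_75 : cellOK T17 17 75 11 ((6 * 75 + 1) / 11) 6 = true := by
  decide +kernel
def c_17_11_6_64 : cellOK T17 17 64 11 ((6 * 64 + 1) / 11) 6 = true := by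
  decide +kernel
def c_17_11_6_53 : cellOK T17 17 53 11 ((6 * 53 + 1) / 11) 6 = true := by
  decide +kernel
def c_17_11_6_42 : cellOK T17 17 42 11 ((6 * 42 + 1) / 11) 6 = true := by
  decide +kernel
def c_17_11_6_31 : cellOK T17 17 31 11 ((6 * 31 + 1) / 11) 6 = true := by
  decide +kernel
def c_17_11_6_20 : cellOK T17 17 20 11 ((6 * 20 + 1) / 11) 6 = true := by
  decide +kernel
def c_17_11_6_9 : cellOK T17 17 9 11 ((6 * 9 + 1) / 11) 6 = true := by
  decide +kernel
theorem gg_17_11_6 : GG T17 17 11 6 := gg_of (l := [86, 75, 64, 53, 42, 31, 20, 9]) (by decide +kernel)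
  ⟨c_17_11_6_86, c_17_11_6_75, c_17_11_6_64, c_17_11_6_53, c_17_11_6_42, c_17_11_6_31, c_17_11_6_20, c_17_11_6_9, trivial⟩

def c_17_11_7_91 : cellOK T17 17 91 11 ((7 * 91 + 1) / 11) 7 = true := by
  decide +kernel
def c_17_11_7_80 : cellOK T17 17 80 11 ((7 * 80 + 1) / 11) 7 = true := by
  decide +kernel
def c_17_11_7_69 : cellOK T17 17 69 11 ((7 * 69 + 1) / 11) 7 = true := by
  decide +kernel
def c_17_11_7_58 : cellOK T17 17 58 11 ((7 * 58 + 1) / 11) 7 = true := by
  decide +kernel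
def c_17_11_7_47 : cellOK T17 17 47 11 ((7 * 47 + 1) / 11) 7 = true := by
  decide +kernel
def c_17_11_7_36 : cellOK T17 17 36 11 ((7 * 36 + 1) / 11) 7 = true := by
  decide +kernel
def c_17_11_7_25 : cellOK T17 17 25 11 ((7 * 25 + 1) / 11) 7 = true := by
  decide +kernel
def c_17_11_7_14 : cellOK T17 17 14 11 ((7 * 14 + 1) / 11) 7 = true := by
  decide +kernel
def c_17_11_7_3 : cellOK T17 17 3 11 ((7 * 3 + 1) / 11) 7 = true := by
  decide +kernel
theorem gg_17_11_7 : GG T17 17 11 7 := gg_of (l := [91, 80, 69, 58, 47, 36, 25, 14, 3]) (by decide +kernel)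
  ⟨c_17_11_7_91, c_17_11_7_80, c_17_11_7_69, c_17_11_7_58, c_17_11_7_47, c_17_11_7_36, c_17_11_7_25, c_17_11_7_14, c_17_11_7_3, trivial⟩

def c_17_11_8_92 : cellOK T17 17 92 11 ((8 * 92 + 1) / 11) 8 = true := by
  decide +kernel
def c_17_11_8_81 : cellOK T17 17 81 11 ((8 * 81 + 1) / 11) 8 = true := by
  decide +kernel
def c_17_11_8_70 : cellOK T17 17 70 11 ((8 * 70 + 1) / 11) 8 = true := by
  decide +kernel
def c_17_11_8_59 : cellOK T17 17 59 11 ((8 * 59 + 1) / 11) 8 = true := by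
  decide +kernel
def c_17_11_8_48 : cellOK T17 17 48 11 ((8 * 48 + 1) / 11) 8 = true := by
  decide +kernel
def c_17_11_8_37 : cellOK T17 17 37 11 ((8 * 37 + 1) / 11) 8 = true := by
  decide +kernel
def c_17_11_8_26 : cellOK T17 17 26 11 ((8 * 26 + 1) / 11) 8 = true := by
  decide +kernel
def c_17_11_8_15 : cellOK T17 17 15 11 ((8 * 15 + 1) / 11) 8 = true := by
  decide +kernel
def c_17_11_8_4 : cellOK T17 17 4 11 ((8 * 4 + 1) / 11) 8 = true := by
  decide +kernel
theorem gg_17_11_8 : GG T17 17 11 8 := gg_of (l := [92, 81, 70, 59, 48, 37, 26, 15, 4]) (by decide +kernel)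
  ⟨c_17_11_8_92, c_17_11_8_81, c_17_11_8_70, c_17_11_8_59, c_17_11_8_48, c_17_11_8_37, c_17_11_8_26, c_17_11_8_15, c_17_11_8_4, trivial⟩

def c_17_11_9_83 : cellOK T17 17 83 11 ((9 * 83 + 1) / 11) 9 = true := by
  decide +kernel
def c_17_11_9_72 : cellOK T17 17 72 11 ((9 * 72 + 1) / 11) 9 = true := by
  decide +kernel
def c_17_11_9_61 : cellOK T17 17 61 11 ((9 * 61 + 1) / 11) 9 = true := by
  decide +kernel
def c_17_11_9_50 : cellOK T17 17 50 11 ((9 * 50 + 1) / 11) 9 = true := by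
  decide +kernel
def c_17_11_9_39 : cellOK T17 17 39 11 ((9 * 39 + 1) / 11) 9 = true := by
  decide +kernel
def c_17_11_9_28 : cellOK T17 17 28 11 ((9 * 28 + 1) / 11) 9 = true := by
  decide +kernel
def c_17_11_9_17 : cellOK T17 17 17 11 ((9 * 17 + 1) / 11) 9 = true := by
  decide +kernel
def c_17_11_9_6 : cellOK T17 17 6 11 ((9 * 6 + 1) / 11) 9 = true := by
  decide +kernel
theorem gg_17_11_9 : GG T17 17 11 9 := gg_of (l := [83, 72, 61, 50, 39, 28, 17, 6]) (by decide +kernel)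
  ⟨c_17_11_9_83, c_17_11_9_72, c_17_11_9_61, c_17_11_9_50, c_17_11_9_39, c_17_11_9_28, c_17_11_9_17, c_17_11_9_6, trivial⟩

def c_17_11_10_89 : cellOK T17 17 89 11 ((10 * 89 + 1) / 11) 10 = true := by
  decide +kernel
def c_17_11_10_78 : cellOK T17 17 78 11 ((10 * 78 + 1) / 11) 10 = true := by
  decide +kernel
def c_17_11_10_67 : cellOK T17 17 67 11 ((10 * 67 + 1) / 11) 10 = true := by
  decide +kernel
def c_17_11_10_56 : cellOK T17 17 56 11 ((10 * 56 + 1) / 11) 10 = true := by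
  decide +kernel
def c_17_11_10_45 : cellOK T17 17 45 11 ((10 * 45 + 1) / 11) 10 = true := by
  decide +kernel
def c_17_11_10_34 : cellOK T17 17 34 11 ((10 * 34 + 1) / 11) 10 = true := by
  decide +kernel
def c_17_11_10_23 : cellOK T17 17 23 11 ((10 * 23 + 1) / 11) 10 = true := by
  decide +kernel
def c_17_11_10_12 : cellOK T17 17 12 11 ((10 * 12 + 1) / 11) 10 = true := by
  decide +kernel
def c_17_11_10_1 : cellOK T17 17 1 11 ((10 * 1 + 1) / 11) 10 = true := by
  decide +kernel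
theorem gg_17_11_10 : GG T17 17 11 10 := gg_of (l := [89, 78, 67, 56, 45, 34, 23, 12, 1]) (by decide +kernel)
  ⟨c_17_11_10_89, c_17_11_10_78, c_17_11_10_67, c_17_11_10_56, c_17_11_10_45, c_17_11_10_34, c_17_11_10_23, c_17_11_10_12, c_17_11_10_1, trivial⟩

theorem gg_17_11_11 : GG T17 17 11 11 := gg_of (l := []) (by decide +kernel)
  trivial

def c_17_11_12_87 : cellOK T17 17 87 11 ((12 * 87 + 1) / 11) 12 = true := by
  decide +kernel
def c_17_11_12_76 : cellOK T17 17 76 11 ((12 * 76 + 1) / 11) 12 = true := by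
  decide +kernel
def c_17_11_12_65 : cellOK T17 17 65 11 ((12 * 65 + 1) / 11) 12 = true := by
  decide +kernel
def c_17_11_12_54 : cellOK T17 17 54 11 ((12 * 54 + 1) / 11) 12 = true := by
  decide +kernel
def c_17_11_12_43 : cellOK T17 17 43 11 ((12 * 43 + 1) / 11) 12 = true := by
  decide +kernel
def c_17_11_12_32 : cellOK T17 17 32 11 ((12 * 32 + 1) / 11) 12 = true := by
  decide +kernel
def c_17_11_12_21 : cellOK T17 17 21 11 ((12 * 21 + 1) / 11) 12 = true := by
  decide +kernel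
def c_17_11_12_10 : cellOK T17 17 10 11 ((12 * 10 + 1) / 11) 12 = true := by
  decide +kernel
theorem gg_17_11_12 : GG T17 17 11 12 := gg_of (l := [87, 76, 65, 54, 43, 32, 21, 10]) (by decide +kernel)
  ⟨c_17_11_12_87, c_17_11_12_76, c_17_11_12_65, c_17_11_12_54, c_17_11_12_43, c_17_11_12_32, c_17_11_12_21, c_17_11_12_10, trivial⟩

def c_17_11_13_93 : cellOK T17 17 93 11 ((13 * 93 + 1) / 11) 13 = true := by
  decide +kernel
def c_17_11_13_82 : cellOK T17 17 82 11 ((13 * 82 + 1) / 11) 13 = true := by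
  decide +kernel
def c_17_11_13_71 : cellOK T17 17 71 11 ((13 * 71 + 1) / 11) 13 = true := by
  decide +kernel
def c_17_11_13_60 : cellOK T17 17 60 11 ((13 * 60 + 1) / 11) 13 = true := by
  decide +kernel
def c_17_11_13_49 : cellOK T17 17 49 11 ((13 * 49 + 1) / 11) 13 = true := by
  decide +kernel
def c_17_11_13_38 : cellOK T17 17 38 11 ((13 * 38 + 1) / 11) 13 = true := by
  decide +kernel
def c_17_11_13_27 : cellOK T17 17 27 11 ((13 * 27 + 1) / 11) 13 = true := by
  decide +kernel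
def c_17_11_13_16 : cellOK T17 17 16 11 ((13 * 16 + 1) / 11) 13 = true := by
  decide +kernel
def c_17_11_13_5 : cellOK T17 17 5 11 ((13 * 5 + 1) / 11) 13 = true := by
  decide +kernel
theorem gg_17_11_13 : GG T17 17 11 13 := gg_of (l := [93, 82, 71, 60, 49, 38, 27, 16, 5]) (by decide +kernel)
  ⟨c_17_11_13_93, c_17_11_13_82, c_17_11_13_71, c_17_11_13_60, c_17_11_13_49, c_17_11_13_38, c_17_11_13_27, c_17_11_13_16, c_17_11_13_5, trivial⟩

def c_17_11_14_84 : cellOK T17 17 84 11 ((14 * 84 + 1) / 11) 14 = true := by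
  decide +kernel
def c_17_11_14_73 : cellOK T17 17 73 11 ((14 * 73 + 1) / 11) 14 = true := by
  decide +kernel
def c_17_11_14_62 : cellOK T17 17 62 11 ((14 * 62 + 1) / 11) 14 = true := by
  decide +kernel
def c_17_11_14_51 : cellOK T17 17 51 11 ((14 * 51 + 1) / 11) 14 = true := by
  decide +kernel
def c_17_11_14_40 : cellOK T17 17 40 11 ((14 * 40 + 1) / 11) 14 = true := by
  decide +kernel
def c_17_11_14_29 : cellOK T17 17 29 11 ((14 * 29 + 1) / 11) 14 = true := by
  decide +kernel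
def c_17_11_14_18 : cellOK T17 17 18 11 ((14 * 18 + 1) / 11) 14 = true := by
  decide +kernel
def c_17_11_14_7 : cellOK T17 17 7 11 ((14 * 7 + 1) / 11) 14 = true := by
  decide +kernel
theorem gg_17_11_14 : GG T17 17 11 14 := gg_of (l := [84, 73, 62, 51, 40, 29, 18, 7]) (by decide +kernel)
  ⟨c_17_11_14_84, c_17_11_14_73, c_17_11_14_62, c_17_11_14_51, c_17_11_14_40, c_17_11_14_29, c_17_11_14_18, c_17_11_14_7, trivial⟩

def c_17_11_15_85 : cellOK T17 17 85 11 ((15 * 85 + 1) / 11) 15 = true := by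
  decide +kernel
def c_17_11_15_74 : cellOK T17 17 74 11 ((15 * 74 + 1) / 11) 15 = true := by
  decide +kernel
def c_17_11_15_63 : cellOK T17 17 63 11 ((15 * 63 + 1) / 11) 15 = true := by
  decide +kernel
def c_17_11_15_52 : cellOK T17 17 52 11 ((15 * 52 + 1) / 11) 15 = true := by
  decide +kernel
def c_17_11_15_41 : cellOK T17 17 41 11 ((15 * 41 + 1) / 11) 15 = true := by
  decide +kernel
def c_17_11_15_30 : cellOK T17 17 30 11 ((15 * 30 + 1) / 11) 15 = true := by
  decide +kernel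
def c_17_11_15_19 : cellOK T17 17 19 11 ((15 * 19 + 1) / 11) 15 = true := by
  decide +kernel
def c_17_11_15_8 : cellOK T17 17 8 11 ((15 * 8 + 1) / 11) 15 = true := by
  decide +kernel
theorem gg_17_11_15 : GG T17 17 11 15 := gg_of (l := [85, 74, 63, 52, 41, 30, 19, 8]) (by decide +kernel)
  ⟨c_17_11_15_85, c_17_11_15_74, c_17_11_15_63, c_17_11_15_52, c_17_11_15_41, c_17_11_15_30, c_17_11_15_19, c_17_11_15_8, trivial⟩

def c_17_11_16_90 : cellOK T17 17 90 11 ((16 * 90 + 1) / 11) 16 = true := by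
  decide +kernel
def c_17_11_16_79 : cellOK T17 17 79 11 ((16 * 79 + 1) / 11) 16 = true := by
  decide +kernel
def c_17_11_16_68 : cellOK T17 17 68 11 ((16 * 68 + 1) / 11) 16 = true := by
  decide +kernel
def c_17_11_16_57 : cellOK T17 17 57 11 ((16 * 57 + 1) / 11) 16 = true := by
  decide +kernel
def c_17_11_16_46 : cellOK T17 17 46 11 ((16 * 46 + 1) / 11) 16 = true := by
  decide +kernel
def c_17_11_16_35 : cellOK T17 17 35 11 ((16 * 35 + 1) / 11) 16 = true := by
  decide +kernel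
def c_17_11_16_24 : cellOK T17 17 24 11 ((16 * 24 + 1) / 11) 16 = true := by
  decide +kernel
def c_17_11_16_13 : cellOK T17 17 13 11 ((16 * 13 + 1) / 11) 16 = true := by
  decide +kernel
def c_17_11_16_2 : cellOK T17 17 2 11 ((16 * 2 + 1) / 11) 16 = true := by
  decide +kernel
theorem gg_17_11_16 : GG T17 17 11 16 := gg_of (l := [90, 79, 68, 57, 46, 35, 24, 13, 2]) (by decide +kernel)
  ⟨c_17_11_16_90, c_17_11_16_79, c_17_11_16_68, c_17_11_16_57, c_17_11_16_46, c_17_11_16_35, c_17_11_16_24, c_17_11_16_13, c_17_11_16_2, trivial⟩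

end Pool.Agent.Helper55.FT
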