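import Pool.Agent.Helper55.FT.TabB

set_option autoImplicit false

/-!
# Cell checks
-/

namespace Pool.Agent.Helper55.FT

set_option maxRecDepth 100000
set_option linter.defProp false

def c_17_12_5_91 : cellOK T17 17 91 12 ((5 * 91 + 1) / 12) 5 = true := by
  decide +kernel
def c_17_12_5_79 : cellOK T17 17 79 12 ((5 * 79 + 1) / 12) 5 = true := by
  decide +kernel
def c_17_12_5_67 : cellOK T17 17 67 12 ((5 * 67 + 1) / 12) 5 = true := by
  decide +kernel
def c_17_12_5_55 : cellOK T17 17 55 12 ((5 * 55 + 1) / 12) 5 = true := by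
  decide +kernel
def c_17_12_5_43 : cellOK T17 17 43 12 ((5 * 43 + 1) / 12) 5 = true := by
  decide +kernel
def c_17_12_5_31 : cellOK T17 17 31 12 ((5 * 31 + 1) / 12) 5 = true := by
  decide +kernel
def c_17_12_5_19 : cellOK T17 17 19 12 ((5 * 19 + 1) / 12) 5 = true := by
  decide +kernel
def c_17_12_5_7 : cellOK T17 17 7 12 ((5 * 7 + 1) / 12) 5 = true := by
  decide +kernel
theorem gg_17_12_5 : GG T17 17 12 5 := gg_of (l := [91, 79, 67, 55, 43, 31, 19, 7]) (by decide +kernel)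
  ⟨c_17_12_5_91, c_17_12_5_79, c_17_12_5_67, c_17_12_5_55, c_17_12_5_43, c_17_12_5_31, c_17_12_5_19, c_17_12_5_7, trivial⟩

theorem gg_17_12_6 : GG T17 17 12 6 := gg_of (l := []) (by decide +kernel)
  trivial

def c_17_12_7_101 : cellOK T17 17 101 12 ((7 * 101 + 1) / 12) 7 = true := by
  decide +kernel
def c_17_12_7_89 : cellOK T17 17 89 12 ((7 * 89 + 1) / 12) 7 = true := by
  decide +kernel
def c_17_12_7_77 : cellOK T17 17 77 12 ((7 * 77 + 1) / 12) 7 = true := by
  decide +kernel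
def c_17_12_7_65 : cellOK T17 17 65 12 ((7 * 65 + 1) / 12) 7 = true := by
  decide +kernel
def c_17_12_7_53 : cellOK T17 17 53 12 ((7 * 53 + 1) / 12) 7 = true := by
  decide +kernel
def c_17_12_7_41 : cellOK T17 17 41 12 ((7 * 41 + 1) / 12) 7 = true := by
  decide +kernel
def c_17_12_7_29 : cellOK T17 17 29 12 ((7 * 29 + 1) / 12) 7 = true := by
  decide +kernel
def c_17_12_7_17 : cellOK T17 17 17 12 ((7 * 17 + 1) / 12) 7 = true := by
  decide +kernel
def c_17_12_7_5 : cellOK T17 17 5 12 ((7 * 5 + 1) / 12) 7 = true := by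
  decide +kernel
theorem gg_17_12_7 : GG T17 17 12 7 := gg_of (l := [101, 89, 77, 65, 53, 41, 29, 17, 5]) (by decide +kernel)
  ⟨c_17_12_7_101, c_17_12_7_89, c_17_12_7_77, c_17_12_7_65, c_17_12_7_53, c_17_12_7_41, c_17_12_7_29, c_17_12_7_17, c_17_12_7_5, trivial⟩

theorem gg_17_12_8 : GG T17 17 12 8 := gg_of (l := []) (by decide +kernel)
  trivial

theorem gg_17_12_9 : GG T17 17 12 9 := gg_of (l := []) (by decide +kernel)
  trivial

theorem gg_17_12_10 : GG T17 17 12 10 := gg_of (l := []) (by decide +kernel)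
  trivial

def c_17_12_11_97 : cellOK T17 17 97 12 ((11 * 97 + 1) / 12) 11 = true := by
  decide +kernel
def c_17_12_11_85 : cellOK T17 17 85 12 ((11 * 85 + 1) / 12) 11 = true := by
  decide +kernel
def c_17_12_11_73 : cellOK T17 17 73 12 ((11 * 73 + 1) / 12) 11 = true := by
  decide +kernel
def c_17_12_11_61 : cellOK T17 17 61 12 ((11 * 61 + 1) / 12) 11 = true := by
  decide +kernel
def c_17_12_11_49 : cellOK T17 17 49 12 ((11 * 49 + 1) / 12) 11 = true := by
  decide +kernel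
def c_17_12_11_37 : cellOK T17 17 37 12 ((11 * 37 + 1) / 12) 11 = true := by
  decide +kernel
def c_17_12_11_25 : cellOK T17 17 25 12 ((11 * 25 + 1) / 12) 11 = true := by
  decide +kernel
def c_17_12_11_13 : cellOK T17 17 13 12 ((11 * 13 + 1) / 12) 11 = true := by
  decide +kernel
def c_17_12_11_1 : cellOK T17 17 1 12 ((11 * 1 + 1) / 12) 11 = true := by
  decide +kernel
theorem gg_17_12_11 : GG T17 17 12 11 := gg_of (l := [97, 85, 73, 61, 49, 37, 25, 13, 1]) (by decide +kernel)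
  ⟨c_17_12_11_97, c_17_12_11_85, c_17_12_11_73, c_17_12_11_61, c_17_12_11_49, c_17_12_11_37, c_17_12_11_25, c_17_12_11_13, c_17_12_11_1, trivial⟩

theorem gg_17_12_12 : GG T17 17 12 12 := gg_of (l := []) (by decide +kernel)
  trivial

def c_17_12_13_95 : cellOK T17 17 95 12 ((13 * 95 + 1) / 12) 13 = true := by
  decide +kernel
def c_17_12_13_83 : cellOK T17 17 83 12 ((13 * 83 + 1) / 12) 13 = true := by
  decide +kernel
def c_17_12_13_71 : cellOK T17 17 71 12 ((13 * 71 + 1) / 12) 13 = true := by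
  decide +kernel
def c_17_12_13_59 : cellOK T17 17 59 12 ((13 * 59 + 1) / 12) 13 = true := by
  decide +kernel
def c_17_12_13_47 : cellOK T17 17 47 12 ((13 * 47 + 1) / 12) 13 = true := by
  decide +kernel
def c_17_12_13_35 : cellOK T17 17 35 12 ((13 * 35 + 1) / 12) 13 = true := by
  decide +kernel
def c_17_12_13_23 : cellOK T17 17 23 12 ((13 * 23 + 1) / 12) 13 = true := by
  decide +kernel
def c_17_12_13_11 : cellOK T17 17 11 12 ((13 * 11 + 1) / 12) 13 = true := by
  decide +kernel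
theorem gg_17_12_13 : GG T17 17 12 13 := gg_of (l := [95, 83, 71, 59, 47, 35, 23, 11]) (by decide +kernel)
  ⟨c_17_12_13_95, c_17_12_13_83, c_17_12_13_71, c_17_12_13_59, c_17_12_13_47, c_17_12_13_35, c_17_12_13_23, c_17_12_13_11, trivial⟩

theorem gg_17_12_14 : GG T17 17 12 14 := gg_of (l := []) (by decide +kernel)
  trivial

theorem gg_17_12_15 : GG T17 17 12 15 := gg_of (l := []) (by decide +kernel)
  trivial

theorem gg_17_12_16 : GG T17 17 12 16 := gg_of (l := []) (by decide +kernel)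
  trivial

def c_17_13_4_107 : cellOK T17 17 107 13 ((4 * 107 + 1) / 13) 4 = true := by
  decide +kernel
def c_17_13_4_94 : cellOK T17 17 94 13 ((4 * 94 + 1) / 13) 4 = true := by
  decide +kernel
def c_17_13_4_81 : cellOK T17 17 81 13 ((4 * 81 + 1) / 13) 4 = true := by
  decide +kernel
def c_17_13_4_68 : cellOK T17 17 68 13 ((4 * 68 + 1) / 13) 4 = true := by
  decide +kernel
def c_17_13_4_55 : cellOK T17 17 55 13 ((4 * 55 + 1) / 13) 4 = true := by
  decide +kernel
def c_17_13_4_42 : cellOK T17 17 42 13 ((4 * 42 + 1) / 13) 4 = true := by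
  decide +kernel
def c_17_13_4_29 : cellOK T17 17 29 13 ((4 * 29 + 1) / 13) 4 = true := by
  decide +kernel
def c_17_13_4_16 : cellOK T17 17 16 13 ((4 * 16 + 1) / 13) 4 = true := by
  decide +kernel
def c_17_13_4_3 : cellOK T17 17 3 13 ((4 * 3 + 1) / 13) 4 = true := by
  decide +kernel
theorem gg_17_13_4 : GG T17 17 13 4 := gg_of (l := [107, 94, 81, 68, 55, 42, 29, 16, 3]) (by decide +kernel)
  ⟨c_17_13_4_107, c_17_13_4_94, c_17_13_4_81, c_17_13_4_68, c_17_13_4_55, c_17_13_4_42, c_17_13_4_29, c_17_13_4_16, c_17_13_4_3, trivial⟩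

def c_17_13_5_109 : cellOK T17 17 109 13 ((5 * 109 + 1) / 13) 5 = true := by
  decide +kernel
def c_17_13_5_96 : cellOK T17 17 96 13 ((5 * 96 + 1) / 13) 5 = true := by
  decide +kernel
def c_17_13_5_83 : cellOK T17 17 83 13 ((5 * 83 + 1) / 13) 5 = true := by
  decide +kernel
def c_17_13_5_70 : cellOK T17 17 70 13 ((5 * 70 + 1) / 13) 5 = true := by
  decide +kernel
def c_17_13_5_57 : cellOK T17 17 57 13 ((5 * 57 + 1) / 13) 5 = true := by
  decide +kernel
def c_17_13_5_44 : cellOK T17 17 44 13 ((5 * 44 + 1) / 13) 5 = true := by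
  decide +kernel
def c_17_13_5_31 : cellOK T17 17 31 13 ((5 * 31 + 1) / 13) 5 = true := by
  decide +kernel
def c_17_13_5_18 : cellOK T17 17 18 13 ((5 * 18 + 1) / 13) 5 = true := by
  decide +kernel
def c_17_13_5_5 : cellOK T17 17 5 13 ((5 * 5 + 1) / 13) 5 = true := by
  decide +kernel
theorem gg_17_13_5 : GG T17 17 13 5 := gg_of (l := [109, 96, 83, 70, 57, 44, 31, 18, 5]) (by decide +kernel)
  ⟨c_17_13_5_109, c_17_13_5_96, c_17_13_5_83, c_17_13_5_70, c_17_13_5_57, c_17_13_5_44, c_17_13_5_31, c_17_13_5_18, c_17_13_5_5, trivial⟩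

def c_17_13_6_106 : cellOK T17 17 106 13 ((6 * 106 + 1) / 13) 6 = true := by
  decide +kernel
def c_17_13_6_93 : cellOK T17 17 93 13 ((6 * 93 + 1) / 13) 6 = true := by
  decide +kernel
def c_17_13_6_80 : cellOK T17 17 80 13 ((6 * 80 + 1) / 13) 6 = true := by
  decide +kernel
def c_17_13_6_67 : cellOK T17 17 67 13 ((6 * 67 + 1) / 13) 6 = true := by
  decide +kernel
def c_17_13_6_54 : cellOK T17 17 54 13 ((6 * 54 + 1) / 13) 6 = true := by
  decide +kernel
def c_17_13_6_41 : cellOK T17 17 41 13 ((6 * 41 + 1) / 13) 6 = true := by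
  decide +kernel
def c_17_13_6_28 : cellOK T17 17 28 13 ((6 * 28 + 1) / 13) 6 = true := by
  decide +kernel
def c_17_13_6_15 : cellOK T17 17 15 13 ((6 * 15 + 1) / 13) 6 = true := by
  decide +kernel
def c_17_13_6_2 : cellOK T17 17 2 13 ((6 * 2 + 1) / 13) 6 = true := by
  decide +kernel
theorem gg_17_13_6 : GG T17 17 13 6 := gg_of (l := [106, 93, 80, 67, 54, 41, 28, 15, 2]) (by decide +kernel)
  ⟨c_17_13_6_106, c_17_13_6_93, c_17_13_6_80, c_17_13_6_67, c_17_13_6_54, c_17_13_6_41, c_17_13_6_28, c_17_13_6_15, c_17_13_6_2, trivial⟩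

def c_17_13_7_102 : cellOK T17 17 102 13 ((7 * 102 + 1) / 13) 7 = true := by
  decide +kernel
def c_17_13_7_89 : cellOK T17 17 89 13 ((7 * 89 + 1) / 13) 7 = true := by
  decide +kernel
def c_17_13_7_76 : cellOK T17 17 76 13 ((7 * 76 + 1) / 13) 7 = true := by
  decide +kernel
def c_17_13_7_63 : cellOK T17 17 63 13 ((7 * 63 + 1) / 13) 7 = true := by
  decide +kernel
def c_17_13_7_50 : cellOK T17 17 50 13 ((7 * 50 + 1) / 13) 7 = true := by
  decide +kernel
def c_17_13_7_37 : cellOK T17 17 37 13 ((7 * 37 + 1) / 13) 7 = true := by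
  decide +kernel
def c_17_13_7_24 : cellOK T17 17 24 13 ((7 * 24 + 1) / 13) 7 = true := by
  decide +kernel
def c_17_13_7_11 : cellOK T17 17 11 13 ((7 * 11 + 1) / 13) 7 = true := by
  decide +kernel
theorem gg_17_13_7 : GG T17 17 13 7 := gg_of (l := [102, 89, 76, 63, 50, 37, 24, 11]) (by decide +kernel)
  ⟨c_17_13_7_102, c_17_13_7_89, c_17_13_7_76, c_17_13_7_63, c_17_13_7_50, c_17_13_7_37, c_17_13_7_24, c_17_13_7_11, trivial⟩

def c_17_13_8_99 : cellOK T17 17 99 13 ((8 * 99 + 1) / 13) 8 = true := by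
  decide +kernel
def c_17_13_8_86 : cellOK T17 17 86 13 ((8 * 86 + 1) / 13) 8 = true := by
  decide +kernel
def c_17_13_8_73 : cellOK T17 17 73 13 ((8 * 73 + 1) / 13) 8 = true := by
  decide +kernel
def c_17_13_8_60 : cellOK T17 17 60 13 ((8 * 60 + 1) / 13) 8 = true := by
  decide +kernel
def c_17_13_8_47 : cellOK T17 17 47 13 ((8 * 47 + 1) / 13) 8 = true := by
  decide +kernel
def c_17_13_8_34 : cellOK T17 17 34 13 ((8 * 34 + 1) / 13) 8 = true := by
  decide +kernel
def c_17_13_8_21 : cellOK T17 17 21 13 ((8 * 21 + 1) / 13) 8 = true := by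
  decide +kernel
def c_17_13_8_8 : cellOK T17 17 8 13 ((8 * 8 + 1) / 13) 8 = true := by
  decide +kernel
theorem gg_17_13_8 : GG T17 17 13 8 := gg_of (l := [99, 86, 73, 60, 47, 34, 21, 8]) (by decide +kernel)
  ⟨c_17_13_8_99, c_17_13_8_86, c_17_13_8_73, c_17_13_8_60, c_17_13_8_47, c_17_13_8_34, c_17_13_8_21, c_17_13_8_8, trivial⟩

def c_17_13_9_101 : cellOK T17 17 101 13 ((9 * 101 + 1) / 13) 9 = true := by
  decide +kernel
def c_17_13_9_88 : cellOK T17 17 88 13 ((9 * 88 + 1) / 13) 9 = true := by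
  decide +kernel
def c_17_13_9_75 : cellOK T17 17 75 13 ((9 * 75 + 1) / 13) 9 = true := by
  decide +kernel
def c_17_13_9_62 : cellOK T17 17 62 13 ((9 * 62 + 1) / 13) 9 = true := by
  decide +kernel
def c_17_13_9_49 : cellOK T17 17 49 13 ((9 * 49 + 1) / 13) 9 = true := by
  decide +kernel
def c_17_13_9_36 : cellOK T17 17 36 13 ((9 * 36 + 1) / 13) 9 = true := by
  decide +kernel
def c_17_13_9_23 : cellOK T17 17 23 13 ((9 * 23 + 1) / 13) 9 = true := by
  decide +kernel
def c_17_13_9_10 : cellOK T17 17 10 13 ((9 * 10 + 1) / 13) 9 = true := by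
  decide +kernel
theorem gg_17_13_9 : GG T17 17 13 9 := gg_of (l := [101, 88, 75, 62, 49, 36, 23, 10]) (by decide +kernel)
  ⟨c_17_13_9_101, c_17_13_9_88, c_17_13_9_75, c_17_13_9_62, c_17_13_9_49, c_17_13_9_36, c_17_13_9_23, c_17_13_9_10, trivial⟩

def c_17_13_10_100 : cellOK T17 17 100 13 ((10 * 100 + 1) / 13) 10 = true := by
  decide +kernel
def c_17_13_10_87 : cellOK T17 17 87 13 ((10 * 87 + 1) / 13) 10 = true := by
  decide +kernel
def c_17_13_10_74 : cellOK T17 17 74 13 ((10 * 74 + 1) / 13) 10 = true := by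
  decide +kernel
def c_17_13_10_61 : cellOK T17 17 61 13 ((10 * 61 + 1) / 13) 10 = true := by
  decide +kernel
def c_17_13_10_48 : cellOK T17 17 48 13 ((10 * 48 + 1) / 13) 10 = true := by
  decide +kernel
def c_17_13_10_35 : cellOK T17 17 35 13 ((10 * 35 + 1) / 13) 10 = true := by
  decide +kernel
def c_17_13_10_22 : cellOK T17 17 22 13 ((10 * 22 + 1) / 13) 10 = true := by
  decide +kernel
def c_17_13_10_9 : cellOK T17 17 9 13 ((10 * 9 + 1) / 13) 10 = true := by
  decide +kernel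
theorem gg_17_13_10 : GG T17 17 13 10 := gg_of (l := [100, 87, 74, 61, 48, 35, 22, 9]) (by decide +kernel)
  ⟨c_17_13_10_100, c_17_13_10_87, c_17_13_10_74, c_17_13_10_61, c_17_13_10_48, c_17_13_10_35, c_17_13_10_22, c_17_13_10_9, trivial⟩

def c_17_13_11_98 : cellOK T17 17 98 13 ((11 * 98 + 1) / 13) 11 = true := by
  decide +kernel
def c_17_13_11_85 : cellOK T17 17 85 13 ((11 * 85 + 1) / 13) 11 = true := by
  decide +kernel
def c_17_13_11_72 : cellOK T17 17 72 13 ((11 * 72 + 1) / 13) 11 = true := by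
  decide +kernel
def c_17_13_11_59 : cellOK T17 17 59 13 ((11 * 59 + 1) / 13) 11 = true := by
  decide +kernel
def c_17_13_11_46 : cellOK T17 17 46 13 ((11 * 46 + 1) / 13) 11 = true := by
  decide +kernel
def c_17_13_11_33 : cellOK T17 17 33 13 ((11 * 33 + 1) / 13) 11 = true := by
  decide +kernel
def c_17_13_11_20 : cellOK T17 17 20 13 ((11 * 20 + 1) / 13) 11 = true := by
  decide +kernel
def c_17_13_11_7 : cellOK T17 17 7 13 ((11 * 7 + 1) / 13) 11 = true := by
  decide +kernel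
theorem gg_17_13_11 : GG T17 17 13 11 := gg_of (l := [98, 85, 72, 59, 46, 33, 20, 7]) (by decide +kernel)
  ⟨c_17_13_11_98, c_17_13_11_85, c_17_13_11_72, c_17_13_11_59, c_17_13_11_46, c_17_13_11_33, c_17_13_11_20, c_17_13_11_7, trivial⟩

def c_17_13_12_105 : cellOK T17 17 105 13 ((12 * 105 + 1) / 13) 12 = true := by
  decide +kernel
def c_17_13_12_92 : cellOK T17 17 92 13 ((12 * 92 + 1) / 13) 12 = true := by
  decide +kernel
def c_17_13_12_79 : cellOK T17 17 79 13 ((12 * 79 + 1) / 13) 12 = true := by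
  decide +kernel
def c_17_13_12_66 : cellOK T17 17 66 13 ((12 * 66 + 1) / 13) 12 = true := by
  decide +kernel
def c_17_13_12_53 : cellOK T17 17 53 13 ((12 * 53 + 1) / 13) 12 = true := by
  decide +kernel
def c_17_13_12_40 : cellOK T17 17 40 13 ((12 * 40 + 1) / 13) 12 = true := by
  decide +kernel
def c_17_13_12_27 : cellOK T17 17 27 13 ((12 * 27 + 1) / 13) 12 = true := by
  decide +kernel
def c_17_13_12_14 : cellOK T17 17 14 13 ((12 * 14 + 1) / 13) 12 = true := by
  decide +kernel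
def c_17_13_12_1 : cellOK T17 17 1 13 ((12 * 1 + 1) / 13) 12 = true := by
  decide +kernel
theorem gg_17_13_12 : GG T17 17 13 12 := gg_of (l := [105, 92, 79, 66, 53, 40, 27, 14, 1]) (by decide +kernel)
  ⟨c_17_13_12_105, c_17_13_12_92, c_17_13_12_79, c_17_13_12_66, c_17_13_12_53, c_17_13_12_40, c_17_13_12_27, c_17_13_12_14, c_17_13_12_1, trivial⟩

theorem gg_17_13_13 : GG T17 17 13 13 := gg_of (l := []) (by decide +kernel)
  trivial

def c_17_13_14_103 : cellOK T17 17 103 13 ((14 * 103 + 1) / 13) 14 = true := by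
  decide +kernel
def c_17_13_14_90 : cellOK T17 17 90 13 ((14 * 90 + 1) / 13) 14 = true := by
  decide +kernel
def c_17_13_14_77 : cellOK T17 17 77 13 ((14 * 77 + 1) / 13) 14 = true := by
  decide +kernel
def c_17_13_14_64 : cellOK T17 17 64 13 ((14 * 64 + 1) / 13) 14 = true := by
  decide +kernel
def c_17_13_14_51 : cellOK T17 17 51 13 ((14 * 51 + 1) / 13) 14 = true := by
  decide +kernel
def c_17_13_14_38 : cellOK T17 17 38 13 ((14 * 38 + 1) / 13) 14 = true := by
  decide +kernel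
def c_17_13_14_25 : cellOK T17 17 25 13 ((14 * 25 + 1) / 13) 14 = true := by
  decide +kernel
def c_17_13_14_12 : cellOK T17 17 12 13 ((14 * 12 + 1) / 13) 14 = true := by
  decide +kernel
theorem gg_17_13_14 : GG T17 17 13 14 := gg_of (l := [103, 90, 77, 64, 51, 38, 25, 12]) (by decide +kernel)
  ⟨c_17_13_14_103, c_17_13_14_90, c_17_13_14_77, c_17_13_14_64, c_17_13_14_51, c_17_13_14_38, c_17_13_14_25, c_17_13_14_12, trivial⟩

end Pool.Agent.Helper55.FT
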