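import Pool.Agent.Helper55.FT.TabB

set_option autoImplicit false

/-!
# Cell checks
-/

namespace Pool.Agent.Helper55.FT

set_option maxRecDepth 100000
set_option linter.defProp false

def c_17_13_15_110 : cellOK T17 17 110 13 ((15 * 110 + 1) / 13) 15 = true := by
  decide +kernel
def c_17_13_15_97 : cellOK T17 17 97 13 ((15 * 97 + 1) / 13) 15 = true := by
  decide +kernel
def c_17_13_15_84 : cellOK T17 17 84 13 ((15 * 84 + 1) / 13) 15 = true := by
  decide +kernel
def c_17_13_15_71 : cellOK T17 17 71 13 ((15 * 71 + 1) / 13) 15 = true := by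
  decide +kernel
def c_17_13_15_58 : cellOK T17 17 58 13 ((15 * 58 + 1) / 13) 15 = true := by
  decide +kernel
def c_17_13_15_45 : cellOK T17 17 45 13 ((15 * 45 + 1) / 13) 15 = true := by
  decide +kernel
def c_17_13_15_32 : cellOK T17 17 32 13 ((15 * 32 + 1) / 13) 15 = true := by
  decide +kernel
def c_17_13_15_19 : cellOK T17 17 19 13 ((15 * 19 + 1) / 13) 15 = true := by
  decide +kernel
def c_17_13_15_6 : cellOK T17 17 6 13 ((15 * 6 + 1) / 13) 15 = true := by
  decide +kernel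
theorem gg_17_13_15 : GG T17 17 13 15 := gg_of (l := [110, 97, 84, 71, 58, 45, 32, 19, 6]) (by decide +kernel)
  ⟨c_17_13_15_110, c_17_13_15_97, c_17_13_15_84, c_17_13_15_71, c_17_13_15_58, c_17_13_15_45, c_17_13_15_32, c_17_13_15_19, c_17_13_15_6, trivial⟩

def c_17_13_16_108 : cellOK T17 17 108 13 ((16 * 108 + 1) / 13) 16 = true := by
  decide +kernel
def c_17_13_16_95 : cellOK T17 17 95 13 ((16 * 95 + 1) / 13) 16 = true := by
  decide +kernel
def c_17_13_16_82 : cellOK T17 17 82 13 ((16 * 82 + 1) / 13) 16 = true := by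
  decide +kernel
def c_17_13_16_69 : cellOK T17 17 69 13 ((16 * 69 + 1) / 13) 16 = true := by
  decide +kernel
def c_17_13_16_56 : cellOK T17 17 56 13 ((16 * 56 + 1) / 13) 16 = true := by
  decide +kernel
def c_17_13_16_43 : cellOK T17 17 43 13 ((16 * 43 + 1) / 13) 16 = true := by
  decide +kernel
def c_17_13_16_30 : cellOK T17 17 30 13 ((16 * 30 + 1) / 13) 16 = true := by
  decide +kernel
def c_17_13_16_17 : cellOK T17 17 17 13 ((16 * 17 + 1) / 13) 16 = true := by
  decide +kernel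
def c_17_13_16_4 : cellOK T17 17 4 13 ((16 * 4 + 1) / 13) 16 = true := by
  decide +kernel
theorem gg_17_13_16 : GG T17 17 13 16 := gg_of (l := [108, 95, 82, 69, 56, 43, 30, 17, 4]) (by decide +kernel)
  ⟨c_17_13_16_108, c_17_13_16_95, c_17_13_16_82, c_17_13_16_69, c_17_13_16_56, c_17_13_16_43, c_17_13_16_30, c_17_13_16_17, c_17_13_16_4, trivial⟩

def c_17_14_3_107 : cellOK T17 17 107 14 ((3 * 107 + 1) / 14) 3 = true := by
  decide +kernel
def c_17_14_3_93 : cellOK T17 17 93 14 ((3 * 93 + 1) / 14) 3 = true := by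
  decide +kernel
def c_17_14_3_79 : cellOK T17 17 79 14 ((3 * 79 + 1) / 14) 3 = true := by
  decide +kernel
def c_17_14_3_65 : cellOK T17 17 65 14 ((3 * 65 + 1) / 14) 3 = true := by
  decide +kernel
def c_17_14_3_51 : cellOK T17 17 51 14 ((3 * 51 + 1) / 14) 3 = true := by
  decide +kernel
def c_17_14_3_37 : cellOK T17 17 37 14 ((3 * 37 + 1) / 14) 3 = true := by
  decide +kernel
def c_17_14_3_23 : cellOK T17 17 23 14 ((3 * 23 + 1) / 14) 3 = true := by
  decide +kernel
def c_17_14_3_9 : cellOK T17 17 9 14 ((3 * 9 + 1) / 14) 3 = true := by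
  decide +kernel
theorem gg_17_14_3 : GG T17 17 14 3 := gg_of (l := [107, 93, 79, 65, 51, 37, 23, 9]) (by decide +kernel)
  ⟨c_17_14_3_107, c_17_14_3_93, c_17_14_3_79, c_17_14_3_65, c_17_14_3_51, c_17_14_3_37, c_17_14_3_23, c_17_14_3_9, trivial⟩

theorem gg_17_14_4 : GG T17 17 14 4 := gg_of (l := []) (by decide +kernel)
  trivial

def c_17_14_5_109 : cellOK T17 17 109 14 ((5 * 109 + 1) / 14) 5 = true := by
  decide +kernel
def c_17_14_5_95 : cellOK T17 17 95 14 ((5 * 95 + 1) / 14) 5 = true := by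
  decide +kernel
def c_17_14_5_81 : cellOK T17 17 81 14 ((5 * 81 + 1) / 14) 5 = true := by
  decide +kernel
def c_17_14_5_67 : cellOK T17 17 67 14 ((5 * 67 + 1) / 14) 5 = true := by
  decide +kernel
def c_17_14_5_53 : cellOK T17 17 53 14 ((5 * 53 + 1) / 14) 5 = true := by
  decide +kernel
def c_17_14_5_39 : cellOK T17 17 39 14 ((5 * 39 + 1) / 14) 5 = true := by
  decide +kernel
def c_17_14_5_25 : cellOK T17 17 25 14 ((5 * 25 + 1) / 14) 5 = true := by
  decide +kernel
def c_17_14_5_11 : cellOK T17 17 11 14 ((5 * 11 + 1) / 14) 5 = true := by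
  decide +kernel
theorem gg_17_14_5 : GG T17 17 14 5 := gg_of (l := [109, 95, 81, 67, 53, 39, 25, 11]) (by decide +kernel)
  ⟨c_17_14_5_109, c_17_14_5_95, c_17_14_5_81, c_17_14_5_67, c_17_14_5_53, c_17_14_5_39, c_17_14_5_25, c_17_14_5_11, trivial⟩

theorem gg_17_14_6 : GG T17 17 14 6 := gg_of (l := []) (by decide +kernel)
  trivial

theorem gg_17_14_7 : GG T17 17 14 7 := gg_of (l := []) (by decide +kernel)
  trivial

theorem gg_17_14_8 : GG T17 17 14 8 := gg_of (l := []) (by decide +kernel)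
  trivial

def c_17_14_9_115 : cellOK T17 17 115 14 ((9 * 115 + 1) / 14) 9 = true := by
  decide +kernel
def c_17_14_9_101 : cellOK T17 17 101 14 ((9 * 101 + 1) / 14) 9 = true := by
  decide +kernel
def c_17_14_9_87 : cellOK T17 17 87 14 ((9 * 87 + 1) / 14) 9 = true := by
  decide +kernel
def c_17_14_9_73 : cellOK T17 17 73 14 ((9 * 73 + 1) / 14) 9 = true := by
  decide +kernel
def c_17_14_9_59 : cellOK T17 17 59 14 ((9 * 59 + 1) / 14) 9 = true := by
  decide +kernel
def c_17_14_9_45 : cellOK T17 17 45 14 ((9 * 45 + 1) / 14) 9 = true := by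
  decide +kernel
def c_17_14_9_31 : cellOK T17 17 31 14 ((9 * 31 + 1) / 14) 9 = true := by
  decide +kernel
def c_17_14_9_17 : cellOK T17 17 17 14 ((9 * 17 + 1) / 14) 9 = true := by
  decide +kernel
def c_17_14_9_3 : cellOK T17 17 3 14 ((9 * 3 + 1) / 14) 9 = true := by
  decide +kernel
theorem gg_17_14_9 : GG T17 17 14 9 := gg_of (l := [115, 101, 87, 73, 59, 45, 31, 17, 3]) (by decide +kernel)
  ⟨c_17_14_9_115, c_17_14_9_101, c_17_14_9_87, c_17_14_9_73, c_17_14_9_59, c_17_14_9_45, c_17_14_9_31, c_17_14_9_17, c_17_14_9_3, trivial⟩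

theorem gg_17_14_10 : GG T17 17 14 10 := gg_of (l := []) (by decide +kernel)
  trivial

def c_17_14_11_117 : cellOK T17 17 117 14 ((11 * 117 + 1) / 14) 11 = true := by
  decide +kernel
def c_17_14_11_103 : cellOK T17 17 103 14 ((11 * 103 + 1) / 14) 11 = true := by
  decide +kernel
def c_17_14_11_89 : cellOK T17 17 89 14 ((11 * 89 + 1) / 14) 11 = true := by
  decide +kernel
def c_17_14_11_75 : cellOK T17 17 75 14 ((11 * 75 + 1) / 14) 11 = true := by
  decide +kernel
def c_17_14_11_61 : cellOK T17 17 61 14 ((11 * 61 + 1) / 14) 11 = true := by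
  decide +kernel
def c_17_14_11_47 : cellOK T17 17 47 14 ((11 * 47 + 1) / 14) 11 = true := by
  decide +kernel
def c_17_14_11_33 : cellOK T17 17 33 14 ((11 * 33 + 1) / 14) 11 = true := by
  decide +kernel
def c_17_14_11_19 : cellOK T17 17 19 14 ((11 * 19 + 1) / 14) 11 = true := by
  decide +kernel
def c_17_14_11_5 : cellOK T17 17 5 14 ((11 * 5 + 1) / 14) 11 = true := by
  decide +kernel
theorem gg_17_14_11 : GG T17 17 14 11 := gg_of (l := [117, 103, 89, 75, 61, 47, 33, 19, 5]) (by decide +kernel)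
  ⟨c_17_14_11_117, c_17_14_11_103, c_17_14_11_89, c_17_14_11_75, c_17_14_11_61, c_17_14_11_47, c_17_14_11_33, c_17_14_11_19, c_17_14_11_5, trivial⟩

theorem gg_17_14_12 : GG T17 17 14 12 := gg_of (l := []) (by decide +kernel)
  trivial

def c_17_14_13_113 : cellOK T17 17 113 14 ((13 * 113 + 1) / 14) 13 = true := by
  decide +kernel
def c_17_14_13_99 : cellOK T17 17 99 14 ((13 * 99 + 1) / 14) 13 = true := by
  decide +kernel
def c_17_14_13_85 : cellOK T17 17 85 14 ((13 * 85 + 1) / 14) 13 = true := by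
  decide +kernel
def c_17_14_13_71 : cellOK T17 17 71 14 ((13 * 71 + 1) / 14) 13 = true := by
  decide +kernel
def c_17_14_13_57 : cellOK T17 17 57 14 ((13 * 57 + 1) / 14) 13 = true := by
  decide +kernel
def c_17_14_13_43 : cellOK T17 17 43 14 ((13 * 43 + 1) / 14) 13 = true := by
  decide +kernel
def c_17_14_13_29 : cellOK T17 17 29 14 ((13 * 29 + 1) / 14) 13 = true := by
  decide +kernel
def c_17_14_13_15 : cellOK T17 17 15 14 ((13 * 15 + 1) / 14) 13 = true := by
  decide +kernel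
def c_17_14_13_1 : cellOK T17 17 1 14 ((13 * 1 + 1) / 14) 13 = true := by
  decide +kernel
theorem gg_17_14_13 : GG T17 17 14 13 := gg_of (l := [113, 99, 85, 71, 57, 43, 29, 15, 1]) (by decide +kernel)
  ⟨c_17_14_13_113, c_17_14_13_99, c_17_14_13_85, c_17_14_13_71, c_17_14_13_57, c_17_14_13_43, c_17_14_13_29, c_17_14_13_15, c_17_14_13_1, trivial⟩

theorem gg_17_14_14 : GG T17 17 14 14 := gg_of (l := []) (by decide +kernel)
  trivial

def c_17_14_15_111 : cellOK T17 17 111 14 ((15 * 111 + 1) / 14) 15 = true := by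
  decide +kernel
def c_17_14_15_97 : cellOK T17 17 97 14 ((15 * 97 + 1) / 14) 15 = true := by
  decide +kernel
def c_17_14_15_83 : cellOK T17 17 83 14 ((15 * 83 + 1) / 14) 15 = true := by
  decide +kernel
def c_17_14_15_69 : cellOK T17 17 69 14 ((15 * 69 + 1) / 14) 15 = true := by
  decide +kernel
def c_17_14_15_55 : cellOK T17 17 55 14 ((15 * 55 + 1) / 14) 15 = true := by
  decide +kernel
def c_17_14_15_41 : cellOK T17 17 41 14 ((15 * 41 + 1) / 14) 15 = true := by
  decide +kernel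
def c_17_14_15_27 : cellOK T17 17 27 14 ((15 * 27 + 1) / 14) 15 = true := by
  decide +kernel
def c_17_14_15_13 : cellOK T17 17 13 14 ((15 * 13 + 1) / 14) 15 = true := by
  decide +kernel
theorem gg_17_14_15 : GG T17 17 14 15 := gg_of (l := [111, 97, 83, 69, 55, 41, 27, 13]) (by decide +kernel)
  ⟨c_17_14_15_111, c_17_14_15_97, c_17_14_15_83, c_17_14_15_69, c_17_14_15_55, c_17_14_15_41, c_17_14_15_27, c_17_14_15_13, trivial⟩

theorem gg_17_14_16 : GG T17 17 14 16 := gg_of (l := []) (by decide +kernel)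
  trivial

def c_17_15_2_127 : cellOK T17 17 127 15 ((2 * 127 + 1) / 15) 2 = true := by
  decide +kernel
def c_17_15_2_112 : cellOK T17 17 112 15 ((2 * 112 + 1) / 15) 2 = true := by
  decide +kernel
def c_17_15_2_97 : cellOK T17 17 97 15 ((2 * 97 + 1) / 15) 2 = true := by
  decide +kernel
def c_17_15_2_82 : cellOK T17 17 82 15 ((2 * 82 + 1) / 15) 2 = true := by
  decide +kernel
def c_17_15_2_67 : cellOK T17 17 67 15 ((2 * 67 + 1) / 15) 2 = true := by
  decide +kernel
def c_17_15_2_52 : cellOK T17 17 52 15 ((2 * 52 + 1) / 15) 2 = true := by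
  decide +kernel
def c_17_15_2_37 : cellOK T17 17 37 15 ((2 * 37 + 1) / 15) 2 = true := by
  decide +kernel
def c_17_15_2_22 : cellOK T17 17 22 15 ((2 * 22 + 1) / 15) 2 = true := by
  decide +kernel
def c_17_15_2_7 : cellOK T17 17 7 15 ((2 * 7 + 1) / 15) 2 = true := by
  decide +kernel
theorem gg_17_15_2 : GG T17 17 15 2 := gg_of (l := [127, 112, 97, 82, 67, 52, 37, 22, 7]) (by decide +kernel)
  ⟨c_17_15_2_127, c_17_15_2_112, c_17_15_2_97, c_17_15_2_82, c_17_15_2_67, c_17_15_2_52, c_17_15_2_37, c_17_15_2_22, c_17_15_2_7, trivial⟩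

theorem gg_17_15_3 : GG T17 17 15 3 := gg_of (l := []) (by decide +kernel)
  trivial

def c_17_15_4_116 : cellOK T17 17 116 15 ((4 * 116 + 1) / 15) 4 = true := by
  decide +kernel
def c_17_15_4_101 : cellOK T17 17 101 15 ((4 * 101 + 1) / 15) 4 = true := by
  decide +kernel
def c_17_15_4_86 : cellOK T17 17 86 15 ((4 * 86 + 1) / 15) 4 = true := by
  decide +kernel
def c_17_15_4_71 : cellOK T17 17 71 15 ((4 * 71 + 1) / 15) 4 = true := by
  decide +kernel
def c_17_15_4_56 : cellOK T17 17 56 15 ((4 * 56 + 1) / 15) 4 = true := by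
  decide +kernel
def c_17_15_4_41 : cellOK T17 17 41 15 ((4 * 41 + 1) / 15) 4 = true := by
  decide +kernel
def c_17_15_4_26 : cellOK T17 17 26 15 ((4 * 26 + 1) / 15) 4 = true := by
  decide +kernel
def c_17_15_4_11 : cellOK T17 17 11 15 ((4 * 11 + 1) / 15) 4 = true := by
  decide +kernel
theorem gg_17_15_4 : GG T17 17 15 4 := gg_of (l := [116, 101, 86, 71, 56, 41, 26, 11]) (by decide +kernel)
  ⟨c_17_15_4_116, c_17_15_4_101, c_17_15_4_86, c_17_15_4_71, c_17_15_4_56, c_17_15_4_41, c_17_15_4_26, c_17_15_4_11, trivial⟩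

theorem gg_17_15_5 : GG T17 17 15 5 := gg_of (l := []) (by decide +kernel)
  trivial

theorem gg_17_15_6 : GG T17 17 15 6 := gg_of (l := []) (by decide +kernel)
  trivial

def c_17_15_7_122 : cellOK T17 17 122 15 ((7 * 122 + 1) / 15) 7 = true := by
  decide +kernel
def c_17_15_7_107 : cellOK T17 17 107 15 ((7 * 107 + 1) / 15) 7 = true := by
  decide +kernel
def c_17_15_7_92 : cellOK T17 17 92 15 ((7 * 92 + 1) / 15) 7 = true := by
  decide +kernel
def c_17_15_7_77 : cellOK T17 17 77 15 ((7 * 77 + 1) / 15) 7 = true := by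
  decide +kernel
def c_17_15_7_62 : cellOK T17 17 62 15 ((7 * 62 + 1) / 15) 7 = true := by
  decide +kernel
def c_17_15_7_47 : cellOK T17 17 47 15 ((7 * 47 + 1) / 15) 7 = true := by
  decide +kernel
def c_17_15_7_32 : cellOK T17 17 32 15 ((7 * 32 + 1) / 15) 7 = true := by
  decide +kernel
def c_17_15_7_17 : cellOK T17 17 17 15 ((7 * 17 + 1) / 15) 7 = true := by
  decide +kernel
def c_17_15_7_2 : cellOK T17 17 2 15 ((7 * 2 + 1) / 15) 7 = true := by
  decide +kernel
theorem gg_17_15_7 : GG T17 17 15 7 := gg_of (l := [122, 107, 92, 77, 62, 47, 32, 17, 2]) (by decide +kernel)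
  ⟨c_17_15_7_122, c_17_15_7_107, c_17_15_7_92, c_17_15_7_77, c_17_15_7_62, c_17_15_7_47, c_17_15_7_32, c_17_15_7_17, c_17_15_7_2, trivial⟩

def c_17_15_8_118 : cellOK T17 17 118 15 ((8 * 118 + 1) / 15) 8 = true := by
  decide +kernel
def c_17_15_8_103 : cellOK T17 17 103 15 ((8 * 103 + 1) / 15) 8 = true := by
  decide +kernel
def c_17_15_8_88 : cellOK T17 17 88 15 ((8 * 88 + 1) / 15) 8 = true := by
  decide +kernel
def c_17_15_8_73 : cellOK T17 17 73 15 ((8 * 73 + 1) / 15) 8 = true := by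
  decide +kernel
def c_17_15_8_58 : cellOK T17 17 58 15 ((8 * 58 + 1) / 15) 8 = true := by
  decide +kernel
def c_17_15_8_43 : cellOK T17 17 43 15 ((8 * 43 + 1) / 15) 8 = true := by
  decide +kernel
def c_17_15_8_28 : cellOK T17 17 28 15 ((8 * 28 + 1) / 15) 8 = true := by
  decide +kernel
def c_17_15_8_13 : cellOK T17 17 13 15 ((8 * 13 + 1) / 15) 8 = true := by
  decide +kernel
theorem gg_17_15_8 : GG T17 17 15 8 := gg_of (l := [118, 103, 88, 73, 58, 43, 28, 13]) (by decide +kernel)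
  ⟨c_17_15_8_118, c_17_15_8_103, c_17_15_8_88, c_17_15_8_73, c_17_15_8_58, c_17_15_8_43, c_17_15_8_28, c_17_15_8_13, trivial⟩

theorem gg_17_15_9 : GG T17 17 15 9 := gg_of (l := []) (by decide +kernel)
  trivial

theorem gg_17_15_10 : GG T17 17 15 10 := gg_of (l := []) (by decide +kernel)
  trivial

def c_17_15_11_124 : cellOK T17 17 124 15 ((11 * 124 + 1) / 15) 11 = true := by
  decide +kernel
def c_17_15_11_109 : cellOK T17 17 109 15 ((11 * 109 + 1) / 15) 11 = true := by
  decide +kernel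
def c_17_15_11_94 : cellOK T17 17 94 15 ((11 * 94 + 1) / 15) 11 = true := by
  decide +kernel
def c_17_15_11_79 : cellOK T17 17 79 15 ((11 * 79 + 1) / 15) 11 = true := by
  decide +kernel
def c_17_15_11_64 : cellOK T17 17 64 15 ((11 * 64 + 1) / 15) 11 = true := by
  decide +kernel
def c_17_15_11_49 : cellOK T17 17 49 15 ((11 * 49 + 1) / 15) 11 = true := by
  decide +kernel
def c_17_15_11_34 : cellOK T17 17 34 15 ((11 * 34 + 1) / 15) 11 = true := by
  decide +kernel
def c_17_15_11_19 : cellOK T17 17 19 15 ((11 * 19 + 1) / 15) 11 = true := by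
  decide +kernel
def c_17_15_11_4 : cellOK T17 17 4 15 ((11 * 4 + 1) / 15) 11 = true := by
  decide +kernel
theorem gg_17_15_11 : GG T17 17 15 11 := gg_of (l := [124, 109, 94, 79, 64, 49, 34, 19, 4]) (by decide +kernel)
  ⟨c_17_15_11_124, c_17_15_11_109, c_17_15_11_94, c_17_15_11_79, c_17_15_11_64, c_17_15_11_49, c_17_15_11_34, c_17_15_11_19, c_17_15_11_4, trivial⟩

theorem gg_17_15_12 : GG T17 17 15 12 := gg_of (l := []) (by decide +kernel)
  trivial

def c_17_15_13_113 : cellOK T17 17 113 15 ((13 * 113 + 1) / 15) 13 = true := by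
  decide +kernel
def c_17_15_13_98 : cellOK T17 17 98 15 ((13 * 98 + 1) / 15) 13 = true := by
  decide +kernel
def c_17_15_13_83 : cellOK T17 17 83 15 ((13 * 83 + 1) / 15) 13 = true := by
  decide +kernel
def c_17_15_13_68 : cellOK T17 17 68 15 ((13 * 68 + 1) / 15) 13 = true := by
  decide +kernel
def c_17_15_13_53 : cellOK T17 17 53 15 ((13 * 53 + 1) / 15) 13 = true := by
  decide +kernel
def c_17_15_13_38 : cellOK T17 17 38 15 ((13 * 38 + 1) / 15) 13 = true := by
  decide +kernel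
def c_17_15_13_23 : cellOK T17 17 23 15 ((13 * 23 + 1) / 15) 13 = true := by
  decide +kernel
def c_17_15_13_8 : cellOK T17 17 8 15 ((13 * 8 + 1) / 15) 13 = true := by
  decide +kernel
theorem gg_17_15_13 : GG T17 17 15 13 := gg_of (l := [113, 98, 83, 68, 53, 38, 23, 8]) (by decide +kernel)
  ⟨c_17_15_13_113, c_17_15_13_98, c_17_15_13_83, c_17_15_13_68, c_17_15_13_53, c_17_15_13_38, c_17_15_13_23, c_17_15_13_8, trivial⟩

end Pool.Agent.Helper55.FT
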