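import Pool.Agent.Helper55.FT.TabB

set_option autoImplicit false

/-!
# Cell checks
-/

namespace Pool.Agent.Helper55.FT

set_option maxRecDepth 100000
set_option linter.defProp false

def c_17_15_14_121 : cellOK T17 17 121 15 ((14 * 121 + 1) / 15) 14 = true := by
  decide +kernel
def c_17_15_14_106 : cellOK T17 17 106 15 ((14 * 106 + 1) / 15) 14 = true := by
  decide +kernel
def c_17_15_14_91 : cellOK T17 17 91 15 ((14 * 91 + 1) / 15) 14 = true := by
  decide +kernel
def c_17_15_14_76 : cellOK T17 17 76 15 ((14 * 76 + 1) / 15) 14 = true := by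
  decide +kernel
def c_17_15_14_61 : cellOK T17 17 61 15 ((14 * 61 + 1) / 15) 14 = true := by
  decide +kernel
def c_17_15_14_46 : cellOK T17 17 46 15 ((14 * 46 + 1) / 15) 14 = true := by
  decide +kernel
def c_17_15_14_31 : cellOK T17 17 31 15 ((14 * 31 + 1) / 15) 14 = true := by
  decide +kernel
def c_17_15_14_16 : cellOK T17 17 16 15 ((14 * 16 + 1) / 15) 14 = true := by
  decide +kernel
def c_17_15_14_1 : cellOK T17 17 1 15 ((14 * 1 + 1) / 15) 14 = true := by
  decide +kernel
theorem gg_17_15_14 : GG T17 17 15 14 := gg_of (l := [121, 106, 91, 76, 61, 46, 31, 16, 1]) (by decide +kernel)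
  ⟨c_17_15_14_121, c_17_15_14_106, c_17_15_14_91, c_17_15_14_76, c_17_15_14_61, c_17_15_14_46, c_17_15_14_31, c_17_15_14_16, c_17_15_14_1, trivial⟩

theorem gg_17_15_15 : GG T17 17 15 15 := gg_of (l := []) (by decide +kernel)
  trivial

def c_17_15_16_119 : cellOK T17 17 119 15 ((16 * 119 + 1) / 15) 16 = true := by
  decide +kernel
def c_17_15_16_104 : cellOK T17 17 104 15 ((16 * 104 + 1) / 15) 16 = true := by
  decide +kernel
def c_17_15_16_89 : cellOK T17 17 89 15 ((16 * 89 + 1) / 15) 16 = true := by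
  decide +kernel
def c_17_15_16_74 : cellOK T17 17 74 15 ((16 * 74 + 1) / 15) 16 = true := by
  decide +kernel
def c_17_15_16_59 : cellOK T17 17 59 15 ((16 * 59 + 1) / 15) 16 = true := by
  decide +kernel
def c_17_15_16_44 : cellOK T17 17 44 15 ((16 * 44 + 1) / 15) 16 = true := by
  decide +kernel
def c_17_15_16_29 : cellOK T17 17 29 15 ((16 * 29 + 1) / 15) 16 = true := by
  decide +kernel
def c_17_15_16_14 : cellOK T17 17 14 15 ((16 * 14 + 1) / 15) 16 = true := by
  decide +kernel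
theorem gg_17_15_16 : GG T17 17 15 16 := gg_of (l := [119, 104, 89, 74, 59, 44, 29, 14]) (by decide +kernel)
  ⟨c_17_15_16_119, c_17_15_16_104, c_17_15_16_89, c_17_15_16_74, c_17_15_16_59, c_17_15_16_44, c_17_15_16_29, c_17_15_16_14, trivial⟩

def c_17_16_1_127 : cellOK T17 17 127 16 ((1 * 127 + 1) / 16) 1 = true := by
  decide +kernel
def c_17_16_1_111 : cellOK T17 17 111 16 ((1 * 111 + 1) / 16) 1 = true := by
  decide +kernel
def c_17_16_1_95 : cellOK T17 17 95 16 ((1 * 95 + 1) / 16) 1 = true := by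
  decide +kernel
def c_17_16_1_79 : cellOK T17 17 79 16 ((1 * 79 + 1) / 16) 1 = true := by
  decide +kernel
def c_17_16_1_63 : cellOK T17 17 63 16 ((1 * 63 + 1) / 16) 1 = true := by
  decide +kernel
def c_17_16_1_47 : cellOK T17 17 47 16 ((1 * 47 + 1) / 16) 1 = true := by
  decide +kernel
def c_17_16_1_31 : cellOK T17 17 31 16 ((1 * 31 + 1) / 16) 1 = true := by
  decide +kernel
def c_17_16_1_15 : cellOK T17 17 15 16 ((1 * 15 + 1) / 16) 1 = true := by
  decide +kernel
theorem gg_17_16_1 : GG T17 17 16 1 := gg_of (l := [127, 111, 95, 79, 63, 47, 31, 15]) (by decide +kernel)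
  ⟨c_17_16_1_127, c_17_16_1_111, c_17_16_1_95, c_17_16_1_79, c_17_16_1_63, c_17_16_1_47, c_17_16_1_31, c_17_16_1_15, trivial⟩

theorem gg_17_16_2 : GG T17 17 16 2 := gg_of (l := []) (by decide +kernel)
  trivial

def c_17_16_3_133 : cellOK T17 17 133 16 ((3 * 133 + 1) / 16) 3 = true := by
  decide +kernel
def c_17_16_3_117 : cellOK T17 17 117 16 ((3 * 117 + 1) / 16) 3 = true := by
  decide +kernel
def c_17_16_3_101 : cellOK T17 17 101 16 ((3 * 101 + 1) / 16) 3 = true := by
  decide +kernel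
def c_17_16_3_85 : cellOK T17 17 85 16 ((3 * 85 + 1) / 16) 3 = true := by
  decide +kernel
def c_17_16_3_69 : cellOK T17 17 69 16 ((3 * 69 + 1) / 16) 3 = true := by
  decide +kernel
def c_17_16_3_53 : cellOK T17 17 53 16 ((3 * 53 + 1) / 16) 3 = true := by
  decide +kernel
def c_17_16_3_37 : cellOK T17 17 37 16 ((3 * 37 + 1) / 16) 3 = true := by
  decide +kernel
def c_17_16_3_21 : cellOK T17 17 21 16 ((3 * 21 + 1) / 16) 3 = true := by
  decide +kernel
def c_17_16_3_5 : cellOK T17 17 5 16 ((3 * 5 + 1) / 16) 3 = true := by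
  decide +kernel
theorem gg_17_16_3 : GG T17 17 16 3 := gg_of (l := [133, 117, 101, 85, 69, 53, 37, 21, 5]) (by decide +kernel)
  ⟨c_17_16_3_133, c_17_16_3_117, c_17_16_3_101, c_17_16_3_85, c_17_16_3_69, c_17_16_3_53, c_17_16_3_37, c_17_16_3_21, c_17_16_3_5, trivial⟩

theorem gg_17_16_4 : GG T17 17 16 4 := gg_of (l := []) (by decide +kernel)
  trivial

def c_17_16_5_131 : cellOK T17 17 131 16 ((5 * 131 + 1) / 16) 5 = true := by
  decide +kernel
def c_17_16_5_115 : cellOK T17 17 115 16 ((5 * 115 + 1) / 16) 5 = true := by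
  decide +kernel
def c_17_16_5_99 : cellOK T17 17 99 16 ((5 * 99 + 1) / 16) 5 = true := by
  decide +kernel
def c_17_16_5_83 : cellOK T17 17 83 16 ((5 * 83 + 1) / 16) 5 = true := by
  decide +kernel
def c_17_16_5_67 : cellOK T17 17 67 16 ((5 * 67 + 1) / 16) 5 = true := by
  decide +kernel
def c_17_16_5_51 : cellOK T17 17 51 16 ((5 * 51 + 1) / 16) 5 = true := by
  decide +kernel
def c_17_16_5_35 : cellOK T17 17 35 16 ((5 * 35 + 1) / 16) 5 = true := by
  decide +kernel
def c_17_16_5_19 : cellOK T17 17 19 16 ((5 * 19 + 1) / 16) 5 = true := by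
  decide +kernel
def c_17_16_5_3 : cellOK T17 17 3 16 ((5 * 3 + 1) / 16) 5 = true := by
  decide +kernel
theorem gg_17_16_5 : GG T17 17 16 5 := gg_of (l := [131, 115, 99, 83, 67, 51, 35, 19, 3]) (by decide +kernel)
  ⟨c_17_16_5_131, c_17_16_5_115, c_17_16_5_99, c_17_16_5_83, c_17_16_5_67, c_17_16_5_51, c_17_16_5_35, c_17_16_5_19, c_17_16_5_3, trivial⟩

theorem gg_17_16_6 : GG T17 17 16 6 := gg_of (l := []) (by decide +kernel)
  trivial

def c_17_16_7_121 : cellOK T17 17 121 16 ((7 * 121 + 1) / 16) 7 = true := by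
  decide +kernel
def c_17_16_7_105 : cellOK T17 17 105 16 ((7 * 105 + 1) / 16) 7 = true := by
  decide +kernel
def c_17_16_7_89 : cellOK T17 17 89 16 ((7 * 89 + 1) / 16) 7 = true := by
  decide +kernel
def c_17_16_7_73 : cellOK T17 17 73 16 ((7 * 73 + 1) / 16) 7 = true := by
  decide +kernel
def c_17_16_7_57 : cellOK T17 17 57 16 ((7 * 57 + 1) / 16) 7 = true := by
  decide +kernel
def c_17_16_7_41 : cellOK T17 17 41 16 ((7 * 41 + 1) / 16) 7 = true := by
  decide +kernel
def c_17_16_7_25 : cellOK T17 17 25 16 ((7 * 25 + 1) / 16) 7 = true := by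
  decide +kernel
def c_17_16_7_9 : cellOK T17 17 9 16 ((7 * 9 + 1) / 16) 7 = true := by
  decide +kernel
theorem gg_17_16_7 : GG T17 17 16 7 := gg_of (l := [121, 105, 89, 73, 57, 41, 25, 9]) (by decide +kernel)
  ⟨c_17_16_7_121, c_17_16_7_105, c_17_16_7_89, c_17_16_7_73, c_17_16_7_57, c_17_16_7_41, c_17_16_7_25, c_17_16_7_9, trivial⟩

theorem gg_17_16_8 : GG T17 17 16 8 := gg_of (l := []) (by decide +kernel)
  trivial

def c_17_16_9_135 : cellOK T17 17 135 16 ((9 * 135 + 1) / 16) 9 = true := by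
  decide +kernel
def c_17_16_9_119 : cellOK T17 17 119 16 ((9 * 119 + 1) / 16) 9 = true := by
  decide +kernel
def c_17_16_9_103 : cellOK T17 17 103 16 ((9 * 103 + 1) / 16) 9 = true := by
  decide +kernel
def c_17_16_9_87 : cellOK T17 17 87 16 ((9 * 87 + 1) / 16) 9 = true := by
  decide +kernel
def c_17_16_9_71 : cellOK T17 17 71 16 ((9 * 71 + 1) / 16) 9 = true := by
  decide +kernel
def c_17_16_9_55 : cellOK T17 17 55 16 ((9 * 55 + 1) / 16) 9 = true := by
  decide +kernel
def c_17_16_9_39 : cellOK T17 17 39 16 ((9 * 39 + 1) / 16) 9 = true := by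
  decide +kernel
def c_17_16_9_23 : cellOK T17 17 23 16 ((9 * 23 + 1) / 16) 9 = true := by
  decide +kernel
def c_17_16_9_7 : cellOK T17 17 7 16 ((9 * 7 + 1) / 16) 9 = true := by
  decide +kernel
theorem gg_17_16_9 : GG T17 17 16 9 := gg_of (l := [135, 119, 103, 87, 71, 55, 39, 23, 7]) (by decide +kernel)
  ⟨c_17_16_9_135, c_17_16_9_119, c_17_16_9_103, c_17_16_9_87, c_17_16_9_71, c_17_16_9_55, c_17_16_9_39, c_17_16_9_23, c_17_16_9_7, trivial⟩

theorem gg_17_16_10 : GG T17 17 16 10 := gg_of (l := []) (by decide +kernel)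
  trivial

def c_17_16_11_125 : cellOK T17 17 125 16 ((11 * 125 + 1) / 16) 11 = true := by
  decide +kernel
def c_17_16_11_109 : cellOK T17 17 109 16 ((11 * 109 + 1) / 16) 11 = true := by
  decide +kernel
def c_17_16_11_93 : cellOK T17 17 93 16 ((11 * 93 + 1) / 16) 11 = true := by
  decide +kernel
def c_17_16_11_77 : cellOK T17 17 77 16 ((11 * 77 + 1) / 16) 11 = true := by
  decide +kernel
def c_17_16_11_61 : cellOK T17 17 61 16 ((11 * 61 + 1) / 16) 11 = true := by
  decide +kernel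
def c_17_16_11_45 : cellOK T17 17 45 16 ((11 * 45 + 1) / 16) 11 = true := by
  decide +kernel
def c_17_16_11_29 : cellOK T17 17 29 16 ((11 * 29 + 1) / 16) 11 = true := by
  decide +kernel
def c_17_16_11_13 : cellOK T17 17 13 16 ((11 * 13 + 1) / 16) 11 = true := by
  decide +kernel
theorem gg_17_16_11 : GG T17 17 16 11 := gg_of (l := [125, 109, 93, 77, 61, 45, 29, 13]) (by decide +kernel)
  ⟨c_17_16_11_125, c_17_16_11_109, c_17_16_11_93, c_17_16_11_77, c_17_16_11_61, c_17_16_11_45, c_17_16_11_29, c_17_16_11_13, trivial⟩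

theorem gg_17_16_12 : GG T17 17 16 12 := gg_of (l := []) (by decide +kernel)
  trivial

def c_17_16_13_123 : cellOK T17 17 123 16 ((13 * 123 + 1) / 16) 13 = true := by
  decide +kernel
def c_17_16_13_107 : cellOK T17 17 107 16 ((13 * 107 + 1) / 16) 13 = true := by
  decide +kernel
def c_17_16_13_91 : cellOK T17 17 91 16 ((13 * 91 + 1) / 16) 13 = true := by
  decide +kernel
def c_17_16_13_75 : cellOK T17 17 75 16 ((13 * 75 + 1) / 16) 13 = true := by
  decide +kernel
def c_17_16_13_59 : cellOK T17 17 59 16 ((13 * 59 + 1) / 16) 13 = true := by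
  decide +kernel
def c_17_16_13_43 : cellOK T17 17 43 16 ((13 * 43 + 1) / 16) 13 = true := by
  decide +kernel
def c_17_16_13_27 : cellOK T17 17 27 16 ((13 * 27 + 1) / 16) 13 = true := by
  decide +kernel
def c_17_16_13_11 : cellOK T17 17 11 16 ((13 * 11 + 1) / 16) 13 = true := by
  decide +kernel
theorem gg_17_16_13 : GG T17 17 16 13 := gg_of (l := [123, 107, 91, 75, 59, 43, 27, 11]) (by decide +kernel)
  ⟨c_17_16_13_123, c_17_16_13_107, c_17_16_13_91, c_17_16_13_75, c_17_16_13_59, c_17_16_13_43, c_17_16_13_27, c_17_16_13_11, trivial⟩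

theorem gg_17_16_14 : GG T17 17 16 14 := gg_of (l := []) (by decide +kernel)
  trivial

def c_17_16_15_129 : cellOK T17 17 129 16 ((15 * 129 + 1) / 16) 15 = true := by
  decide +kernel
def c_17_16_15_113 : cellOK T17 17 113 16 ((15 * 113 + 1) / 16) 15 = true := by
  decide +kernel
def c_17_16_15_97 : cellOK T17 17 97 16 ((15 * 97 + 1) / 16) 15 = true := by
  decide +kernel
def c_17_16_15_81 : cellOK T17 17 81 16 ((15 * 81 + 1) / 16) 15 = true := by
  decide +kernel
def c_17_16_15_65 : cellOK T17 17 65 16 ((15 * 65 + 1) / 16) 15 = true := by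
  decide +kernel
def c_17_16_15_49 : cellOK T17 17 49 16 ((15 * 49 + 1) / 16) 15 = true := by
  decide +kernel
def c_17_16_15_33 : cellOK T17 17 33 16 ((15 * 33 + 1) / 16) 15 = true := by
  decide +kernel
def c_17_16_15_17 : cellOK T17 17 17 16 ((15 * 17 + 1) / 16) 15 = true := by
  decide +kernel
def c_17_16_15_1 : cellOK T17 17 1 16 ((15 * 1 + 1) / 16) 15 = true := by
  decide +kernel
theorem gg_17_16_15 : GG T17 17 16 15 := gg_of (l := [129, 113, 97, 81, 65, 49, 33, 17, 1]) (by decide +kernel)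
  ⟨c_17_16_15_129, c_17_16_15_113, c_17_16_15_97, c_17_16_15_81, c_17_16_15_65, c_17_16_15_49, c_17_16_15_33, c_17_16_15_17, c_17_16_15_1, trivial⟩

theorem gg_17_16_16 : GG T17 17 16 16 := gg_of (l := []) (by decide +kernel)
  trivial

end Pool.Agent.Helper55.FT
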