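import Pool.Agent.Helper55.FT.Q17x1
import Pool.Agent.Helper55.FT.Q17x2
import Pool.Agent.Helper55.FT.Q17x3
import Pool.Agent.Helper55.FT.Q17x4
import Pool.Agent.Helper55.FT.Q17x5
import Pool.Agent.Helper55.FT.Q17x6

set_option autoImplicit false

/-!
# Cell checks
-/

namespace Pool.Agent.Helper55.FT

set_option maxRecDepth 100000
set_option linter.defProp false

theorem rows_17 : ∀ g, g < 17 → ∀ g', g' < 17 → 17 ≤ g + g' → GG T17 17 g g' := by
  intro g hg g' hg' hs
  interval_cases g
  · omega
  · interval_cases g'
    · omega
    · omega
    · omega
    · omega
    · omega
    · omega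
    · omega
    · omega
    · omega
    · omega
    · omega
    · omega
    · omega
    · omega
    · omega
    · omega
    · exact gg_17_1_16
  · interval_cases g'
    · omega
    · omega
    · omega
    · omega
    · omega
    · omega
    · omega
    · omega
    · omega
    · omega
    · omega
    · omega
    · omega
    · omega
    · omega
    · exact gg_17_2_15
    · exact gg_17_2_16
  · interval_cases g'
    · omega
    · omega
    · omega
    · omega
    · omega
    · omega
    · omega
    · omega
    · omega
    · omega
    · omega
    · omega
    · omega
    · omega
    · exact gg_17_3_14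
    · exact gg_17_3_15
    · exact gg_17_3_16
  · interval_cases g'
    · omega
    · omega
    · omega
    · omega
    · omega
    · omega
    · omega
    · omega
    · omega
    · omega
    · omega
    · omega
    · omega
    · exact gg_17_4_13
    · exact gg_17_4_14
    · exact gg_17_4_15
    · exact gg_17_4_16
  · interval_cases g'
    · omega
    · omega
    · omega
    · omega
    · omega
    · omega
    · omega
    · omega
    · omega
    · omega
    · omega
    · omega
    · exact gg_17_5_12
    · exact gg_17_5_13
    · exact gg_17_5_14
    · exact gg_17_5_15
    · exact gg_17_5_16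
  · interval_cases g'
    · omega
    · omega
    · omega
    · omega
    · omega
    · omega
    · omega
    · omega
    · omega
    · omega
    · omega
    · exact gg_17_6_11
    · exact gg_17_6_12
    · exact gg_17_6_13
    · exact gg_17_6_14
    · exact gg_17_6_15
    · exact gg_17_6_16
  · interval_cases g'
    · omega
    · omega
    · omega
    · omega
    · omega
    · omega
    · omega
    · omega
    · omega
    · omega
    · exact gg_17_7_10
    · exact gg_17_7_11
    · exact gg_17_7_12
    · exact gg_17_7_13
    · exact gg_17_7_14
    · exact gg_17_7_15
    · exact gg_17_7_16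
  · interval_cases g'
    · omega
    · omega
    · omega
    · omega
    · omega
    · omega
    · omega
    · omega
    · omega
    · exact gg_17_8_9
    · exact gg_17_8_10
    · exact gg_17_8_11
    · exact gg_17_8_12
    · exact gg_17_8_13
    · exact gg_17_8_14
    · exact gg_17_8_15
    · exact gg_17_8_16
  · interval_cases g'
    · omega
    · omega
    · omega
    · omega
    · omega
    · omega
    · omega
    · omega
    · exact gg_17_9_8
    · exact gg_17_9_9
    · exact gg_17_9_10
    · exact gg_17_9_11
    · exact gg_17_9_12
    · exact gg_17_9_13
    · exact gg_17_9_14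
    · exact gg_17_9_15
    · exact gg_17_9_16
  · interval_cases g'
    · omega
    · omega
    · omega
    · omega
    · omega
    · omega
    · omega
    · exact gg_17_10_7
    · exact gg_17_10_8
    · exact gg_17_10_9
    · exact gg_17_10_10
    · exact gg_17_10_11
    · exact gg_17_10_12
    · exact gg_17_10_13
    · exact gg_17_10_14
    · exact gg_17_10_15
    · exact gg_17_10_16
  · interval_cases g'
    · omega
    · omega
    · omega
    · omega
    · omega
    · omega
    · exact gg_17_11_6
    · exact gg_17_11_7
    · exact gg_17_11_8
    · exact gg_17_11_9
    · exact gg_17_11_10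
    · exact gg_17_11_11
    · exact gg_17_11_12
    · exact gg_17_11_13
    · exact gg_17_11_14
    · exact gg_17_11_15
    · exact gg_17_11_16
  · interval_cases g'
    · omega
    · omega
    · omega
    · omega
    · omega
    · exact gg_17_12_5
    · exact gg_17_12_6
    · exact gg_17_12_7
    · exact gg_17_12_8
    · exact gg_17_12_9
    · exact gg_17_12_10
    · exact gg_17_12_11
    · exact gg_17_12_12
    · exact gg_17_12_13
    · exact gg_17_12_14
    · exact gg_17_12_15
    · exact gg_17_12_16
  · interval_cases g'
    · omega
    · omega
    · omega
    · omega
    · exact gg_17_13_4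
    · exact gg_17_13_5
    · exact gg_17_13_6
    · exact gg_17_13_7
    · exact gg_17_13_8
    · exact gg_17_13_9
    · exact gg_17_13_10
    · exact gg_17_13_11
    · exact gg_17_13_12
    · exact gg_17_13_13
    · exact gg_17_13_14
    · exact gg_17_13_15
    · exact gg_17_13_16
  · interval_cases g'
    · omega
    · omega
    · omega
    · exact gg_17_14_3
    · exact gg_17_14_4
    · exact gg_17_14_5
    · exact gg_17_14_6
    · exact gg_17_14_7
    · exact gg_17_14_8
    · exact gg_17_14_9
    · exact gg_17_14_10
    · exact gg_17_14_11
    · exact gg_17_14_12
    · exact gg_17_14_13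
    · exact gg_17_14_14
    · exact gg_17_14_15
    · exact gg_17_14_16
  · interval_cases g'
    · omega
    · omega
    · exact gg_17_15_2
    · exact gg_17_15_3
    · exact gg_17_15_4
    · exact gg_17_15_5
    · exact gg_17_15_6
    · exact gg_17_15_7
    · exact gg_17_15_8
    · exact gg_17_15_9
    · exact gg_17_15_10
    · exact gg_17_15_11
    · exact gg_17_15_12
    · exact gg_17_15_13
    · exact gg_17_15_14
    · exact gg_17_15_15
    · exact gg_17_15_16
  · interval_cases g'
    · omega
    · exact gg_17_16_1
    · exact gg_17_16_2
    · exact gg_17_16_3
    · exact gg_17_16_4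
    · exact gg_17_16_5
    · exact gg_17_16_6
    · exact gg_17_16_7
    · exact gg_17_16_8
    · exact gg_17_16_9
    · exact gg_17_16_10
    · exact gg_17_16_11
    · exact gg_17_16_12
    · exact gg_17_16_13
    · exact gg_17_16_14
    · exact gg_17_16_15
    · exact gg_17_16_16

end Pool.Agent.Helper55.FT
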