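import Pool.Agent.Helper55.FT.TabB

set_option autoImplicit false

/-!
# Cell checks
-/

namespace Pool.Agent.Helper55.FT

set_option maxRecDepth 100000
set_option linter.defProp false

def c_19_1_18_9 : cellOK T19 19 9 1 ((18 * 9 + 1) / 1) 18 = true := by
  decide +kernel
def c_19_1_18_8 : cellOK T19 19 8 1 ((18 * 8 + 1) / 1) 18 = true := by
  decide +kernel
def c_19_1_18_7 : cellOK T19 19 7 1 ((18 * 7 + 1) / 1) 18 = true := by
  decide +kernel
def c_19_1_18_6 : cellOK T19 19 6 1 ((18 * 6 + 1) / 1) 18 = true := by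
  decide +kernel
def c_19_1_18_5 : cellOK T19 19 5 1 ((18 * 5 + 1) / 1) 18 = true := by
  decide +kernel
def c_19_1_18_4 : cellOK T19 19 4 1 ((18 * 4 + 1) / 1) 18 = true := by
  decide +kernel
def c_19_1_18_3 : cellOK T19 19 3 1 ((18 * 3 + 1) / 1) 18 = true := by
  decide +kernel
def c_19_1_18_2 : cellOK T19 19 2 1 ((18 * 2 + 1) / 1) 18 = true := by
  decide +kernel
def c_19_1_18_1 : cellOK T19 19 1 1 ((18 * 1 + 1) / 1) 18 = true := by
  decide +kernel
def c_19_1_18_0 : cellOK T19 19 0 1 ((18 * 0 + 1) / 1) 18 = true := by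
  decide +kernel
theorem gg_19_1_18 : GG T19 19 1 18 := gg_of (l := [9, 8, 7, 6, 5, 4, 3, 2, 1, 0]) (by decide +kernel)
  ⟨c_19_1_18_9, c_19_1_18_8, c_19_1_18_7, c_19_1_18_6, c_19_1_18_5, c_19_1_18_4, c_19_1_18_3, c_19_1_18_2, c_19_1_18_1, c_19_1_18_0, trivial⟩

def c_19_2_17_17 : cellOK T19 19 17 2 ((17 * 17 + 1) / 2) 17 = true := by
  decide +kernel
def c_19_2_17_15 : cellOK T19 19 15 2 ((17 * 15 + 1) / 2) 17 = true := by
  decide +kernel
def c_19_2_17_13 : cellOK T19 19 13 2 ((17 * 13 + 1) / 2) 17 = true := by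
  decide +kernel
def c_19_2_17_11 : cellOK T19 19 11 2 ((17 * 11 + 1) / 2) 17 = true := by
  decide +kernel
def c_19_2_17_9 : cellOK T19 19 9 2 ((17 * 9 + 1) / 2) 17 = true := by
  decide +kernel
def c_19_2_17_7 : cellOK T19 19 7 2 ((17 * 7 + 1) / 2) 17 = true := by
  decide +kernel
def c_19_2_17_5 : cellOK T19 19 5 2 ((17 * 5 + 1) / 2) 17 = true := by
  decide +kernel
def c_19_2_17_3 : cellOK T19 19 3 2 ((17 * 3 + 1) / 2) 17 = true := by
  decide +kernel
def c_19_2_17_1 : cellOK T19 19 1 2 ((17 * 1 + 1) / 2) 17 = true := by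
  decide +kernel
theorem gg_19_2_17 : GG T19 19 2 17 := gg_of (l := [17, 15, 13, 11, 9, 7, 5, 3, 1]) (by decide +kernel)
  ⟨c_19_2_17_17, c_19_2_17_15, c_19_2_17_13, c_19_2_17_11, c_19_2_17_9, c_19_2_17_7, c_19_2_17_5, c_19_2_17_3, c_19_2_17_1, trivial⟩

theorem gg_19_2_18 : GG T19 19 2 18 := gg_of (l := []) (by decide +kernel)
  trivial

def c_19_3_16_26 : cellOK T19 19 26 3 ((16 * 26 + 1) / 3) 16 = true := by
  decide +kernel
def c_19_3_16_23 : cellOK T19 19 23 3 ((16 * 23 + 1) / 3) 16 = true := by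
  decide +kernel
def c_19_3_16_20 : cellOK T19 19 20 3 ((16 * 20 + 1) / 3) 16 = true := by
  decide +kernel
def c_19_3_16_17 : cellOK T19 19 17 3 ((16 * 17 + 1) / 3) 16 = true := by
  decide +kernel
def c_19_3_16_14 : cellOK T19 19 14 3 ((16 * 14 + 1) / 3) 16 = true := by
  decide +kernel
def c_19_3_16_11 : cellOK T19 19 11 3 ((16 * 11 + 1) / 3) 16 = true := by
  decide +kernel
def c_19_3_16_8 : cellOK T19 19 8 3 ((16 * 8 + 1) / 3) 16 = true := by
  decide +kernel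
def c_19_3_16_5 : cellOK T19 19 5 3 ((16 * 5 + 1) / 3) 16 = true := by
  decide +kernel
def c_19_3_16_2 : cellOK T19 19 2 3 ((16 * 2 + 1) / 3) 16 = true := by
  decide +kernel
theorem gg_19_3_16 : GG T19 19 3 16 := gg_of (l := [26, 23, 20, 17, 14, 11, 8, 5, 2]) (by decide +kernel)
  ⟨c_19_3_16_26, c_19_3_16_23, c_19_3_16_20, c_19_3_16_17, c_19_3_16_14, c_19_3_16_11, c_19_3_16_8, c_19_3_16_5, c_19_3_16_2, trivial⟩

def c_19_3_17_28 : cellOK T19 19 28 3 ((17 * 28 + 1) / 3) 17 = true := by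
  decide +kernel
def c_19_3_17_25 : cellOK T19 19 25 3 ((17 * 25 + 1) / 3) 17 = true := by
  decide +kernel
def c_19_3_17_22 : cellOK T19 19 22 3 ((17 * 22 + 1) / 3) 17 = true := by
  decide +kernel
def c_19_3_17_19 : cellOK T19 19 19 3 ((17 * 19 + 1) / 3) 17 = true := by
  decide +kernel
def c_19_3_17_16 : cellOK T19 19 16 3 ((17 * 16 + 1) / 3) 17 = true := by
  decide +kernel
def c_19_3_17_13 : cellOK T19 19 13 3 ((17 * 13 + 1) / 3) 17 = true := by
  decide +kernel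
def c_19_3_17_10 : cellOK T19 19 10 3 ((17 * 10 + 1) / 3) 17 = true := by
  decide +kernel
def c_19_3_17_7 : cellOK T19 19 7 3 ((17 * 7 + 1) / 3) 17 = true := by
  decide +kernel
def c_19_3_17_4 : cellOK T19 19 4 3 ((17 * 4 + 1) / 3) 17 = true := by
  decide +kernel
def c_19_3_17_1 : cellOK T19 19 1 3 ((17 * 1 + 1) / 3) 17 = true := by
  decide +kernel
theorem gg_19_3_17 : GG T19 19 3 17 := gg_of (l := [28, 25, 22, 19, 16, 13, 10, 7, 4, 1]) (by decide +kernel)
  ⟨c_19_3_17_28, c_19_3_17_25, c_19_3_17_22, c_19_3_17_19, c_19_3_17_16, c_19_3_17_13, c_19_3_17_10, c_19_3_17_7, c_19_3_17_4, c_19_3_17_1, trivial⟩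

theorem gg_19_3_18 : GG T19 19 3 18 := gg_of (l := []) (by decide +kernel)
  trivial

def c_19_4_15_37 : cellOK T19 19 37 4 ((15 * 37 + 1) / 4) 15 = true := by
  decide +kernel
def c_19_4_15_33 : cellOK T19 19 33 4 ((15 * 33 + 1) / 4) 15 = true := by
  decide +kernel
def c_19_4_15_29 : cellOK T19 19 29 4 ((15 * 29 + 1) / 4) 15 = true := by
  decide +kernel
def c_19_4_15_25 : cellOK T19 19 25 4 ((15 * 25 + 1) / 4) 15 = true := by
  decide +kernel
def c_19_4_15_21 : cellOK T19 19 21 4 ((15 * 21 + 1) / 4) 15 = true := by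
  decide +kernel
def c_19_4_15_17 : cellOK T19 19 17 4 ((15 * 17 + 1) / 4) 15 = true := by
  decide +kernel
def c_19_4_15_13 : cellOK T19 19 13 4 ((15 * 13 + 1) / 4) 15 = true := by
  decide +kernel
def c_19_4_15_9 : cellOK T19 19 9 4 ((15 * 9 + 1) / 4) 15 = true := by
  decide +kernel
def c_19_4_15_5 : cellOK T19 19 5 4 ((15 * 5 + 1) / 4) 15 = true := by
  decide +kernel
def c_19_4_15_1 : cellOK T19 19 1 4 ((15 * 1 + 1) / 4) 15 = true := by
  decide +kernel
theorem gg_19_4_15 : GG T19 19 4 15 := gg_of (l := [37, 33, 29, 25, 21, 17, 13, 9, 5, 1]) (by decide +kernel)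
  ⟨c_19_4_15_37, c_19_4_15_33, c_19_4_15_29, c_19_4_15_25, c_19_4_15_21, c_19_4_15_17, c_19_4_15_13, c_19_4_15_9, c_19_4_15_5, c_19_4_15_1, trivial⟩

theorem gg_19_4_16 : GG T19 19 4 16 := gg_of (l := []) (by decide +kernel)
  trivial

def c_19_4_17_35 : cellOK T19 19 35 4 ((17 * 35 + 1) / 4) 17 = true := by
  decide +kernel
def c_19_4_17_31 : cellOK T19 19 31 4 ((17 * 31 + 1) / 4) 17 = true := by
  decide +kernel
def c_19_4_17_27 : cellOK T19 19 27 4 ((17 * 27 + 1) / 4) 17 = true := by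
  decide +kernel
def c_19_4_17_23 : cellOK T19 19 23 4 ((17 * 23 + 1) / 4) 17 = true := by
  decide +kernel
def c_19_4_17_19 : cellOK T19 19 19 4 ((17 * 19 + 1) / 4) 17 = true := by
  decide +kernel
def c_19_4_17_15 : cellOK T19 19 15 4 ((17 * 15 + 1) / 4) 17 = true := by
  decide +kernel
def c_19_4_17_11 : cellOK T19 19 11 4 ((17 * 11 + 1) / 4) 17 = true := by
  decide +kernel
def c_19_4_17_7 : cellOK T19 19 7 4 ((17 * 7 + 1) / 4) 17 = true := by
  decide +kernel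
def c_19_4_17_3 : cellOK T19 19 3 4 ((17 * 3 + 1) / 4) 17 = true := by
  decide +kernel
theorem gg_19_4_17 : GG T19 19 4 17 := gg_of (l := [35, 31, 27, 23, 19, 15, 11, 7, 3]) (by decide +kernel)
  ⟨c_19_4_17_35, c_19_4_17_31, c_19_4_17_27, c_19_4_17_23, c_19_4_17_19, c_19_4_17_15, c_19_4_17_11, c_19_4_17_7, c_19_4_17_3, trivial⟩

theorem gg_19_4_18 : GG T19 19 4 18 := gg_of (l := []) (by decide +kernel)
  trivial

def c_19_5_14_46 : cellOK T19 19 46 5 ((14 * 46 + 1) / 5) 14 = true := by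
  decide +kernel
def c_19_5_14_41 : cellOK T19 19 41 5 ((14 * 41 + 1) / 5) 14 = true := by
  decide +kernel
def c_19_5_14_36 : cellOK T19 19 36 5 ((14 * 36 + 1) / 5) 14 = true := by
  decide +kernel
def c_19_5_14_31 : cellOK T19 19 31 5 ((14 * 31 + 1) / 5) 14 = true := by
  decide +kernel
def c_19_5_14_26 : cellOK T19 19 26 5 ((14 * 26 + 1) / 5) 14 = true := by
  decide +kernel
def c_19_5_14_21 : cellOK T19 19 21 5 ((14 * 21 + 1) / 5) 14 = true := by
  decide +kernel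
def c_19_5_14_16 : cellOK T19 19 16 5 ((14 * 16 + 1) / 5) 14 = true := by
  decide +kernel
def c_19_5_14_11 : cellOK T19 19 11 5 ((14 * 11 + 1) / 5) 14 = true := by
  decide +kernel
def c_19_5_14_6 : cellOK T19 19 6 5 ((14 * 6 + 1) / 5) 14 = true := by
  decide +kernel
def c_19_5_14_1 : cellOK T19 19 1 5 ((14 * 1 + 1) / 5) 14 = true := by
  decide +kernel
theorem gg_19_5_14 : GG T19 19 5 14 := gg_of (l := [46, 41, 36, 31, 26, 21, 16, 11, 6, 1]) (by decide +kernel)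
  ⟨c_19_5_14_46, c_19_5_14_41, c_19_5_14_36, c_19_5_14_31, c_19_5_14_26, c_19_5_14_21, c_19_5_14_16, c_19_5_14_11, c_19_5_14_6, c_19_5_14_1, trivial⟩

theorem gg_19_5_15 : GG T19 19 5 15 := gg_of (l := []) (by decide +kernel)
  trivial

def c_19_5_16_44 : cellOK T19 19 44 5 ((16 * 44 + 1) / 5) 16 = true := by
  decide +kernel
def c_19_5_16_39 : cellOK T19 19 39 5 ((16 * 39 + 1) / 5) 16 = true := by
  decide +kernel
def c_19_5_16_34 : cellOK T19 19 34 5 ((16 * 34 + 1) / 5) 16 = true := by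
  decide +kernel
def c_19_5_16_29 : cellOK T19 19 29 5 ((16 * 29 + 1) / 5) 16 = true := by
  decide +kernel
def c_19_5_16_24 : cellOK T19 19 24 5 ((16 * 24 + 1) / 5) 16 = true := by
  decide +kernel
def c_19_5_16_19 : cellOK T19 19 19 5 ((16 * 19 + 1) / 5) 16 = true := by
  decide +kernel
def c_19_5_16_14 : cellOK T19 19 14 5 ((16 * 14 + 1) / 5) 16 = true := by
  decide +kernel
def c_19_5_16_9 : cellOK T19 19 9 5 ((16 * 9 + 1) / 5) 16 = true := by
  decide +kernel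
def c_19_5_16_4 : cellOK T19 19 4 5 ((16 * 4 + 1) / 5) 16 = true := by
  decide +kernel
theorem gg_19_5_16 : GG T19 19 5 16 := gg_of (l := [44, 39, 34, 29, 24, 19, 14, 9, 4]) (by decide +kernel)
  ⟨c_19_5_16_44, c_19_5_16_39, c_19_5_16_34, c_19_5_16_29, c_19_5_16_24, c_19_5_16_19, c_19_5_16_14, c_19_5_16_9, c_19_5_16_4, trivial⟩

def c_19_5_17_47 : cellOK T19 19 47 5 ((17 * 47 + 1) / 5) 17 = true := by
  decide +kernel
def c_19_5_17_42 : cellOK T19 19 42 5 ((17 * 42 + 1) / 5) 17 = true := by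
  decide +kernel
def c_19_5_17_37 : cellOK T19 19 37 5 ((17 * 37 + 1) / 5) 17 = true := by
  decide +kernel
def c_19_5_17_32 : cellOK T19 19 32 5 ((17 * 32 + 1) / 5) 17 = true := by
  decide +kernel
def c_19_5_17_27 : cellOK T19 19 27 5 ((17 * 27 + 1) / 5) 17 = true := by
  decide +kernel
def c_19_5_17_22 : cellOK T19 19 22 5 ((17 * 22 + 1) / 5) 17 = true := by
  decide +kernel
def c_19_5_17_17 : cellOK T19 19 17 5 ((17 * 17 + 1) / 5) 17 = true := by
  decide +kernel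
def c_19_5_17_12 : cellOK T19 19 12 5 ((17 * 12 + 1) / 5) 17 = true := by
  decide +kernel
def c_19_5_17_7 : cellOK T19 19 7 5 ((17 * 7 + 1) / 5) 17 = true := by
  decide +kernel
def c_19_5_17_2 : cellOK T19 19 2 5 ((17 * 2 + 1) / 5) 17 = true := by
  decide +kernel
theorem gg_19_5_17 : GG T19 19 5 17 := gg_of (l := [47, 42, 37, 32, 27, 22, 17, 12, 7, 2]) (by decide +kernel)
  ⟨c_19_5_17_47, c_19_5_17_42, c_19_5_17_37, c_19_5_17_32, c_19_5_17_27, c_19_5_17_22, c_19_5_17_17, c_19_5_17_12, c_19_5_17_7, c_19_5_17_2, trivial⟩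

def c_19_5_18_43 : cellOK T19 19 43 5 ((18 * 43 + 1) / 5) 18 = true := by
  decide +kernel
def c_19_5_18_38 : cellOK T19 19 38 5 ((18 * 38 + 1) / 5) 18 = true := by
  decide +kernel
def c_19_5_18_33 : cellOK T19 19 33 5 ((18 * 33 + 1) / 5) 18 = true := by
  decide +kernel
def c_19_5_18_28 : cellOK T19 19 28 5 ((18 * 28 + 1) / 5) 18 = true := by
  decide +kernel
def c_19_5_18_23 : cellOK T19 19 23 5 ((18 * 23 + 1) / 5) 18 = true := by
  decide +kernel
def c_19_5_18_18 : cellOK T19 19 18 5 ((18 * 18 + 1) / 5) 18 = true := by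
  decide +kernel
def c_19_5_18_13 : cellOK T19 19 13 5 ((18 * 13 + 1) / 5) 18 = true := by
  decide +kernel
def c_19_5_18_8 : cellOK T19 19 8 5 ((18 * 8 + 1) / 5) 18 = true := by
  decide +kernel
def c_19_5_18_3 : cellOK T19 19 3 5 ((18 * 3 + 1) / 5) 18 = true := by
  decide +kernel
theorem gg_19_5_18 : GG T19 19 5 18 := gg_of (l := [43, 38, 33, 28, 23, 18, 13, 8, 3]) (by decide +kernel)
  ⟨c_19_5_18_43, c_19_5_18_38, c_19_5_18_33, c_19_5_18_28, c_19_5_18_23, c_19_5_18_18, c_19_5_18_13, c_19_5_18_8, c_19_5_18_3, trivial⟩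

def c_19_6_13_53 : cellOK T19 19 53 6 ((13 * 53 + 1) / 6) 13 = true := by
  decide +kernel
def c_19_6_13_47 : cellOK T19 19 47 6 ((13 * 47 + 1) / 6) 13 = true := by
  decide +kernel
def c_19_6_13_41 : cellOK T19 19 41 6 ((13 * 41 + 1) / 6) 13 = true := by
  decide +kernel
def c_19_6_13_35 : cellOK T19 19 35 6 ((13 * 35 + 1) / 6) 13 = true := by
  decide +kernel
def c_19_6_13_29 : cellOK T19 19 29 6 ((13 * 29 + 1) / 6) 13 = true := by
  decide +kernel
def c_19_6_13_23 : cellOK T19 19 23 6 ((13 * 23 + 1) / 6) 13 = true := by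
  decide +kernel
def c_19_6_13_17 : cellOK T19 19 17 6 ((13 * 17 + 1) / 6) 13 = true := by
  decide +kernel
def c_19_6_13_11 : cellOK T19 19 11 6 ((13 * 11 + 1) / 6) 13 = true := by
  decide +kernel
def c_19_6_13_5 : cellOK T19 19 5 6 ((13 * 5 + 1) / 6) 13 = true := by
  decide +kernel
theorem gg_19_6_13 : GG T19 19 6 13 := gg_of (l := [53, 47, 41, 35, 29, 23, 17, 11, 5]) (by decide +kernel)
  ⟨c_19_6_13_53, c_19_6_13_47, c_19_6_13_41, c_19_6_13_35, c_19_6_13_29, c_19_6_13_23, c_19_6_13_17, c_19_6_13_11, c_19_6_13_5, trivial⟩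

theorem gg_19_6_14 : GG T19 19 6 14 := gg_of (l := []) (by decide +kernel)
  trivial

theorem gg_19_6_15 : GG T19 19 6 15 := gg_of (l := []) (by decide +kernel)
  trivial

theorem gg_19_6_16 : GG T19 19 6 16 := gg_of (l := []) (by decide +kernel)
  trivial

def c_19_6_17_55 : cellOK T19 19 55 6 ((17 * 55 + 1) / 6) 17 = true := by
  decide +kernel
def c_19_6_17_49 : cellOK T19 19 49 6 ((17 * 49 + 1) / 6) 17 = true := by
  decide +kernel
def c_19_6_17_43 : cellOK T19 19 43 6 ((17 * 43 + 1) / 6) 17 = true := by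
  decide +kernel
def c_19_6_17_37 : cellOK T19 19 37 6 ((17 * 37 + 1) / 6) 17 = true := by
  decide +kernel
def c_19_6_17_31 : cellOK T19 19 31 6 ((17 * 31 + 1) / 6) 17 = true := by
  decide +kernel
def c_19_6_17_25 : cellOK T19 19 25 6 ((17 * 25 + 1) / 6) 17 = true := by
  decide +kernel
def c_19_6_17_19 : cellOK T19 19 19 6 ((17 * 19 + 1) / 6) 17 = true := by
  decide +kernel
def c_19_6_17_13 : cellOK T19 19 13 6 ((17 * 13 + 1) / 6) 17 = true := by
  decide +kernel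
def c_19_6_17_7 : cellOK T19 19 7 6 ((17 * 7 + 1) / 6) 17 = true := by
  decide +kernel
def c_19_6_17_1 : cellOK T19 19 1 6 ((17 * 1 + 1) / 6) 17 = true := by
  decide +kernel
theorem gg_19_6_17 : GG T19 19 6 17 := gg_of (l := [55, 49, 43, 37, 31, 25, 19, 13, 7, 1]) (by decide +kernel)
  ⟨c_19_6_17_55, c_19_6_17_49, c_19_6_17_43, c_19_6_17_37, c_19_6_17_31, c_19_6_17_25, c_19_6_17_19, c_19_6_17_13, c_19_6_17_7, c_19_6_17_1, trivial⟩

end Pool.Agent.Helper55.FT
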