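import Pool.Agent.Helper55.FT.TabB

set_option autoImplicit false

/-!
# Cell checks
-/

namespace Pool.Agent.Helper55.FT

set_option maxRecDepth 100000
set_option linter.defProp false

theorem gg_19_6_18 : GG T19 19 6 18 := gg_of (l := []) (by decide +kernel)
  trivial

def c_19_7_12_60 : cellOK T19 19 60 7 ((12 * 60 + 1) / 7) 12 = true := by
  decide +kernel
def c_19_7_12_53 : cellOK T19 19 53 7 ((12 * 53 + 1) / 7) 12 = true := by
  decide +kernel
def c_19_7_12_46 : cellOK T19 19 46 7 ((12 * 46 + 1) / 7) 12 = true := by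
  decide +kernel
def c_19_7_12_39 : cellOK T19 19 39 7 ((12 * 39 + 1) / 7) 12 = true := by
  decide +kernel
def c_19_7_12_32 : cellOK T19 19 32 7 ((12 * 32 + 1) / 7) 12 = true := by
  decide +kernel
def c_19_7_12_25 : cellOK T19 19 25 7 ((12 * 25 + 1) / 7) 12 = true := by
  decide +kernel
def c_19_7_12_18 : cellOK T19 19 18 7 ((12 * 18 + 1) / 7) 12 = true := by
  decide +kernel
def c_19_7_12_11 : cellOK T19 19 11 7 ((12 * 11 + 1) / 7) 12 = true := by
  decide +kernel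
def c_19_7_12_4 : cellOK T19 19 4 7 ((12 * 4 + 1) / 7) 12 = true := by
  decide +kernel
theorem gg_19_7_12 : GG T19 19 7 12 := gg_of (l := [60, 53, 46, 39, 32, 25, 18, 11, 4]) (by decide +kernel)
  ⟨c_19_7_12_60, c_19_7_12_53, c_19_7_12_46, c_19_7_12_39, c_19_7_12_32, c_19_7_12_25, c_19_7_12_18, c_19_7_12_11, c_19_7_12_4, trivial⟩

def c_19_7_13_64 : cellOK T19 19 64 7 ((13 * 64 + 1) / 7) 13 = true := by
  decide +kernel
def c_19_7_13_57 : cellOK T19 19 57 7 ((13 * 57 + 1) / 7) 13 = true := by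
  decide +kernel
def c_19_7_13_50 : cellOK T19 19 50 7 ((13 * 50 + 1) / 7) 13 = true := by
  decide +kernel
def c_19_7_13_43 : cellOK T19 19 43 7 ((13 * 43 + 1) / 7) 13 = true := by
  decide +kernel
def c_19_7_13_36 : cellOK T19 19 36 7 ((13 * 36 + 1) / 7) 13 = true := by
  decide +kernel
def c_19_7_13_29 : cellOK T19 19 29 7 ((13 * 29 + 1) / 7) 13 = true := by
  decide +kernel
def c_19_7_13_22 : cellOK T19 19 22 7 ((13 * 22 + 1) / 7) 13 = true := by
  decide +kernel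
def c_19_7_13_15 : cellOK T19 19 15 7 ((13 * 15 + 1) / 7) 13 = true := by
  decide +kernel
def c_19_7_13_8 : cellOK T19 19 8 7 ((13 * 8 + 1) / 7) 13 = true := by
  decide +kernel
def c_19_7_13_1 : cellOK T19 19 1 7 ((13 * 1 + 1) / 7) 13 = true := by
  decide +kernel
theorem gg_19_7_13 : GG T19 19 7 13 := gg_of (l := [64, 57, 50, 43, 36, 29, 22, 15, 8, 1]) (by decide +kernel)
  ⟨c_19_7_13_64, c_19_7_13_57, c_19_7_13_50, c_19_7_13_43, c_19_7_13_36, c_19_7_13_29, c_19_7_13_22, c_19_7_13_15, c_19_7_13_8, c_19_7_13_1, trivial⟩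

theorem gg_19_7_14 : GG T19 19 7 14 := gg_of (l := []) (by decide +kernel)
  trivial

def c_19_7_15_62 : cellOK T19 19 62 7 ((15 * 62 + 1) / 7) 15 = true := by
  decide +kernel
def c_19_7_15_55 : cellOK T19 19 55 7 ((15 * 55 + 1) / 7) 15 = true := by
  decide +kernel
def c_19_7_15_48 : cellOK T19 19 48 7 ((15 * 48 + 1) / 7) 15 = true := by
  decide +kernel
def c_19_7_15_41 : cellOK T19 19 41 7 ((15 * 41 + 1) / 7) 15 = true := by
  decide +kernel
def c_19_7_15_34 : cellOK T19 19 34 7 ((15 * 34 + 1) / 7) 15 = true := by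
  decide +kernel
def c_19_7_15_27 : cellOK T19 19 27 7 ((15 * 27 + 1) / 7) 15 = true := by
  decide +kernel
def c_19_7_15_20 : cellOK T19 19 20 7 ((15 * 20 + 1) / 7) 15 = true := by
  decide +kernel
def c_19_7_15_13 : cellOK T19 19 13 7 ((15 * 13 + 1) / 7) 15 = true := by
  decide +kernel
def c_19_7_15_6 : cellOK T19 19 6 7 ((15 * 6 + 1) / 7) 15 = true := by
  decide +kernel
theorem gg_19_7_15 : GG T19 19 7 15 := gg_of (l := [62, 55, 48, 41, 34, 27, 20, 13, 6]) (by decide +kernel)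
  ⟨c_19_7_15_62, c_19_7_15_55, c_19_7_15_48, c_19_7_15_41, c_19_7_15_34, c_19_7_15_27, c_19_7_15_20, c_19_7_15_13, c_19_7_15_6, trivial⟩

def c_19_7_16_66 : cellOK T19 19 66 7 ((16 * 66 + 1) / 7) 16 = true := by
  decide +kernel
def c_19_7_16_59 : cellOK T19 19 59 7 ((16 * 59 + 1) / 7) 16 = true := by
  decide +kernel
def c_19_7_16_52 : cellOK T19 19 52 7 ((16 * 52 + 1) / 7) 16 = true := by
  decide +kernel
def c_19_7_16_45 : cellOK T19 19 45 7 ((16 * 45 + 1) / 7) 16 = true := by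
  decide +kernel
def c_19_7_16_38 : cellOK T19 19 38 7 ((16 * 38 + 1) / 7) 16 = true := by
  decide +kernel
def c_19_7_16_31 : cellOK T19 19 31 7 ((16 * 31 + 1) / 7) 16 = true := by
  decide +kernel
def c_19_7_16_24 : cellOK T19 19 24 7 ((16 * 24 + 1) / 7) 16 = true := by
  decide +kernel
def c_19_7_16_17 : cellOK T19 19 17 7 ((16 * 17 + 1) / 7) 16 = true := by
  decide +kernel
def c_19_7_16_10 : cellOK T19 19 10 7 ((16 * 10 + 1) / 7) 16 = true := by
  decide +kernel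
def c_19_7_16_3 : cellOK T19 19 3 7 ((16 * 3 + 1) / 7) 16 = true := by
  decide +kernel
theorem gg_19_7_16 : GG T19 19 7 16 := gg_of (l := [66, 59, 52, 45, 38, 31, 24, 17, 10, 3]) (by decide +kernel)
  ⟨c_19_7_16_66, c_19_7_16_59, c_19_7_16_52, c_19_7_16_45, c_19_7_16_38, c_19_7_16_31, c_19_7_16_24, c_19_7_16_17, c_19_7_16_10, c_19_7_16_3, trivial⟩

def c_19_7_17_65 : cellOK T19 19 65 7 ((17 * 65 + 1) / 7) 17 = true := by
  decide +kernel
def c_19_7_17_58 : cellOK T19 19 58 7 ((17 * 58 + 1) / 7) 17 = true := by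
  decide +kernel
def c_19_7_17_51 : cellOK T19 19 51 7 ((17 * 51 + 1) / 7) 17 = true := by
  decide +kernel
def c_19_7_17_44 : cellOK T19 19 44 7 ((17 * 44 + 1) / 7) 17 = true := by
  decide +kernel
def c_19_7_17_37 : cellOK T19 19 37 7 ((17 * 37 + 1) / 7) 17 = true := by
  decide +kernel
def c_19_7_17_30 : cellOK T19 19 30 7 ((17 * 30 + 1) / 7) 17 = true := by
  decide +kernel
def c_19_7_17_23 : cellOK T19 19 23 7 ((17 * 23 + 1) / 7) 17 = true := by
  decide +kernel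
def c_19_7_17_16 : cellOK T19 19 16 7 ((17 * 16 + 1) / 7) 17 = true := by
  decide +kernel
def c_19_7_17_9 : cellOK T19 19 9 7 ((17 * 9 + 1) / 7) 17 = true := by
  decide +kernel
def c_19_7_17_2 : cellOK T19 19 2 7 ((17 * 2 + 1) / 7) 17 = true := by
  decide +kernel
theorem gg_19_7_17 : GG T19 19 7 17 := gg_of (l := [65, 58, 51, 44, 37, 30, 23, 16, 9, 2]) (by decide +kernel)
  ⟨c_19_7_17_65, c_19_7_17_58, c_19_7_17_51, c_19_7_17_44, c_19_7_17_37, c_19_7_17_30, c_19_7_17_23, c_19_7_17_16, c_19_7_17_9, c_19_7_17_2, trivial⟩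

def c_19_7_18_61 : cellOK T19 19 61 7 ((18 * 61 + 1) / 7) 18 = true := by
  decide +kernel
def c_19_7_18_54 : cellOK T19 19 54 7 ((18 * 54 + 1) / 7) 18 = true := by
  decide +kernel
def c_19_7_18_47 : cellOK T19 19 47 7 ((18 * 47 + 1) / 7) 18 = true := by
  decide +kernel
def c_19_7_18_40 : cellOK T19 19 40 7 ((18 * 40 + 1) / 7) 18 = true := by
  decide +kernel
def c_19_7_18_33 : cellOK T19 19 33 7 ((18 * 33 + 1) / 7) 18 = true := by
  decide +kernel
def c_19_7_18_26 : cellOK T19 19 26 7 ((18 * 26 + 1) / 7) 18 = true := by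
  decide +kernel
def c_19_7_18_19 : cellOK T19 19 19 7 ((18 * 19 + 1) / 7) 18 = true := by
  decide +kernel
def c_19_7_18_12 : cellOK T19 19 12 7 ((18 * 12 + 1) / 7) 18 = true := by
  decide +kernel
def c_19_7_18_5 : cellOK T19 19 5 7 ((18 * 5 + 1) / 7) 18 = true := by
  decide +kernel
theorem gg_19_7_18 : GG T19 19 7 18 := gg_of (l := [61, 54, 47, 40, 33, 26, 19, 12, 5]) (by decide +kernel)
  ⟨c_19_7_18_61, c_19_7_18_54, c_19_7_18_47, c_19_7_18_40, c_19_7_18_33, c_19_7_18_26, c_19_7_18_19, c_19_7_18_12, c_19_7_18_5, trivial⟩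

def c_19_8_11_69 : cellOK T19 19 69 8 ((11 * 69 + 1) / 8) 11 = true := by
  decide +kernel
def c_19_8_11_61 : cellOK T19 19 61 8 ((11 * 61 + 1) / 8) 11 = true := by
  decide +kernel
def c_19_8_11_53 : cellOK T19 19 53 8 ((11 * 53 + 1) / 8) 11 = true := by
  decide +kernel
def c_19_8_11_45 : cellOK T19 19 45 8 ((11 * 45 + 1) / 8) 11 = true := by
  decide +kernel
def c_19_8_11_37 : cellOK T19 19 37 8 ((11 * 37 + 1) / 8) 11 = true := by
  decide +kernel
def c_19_8_11_29 : cellOK T19 19 29 8 ((11 * 29 + 1) / 8) 11 = true := by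
  decide +kernel
def c_19_8_11_21 : cellOK T19 19 21 8 ((11 * 21 + 1) / 8) 11 = true := by
  decide +kernel
def c_19_8_11_13 : cellOK T19 19 13 8 ((11 * 13 + 1) / 8) 11 = true := by
  decide +kernel
def c_19_8_11_5 : cellOK T19 19 5 8 ((11 * 5 + 1) / 8) 11 = true := by
  decide +kernel
theorem gg_19_8_11 : GG T19 19 8 11 := gg_of (l := [69, 61, 53, 45, 37, 29, 21, 13, 5]) (by decide +kernel)
  ⟨c_19_8_11_69, c_19_8_11_61, c_19_8_11_53, c_19_8_11_45, c_19_8_11_37, c_19_8_11_29, c_19_8_11_21, c_19_8_11_13, c_19_8_11_5, trivial⟩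

theorem gg_19_8_12 : GG T19 19 8 12 := gg_of (l := []) (by decide +kernel)
  trivial

def c_19_8_13_75 : cellOK T19 19 75 8 ((13 * 75 + 1) / 8) 13 = true := by
  decide +kernel
def c_19_8_13_67 : cellOK T19 19 67 8 ((13 * 67 + 1) / 8) 13 = true := by
  decide +kernel
def c_19_8_13_59 : cellOK T19 19 59 8 ((13 * 59 + 1) / 8) 13 = true := by
  decide +kernel
def c_19_8_13_51 : cellOK T19 19 51 8 ((13 * 51 + 1) / 8) 13 = true := by
  decide +kernel
def c_19_8_13_43 : cellOK T19 19 43 8 ((13 * 43 + 1) / 8) 13 = true := by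
  decide +kernel
def c_19_8_13_35 : cellOK T19 19 35 8 ((13 * 35 + 1) / 8) 13 = true := by
  decide +kernel
def c_19_8_13_27 : cellOK T19 19 27 8 ((13 * 27 + 1) / 8) 13 = true := by
  decide +kernel
def c_19_8_13_19 : cellOK T19 19 19 8 ((13 * 19 + 1) / 8) 13 = true := by
  decide +kernel
def c_19_8_13_11 : cellOK T19 19 11 8 ((13 * 11 + 1) / 8) 13 = true := by
  decide +kernel
def c_19_8_13_3 : cellOK T19 19 3 8 ((13 * 3 + 1) / 8) 13 = true := by
  decide +kernel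
theorem gg_19_8_13 : GG T19 19 8 13 := gg_of (l := [75, 67, 59, 51, 43, 35, 27, 19, 11, 3]) (by decide +kernel)
  ⟨c_19_8_13_75, c_19_8_13_67, c_19_8_13_59, c_19_8_13_51, c_19_8_13_43, c_19_8_13_35, c_19_8_13_27, c_19_8_13_19, c_19_8_13_11, c_19_8_13_3, trivial⟩

theorem gg_19_8_14 : GG T19 19 8 14 := gg_of (l := []) (by decide +kernel)
  trivial

def c_19_8_15_73 : cellOK T19 19 73 8 ((15 * 73 + 1) / 8) 15 = true := by
  decide +kernel
def c_19_8_15_65 : cellOK T19 19 65 8 ((15 * 65 + 1) / 8) 15 = true := by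
  decide +kernel
def c_19_8_15_57 : cellOK T19 19 57 8 ((15 * 57 + 1) / 8) 15 = true := by
  decide +kernel
def c_19_8_15_49 : cellOK T19 19 49 8 ((15 * 49 + 1) / 8) 15 = true := by
  decide +kernel
def c_19_8_15_41 : cellOK T19 19 41 8 ((15 * 41 + 1) / 8) 15 = true := by
  decide +kernel
def c_19_8_15_33 : cellOK T19 19 33 8 ((15 * 33 + 1) / 8) 15 = true := by
  decide +kernel
def c_19_8_15_25 : cellOK T19 19 25 8 ((15 * 25 + 1) / 8) 15 = true := by
  decide +kernel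
def c_19_8_15_17 : cellOK T19 19 17 8 ((15 * 17 + 1) / 8) 15 = true := by
  decide +kernel
def c_19_8_15_9 : cellOK T19 19 9 8 ((15 * 9 + 1) / 8) 15 = true := by
  decide +kernel
def c_19_8_15_1 : cellOK T19 19 1 8 ((15 * 1 + 1) / 8) 15 = true := by
  decide +kernel
theorem gg_19_8_15 : GG T19 19 8 15 := gg_of (l := [73, 65, 57, 49, 41, 33, 25, 17, 9, 1]) (by decide +kernel)
  ⟨c_19_8_15_73, c_19_8_15_65, c_19_8_15_57, c_19_8_15_49, c_19_8_15_41, c_19_8_15_33, c_19_8_15_25, c_19_8_15_17, c_19_8_15_9, c_19_8_15_1, trivial⟩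

theorem gg_19_8_16 : GG T19 19 8 16 := gg_of (l := []) (by decide +kernel)
  trivial

def c_19_8_17_71 : cellOK T19 19 71 8 ((17 * 71 + 1) / 8) 17 = true := by
  decide +kernel
def c_19_8_17_63 : cellOK T19 19 63 8 ((17 * 63 + 1) / 8) 17 = true := by
  decide +kernel
def c_19_8_17_55 : cellOK T19 19 55 8 ((17 * 55 + 1) / 8) 17 = true := by
  decide +kernel
def c_19_8_17_47 : cellOK T19 19 47 8 ((17 * 47 + 1) / 8) 17 = true := by
  decide +kernel
def c_19_8_17_39 : cellOK T19 19 39 8 ((17 * 39 + 1) / 8) 17 = true := by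
  decide +kernel
def c_19_8_17_31 : cellOK T19 19 31 8 ((17 * 31 + 1) / 8) 17 = true := by
  decide +kernel
def c_19_8_17_23 : cellOK T19 19 23 8 ((17 * 23 + 1) / 8) 17 = true := by
  decide +kernel
def c_19_8_17_15 : cellOK T19 19 15 8 ((17 * 15 + 1) / 8) 17 = true := by
  decide +kernel
def c_19_8_17_7 : cellOK T19 19 7 8 ((17 * 7 + 1) / 8) 17 = true := by
  decide +kernel
theorem gg_19_8_17 : GG T19 19 8 17 := gg_of (l := [71, 63, 55, 47, 39, 31, 23, 15, 7]) (by decide +kernel)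
  ⟨c_19_8_17_71, c_19_8_17_63, c_19_8_17_55, c_19_8_17_47, c_19_8_17_39, c_19_8_17_31, c_19_8_17_23, c_19_8_17_15, c_19_8_17_7, trivial⟩

theorem gg_19_8_18 : GG T19 19 8 18 := gg_of (l := []) (by decide +kernel)
  trivial

def c_19_9_10_80 : cellOK T19 19 80 9 ((10 * 80 + 1) / 9) 10 = true := by
  decide +kernel
def c_19_9_10_71 : cellOK T19 19 71 9 ((10 * 71 + 1) / 9) 10 = true := by
  decide +kernel
def c_19_9_10_62 : cellOK T19 19 62 9 ((10 * 62 + 1) / 9) 10 = true := by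
  decide +kernel
def c_19_9_10_53 : cellOK T19 19 53 9 ((10 * 53 + 1) / 9) 10 = true := by
  decide +kernel
def c_19_9_10_44 : cellOK T19 19 44 9 ((10 * 44 + 1) / 9) 10 = true := by
  decide +kernel
def c_19_9_10_35 : cellOK T19 19 35 9 ((10 * 35 + 1) / 9) 10 = true := by
  decide +kernel
def c_19_9_10_26 : cellOK T19 19 26 9 ((10 * 26 + 1) / 9) 10 = true := by
  decide +kernel
def c_19_9_10_17 : cellOK T19 19 17 9 ((10 * 17 + 1) / 9) 10 = true := by
  decide +kernel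
def c_19_9_10_8 : cellOK T19 19 8 9 ((10 * 8 + 1) / 9) 10 = true := by
  decide +kernel
theorem gg_19_9_10 : GG T19 19 9 10 := gg_of (l := [80, 71, 62, 53, 44, 35, 26, 17, 8]) (by decide +kernel)
  ⟨c_19_9_10_80, c_19_9_10_71, c_19_9_10_62, c_19_9_10_53, c_19_9_10_44, c_19_9_10_35, c_19_9_10_26, c_19_9_10_17, c_19_9_10_8, trivial⟩

def c_19_9_11_85 : cellOK T19 19 85 9 ((11 * 85 + 1) / 9) 11 = true := by
  decide +kernel
def c_19_9_11_76 : cellOK T19 19 76 9 ((11 * 76 + 1) / 9) 11 = true := by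
  decide +kernel
def c_19_9_11_67 : cellOK T19 19 67 9 ((11 * 67 + 1) / 9) 11 = true := by
  decide +kernel
def c_19_9_11_58 : cellOK T19 19 58 9 ((11 * 58 + 1) / 9) 11 = true := by
  decide +kernel
def c_19_9_11_49 : cellOK T19 19 49 9 ((11 * 49 + 1) / 9) 11 = true := by
  decide +kernel
def c_19_9_11_40 : cellOK T19 19 40 9 ((11 * 40 + 1) / 9) 11 = true := by
  decide +kernel
def c_19_9_11_31 : cellOK T19 19 31 9 ((11 * 31 + 1) / 9) 11 = true := by
  decide +kernel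
def c_19_9_11_22 : cellOK T19 19 22 9 ((11 * 22 + 1) / 9) 11 = true := by
  decide +kernel
def c_19_9_11_13 : cellOK T19 19 13 9 ((11 * 13 + 1) / 9) 11 = true := by
  decide +kernel
def c_19_9_11_4 : cellOK T19 19 4 9 ((11 * 4 + 1) / 9) 11 = true := by
  decide +kernel
theorem gg_19_9_11 : GG T19 19 9 11 := gg_of (l := [85, 76, 67, 58, 49, 40, 31, 22, 13, 4]) (by decide +kernel)
  ⟨c_19_9_11_85, c_19_9_11_76, c_19_9_11_67, c_19_9_11_58, c_19_9_11_49, c_19_9_11_40, c_19_9_11_31, c_19_9_11_22, c_19_9_11_13, c_19_9_11_4, trivial⟩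

end Pool.Agent.Helper55.FT
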