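import Pool.Agent.Helper55.FT.TabB

set_option autoImplicit false

/-!
# Cell checks
-/

namespace Pool.Agent.Helper55.FT

set_option maxRecDepth 100000
set_option linter.defProp false

theorem gg_19_9_12 : GG T19 19 9 12 := gg_of (l := []) (by decide +kernel)
  trivial

def c_19_9_13_83 : cellOK T19 19 83 9 ((13 * 83 + 1) / 9) 13 = true := by
  decide +kernel
def c_19_9_13_74 : cellOK T19 19 74 9 ((13 * 74 + 1) / 9) 13 = true := by
  decide +kernel
def c_19_9_13_65 : cellOK T19 19 65 9 ((13 * 65 + 1) / 9) 13 = true := by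
  decide +kernel
def c_19_9_13_56 : cellOK T19 19 56 9 ((13 * 56 + 1) / 9) 13 = true := by
  decide +kernel
def c_19_9_13_47 : cellOK T19 19 47 9 ((13 * 47 + 1) / 9) 13 = true := by
  decide +kernel
def c_19_9_13_38 : cellOK T19 19 38 9 ((13 * 38 + 1) / 9) 13 = true := by
  decide +kernel
def c_19_9_13_29 : cellOK T19 19 29 9 ((13 * 29 + 1) / 9) 13 = true := by
  decide +kernel
def c_19_9_13_20 : cellOK T19 19 20 9 ((13 * 20 + 1) / 9) 13 = true := by
  decide +kernel
def c_19_9_13_11 : cellOK T19 19 11 9 ((13 * 11 + 1) / 9) 13 = true := by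
  decide +kernel
def c_19_9_13_2 : cellOK T19 19 2 9 ((13 * 2 + 1) / 9) 13 = true := by
  decide +kernel
theorem gg_19_9_13 : GG T19 19 9 13 := gg_of (l := [83, 74, 65, 56, 47, 38, 29, 20, 11, 2]) (by decide +kernel)
  ⟨c_19_9_13_83, c_19_9_13_74, c_19_9_13_65, c_19_9_13_56, c_19_9_13_47, c_19_9_13_38, c_19_9_13_29, c_19_9_13_20, c_19_9_13_11, c_19_9_13_2, trivial⟩

def c_19_9_14_79 : cellOK T19 19 79 9 ((14 * 79 + 1) / 9) 14 = true := by
  decide +kernel
def c_19_9_14_70 : cellOK T19 19 70 9 ((14 * 70 + 1) / 9) 14 = true := by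
  decide +kernel
def c_19_9_14_61 : cellOK T19 19 61 9 ((14 * 61 + 1) / 9) 14 = true := by
  decide +kernel
def c_19_9_14_52 : cellOK T19 19 52 9 ((14 * 52 + 1) / 9) 14 = true := by
  decide +kernel
def c_19_9_14_43 : cellOK T19 19 43 9 ((14 * 43 + 1) / 9) 14 = true := by
  decide +kernel
def c_19_9_14_34 : cellOK T19 19 34 9 ((14 * 34 + 1) / 9) 14 = true := by
  decide +kernel
def c_19_9_14_25 : cellOK T19 19 25 9 ((14 * 25 + 1) / 9) 14 = true := by
  decide +kernel
def c_19_9_14_16 : cellOK T19 19 16 9 ((14 * 16 + 1) / 9) 14 = true := by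
  decide +kernel
def c_19_9_14_7 : cellOK T19 19 7 9 ((14 * 7 + 1) / 9) 14 = true := by
  decide +kernel
theorem gg_19_9_14 : GG T19 19 9 14 := gg_of (l := [79, 70, 61, 52, 43, 34, 25, 16, 7]) (by decide +kernel)
  ⟨c_19_9_14_79, c_19_9_14_70, c_19_9_14_61, c_19_9_14_52, c_19_9_14_43, c_19_9_14_34, c_19_9_14_25, c_19_9_14_16, c_19_9_14_7, trivial⟩

theorem gg_19_9_15 : GG T19 19 9 15 := gg_of (l := []) (by decide +kernel)
  trivial

def c_19_9_16_77 : cellOK T19 19 77 9 ((16 * 77 + 1) / 9) 16 = true := by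
  decide +kernel
def c_19_9_16_68 : cellOK T19 19 68 9 ((16 * 68 + 1) / 9) 16 = true := by
  decide +kernel
def c_19_9_16_59 : cellOK T19 19 59 9 ((16 * 59 + 1) / 9) 16 = true := by
  decide +kernel
def c_19_9_16_50 : cellOK T19 19 50 9 ((16 * 50 + 1) / 9) 16 = true := by
  decide +kernel
def c_19_9_16_41 : cellOK T19 19 41 9 ((16 * 41 + 1) / 9) 16 = true := by
  decide +kernel
def c_19_9_16_32 : cellOK T19 19 32 9 ((16 * 32 + 1) / 9) 16 = true := by
  decide +kernel
def c_19_9_16_23 : cellOK T19 19 23 9 ((16 * 23 + 1) / 9) 16 = true := by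
  decide +kernel
def c_19_9_16_14 : cellOK T19 19 14 9 ((16 * 14 + 1) / 9) 16 = true := by
  decide +kernel
def c_19_9_16_5 : cellOK T19 19 5 9 ((16 * 5 + 1) / 9) 16 = true := by
  decide +kernel
theorem gg_19_9_16 : GG T19 19 9 16 := gg_of (l := [77, 68, 59, 50, 41, 32, 23, 14, 5]) (by decide +kernel)
  ⟨c_19_9_16_77, c_19_9_16_68, c_19_9_16_59, c_19_9_16_50, c_19_9_16_41, c_19_9_16_32, c_19_9_16_23, c_19_9_16_14, c_19_9_16_5, trivial⟩

def c_19_9_17_82 : cellOK T19 19 82 9 ((17 * 82 + 1) / 9) 17 = true := by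
  decide +kernel
def c_19_9_17_73 : cellOK T19 19 73 9 ((17 * 73 + 1) / 9) 17 = true := by
  decide +kernel
def c_19_9_17_64 : cellOK T19 19 64 9 ((17 * 64 + 1) / 9) 17 = true := by
  decide +kernel
def c_19_9_17_55 : cellOK T19 19 55 9 ((17 * 55 + 1) / 9) 17 = true := by
  decide +kernel
def c_19_9_17_46 : cellOK T19 19 46 9 ((17 * 46 + 1) / 9) 17 = true := by
  decide +kernel
def c_19_9_17_37 : cellOK T19 19 37 9 ((17 * 37 + 1) / 9) 17 = true := by
  decide +kernel
def c_19_9_17_28 : cellOK T19 19 28 9 ((17 * 28 + 1) / 9) 17 = true := by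
  decide +kernel
def c_19_9_17_19 : cellOK T19 19 19 9 ((17 * 19 + 1) / 9) 17 = true := by
  decide +kernel
def c_19_9_17_10 : cellOK T19 19 10 9 ((17 * 10 + 1) / 9) 17 = true := by
  decide +kernel
def c_19_9_17_1 : cellOK T19 19 1 9 ((17 * 1 + 1) / 9) 17 = true := by
  decide +kernel
theorem gg_19_9_17 : GG T19 19 9 17 := gg_of (l := [82, 73, 64, 55, 46, 37, 28, 19, 10, 1]) (by decide +kernel)
  ⟨c_19_9_17_82, c_19_9_17_73, c_19_9_17_64, c_19_9_17_55, c_19_9_17_46, c_19_9_17_37, c_19_9_17_28, c_19_9_17_19, c_19_9_17_10, c_19_9_17_1, trivial⟩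

theorem gg_19_9_18 : GG T19 19 9 18 := gg_of (l := []) (by decide +kernel)
  trivial

def c_19_10_9_91 : cellOK T19 19 91 10 ((9 * 91 + 1) / 10) 9 = true := by
  decide +kernel
def c_19_10_9_81 : cellOK T19 19 81 10 ((9 * 81 + 1) / 10) 9 = true := by
  decide +kernel
def c_19_10_9_71 : cellOK T19 19 71 10 ((9 * 71 + 1) / 10) 9 = true := by
  decide +kernel
def c_19_10_9_61 : cellOK T19 19 61 10 ((9 * 61 + 1) / 10) 9 = true := by
  decide +kernel
def c_19_10_9_51 : cellOK T19 19 51 10 ((9 * 51 + 1) / 10) 9 = true := by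
  decide +kernel
def c_19_10_9_41 : cellOK T19 19 41 10 ((9 * 41 + 1) / 10) 9 = true := by
  decide +kernel
def c_19_10_9_31 : cellOK T19 19 31 10 ((9 * 31 + 1) / 10) 9 = true := by
  decide +kernel
def c_19_10_9_21 : cellOK T19 19 21 10 ((9 * 21 + 1) / 10) 9 = true := by
  decide +kernel
def c_19_10_9_11 : cellOK T19 19 11 10 ((9 * 11 + 1) / 10) 9 = true := by
  decide +kernel
def c_19_10_9_1 : cellOK T19 19 1 10 ((9 * 1 + 1) / 10) 9 = true := by
  decide +kernel
theorem gg_19_10_9 : GG T19 19 10 9 := gg_of (l := [91, 81, 71, 61, 51, 41, 31, 21, 11, 1]) (by decide +kernel)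
  ⟨c_19_10_9_91, c_19_10_9_81, c_19_10_9_71, c_19_10_9_61, c_19_10_9_51, c_19_10_9_41, c_19_10_9_31, c_19_10_9_21, c_19_10_9_11, c_19_10_9_1, trivial⟩

theorem gg_19_10_10 : GG T19 19 10 10 := gg_of (l := []) (by decide +kernel)
  trivial

def c_19_10_11_89 : cellOK T19 19 89 10 ((11 * 89 + 1) / 10) 11 = true := by
  decide +kernel
def c_19_10_11_79 : cellOK T19 19 79 10 ((11 * 79 + 1) / 10) 11 = true := by
  decide +kernel
def c_19_10_11_69 : cellOK T19 19 69 10 ((11 * 69 + 1) / 10) 11 = true := by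
  decide +kernel
def c_19_10_11_59 : cellOK T19 19 59 10 ((11 * 59 + 1) / 10) 11 = true := by
  decide +kernel
def c_19_10_11_49 : cellOK T19 19 49 10 ((11 * 49 + 1) / 10) 11 = true := by
  decide +kernel
def c_19_10_11_39 : cellOK T19 19 39 10 ((11 * 39 + 1) / 10) 11 = true := by
  decide +kernel
def c_19_10_11_29 : cellOK T19 19 29 10 ((11 * 29 + 1) / 10) 11 = true := by
  decide +kernel
def c_19_10_11_19 : cellOK T19 19 19 10 ((11 * 19 + 1) / 10) 11 = true := by
  decide +kernel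
def c_19_10_11_9 : cellOK T19 19 9 10 ((11 * 9 + 1) / 10) 11 = true := by
  decide +kernel
theorem gg_19_10_11 : GG T19 19 10 11 := gg_of (l := [89, 79, 69, 59, 49, 39, 29, 19, 9]) (by decide +kernel)
  ⟨c_19_10_11_89, c_19_10_11_79, c_19_10_11_69, c_19_10_11_59, c_19_10_11_49, c_19_10_11_39, c_19_10_11_29, c_19_10_11_19, c_19_10_11_9, trivial⟩

theorem gg_19_10_12 : GG T19 19 10 12 := gg_of (l := []) (by decide +kernel)
  trivial

def c_19_10_13_93 : cellOK T19 19 93 10 ((13 * 93 + 1) / 10) 13 = true := by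
  decide +kernel
def c_19_10_13_83 : cellOK T19 19 83 10 ((13 * 83 + 1) / 10) 13 = true := by
  decide +kernel
def c_19_10_13_73 : cellOK T19 19 73 10 ((13 * 73 + 1) / 10) 13 = true := by
  decide +kernel
def c_19_10_13_63 : cellOK T19 19 63 10 ((13 * 63 + 1) / 10) 13 = true := by
  decide +kernel
def c_19_10_13_53 : cellOK T19 19 53 10 ((13 * 53 + 1) / 10) 13 = true := by
  decide +kernel
def c_19_10_13_43 : cellOK T19 19 43 10 ((13 * 43 + 1) / 10) 13 = true := by
  decide +kernel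
def c_19_10_13_33 : cellOK T19 19 33 10 ((13 * 33 + 1) / 10) 13 = true := by
  decide +kernel
def c_19_10_13_23 : cellOK T19 19 23 10 ((13 * 23 + 1) / 10) 13 = true := by
  decide +kernel
def c_19_10_13_13 : cellOK T19 19 13 10 ((13 * 13 + 1) / 10) 13 = true := by
  decide +kernel
def c_19_10_13_3 : cellOK T19 19 3 10 ((13 * 3 + 1) / 10) 13 = true := by
  decide +kernel
theorem gg_19_10_13 : GG T19 19 10 13 := gg_of (l := [93, 83, 73, 63, 53, 43, 33, 23, 13, 3]) (by decide +kernel)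
  ⟨c_19_10_13_93, c_19_10_13_83, c_19_10_13_73, c_19_10_13_63, c_19_10_13_53, c_19_10_13_43, c_19_10_13_33, c_19_10_13_23, c_19_10_13_13, c_19_10_13_3, trivial⟩

theorem gg_19_10_14 : GG T19 19 10 14 := gg_of (l := []) (by decide +kernel)
  trivial

theorem gg_19_10_15 : GG T19 19 10 15 := gg_of (l := []) (by decide +kernel)
  trivial

theorem gg_19_10_16 : GG T19 19 10 16 := gg_of (l := []) (by decide +kernel)
  trivial

def c_19_10_17_87 : cellOK T19 19 87 10 ((17 * 87 + 1) / 10) 17 = true := by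
  decide +kernel
def c_19_10_17_77 : cellOK T19 19 77 10 ((17 * 77 + 1) / 10) 17 = true := by
  decide +kernel
def c_19_10_17_67 : cellOK T19 19 67 10 ((17 * 67 + 1) / 10) 17 = true := by
  decide +kernel
def c_19_10_17_57 : cellOK T19 19 57 10 ((17 * 57 + 1) / 10) 17 = true := by
  decide +kernel
def c_19_10_17_47 : cellOK T19 19 47 10 ((17 * 47 + 1) / 10) 17 = true := by
  decide +kernel
def c_19_10_17_37 : cellOK T19 19 37 10 ((17 * 37 + 1) / 10) 17 = true := by
  decide +kernel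
def c_19_10_17_27 : cellOK T19 19 27 10 ((17 * 27 + 1) / 10) 17 = true := by
  decide +kernel
def c_19_10_17_17 : cellOK T19 19 17 10 ((17 * 17 + 1) / 10) 17 = true := by
  decide +kernel
def c_19_10_17_7 : cellOK T19 19 7 10 ((17 * 7 + 1) / 10) 17 = true := by
  decide +kernel
theorem gg_19_10_17 : GG T19 19 10 17 := gg_of (l := [87, 77, 67, 57, 47, 37, 27, 17, 7]) (by decide +kernel)
  ⟨c_19_10_17_87, c_19_10_17_77, c_19_10_17_67, c_19_10_17_57, c_19_10_17_47, c_19_10_17_37, c_19_10_17_27, c_19_10_17_17, c_19_10_17_7, trivial⟩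

theorem gg_19_10_18 : GG T19 19 10 18 := gg_of (l := []) (by decide +kernel)
  trivial

def c_19_11_8_103 : cellOK T19 19 103 11 ((8 * 103 + 1) / 11) 8 = true := by
  decide +kernel
def c_19_11_8_92 : cellOK T19 19 92 11 ((8 * 92 + 1) / 11) 8 = true := by
  decide +kernel
def c_19_11_8_81 : cellOK T19 19 81 11 ((8 * 81 + 1) / 11) 8 = true := by
  decide +kernel
def c_19_11_8_70 : cellOK T19 19 70 11 ((8 * 70 + 1) / 11) 8 = true := by
  decide +kernel
def c_19_11_8_59 : cellOK T19 19 59 11 ((8 * 59 + 1) / 11) 8 = true := by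
  decide +kernel
def c_19_11_8_48 : cellOK T19 19 48 11 ((8 * 48 + 1) / 11) 8 = true := by
  decide +kernel
def c_19_11_8_37 : cellOK T19 19 37 11 ((8 * 37 + 1) / 11) 8 = true := by
  decide +kernel
def c_19_11_8_26 : cellOK T19 19 26 11 ((8 * 26 + 1) / 11) 8 = true := by
  decide +kernel
def c_19_11_8_15 : cellOK T19 19 15 11 ((8 * 15 + 1) / 11) 8 = true := by
  decide +kernel
def c_19_11_8_4 : cellOK T19 19 4 11 ((8 * 4 + 1) / 11) 8 = true := by
  decide +kernel
theorem gg_19_11_8 : GG T19 19 11 8 := gg_of (l := [103, 92, 81, 70, 59, 48, 37, 26, 15, 4]) (by decide +kernel)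
  ⟨c_19_11_8_103, c_19_11_8_92, c_19_11_8_81, c_19_11_8_70, c_19_11_8_59, c_19_11_8_48, c_19_11_8_37, c_19_11_8_26, c_19_11_8_15, c_19_11_8_4, trivial⟩

def c_19_11_9_94 : cellOK T19 19 94 11 ((9 * 94 + 1) / 11) 9 = true := by
  decide +kernel
def c_19_11_9_83 : cellOK T19 19 83 11 ((9 * 83 + 1) / 11) 9 = true := by
  decide +kernel
def c_19_11_9_72 : cellOK T19 19 72 11 ((9 * 72 + 1) / 11) 9 = true := by
  decide +kernel
def c_19_11_9_61 : cellOK T19 19 61 11 ((9 * 61 + 1) / 11) 9 = true := by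
  decide +kernel
def c_19_11_9_50 : cellOK T19 19 50 11 ((9 * 50 + 1) / 11) 9 = true := by
  decide +kernel
def c_19_11_9_39 : cellOK T19 19 39 11 ((9 * 39 + 1) / 11) 9 = true := by
  decide +kernel
def c_19_11_9_28 : cellOK T19 19 28 11 ((9 * 28 + 1) / 11) 9 = true := by
  decide +kernel
def c_19_11_9_17 : cellOK T19 19 17 11 ((9 * 17 + 1) / 11) 9 = true := by
  decide +kernel
def c_19_11_9_6 : cellOK T19 19 6 11 ((9 * 6 + 1) / 11) 9 = true := by
  decide +kernel
theorem gg_19_11_9 : GG T19 19 11 9 := gg_of (l := [94, 83, 72, 61, 50, 39, 28, 17, 6]) (by decide +kernel)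
  ⟨c_19_11_9_94, c_19_11_9_83, c_19_11_9_72, c_19_11_9_61, c_19_11_9_50, c_19_11_9_39, c_19_11_9_28, c_19_11_9_17, c_19_11_9_6, trivial⟩

def c_19_11_10_100 : cellOK T19 19 100 11 ((10 * 100 + 1) / 11) 10 = true := by
  decide +kernel
def c_19_11_10_89 : cellOK T19 19 89 11 ((10 * 89 + 1) / 11) 10 = true := by
  decide +kernel
def c_19_11_10_78 : cellOK T19 19 78 11 ((10 * 78 + 1) / 11) 10 = true := by
  decide +kernel
def c_19_11_10_67 : cellOK T19 19 67 11 ((10 * 67 + 1) / 11) 10 = true := by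
  decide +kernel
def c_19_11_10_56 : cellOK T19 19 56 11 ((10 * 56 + 1) / 11) 10 = true := by
  decide +kernel
def c_19_11_10_45 : cellOK T19 19 45 11 ((10 * 45 + 1) / 11) 10 = true := by
  decide +kernel
def c_19_11_10_34 : cellOK T19 19 34 11 ((10 * 34 + 1) / 11) 10 = true := by
  decide +kernel
def c_19_11_10_23 : cellOK T19 19 23 11 ((10 * 23 + 1) / 11) 10 = true := by
  decide +kernel
def c_19_11_10_12 : cellOK T19 19 12 11 ((10 * 12 + 1) / 11) 10 = true := by
  decide +kernel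
def c_19_11_10_1 : cellOK T19 19 1 11 ((10 * 1 + 1) / 11) 10 = true := by
  decide +kernel
theorem gg_19_11_10 : GG T19 19 11 10 := gg_of (l := [100, 89, 78, 67, 56, 45, 34, 23, 12, 1]) (by decide +kernel)
  ⟨c_19_11_10_100, c_19_11_10_89, c_19_11_10_78, c_19_11_10_67, c_19_11_10_56, c_19_11_10_45, c_19_11_10_34, c_19_11_10_23, c_19_11_10_12, c_19_11_10_1, trivial⟩

theorem gg_19_11_11 : GG T19 19 11 11 := gg_of (l := []) (by decide +kernel)
  trivial

def c_19_11_12_98 : cellOK T19 19 98 11 ((12 * 98 + 1) / 11) 12 = true := by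
  decide +kernel
def c_19_11_12_87 : cellOK T19 19 87 11 ((12 * 87 + 1) / 11) 12 = true := by
  decide +kernel
def c_19_11_12_76 : cellOK T19 19 76 11 ((12 * 76 + 1) / 11) 12 = true := by
  decide +kernel
def c_19_11_12_65 : cellOK T19 19 65 11 ((12 * 65 + 1) / 11) 12 = true := by
  decide +kernel
def c_19_11_12_54 : cellOK T19 19 54 11 ((12 * 54 + 1) / 11) 12 = true := by
  decide +kernel
def c_19_11_12_43 : cellOK T19 19 43 11 ((12 * 43 + 1) / 11) 12 = true := by
  decide +kernel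
def c_19_11_12_32 : cellOK T19 19 32 11 ((12 * 32 + 1) / 11) 12 = true := by
  decide +kernel
def c_19_11_12_21 : cellOK T19 19 21 11 ((12 * 21 + 1) / 11) 12 = true := by
  decide +kernel
def c_19_11_12_10 : cellOK T19 19 10 11 ((12 * 10 + 1) / 11) 12 = true := by
  decide +kernel
theorem gg_19_11_12 : GG T19 19 11 12 := gg_of (l := [98, 87, 76, 65, 54, 43, 32, 21, 10]) (by decide +kernel)
  ⟨c_19_11_12_98, c_19_11_12_87, c_19_11_12_76, c_19_11_12_65, c_19_11_12_54, c_19_11_12_43, c_19_11_12_32, c_19_11_12_21, c_19_11_12_10, trivial⟩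

end Pool.Agent.Helper55.FT
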