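import Pool.Agent.Helper55.FT.TabB

set_option autoImplicit false

/-!
# Cell checks
-/

namespace Pool.Agent.Helper55.FT

set_option maxRecDepth 100000
set_option linter.defProp false

def c_19_11_13_104 : cellOK T19 19 104 11 ((13 * 104 + 1) / 11) 13 = true := by
  decide +kernel
def c_19_11_13_93 : cellOK T19 19 93 11 ((13 * 93 + 1) / 11) 13 = true := by
  decide +kernel
def c_19_11_13_82 : cellOK T19 19 82 11 ((13 * 82 + 1) / 11) 13 = true := by
  decide +kernel
def c_19_11_13_71 : cellOK T19 19 71 11 ((13 * 71 + 1) / 11) 13 = true := by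
  decide +kernel
def c_19_11_13_60 : cellOK T19 19 60 11 ((13 * 60 + 1) / 11) 13 = true := by
  decide +kernel
def c_19_11_13_49 : cellOK T19 19 49 11 ((13 * 49 + 1) / 11) 13 = true := by
  decide +kernel
def c_19_11_13_38 : cellOK T19 19 38 11 ((13 * 38 + 1) / 11) 13 = true := by
  decide +kernel
def c_19_11_13_27 : cellOK T19 19 27 11 ((13 * 27 + 1) / 11) 13 = true := by
  decide +kernel
def c_19_11_13_16 : cellOK T19 19 16 11 ((13 * 16 + 1) / 11) 13 = true := by
  decide +kernel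
def c_19_11_13_5 : cellOK T19 19 5 11 ((13 * 5 + 1) / 11) 13 = true := by
  decide +kernel
theorem gg_19_11_13 : GG T19 19 11 13 := gg_of (l := [104, 93, 82, 71, 60, 49, 38, 27, 16, 5]) (by decide +kernel)
  ⟨c_19_11_13_104, c_19_11_13_93, c_19_11_13_82, c_19_11_13_71, c_19_11_13_60, c_19_11_13_49, c_19_11_13_38, c_19_11_13_27, c_19_11_13_16, c_19_11_13_5, trivial⟩

def c_19_11_14_95 : cellOK T19 19 95 11 ((14 * 95 + 1) / 11) 14 = true := by
  decide +kernel
def c_19_11_14_84 : cellOK T19 19 84 11 ((14 * 84 + 1) / 11) 14 = true := by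
  decide +kernel
def c_19_11_14_73 : cellOK T19 19 73 11 ((14 * 73 + 1) / 11) 14 = true := by
  decide +kernel
def c_19_11_14_62 : cellOK T19 19 62 11 ((14 * 62 + 1) / 11) 14 = true := by
  decide +kernel
def c_19_11_14_51 : cellOK T19 19 51 11 ((14 * 51 + 1) / 11) 14 = true := by
  decide +kernel
def c_19_11_14_40 : cellOK T19 19 40 11 ((14 * 40 + 1) / 11) 14 = true := by
  decide +kernel
def c_19_11_14_29 : cellOK T19 19 29 11 ((14 * 29 + 1) / 11) 14 = true := by
  decide +kernel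
def c_19_11_14_18 : cellOK T19 19 18 11 ((14 * 18 + 1) / 11) 14 = true := by
  decide +kernel
def c_19_11_14_7 : cellOK T19 19 7 11 ((14 * 7 + 1) / 11) 14 = true := by
  decide +kernel
theorem gg_19_11_14 : GG T19 19 11 14 := gg_of (l := [95, 84, 73, 62, 51, 40, 29, 18, 7]) (by decide +kernel)
  ⟨c_19_11_14_95, c_19_11_14_84, c_19_11_14_73, c_19_11_14_62, c_19_11_14_51, c_19_11_14_40, c_19_11_14_29, c_19_11_14_18, c_19_11_14_7, trivial⟩

def c_19_11_15_96 : cellOK T19 19 96 11 ((15 * 96 + 1) / 11) 15 = true := by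
  decide +kernel
def c_19_11_15_85 : cellOK T19 19 85 11 ((15 * 85 + 1) / 11) 15 = true := by
  decide +kernel
def c_19_11_15_74 : cellOK T19 19 74 11 ((15 * 74 + 1) / 11) 15 = true := by
  decide +kernel
def c_19_11_15_63 : cellOK T19 19 63 11 ((15 * 63 + 1) / 11) 15 = true := by
  decide +kernel
def c_19_11_15_52 : cellOK T19 19 52 11 ((15 * 52 + 1) / 11) 15 = true := by
  decide +kernel
def c_19_11_15_41 : cellOK T19 19 41 11 ((15 * 41 + 1) / 11) 15 = true := by
  decide +kernel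
def c_19_11_15_30 : cellOK T19 19 30 11 ((15 * 30 + 1) / 11) 15 = true := by
  decide +kernel
def c_19_11_15_19 : cellOK T19 19 19 11 ((15 * 19 + 1) / 11) 15 = true := by
  decide +kernel
def c_19_11_15_8 : cellOK T19 19 8 11 ((15 * 8 + 1) / 11) 15 = true := by
  decide +kernel
theorem gg_19_11_15 : GG T19 19 11 15 := gg_of (l := [96, 85, 74, 63, 52, 41, 30, 19, 8]) (by decide +kernel)
  ⟨c_19_11_15_96, c_19_11_15_85, c_19_11_15_74, c_19_11_15_63, c_19_11_15_52, c_19_11_15_41, c_19_11_15_30, c_19_11_15_19, c_19_11_15_8, trivial⟩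

def c_19_11_16_101 : cellOK T19 19 101 11 ((16 * 101 + 1) / 11) 16 = true := by
  decide +kernel
def c_19_11_16_90 : cellOK T19 19 90 11 ((16 * 90 + 1) / 11) 16 = true := by
  decide +kernel
def c_19_11_16_79 : cellOK T19 19 79 11 ((16 * 79 + 1) / 11) 16 = true := by
  decide +kernel
def c_19_11_16_68 : cellOK T19 19 68 11 ((16 * 68 + 1) / 11) 16 = true := by
  decide +kernel
def c_19_11_16_57 : cellOK T19 19 57 11 ((16 * 57 + 1) / 11) 16 = true := by
  decide +kernel
def c_19_11_16_46 : cellOK T19 19 46 11 ((16 * 46 + 1) / 11) 16 = true := by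
  decide +kernel
def c_19_11_16_35 : cellOK T19 19 35 11 ((16 * 35 + 1) / 11) 16 = true := by
  decide +kernel
def c_19_11_16_24 : cellOK T19 19 24 11 ((16 * 24 + 1) / 11) 16 = true := by
  decide +kernel
def c_19_11_16_13 : cellOK T19 19 13 11 ((16 * 13 + 1) / 11) 16 = true := by
  decide +kernel
def c_19_11_16_2 : cellOK T19 19 2 11 ((16 * 2 + 1) / 11) 16 = true := by
  decide +kernel
theorem gg_19_11_16 : GG T19 19 11 16 := gg_of (l := [101, 90, 79, 68, 57, 46, 35, 24, 13, 2]) (by decide +kernel)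
  ⟨c_19_11_16_101, c_19_11_16_90, c_19_11_16_79, c_19_11_16_68, c_19_11_16_57, c_19_11_16_46, c_19_11_16_35, c_19_11_16_24, c_19_11_16_13, c_19_11_16_2, trivial⟩

def c_19_11_17_97 : cellOK T19 19 97 11 ((17 * 97 + 1) / 11) 17 = true := by
  decide +kernel
def c_19_11_17_86 : cellOK T19 19 86 11 ((17 * 86 + 1) / 11) 17 = true := by
  decide +kernel
def c_19_11_17_75 : cellOK T19 19 75 11 ((17 * 75 + 1) / 11) 17 = true := by
  decide +kernel
def c_19_11_17_64 : cellOK T19 19 64 11 ((17 * 64 + 1) / 11) 17 = true := by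
  decide +kernel
def c_19_11_17_53 : cellOK T19 19 53 11 ((17 * 53 + 1) / 11) 17 = true := by
  decide +kernel
def c_19_11_17_42 : cellOK T19 19 42 11 ((17 * 42 + 1) / 11) 17 = true := by
  decide +kernel
def c_19_11_17_31 : cellOK T19 19 31 11 ((17 * 31 + 1) / 11) 17 = true := by
  decide +kernel
def c_19_11_17_20 : cellOK T19 19 20 11 ((17 * 20 + 1) / 11) 17 = true := by
  decide +kernel
def c_19_11_17_9 : cellOK T19 19 9 11 ((17 * 9 + 1) / 11) 17 = true := by
  decide +kernel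
theorem gg_19_11_17 : GG T19 19 11 17 := gg_of (l := [97, 86, 75, 64, 53, 42, 31, 20, 9]) (by decide +kernel)
  ⟨c_19_11_17_97, c_19_11_17_86, c_19_11_17_75, c_19_11_17_64, c_19_11_17_53, c_19_11_17_42, c_19_11_17_31, c_19_11_17_20, c_19_11_17_9, trivial⟩

def c_19_11_18_102 : cellOK T19 19 102 11 ((18 * 102 + 1) / 11) 18 = true := by
  decide +kernel
def c_19_11_18_91 : cellOK T19 19 91 11 ((18 * 91 + 1) / 11) 18 = true := by
  decide +kernel
def c_19_11_18_80 : cellOK T19 19 80 11 ((18 * 80 + 1) / 11) 18 = true := by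
  decide +kernel
def c_19_11_18_69 : cellOK T19 19 69 11 ((18 * 69 + 1) / 11) 18 = true := by
  decide +kernel
def c_19_11_18_58 : cellOK T19 19 58 11 ((18 * 58 + 1) / 11) 18 = true := by
  decide +kernel
def c_19_11_18_47 : cellOK T19 19 47 11 ((18 * 47 + 1) / 11) 18 = true := by
  decide +kernel
def c_19_11_18_36 : cellOK T19 19 36 11 ((18 * 36 + 1) / 11) 18 = true := by
  decide +kernel
def c_19_11_18_25 : cellOK T19 19 25 11 ((18 * 25 + 1) / 11) 18 = true := by
  decide +kernel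
def c_19_11_18_14 : cellOK T19 19 14 11 ((18 * 14 + 1) / 11) 18 = true := by
  decide +kernel
def c_19_11_18_3 : cellOK T19 19 3 11 ((18 * 3 + 1) / 11) 18 = true := by
  decide +kernel
theorem gg_19_11_18 : GG T19 19 11 18 := gg_of (l := [102, 91, 80, 69, 58, 47, 36, 25, 14, 3]) (by decide +kernel)
  ⟨c_19_11_18_102, c_19_11_18_91, c_19_11_18_80, c_19_11_18_69, c_19_11_18_58, c_19_11_18_47, c_19_11_18_36, c_19_11_18_25, c_19_11_18_14, c_19_11_18_3, trivial⟩

def c_19_12_7_113 : cellOK T19 19 113 12 ((7 * 113 + 1) / 12) 7 = true := by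
  decide +kernel
def c_19_12_7_101 : cellOK T19 19 101 12 ((7 * 101 + 1) / 12) 7 = true := by
  decide +kernel
def c_19_12_7_89 : cellOK T19 19 89 12 ((7 * 89 + 1) / 12) 7 = true := by
  decide +kernel
def c_19_12_7_77 : cellOK T19 19 77 12 ((7 * 77 + 1) / 12) 7 = true := by
  decide +kernel
def c_19_12_7_65 : cellOK T19 19 65 12 ((7 * 65 + 1) / 12) 7 = true := by
  decide +kernel
def c_19_12_7_53 : cellOK T19 19 53 12 ((7 * 53 + 1) / 12) 7 = true := by
  decide +kernel
def c_19_12_7_41 : cellOK T19 19 41 12 ((7 * 41 + 1) / 12) 7 = true := by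
  decide +kernel
def c_19_12_7_29 : cellOK T19 19 29 12 ((7 * 29 + 1) / 12) 7 = true := by
  decide +kernel
def c_19_12_7_17 : cellOK T19 19 17 12 ((7 * 17 + 1) / 12) 7 = true := by
  decide +kernel
def c_19_12_7_5 : cellOK T19 19 5 12 ((7 * 5 + 1) / 12) 7 = true := by
  decide +kernel
theorem gg_19_12_7 : GG T19 19 12 7 := gg_of (l := [113, 101, 89, 77, 65, 53, 41, 29, 17, 5]) (by decide +kernel)
  ⟨c_19_12_7_113, c_19_12_7_101, c_19_12_7_89, c_19_12_7_77, c_19_12_7_65, c_19_12_7_53, c_19_12_7_41, c_19_12_7_29, c_19_12_7_17, c_19_12_7_5, trivial⟩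

theorem gg_19_12_8 : GG T19 19 12 8 := gg_of (l := []) (by decide +kernel)
  trivial

theorem gg_19_12_9 : GG T19 19 12 9 := gg_of (l := []) (by decide +kernel)
  trivial

theorem gg_19_12_10 : GG T19 19 12 10 := gg_of (l := []) (by decide +kernel)
  trivial

def c_19_12_11_109 : cellOK T19 19 109 12 ((11 * 109 + 1) / 12) 11 = true := by
  decide +kernel
def c_19_12_11_97 : cellOK T19 19 97 12 ((11 * 97 + 1) / 12) 11 = true := by
  decide +kernel
def c_19_12_11_85 : cellOK T19 19 85 12 ((11 * 85 + 1) / 12) 11 = true := by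
  decide +kernel
def c_19_12_11_73 : cellOK T19 19 73 12 ((11 * 73 + 1) / 12) 11 = true := by
  decide +kernel
def c_19_12_11_61 : cellOK T19 19 61 12 ((11 * 61 + 1) / 12) 11 = true := by
  decide +kernel
def c_19_12_11_49 : cellOK T19 19 49 12 ((11 * 49 + 1) / 12) 11 = true := by
  decide +kernel
def c_19_12_11_37 : cellOK T19 19 37 12 ((11 * 37 + 1) / 12) 11 = true := by
  decide +kernel
def c_19_12_11_25 : cellOK T19 19 25 12 ((11 * 25 + 1) / 12) 11 = true := by
  decide +kernel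
def c_19_12_11_13 : cellOK T19 19 13 12 ((11 * 13 + 1) / 12) 11 = true := by
  decide +kernel
def c_19_12_11_1 : cellOK T19 19 1 12 ((11 * 1 + 1) / 12) 11 = true := by
  decide +kernel
theorem gg_19_12_11 : GG T19 19 12 11 := gg_of (l := [109, 97, 85, 73, 61, 49, 37, 25, 13, 1]) (by decide +kernel)
  ⟨c_19_12_11_109, c_19_12_11_97, c_19_12_11_85, c_19_12_11_73, c_19_12_11_61, c_19_12_11_49, c_19_12_11_37, c_19_12_11_25, c_19_12_11_13, c_19_12_11_1, trivial⟩

theorem gg_19_12_12 : GG T19 19 12 12 := gg_of (l := []) (by decide +kernel)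
  trivial

def c_19_12_13_107 : cellOK T19 19 107 12 ((13 * 107 + 1) / 12) 13 = true := by
  decide +kernel
def c_19_12_13_95 : cellOK T19 19 95 12 ((13 * 95 + 1) / 12) 13 = true := by
  decide +kernel
def c_19_12_13_83 : cellOK T19 19 83 12 ((13 * 83 + 1) / 12) 13 = true := by
  decide +kernel
def c_19_12_13_71 : cellOK T19 19 71 12 ((13 * 71 + 1) / 12) 13 = true := by
  decide +kernel
def c_19_12_13_59 : cellOK T19 19 59 12 ((13 * 59 + 1) / 12) 13 = true := by
  decide +kernel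
def c_19_12_13_47 : cellOK T19 19 47 12 ((13 * 47 + 1) / 12) 13 = true := by
  decide +kernel
def c_19_12_13_35 : cellOK T19 19 35 12 ((13 * 35 + 1) / 12) 13 = true := by
  decide +kernel
def c_19_12_13_23 : cellOK T19 19 23 12 ((13 * 23 + 1) / 12) 13 = true := by
  decide +kernel
def c_19_12_13_11 : cellOK T19 19 11 12 ((13 * 11 + 1) / 12) 13 = true := by
  decide +kernel
theorem gg_19_12_13 : GG T19 19 12 13 := gg_of (l := [107, 95, 83, 71, 59, 47, 35, 23, 11]) (by decide +kernel)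
  ⟨c_19_12_13_107, c_19_12_13_95, c_19_12_13_83, c_19_12_13_71, c_19_12_13_59, c_19_12_13_47, c_19_12_13_35, c_19_12_13_23, c_19_12_13_11, trivial⟩

theorem gg_19_12_14 : GG T19 19 12 14 := gg_of (l := []) (by decide +kernel)
  trivial

theorem gg_19_12_15 : GG T19 19 12 15 := gg_of (l := []) (by decide +kernel)
  trivial

theorem gg_19_12_16 : GG T19 19 12 16 := gg_of (l := []) (by decide +kernel)
  trivial

def c_19_12_17_103 : cellOK T19 19 103 12 ((17 * 103 + 1) / 12) 17 = true := by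
  decide +kernel
def c_19_12_17_91 : cellOK T19 19 91 12 ((17 * 91 + 1) / 12) 17 = true := by
  decide +kernel
def c_19_12_17_79 : cellOK T19 19 79 12 ((17 * 79 + 1) / 12) 17 = true := by
  decide +kernel
def c_19_12_17_67 : cellOK T19 19 67 12 ((17 * 67 + 1) / 12) 17 = true := by
  decide +kernel
def c_19_12_17_55 : cellOK T19 19 55 12 ((17 * 55 + 1) / 12) 17 = true := by
  decide +kernel
def c_19_12_17_43 : cellOK T19 19 43 12 ((17 * 43 + 1) / 12) 17 = true := by
  decide +kernel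
def c_19_12_17_31 : cellOK T19 19 31 12 ((17 * 31 + 1) / 12) 17 = true := by
  decide +kernel
def c_19_12_17_19 : cellOK T19 19 19 12 ((17 * 19 + 1) / 12) 17 = true := by
  decide +kernel
def c_19_12_17_7 : cellOK T19 19 7 12 ((17 * 7 + 1) / 12) 17 = true := by
  decide +kernel
theorem gg_19_12_17 : GG T19 19 12 17 := gg_of (l := [103, 91, 79, 67, 55, 43, 31, 19, 7]) (by decide +kernel)
  ⟨c_19_12_17_103, c_19_12_17_91, c_19_12_17_79, c_19_12_17_67, c_19_12_17_55, c_19_12_17_43, c_19_12_17_31, c_19_12_17_19, c_19_12_17_7, trivial⟩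

theorem gg_19_12_18 : GG T19 19 12 18 := gg_of (l := []) (by decide +kernel)
  trivial

def c_19_13_6_119 : cellOK T19 19 119 13 ((6 * 119 + 1) / 13) 6 = true := by
  decide +kernel
def c_19_13_6_106 : cellOK T19 19 106 13 ((6 * 106 + 1) / 13) 6 = true := by
  decide +kernel
def c_19_13_6_93 : cellOK T19 19 93 13 ((6 * 93 + 1) / 13) 6 = true := by
  decide +kernel
def c_19_13_6_80 : cellOK T19 19 80 13 ((6 * 80 + 1) / 13) 6 = true := by
  decide +kernel
def c_19_13_6_67 : cellOK T19 19 67 13 ((6 * 67 + 1) / 13) 6 = true := by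
  decide +kernel
def c_19_13_6_54 : cellOK T19 19 54 13 ((6 * 54 + 1) / 13) 6 = true := by
  decide +kernel
def c_19_13_6_41 : cellOK T19 19 41 13 ((6 * 41 + 1) / 13) 6 = true := by
  decide +kernel
def c_19_13_6_28 : cellOK T19 19 28 13 ((6 * 28 + 1) / 13) 6 = true := by
  decide +kernel
def c_19_13_6_15 : cellOK T19 19 15 13 ((6 * 15 + 1) / 13) 6 = true := by
  decide +kernel
def c_19_13_6_2 : cellOK T19 19 2 13 ((6 * 2 + 1) / 13) 6 = true := by
  decide +kernel
theorem gg_19_13_6 : GG T19 19 13 6 := gg_of (l := [119, 106, 93, 80, 67, 54, 41, 28, 15, 2]) (by decide +kernel)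
  ⟨c_19_13_6_119, c_19_13_6_106, c_19_13_6_93, c_19_13_6_80, c_19_13_6_67, c_19_13_6_54, c_19_13_6_41, c_19_13_6_28, c_19_13_6_15, c_19_13_6_2, trivial⟩

def c_19_13_7_115 : cellOK T19 19 115 13 ((7 * 115 + 1) / 13) 7 = true := by
  decide +kernel
def c_19_13_7_102 : cellOK T19 19 102 13 ((7 * 102 + 1) / 13) 7 = true := by
  decide +kernel
def c_19_13_7_89 : cellOK T19 19 89 13 ((7 * 89 + 1) / 13) 7 = true := by
  decide +kernel
def c_19_13_7_76 : cellOK T19 19 76 13 ((7 * 76 + 1) / 13) 7 = true := by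
  decide +kernel
def c_19_13_7_63 : cellOK T19 19 63 13 ((7 * 63 + 1) / 13) 7 = true := by
  decide +kernel
def c_19_13_7_50 : cellOK T19 19 50 13 ((7 * 50 + 1) / 13) 7 = true := by
  decide +kernel
def c_19_13_7_37 : cellOK T19 19 37 13 ((7 * 37 + 1) / 13) 7 = true := by
  decide +kernel
def c_19_13_7_24 : cellOK T19 19 24 13 ((7 * 24 + 1) / 13) 7 = true := by
  decide +kernel
def c_19_13_7_11 : cellOK T19 19 11 13 ((7 * 11 + 1) / 13) 7 = true := by
  decide +kernel
theorem gg_19_13_7 : GG T19 19 13 7 := gg_of (l := [115, 102, 89, 76, 63, 50, 37, 24, 11]) (by decide +kernel)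
  ⟨c_19_13_7_115, c_19_13_7_102, c_19_13_7_89, c_19_13_7_76, c_19_13_7_63, c_19_13_7_50, c_19_13_7_37, c_19_13_7_24, c_19_13_7_11, trivial⟩

end Pool.Agent.Helper55.FT
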