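import Pool.Agent.Helper55.FT.TabB

set_option autoImplicit false

/-!
# Cell checks
-/

namespace Pool.Agent.Helper55.FT

set_option maxRecDepth 100000
set_option linter.defProp false

def c_19_13_8_112 : cellOK T19 19 112 13 ((8 * 112 + 1) / 13) 8 = true := by
  decide +kernel
def c_19_13_8_99 : cellOK T19 19 99 13 ((8 * 99 + 1) / 13) 8 = true := by
  decide +kernel
def c_19_13_8_86 : cellOK T19 19 86 13 ((8 * 86 + 1) / 13) 8 = true := by
  decide +kernel
def c_19_13_8_73 : cellOK T19 19 73 13 ((8 * 73 + 1) / 13) 8 = true := by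
  decide +kernel
def c_19_13_8_60 : cellOK T19 19 60 13 ((8 * 60 + 1) / 13) 8 = true := by
  decide +kernel
def c_19_13_8_47 : cellOK T19 19 47 13 ((8 * 47 + 1) / 13) 8 = true := by
  decide +kernel
def c_19_13_8_34 : cellOK T19 19 34 13 ((8 * 34 + 1) / 13) 8 = true := by
  decide +kernel
def c_19_13_8_21 : cellOK T19 19 21 13 ((8 * 21 + 1) / 13) 8 = true := by
  decide +kernel
def c_19_13_8_8 : cellOK T19 19 8 13 ((8 * 8 + 1) / 13) 8 = true := by
  decide +kernel
theorem gg_19_13_8 : GG T19 19 13 8 := gg_of (l := [112, 99, 86, 73, 60, 47, 34, 21, 8]) (by decide +kernel)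
  ⟨c_19_13_8_112, c_19_13_8_99, c_19_13_8_86, c_19_13_8_73, c_19_13_8_60, c_19_13_8_47, c_19_13_8_34, c_19_13_8_21, c_19_13_8_8, trivial⟩

def c_19_13_9_114 : cellOK T19 19 114 13 ((9 * 114 + 1) / 13) 9 = true := by
  decide +kernel
def c_19_13_9_101 : cellOK T19 19 101 13 ((9 * 101 + 1) / 13) 9 = true := by
  decide +kernel
def c_19_13_9_88 : cellOK T19 19 88 13 ((9 * 88 + 1) / 13) 9 = true := by
  decide +kernel
def c_19_13_9_75 : cellOK T19 19 75 13 ((9 * 75 + 1) / 13) 9 = true := by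
  decide +kernel
def c_19_13_9_62 : cellOK T19 19 62 13 ((9 * 62 + 1) / 13) 9 = true := by
  decide +kernel
def c_19_13_9_49 : cellOK T19 19 49 13 ((9 * 49 + 1) / 13) 9 = true := by
  decide +kernel
def c_19_13_9_36 : cellOK T19 19 36 13 ((9 * 36 + 1) / 13) 9 = true := by
  decide +kernel
def c_19_13_9_23 : cellOK T19 19 23 13 ((9 * 23 + 1) / 13) 9 = true := by
  decide +kernel
def c_19_13_9_10 : cellOK T19 19 10 13 ((9 * 10 + 1) / 13) 9 = true := by
  decide +kernel
theorem gg_19_13_9 : GG T19 19 13 9 := gg_of (l := [114, 101, 88, 75, 62, 49, 36, 23, 10]) (by decide +kernel)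
  ⟨c_19_13_9_114, c_19_13_9_101, c_19_13_9_88, c_19_13_9_75, c_19_13_9_62, c_19_13_9_49, c_19_13_9_36, c_19_13_9_23, c_19_13_9_10, trivial⟩

def c_19_13_10_113 : cellOK T19 19 113 13 ((10 * 113 + 1) / 13) 10 = true := by
  decide +kernel
def c_19_13_10_100 : cellOK T19 19 100 13 ((10 * 100 + 1) / 13) 10 = true := by
  decide +kernel
def c_19_13_10_87 : cellOK T19 19 87 13 ((10 * 87 + 1) / 13) 10 = true := by
  decide +kernel
def c_19_13_10_74 : cellOK T19 19 74 13 ((10 * 74 + 1) / 13) 10 = true := by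
  decide +kernel
def c_19_13_10_61 : cellOK T19 19 61 13 ((10 * 61 + 1) / 13) 10 = true := by
  decide +kernel
def c_19_13_10_48 : cellOK T19 19 48 13 ((10 * 48 + 1) / 13) 10 = true := by
  decide +kernel
def c_19_13_10_35 : cellOK T19 19 35 13 ((10 * 35 + 1) / 13) 10 = true := by
  decide +kernel
def c_19_13_10_22 : cellOK T19 19 22 13 ((10 * 22 + 1) / 13) 10 = true := by
  decide +kernel
def c_19_13_10_9 : cellOK T19 19 9 13 ((10 * 9 + 1) / 13) 10 = true := by
  decide +kernel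
theorem gg_19_13_10 : GG T19 19 13 10 := gg_of (l := [113, 100, 87, 74, 61, 48, 35, 22, 9]) (by decide +kernel)
  ⟨c_19_13_10_113, c_19_13_10_100, c_19_13_10_87, c_19_13_10_74, c_19_13_10_61, c_19_13_10_48, c_19_13_10_35, c_19_13_10_22, c_19_13_10_9, trivial⟩

def c_19_13_11_111 : cellOK T19 19 111 13 ((11 * 111 + 1) / 13) 11 = true := by
  decide +kernel
def c_19_13_11_98 : cellOK T19 19 98 13 ((11 * 98 + 1) / 13) 11 = true := by
  decide +kernel
def c_19_13_11_85 : cellOK T19 19 85 13 ((11 * 85 + 1) / 13) 11 = true := by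
  decide +kernel
def c_19_13_11_72 : cellOK T19 19 72 13 ((11 * 72 + 1) / 13) 11 = true := by
  decide +kernel
def c_19_13_11_59 : cellOK T19 19 59 13 ((11 * 59 + 1) / 13) 11 = true := by
  decide +kernel
def c_19_13_11_46 : cellOK T19 19 46 13 ((11 * 46 + 1) / 13) 11 = true := by
  decide +kernel
def c_19_13_11_33 : cellOK T19 19 33 13 ((11 * 33 + 1) / 13) 11 = true := by
  decide +kernel
def c_19_13_11_20 : cellOK T19 19 20 13 ((11 * 20 + 1) / 13) 11 = true := by
  decide +kernel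
def c_19_13_11_7 : cellOK T19 19 7 13 ((11 * 7 + 1) / 13) 11 = true := by
  decide +kernel
theorem gg_19_13_11 : GG T19 19 13 11 := gg_of (l := [111, 98, 85, 72, 59, 46, 33, 20, 7]) (by decide +kernel)
  ⟨c_19_13_11_111, c_19_13_11_98, c_19_13_11_85, c_19_13_11_72, c_19_13_11_59, c_19_13_11_46, c_19_13_11_33, c_19_13_11_20, c_19_13_11_7, trivial⟩

def c_19_13_12_118 : cellOK T19 19 118 13 ((12 * 118 + 1) / 13) 12 = true := by
  decide +kernel
def c_19_13_12_105 : cellOK T19 19 105 13 ((12 * 105 + 1) / 13) 12 = true := by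
  decide +kernel
def c_19_13_12_92 : cellOK T19 19 92 13 ((12 * 92 + 1) / 13) 12 = true := by
  decide +kernel
def c_19_13_12_79 : cellOK T19 19 79 13 ((12 * 79 + 1) / 13) 12 = true := by
  decide +kernel
def c_19_13_12_66 : cellOK T19 19 66 13 ((12 * 66 + 1) / 13) 12 = true := by
  decide +kernel
def c_19_13_12_53 : cellOK T19 19 53 13 ((12 * 53 + 1) / 13) 12 = true := by
  decide +kernel
def c_19_13_12_40 : cellOK T19 19 40 13 ((12 * 40 + 1) / 13) 12 = true := by
  decide +kernel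
def c_19_13_12_27 : cellOK T19 19 27 13 ((12 * 27 + 1) / 13) 12 = true := by
  decide +kernel
def c_19_13_12_14 : cellOK T19 19 14 13 ((12 * 14 + 1) / 13) 12 = true := by
  decide +kernel
def c_19_13_12_1 : cellOK T19 19 1 13 ((12 * 1 + 1) / 13) 12 = true := by
  decide +kernel
theorem gg_19_13_12 : GG T19 19 13 12 := gg_of (l := [118, 105, 92, 79, 66, 53, 40, 27, 14, 1]) (by decide +kernel)
  ⟨c_19_13_12_118, c_19_13_12_105, c_19_13_12_92, c_19_13_12_79, c_19_13_12_66, c_19_13_12_53, c_19_13_12_40, c_19_13_12_27, c_19_13_12_14, c_19_13_12_1, trivial⟩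

theorem gg_19_13_13 : GG T19 19 13 13 := gg_of (l := []) (by decide +kernel)
  trivial

def c_19_13_14_116 : cellOK T19 19 116 13 ((14 * 116 + 1) / 13) 14 = true := by
  decide +kernel
def c_19_13_14_103 : cellOK T19 19 103 13 ((14 * 103 + 1) / 13) 14 = true := by
  decide +kernel
def c_19_13_14_90 : cellOK T19 19 90 13 ((14 * 90 + 1) / 13) 14 = true := by
  decide +kernel
def c_19_13_14_77 : cellOK T19 19 77 13 ((14 * 77 + 1) / 13) 14 = true := by
  decide +kernel
def c_19_13_14_64 : cellOK T19 19 64 13 ((14 * 64 + 1) / 13) 14 = true := by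
  decide +kernel
def c_19_13_14_51 : cellOK T19 19 51 13 ((14 * 51 + 1) / 13) 14 = true := by
  decide +kernel
def c_19_13_14_38 : cellOK T19 19 38 13 ((14 * 38 + 1) / 13) 14 = true := by
  decide +kernel
def c_19_13_14_25 : cellOK T19 19 25 13 ((14 * 25 + 1) / 13) 14 = true := by
  decide +kernel
def c_19_13_14_12 : cellOK T19 19 12 13 ((14 * 12 + 1) / 13) 14 = true := by
  decide +kernel
theorem gg_19_13_14 : GG T19 19 13 14 := gg_of (l := [116, 103, 90, 77, 64, 51, 38, 25, 12]) (by decide +kernel)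
  ⟨c_19_13_14_116, c_19_13_14_103, c_19_13_14_90, c_19_13_14_77, c_19_13_14_64, c_19_13_14_51, c_19_13_14_38, c_19_13_14_25, c_19_13_14_12, trivial⟩

def c_19_13_15_123 : cellOK T19 19 123 13 ((15 * 123 + 1) / 13) 15 = true := by
  decide +kernel
def c_19_13_15_110 : cellOK T19 19 110 13 ((15 * 110 + 1) / 13) 15 = true := by
  decide +kernel
def c_19_13_15_97 : cellOK T19 19 97 13 ((15 * 97 + 1) / 13) 15 = true := by
  decide +kernel
def c_19_13_15_84 : cellOK T19 19 84 13 ((15 * 84 + 1) / 13) 15 = true := by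
  decide +kernel
def c_19_13_15_71 : cellOK T19 19 71 13 ((15 * 71 + 1) / 13) 15 = true := by
  decide +kernel
def c_19_13_15_58 : cellOK T19 19 58 13 ((15 * 58 + 1) / 13) 15 = true := by
  decide +kernel
def c_19_13_15_45 : cellOK T19 19 45 13 ((15 * 45 + 1) / 13) 15 = true := by
  decide +kernel
def c_19_13_15_32 : cellOK T19 19 32 13 ((15 * 32 + 1) / 13) 15 = true := by
  decide +kernel
def c_19_13_15_19 : cellOK T19 19 19 13 ((15 * 19 + 1) / 13) 15 = true := by
  decide +kernel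
def c_19_13_15_6 : cellOK T19 19 6 13 ((15 * 6 + 1) / 13) 15 = true := by
  decide +kernel
theorem gg_19_13_15 : GG T19 19 13 15 := gg_of (l := [123, 110, 97, 84, 71, 58, 45, 32, 19, 6]) (by decide +kernel)
  ⟨c_19_13_15_123, c_19_13_15_110, c_19_13_15_97, c_19_13_15_84, c_19_13_15_71, c_19_13_15_58, c_19_13_15_45, c_19_13_15_32, c_19_13_15_19, c_19_13_15_6, trivial⟩

def c_19_13_16_121 : cellOK T19 19 121 13 ((16 * 121 + 1) / 13) 16 = true := by
  decide +kernel
def c_19_13_16_108 : cellOK T19 19 108 13 ((16 * 108 + 1) / 13) 16 = true := by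
  decide +kernel
def c_19_13_16_95 : cellOK T19 19 95 13 ((16 * 95 + 1) / 13) 16 = true := by
  decide +kernel
def c_19_13_16_82 : cellOK T19 19 82 13 ((16 * 82 + 1) / 13) 16 = true := by
  decide +kernel
def c_19_13_16_69 : cellOK T19 19 69 13 ((16 * 69 + 1) / 13) 16 = true := by
  decide +kernel
def c_19_13_16_56 : cellOK T19 19 56 13 ((16 * 56 + 1) / 13) 16 = true := by
  decide +kernel
def c_19_13_16_43 : cellOK T19 19 43 13 ((16 * 43 + 1) / 13) 16 = true := by
  decide +kernel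
def c_19_13_16_30 : cellOK T19 19 30 13 ((16 * 30 + 1) / 13) 16 = true := by
  decide +kernel
def c_19_13_16_17 : cellOK T19 19 17 13 ((16 * 17 + 1) / 13) 16 = true := by
  decide +kernel
def c_19_13_16_4 : cellOK T19 19 4 13 ((16 * 4 + 1) / 13) 16 = true := by
  decide +kernel
theorem gg_19_13_16 : GG T19 19 13 16 := gg_of (l := [121, 108, 95, 82, 69, 56, 43, 30, 17, 4]) (by decide +kernel)
  ⟨c_19_13_16_121, c_19_13_16_108, c_19_13_16_95, c_19_13_16_82, c_19_13_16_69, c_19_13_16_56, c_19_13_16_43, c_19_13_16_30, c_19_13_16_17, c_19_13_16_4, trivial⟩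

def c_19_13_17_120 : cellOK T19 19 120 13 ((17 * 120 + 1) / 13) 17 = true := by
  decide +kernel
def c_19_13_17_107 : cellOK T19 19 107 13 ((17 * 107 + 1) / 13) 17 = true := by
  decide +kernel
def c_19_13_17_94 : cellOK T19 19 94 13 ((17 * 94 + 1) / 13) 17 = true := by
  decide +kernel
def c_19_13_17_81 : cellOK T19 19 81 13 ((17 * 81 + 1) / 13) 17 = true := by
  decide +kernel
def c_19_13_17_68 : cellOK T19 19 68 13 ((17 * 68 + 1) / 13) 17 = true := by
  decide +kernel
def c_19_13_17_55 : cellOK T19 19 55 13 ((17 * 55 + 1) / 13) 17 = true := by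
  decide +kernel
def c_19_13_17_42 : cellOK T19 19 42 13 ((17 * 42 + 1) / 13) 17 = true := by
  decide +kernel
def c_19_13_17_29 : cellOK T19 19 29 13 ((17 * 29 + 1) / 13) 17 = true := by
  decide +kernel
def c_19_13_17_16 : cellOK T19 19 16 13 ((17 * 16 + 1) / 13) 17 = true := by
  decide +kernel
def c_19_13_17_3 : cellOK T19 19 3 13 ((17 * 3 + 1) / 13) 17 = true := by
  decide +kernel
theorem gg_19_13_17 : GG T19 19 13 17 := gg_of (l := [120, 107, 94, 81, 68, 55, 42, 29, 16, 3]) (by decide +kernel)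
  ⟨c_19_13_17_120, c_19_13_17_107, c_19_13_17_94, c_19_13_17_81, c_19_13_17_68, c_19_13_17_55, c_19_13_17_42, c_19_13_17_29, c_19_13_17_16, c_19_13_17_3, trivial⟩

def c_19_13_18_122 : cellOK T19 19 122 13 ((18 * 122 + 1) / 13) 18 = true := by
  decide +kernel
def c_19_13_18_109 : cellOK T19 19 109 13 ((18 * 109 + 1) / 13) 18 = true := by
  decide +kernel
def c_19_13_18_96 : cellOK T19 19 96 13 ((18 * 96 + 1) / 13) 18 = true := by
  decide +kernel
def c_19_13_18_83 : cellOK T19 19 83 13 ((18 * 83 + 1) / 13) 18 = true := by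
  decide +kernel
def c_19_13_18_70 : cellOK T19 19 70 13 ((18 * 70 + 1) / 13) 18 = true := by
  decide +kernel
def c_19_13_18_57 : cellOK T19 19 57 13 ((18 * 57 + 1) / 13) 18 = true := by
  decide +kernel
def c_19_13_18_44 : cellOK T19 19 44 13 ((18 * 44 + 1) / 13) 18 = true := by
  decide +kernel
def c_19_13_18_31 : cellOK T19 19 31 13 ((18 * 31 + 1) / 13) 18 = true := by
  decide +kernel
def c_19_13_18_18 : cellOK T19 19 18 13 ((18 * 18 + 1) / 13) 18 = true := by
  decide +kernel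
def c_19_13_18_5 : cellOK T19 19 5 13 ((18 * 5 + 1) / 13) 18 = true := by
  decide +kernel
theorem gg_19_13_18 : GG T19 19 13 18 := gg_of (l := [122, 109, 96, 83, 70, 57, 44, 31, 18, 5]) (by decide +kernel)
  ⟨c_19_13_18_122, c_19_13_18_109, c_19_13_18_96, c_19_13_18_83, c_19_13_18_70, c_19_13_18_57, c_19_13_18_44, c_19_13_18_31, c_19_13_18_18, c_19_13_18_5, trivial⟩

def c_19_14_5_123 : cellOK T19 19 123 14 ((5 * 123 + 1) / 14) 5 = true := by
  decide +kernel
def c_19_14_5_109 : cellOK T19 19 109 14 ((5 * 109 + 1) / 14) 5 = true := by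
  decide +kernel
def c_19_14_5_95 : cellOK T19 19 95 14 ((5 * 95 + 1) / 14) 5 = true := by
  decide +kernel
def c_19_14_5_81 : cellOK T19 19 81 14 ((5 * 81 + 1) / 14) 5 = true := by
  decide +kernel
def c_19_14_5_67 : cellOK T19 19 67 14 ((5 * 67 + 1) / 14) 5 = true := by
  decide +kernel
def c_19_14_5_53 : cellOK T19 19 53 14 ((5 * 53 + 1) / 14) 5 = true := by
  decide +kernel
def c_19_14_5_39 : cellOK T19 19 39 14 ((5 * 39 + 1) / 14) 5 = true := by
  decide +kernel
def c_19_14_5_25 : cellOK T19 19 25 14 ((5 * 25 + 1) / 14) 5 = true := by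
  decide +kernel
def c_19_14_5_11 : cellOK T19 19 11 14 ((5 * 11 + 1) / 14) 5 = true := by
  decide +kernel
theorem gg_19_14_5 : GG T19 19 14 5 := gg_of (l := [123, 109, 95, 81, 67, 53, 39, 25, 11]) (by decide +kernel)
  ⟨c_19_14_5_123, c_19_14_5_109, c_19_14_5_95, c_19_14_5_81, c_19_14_5_67, c_19_14_5_53, c_19_14_5_39, c_19_14_5_25, c_19_14_5_11, trivial⟩

theorem gg_19_14_6 : GG T19 19 14 6 := gg_of (l := []) (by decide +kernel)
  trivial

theorem gg_19_14_7 : GG T19 19 14 7 := gg_of (l := []) (by decide +kernel)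
  trivial

theorem gg_19_14_8 : GG T19 19 14 8 := gg_of (l := []) (by decide +kernel)
  trivial

def c_19_14_9_129 : cellOK T19 19 129 14 ((9 * 129 + 1) / 14) 9 = true := by
  decide +kernel
def c_19_14_9_115 : cellOK T19 19 115 14 ((9 * 115 + 1) / 14) 9 = true := by
  decide +kernel
def c_19_14_9_101 : cellOK T19 19 101 14 ((9 * 101 + 1) / 14) 9 = true := by
  decide +kernel
def c_19_14_9_87 : cellOK T19 19 87 14 ((9 * 87 + 1) / 14) 9 = true := by
  decide +kernel
def c_19_14_9_73 : cellOK T19 19 73 14 ((9 * 73 + 1) / 14) 9 = true := by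
  decide +kernel
def c_19_14_9_59 : cellOK T19 19 59 14 ((9 * 59 + 1) / 14) 9 = true := by
  decide +kernel
def c_19_14_9_45 : cellOK T19 19 45 14 ((9 * 45 + 1) / 14) 9 = true := by
  decide +kernel
def c_19_14_9_31 : cellOK T19 19 31 14 ((9 * 31 + 1) / 14) 9 = true := by
  decide +kernel
def c_19_14_9_17 : cellOK T19 19 17 14 ((9 * 17 + 1) / 14) 9 = true := by
  decide +kernel
def c_19_14_9_3 : cellOK T19 19 3 14 ((9 * 3 + 1) / 14) 9 = true := by
  decide +kernel
theorem gg_19_14_9 : GG T19 19 14 9 := gg_of (l := [129, 115, 101, 87, 73, 59, 45, 31, 17, 3]) (by decide +kernel)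
  ⟨c_19_14_9_129, c_19_14_9_115, c_19_14_9_101, c_19_14_9_87, c_19_14_9_73, c_19_14_9_59, c_19_14_9_45, c_19_14_9_31, c_19_14_9_17, c_19_14_9_3, trivial⟩

end Pool.Agent.Helper55.FT
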