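import Pool.Agent.Helper55.FT.TabB

set_option autoImplicit false

/-!
# Cell checks
-/

namespace Pool.Agent.Helper55.FT

set_option maxRecDepth 100000
set_option linter.defProp false

theorem gg_19_14_10 : GG T19 19 14 10 := gg_of (l := []) (by decide +kernel)
  trivial

def c_19_14_11_131 : cellOK T19 19 131 14 ((11 * 131 + 1) / 14) 11 = true := by
  decide +kernel
def c_19_14_11_117 : cellOK T19 19 117 14 ((11 * 117 + 1) / 14) 11 = true := by
  decide +kernel
def c_19_14_11_103 : cellOK T19 19 103 14 ((11 * 103 + 1) / 14) 11 = true := by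
  decide +kernel
def c_19_14_11_89 : cellOK T19 19 89 14 ((11 * 89 + 1) / 14) 11 = true := by
  decide +kernel
def c_19_14_11_75 : cellOK T19 19 75 14 ((11 * 75 + 1) / 14) 11 = true := by
  decide +kernel
def c_19_14_11_61 : cellOK T19 19 61 14 ((11 * 61 + 1) / 14) 11 = true := by
  decide +kernel
def c_19_14_11_47 : cellOK T19 19 47 14 ((11 * 47 + 1) / 14) 11 = true := by
  decide +kernel
def c_19_14_11_33 : cellOK T19 19 33 14 ((11 * 33 + 1) / 14) 11 = true := by
  decide +kernel
def c_19_14_11_19 : cellOK T19 19 19 14 ((11 * 19 + 1) / 14) 11 = true := by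
  decide +kernel
def c_19_14_11_5 : cellOK T19 19 5 14 ((11 * 5 + 1) / 14) 11 = true := by
  decide +kernel
theorem gg_19_14_11 : GG T19 19 14 11 := gg_of (l := [131, 117, 103, 89, 75, 61, 47, 33, 19, 5]) (by decide +kernel)
  ⟨c_19_14_11_131, c_19_14_11_117, c_19_14_11_103, c_19_14_11_89, c_19_14_11_75, c_19_14_11_61, c_19_14_11_47, c_19_14_11_33, c_19_14_11_19, c_19_14_11_5, trivial⟩

theorem gg_19_14_12 : GG T19 19 14 12 := gg_of (l := []) (by decide +kernel)
  trivial

def c_19_14_13_127 : cellOK T19 19 127 14 ((13 * 127 + 1) / 14) 13 = true := by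
  decide +kernel
def c_19_14_13_113 : cellOK T19 19 113 14 ((13 * 113 + 1) / 14) 13 = true := by
  decide +kernel
def c_19_14_13_99 : cellOK T19 19 99 14 ((13 * 99 + 1) / 14) 13 = true := by
  decide +kernel
def c_19_14_13_85 : cellOK T19 19 85 14 ((13 * 85 + 1) / 14) 13 = true := by
  decide +kernel
def c_19_14_13_71 : cellOK T19 19 71 14 ((13 * 71 + 1) / 14) 13 = true := by
  decide +kernel
def c_19_14_13_57 : cellOK T19 19 57 14 ((13 * 57 + 1) / 14) 13 = true := by
  decide +kernel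
def c_19_14_13_43 : cellOK T19 19 43 14 ((13 * 43 + 1) / 14) 13 = true := by
  decide +kernel
def c_19_14_13_29 : cellOK T19 19 29 14 ((13 * 29 + 1) / 14) 13 = true := by
  decide +kernel
def c_19_14_13_15 : cellOK T19 19 15 14 ((13 * 15 + 1) / 14) 13 = true := by
  decide +kernel
def c_19_14_13_1 : cellOK T19 19 1 14 ((13 * 1 + 1) / 14) 13 = true := by
  decide +kernel
theorem gg_19_14_13 : GG T19 19 14 13 := gg_of (l := [127, 113, 99, 85, 71, 57, 43, 29, 15, 1]) (by decide +kernel)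
  ⟨c_19_14_13_127, c_19_14_13_113, c_19_14_13_99, c_19_14_13_85, c_19_14_13_71, c_19_14_13_57, c_19_14_13_43, c_19_14_13_29, c_19_14_13_15, c_19_14_13_1, trivial⟩

theorem gg_19_14_14 : GG T19 19 14 14 := gg_of (l := []) (by decide +kernel)
  trivial

def c_19_14_15_125 : cellOK T19 19 125 14 ((15 * 125 + 1) / 14) 15 = true := by
  decide +kernel
def c_19_14_15_111 : cellOK T19 19 111 14 ((15 * 111 + 1) / 14) 15 = true := by
  decide +kernel
def c_19_14_15_97 : cellOK T19 19 97 14 ((15 * 97 + 1) / 14) 15 = true := by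
  decide +kernel
def c_19_14_15_83 : cellOK T19 19 83 14 ((15 * 83 + 1) / 14) 15 = true := by
  decide +kernel
def c_19_14_15_69 : cellOK T19 19 69 14 ((15 * 69 + 1) / 14) 15 = true := by
  decide +kernel
def c_19_14_15_55 : cellOK T19 19 55 14 ((15 * 55 + 1) / 14) 15 = true := by
  decide +kernel
def c_19_14_15_41 : cellOK T19 19 41 14 ((15 * 41 + 1) / 14) 15 = true := by
  decide +kernel
def c_19_14_15_27 : cellOK T19 19 27 14 ((15 * 27 + 1) / 14) 15 = true := by
  decide +kernel
def c_19_14_15_13 : cellOK T19 19 13 14 ((15 * 13 + 1) / 14) 15 = true := by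
  decide +kernel
theorem gg_19_14_15 : GG T19 19 14 15 := gg_of (l := [125, 111, 97, 83, 69, 55, 41, 27, 13]) (by decide +kernel)
  ⟨c_19_14_15_125, c_19_14_15_111, c_19_14_15_97, c_19_14_15_83, c_19_14_15_69, c_19_14_15_55, c_19_14_15_41, c_19_14_15_27, c_19_14_15_13, trivial⟩

theorem gg_19_14_16 : GG T19 19 14 16 := gg_of (l := []) (by decide +kernel)
  trivial

def c_19_14_17_121 : cellOK T19 19 121 14 ((17 * 121 + 1) / 14) 17 = true := by
  decide +kernel
def c_19_14_17_107 : cellOK T19 19 107 14 ((17 * 107 + 1) / 14) 17 = true := by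
  decide +kernel
def c_19_14_17_93 : cellOK T19 19 93 14 ((17 * 93 + 1) / 14) 17 = true := by
  decide +kernel
def c_19_14_17_79 : cellOK T19 19 79 14 ((17 * 79 + 1) / 14) 17 = true := by
  decide +kernel
def c_19_14_17_65 : cellOK T19 19 65 14 ((17 * 65 + 1) / 14) 17 = true := by
  decide +kernel
def c_19_14_17_51 : cellOK T19 19 51 14 ((17 * 51 + 1) / 14) 17 = true := by
  decide +kernel
def c_19_14_17_37 : cellOK T19 19 37 14 ((17 * 37 + 1) / 14) 17 = true := by
  decide +kernel
def c_19_14_17_23 : cellOK T19 19 23 14 ((17 * 23 + 1) / 14) 17 = true := by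
  decide +kernel
def c_19_14_17_9 : cellOK T19 19 9 14 ((17 * 9 + 1) / 14) 17 = true := by
  decide +kernel
theorem gg_19_14_17 : GG T19 19 14 17 := gg_of (l := [121, 107, 93, 79, 65, 51, 37, 23, 9]) (by decide +kernel)
  ⟨c_19_14_17_121, c_19_14_17_107, c_19_14_17_93, c_19_14_17_79, c_19_14_17_65, c_19_14_17_51, c_19_14_17_37, c_19_14_17_23, c_19_14_17_9, trivial⟩

theorem gg_19_14_18 : GG T19 19 14 18 := gg_of (l := []) (by decide +kernel)
  trivial

def c_19_15_4_131 : cellOK T19 19 131 15 ((4 * 131 + 1) / 15) 4 = true := by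
  decide +kernel
def c_19_15_4_116 : cellOK T19 19 116 15 ((4 * 116 + 1) / 15) 4 = true := by
  decide +kernel
def c_19_15_4_101 : cellOK T19 19 101 15 ((4 * 101 + 1) / 15) 4 = true := by
  decide +kernel
def c_19_15_4_86 : cellOK T19 19 86 15 ((4 * 86 + 1) / 15) 4 = true := by
  decide +kernel
def c_19_15_4_71 : cellOK T19 19 71 15 ((4 * 71 + 1) / 15) 4 = true := by
  decide +kernel
def c_19_15_4_56 : cellOK T19 19 56 15 ((4 * 56 + 1) / 15) 4 = true := by
  decide +kernel
def c_19_15_4_41 : cellOK T19 19 41 15 ((4 * 41 + 1) / 15) 4 = true := by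
  decide +kernel
def c_19_15_4_26 : cellOK T19 19 26 15 ((4 * 26 + 1) / 15) 4 = true := by
  decide +kernel
def c_19_15_4_11 : cellOK T19 19 11 15 ((4 * 11 + 1) / 15) 4 = true := by
  decide +kernel
theorem gg_19_15_4 : GG T19 19 15 4 := gg_of (l := [131, 116, 101, 86, 71, 56, 41, 26, 11]) (by decide +kernel)
  ⟨c_19_15_4_131, c_19_15_4_116, c_19_15_4_101, c_19_15_4_86, c_19_15_4_71, c_19_15_4_56, c_19_15_4_41, c_19_15_4_26, c_19_15_4_11, trivial⟩

theorem gg_19_15_5 : GG T19 19 15 5 := gg_of (l := []) (by decide +kernel)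
  trivial

theorem gg_19_15_6 : GG T19 19 15 6 := gg_of (l := []) (by decide +kernel)
  trivial

def c_19_15_7_137 : cellOK T19 19 137 15 ((7 * 137 + 1) / 15) 7 = true := by
  decide +kernel
def c_19_15_7_122 : cellOK T19 19 122 15 ((7 * 122 + 1) / 15) 7 = true := by
  decide +kernel
def c_19_15_7_107 : cellOK T19 19 107 15 ((7 * 107 + 1) / 15) 7 = true := by
  decide +kernel
def c_19_15_7_92 : cellOK T19 19 92 15 ((7 * 92 + 1) / 15) 7 = true := by
  decide +kernel
def c_19_15_7_77 : cellOK T19 19 77 15 ((7 * 77 + 1) / 15) 7 = true := by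
  decide +kernel
def c_19_15_7_62 : cellOK T19 19 62 15 ((7 * 62 + 1) / 15) 7 = true := by
  decide +kernel
def c_19_15_7_47 : cellOK T19 19 47 15 ((7 * 47 + 1) / 15) 7 = true := by
  decide +kernel
def c_19_15_7_32 : cellOK T19 19 32 15 ((7 * 32 + 1) / 15) 7 = true := by
  decide +kernel
def c_19_15_7_17 : cellOK T19 19 17 15 ((7 * 17 + 1) / 15) 7 = true := by
  decide +kernel
def c_19_15_7_2 : cellOK T19 19 2 15 ((7 * 2 + 1) / 15) 7 = true := by
  decide +kernel
theorem gg_19_15_7 : GG T19 19 15 7 := gg_of (l := [137, 122, 107, 92, 77, 62, 47, 32, 17, 2]) (by decide +kernel)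
  ⟨c_19_15_7_137, c_19_15_7_122, c_19_15_7_107, c_19_15_7_92, c_19_15_7_77, c_19_15_7_62, c_19_15_7_47, c_19_15_7_32, c_19_15_7_17, c_19_15_7_2, trivial⟩

def c_19_15_8_133 : cellOK T19 19 133 15 ((8 * 133 + 1) / 15) 8 = true := by
  decide +kernel
def c_19_15_8_118 : cellOK T19 19 118 15 ((8 * 118 + 1) / 15) 8 = true := by
  decide +kernel
def c_19_15_8_103 : cellOK T19 19 103 15 ((8 * 103 + 1) / 15) 8 = true := by
  decide +kernel
def c_19_15_8_88 : cellOK T19 19 88 15 ((8 * 88 + 1) / 15) 8 = true := by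
  decide +kernel
def c_19_15_8_73 : cellOK T19 19 73 15 ((8 * 73 + 1) / 15) 8 = true := by
  decide +kernel
def c_19_15_8_58 : cellOK T19 19 58 15 ((8 * 58 + 1) / 15) 8 = true := by
  decide +kernel
def c_19_15_8_43 : cellOK T19 19 43 15 ((8 * 43 + 1) / 15) 8 = true := by
  decide +kernel
def c_19_15_8_28 : cellOK T19 19 28 15 ((8 * 28 + 1) / 15) 8 = true := by
  decide +kernel
def c_19_15_8_13 : cellOK T19 19 13 15 ((8 * 13 + 1) / 15) 8 = true := by
  decide +kernel
theorem gg_19_15_8 : GG T19 19 15 8 := gg_of (l := [133, 118, 103, 88, 73, 58, 43, 28, 13]) (by decide +kernel)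
  ⟨c_19_15_8_133, c_19_15_8_118, c_19_15_8_103, c_19_15_8_88, c_19_15_8_73, c_19_15_8_58, c_19_15_8_43, c_19_15_8_28, c_19_15_8_13, trivial⟩

theorem gg_19_15_9 : GG T19 19 15 9 := gg_of (l := []) (by decide +kernel)
  trivial

theorem gg_19_15_10 : GG T19 19 15 10 := gg_of (l := []) (by decide +kernel)
  trivial

def c_19_15_11_139 : cellOK T19 19 139 15 ((11 * 139 + 1) / 15) 11 = true := by
  decide +kernel
def c_19_15_11_124 : cellOK T19 19 124 15 ((11 * 124 + 1) / 15) 11 = true := by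
  decide +kernel
def c_19_15_11_109 : cellOK T19 19 109 15 ((11 * 109 + 1) / 15) 11 = true := by
  decide +kernel
def c_19_15_11_94 : cellOK T19 19 94 15 ((11 * 94 + 1) / 15) 11 = true := by
  decide +kernel
def c_19_15_11_79 : cellOK T19 19 79 15 ((11 * 79 + 1) / 15) 11 = true := by
  decide +kernel
def c_19_15_11_64 : cellOK T19 19 64 15 ((11 * 64 + 1) / 15) 11 = true := by
  decide +kernel
def c_19_15_11_49 : cellOK T19 19 49 15 ((11 * 49 + 1) / 15) 11 = true := by
  decide +kernel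
def c_19_15_11_34 : cellOK T19 19 34 15 ((11 * 34 + 1) / 15) 11 = true := by
  decide +kernel
def c_19_15_11_19 : cellOK T19 19 19 15 ((11 * 19 + 1) / 15) 11 = true := by
  decide +kernel
def c_19_15_11_4 : cellOK T19 19 4 15 ((11 * 4 + 1) / 15) 11 = true := by
  decide +kernel
theorem gg_19_15_11 : GG T19 19 15 11 := gg_of (l := [139, 124, 109, 94, 79, 64, 49, 34, 19, 4]) (by decide +kernel)
  ⟨c_19_15_11_139, c_19_15_11_124, c_19_15_11_109, c_19_15_11_94, c_19_15_11_79, c_19_15_11_64, c_19_15_11_49, c_19_15_11_34, c_19_15_11_19, c_19_15_11_4, trivial⟩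

theorem gg_19_15_12 : GG T19 19 15 12 := gg_of (l := []) (by decide +kernel)
  trivial

def c_19_15_13_128 : cellOK T19 19 128 15 ((13 * 128 + 1) / 15) 13 = true := by
  decide +kernel
def c_19_15_13_113 : cellOK T19 19 113 15 ((13 * 113 + 1) / 15) 13 = true := by
  decide +kernel
def c_19_15_13_98 : cellOK T19 19 98 15 ((13 * 98 + 1) / 15) 13 = true := by
  decide +kernel
def c_19_15_13_83 : cellOK T19 19 83 15 ((13 * 83 + 1) / 15) 13 = true := by
  decide +kernel
def c_19_15_13_68 : cellOK T19 19 68 15 ((13 * 68 + 1) / 15) 13 = true := by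
  decide +kernel
def c_19_15_13_53 : cellOK T19 19 53 15 ((13 * 53 + 1) / 15) 13 = true := by
  decide +kernel
def c_19_15_13_38 : cellOK T19 19 38 15 ((13 * 38 + 1) / 15) 13 = true := by
  decide +kernel
def c_19_15_13_23 : cellOK T19 19 23 15 ((13 * 23 + 1) / 15) 13 = true := by
  decide +kernel
def c_19_15_13_8 : cellOK T19 19 8 15 ((13 * 8 + 1) / 15) 13 = true := by
  decide +kernel
theorem gg_19_15_13 : GG T19 19 15 13 := gg_of (l := [128, 113, 98, 83, 68, 53, 38, 23, 8]) (by decide +kernel)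
  ⟨c_19_15_13_128, c_19_15_13_113, c_19_15_13_98, c_19_15_13_83, c_19_15_13_68, c_19_15_13_53, c_19_15_13_38, c_19_15_13_23, c_19_15_13_8, trivial⟩

def c_19_15_14_136 : cellOK T19 19 136 15 ((14 * 136 + 1) / 15) 14 = true := by
  decide +kernel
def c_19_15_14_121 : cellOK T19 19 121 15 ((14 * 121 + 1) / 15) 14 = true := by
  decide +kernel
def c_19_15_14_106 : cellOK T19 19 106 15 ((14 * 106 + 1) / 15) 14 = true := by
  decide +kernel
def c_19_15_14_91 : cellOK T19 19 91 15 ((14 * 91 + 1) / 15) 14 = true := by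
  decide +kernel
def c_19_15_14_76 : cellOK T19 19 76 15 ((14 * 76 + 1) / 15) 14 = true := by
  decide +kernel
def c_19_15_14_61 : cellOK T19 19 61 15 ((14 * 61 + 1) / 15) 14 = true := by
  decide +kernel
def c_19_15_14_46 : cellOK T19 19 46 15 ((14 * 46 + 1) / 15) 14 = true := by
  decide +kernel
def c_19_15_14_31 : cellOK T19 19 31 15 ((14 * 31 + 1) / 15) 14 = true := by
  decide +kernel
def c_19_15_14_16 : cellOK T19 19 16 15 ((14 * 16 + 1) / 15) 14 = true := by
  decide +kernel
def c_19_15_14_1 : cellOK T19 19 1 15 ((14 * 1 + 1) / 15) 14 = true := by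
  decide +kernel
theorem gg_19_15_14 : GG T19 19 15 14 := gg_of (l := [136, 121, 106, 91, 76, 61, 46, 31, 16, 1]) (by decide +kernel)
  ⟨c_19_15_14_136, c_19_15_14_121, c_19_15_14_106, c_19_15_14_91, c_19_15_14_76, c_19_15_14_61, c_19_15_14_46, c_19_15_14_31, c_19_15_14_16, c_19_15_14_1, trivial⟩

theorem gg_19_15_15 : GG T19 19 15 15 := gg_of (l := []) (by decide +kernel)
  trivial

def c_19_15_16_134 : cellOK T19 19 134 15 ((16 * 134 + 1) / 15) 16 = true := by
  decide +kernel
def c_19_15_16_119 : cellOK T19 19 119 15 ((16 * 119 + 1) / 15) 16 = true := by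
  decide +kernel
def c_19_15_16_104 : cellOK T19 19 104 15 ((16 * 104 + 1) / 15) 16 = true := by
  decide +kernel
def c_19_15_16_89 : cellOK T19 19 89 15 ((16 * 89 + 1) / 15) 16 = true := by
  decide +kernel
def c_19_15_16_74 : cellOK T19 19 74 15 ((16 * 74 + 1) / 15) 16 = true := by
  decide +kernel
def c_19_15_16_59 : cellOK T19 19 59 15 ((16 * 59 + 1) / 15) 16 = true := by
  decide +kernel
def c_19_15_16_44 : cellOK T19 19 44 15 ((16 * 44 + 1) / 15) 16 = true := by
  decide +kernel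
def c_19_15_16_29 : cellOK T19 19 29 15 ((16 * 29 + 1) / 15) 16 = true := by
  decide +kernel
def c_19_15_16_14 : cellOK T19 19 14 15 ((16 * 14 + 1) / 15) 16 = true := by
  decide +kernel
theorem gg_19_15_16 : GG T19 19 15 16 := gg_of (l := [134, 119, 104, 89, 74, 59, 44, 29, 14]) (by decide +kernel)
  ⟨c_19_15_16_134, c_19_15_16_119, c_19_15_16_104, c_19_15_16_89, c_19_15_16_74, c_19_15_16_59, c_19_15_16_44, c_19_15_16_29, c_19_15_16_14, trivial⟩

def c_19_15_17_142 : cellOK T19 19 142 15 ((17 * 142 + 1) / 15) 17 = true := by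
  decide +kernel
def c_19_15_17_127 : cellOK T19 19 127 15 ((17 * 127 + 1) / 15) 17 = true := by
  decide +kernel
def c_19_15_17_112 : cellOK T19 19 112 15 ((17 * 112 + 1) / 15) 17 = true := by
  decide +kernel
def c_19_15_17_97 : cellOK T19 19 97 15 ((17 * 97 + 1) / 15) 17 = true := by
  decide +kernel
def c_19_15_17_82 : cellOK T19 19 82 15 ((17 * 82 + 1) / 15) 17 = true := by
  decide +kernel
def c_19_15_17_67 : cellOK T19 19 67 15 ((17 * 67 + 1) / 15) 17 = true := by
  decide +kernel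
def c_19_15_17_52 : cellOK T19 19 52 15 ((17 * 52 + 1) / 15) 17 = true := by
  decide +kernel
def c_19_15_17_37 : cellOK T19 19 37 15 ((17 * 37 + 1) / 15) 17 = true := by
  decide +kernel
def c_19_15_17_22 : cellOK T19 19 22 15 ((17 * 22 + 1) / 15) 17 = true := by
  decide +kernel
def c_19_15_17_7 : cellOK T19 19 7 15 ((17 * 7 + 1) / 15) 17 = true := by
  decide +kernel
theorem gg_19_15_17 : GG T19 19 15 17 := gg_of (l := [142, 127, 112, 97, 82, 67, 52, 37, 22, 7]) (by decide +kernel)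
  ⟨c_19_15_17_142, c_19_15_17_127, c_19_15_17_112, c_19_15_17_97, c_19_15_17_82, c_19_15_17_67, c_19_15_17_52, c_19_15_17_37, c_19_15_17_22, c_19_15_17_7, trivial⟩

end Pool.Agent.Helper55.FT
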