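import Pool.Agent.Helper55.FT.TabB

set_option autoImplicit false

/-!
# Cell checks
-/

namespace Pool.Agent.Helper55.FT

set_option maxRecDepth 100000
set_option linter.defProp false

theorem gg_19_15_18 : GG T19 19 15 18 := gg_of (l := []) (by decide +kernel)
  trivial

def c_19_16_3_149 : cellOK T19 19 149 16 ((3 * 149 + 1) / 16) 3 = true := by
  decide +kernel
def c_19_16_3_133 : cellOK T19 19 133 16 ((3 * 133 + 1) / 16) 3 = true := by
  decide +kernel
def c_19_16_3_117 : cellOK T19 19 117 16 ((3 * 117 + 1) / 16) 3 = true := by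
  decide +kernel
def c_19_16_3_101 : cellOK T19 19 101 16 ((3 * 101 + 1) / 16) 3 = true := by
  decide +kernel
def c_19_16_3_85 : cellOK T19 19 85 16 ((3 * 85 + 1) / 16) 3 = true := by
  decide +kernel
def c_19_16_3_69 : cellOK T19 19 69 16 ((3 * 69 + 1) / 16) 3 = true := by
  decide +kernel
def c_19_16_3_53 : cellOK T19 19 53 16 ((3 * 53 + 1) / 16) 3 = true := by
  decide +kernel
def c_19_16_3_37 : cellOK T19 19 37 16 ((3 * 37 + 1) / 16) 3 = true := by
  decide +kernel
def c_19_16_3_21 : cellOK T19 19 21 16 ((3 * 21 + 1) / 16) 3 = true := by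
  decide +kernel
def c_19_16_3_5 : cellOK T19 19 5 16 ((3 * 5 + 1) / 16) 3 = true := by
  decide +kernel
theorem gg_19_16_3 : GG T19 19 16 3 := gg_of (l := [149, 133, 117, 101, 85, 69, 53, 37, 21, 5]) (by decide +kernel)
  ⟨c_19_16_3_149, c_19_16_3_133, c_19_16_3_117, c_19_16_3_101, c_19_16_3_85, c_19_16_3_69, c_19_16_3_53, c_19_16_3_37, c_19_16_3_21, c_19_16_3_5, trivial⟩

theorem gg_19_16_4 : GG T19 19 16 4 := gg_of (l := []) (by decide +kernel)
  trivial

def c_19_16_5_147 : cellOK T19 19 147 16 ((5 * 147 + 1) / 16) 5 = true := by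
  decide +kernel
def c_19_16_5_131 : cellOK T19 19 131 16 ((5 * 131 + 1) / 16) 5 = true := by
  decide +kernel
def c_19_16_5_115 : cellOK T19 19 115 16 ((5 * 115 + 1) / 16) 5 = true := by
  decide +kernel
def c_19_16_5_99 : cellOK T19 19 99 16 ((5 * 99 + 1) / 16) 5 = true := by
  decide +kernel
def c_19_16_5_83 : cellOK T19 19 83 16 ((5 * 83 + 1) / 16) 5 = true := by
  decide +kernel
def c_19_16_5_67 : cellOK T19 19 67 16 ((5 * 67 + 1) / 16) 5 = true := by
  decide +kernel
def c_19_16_5_51 : cellOK T19 19 51 16 ((5 * 51 + 1) / 16) 5 = true := by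
  decide +kernel
def c_19_16_5_35 : cellOK T19 19 35 16 ((5 * 35 + 1) / 16) 5 = true := by
  decide +kernel
def c_19_16_5_19 : cellOK T19 19 19 16 ((5 * 19 + 1) / 16) 5 = true := by
  decide +kernel
def c_19_16_5_3 : cellOK T19 19 3 16 ((5 * 3 + 1) / 16) 5 = true := by
  decide +kernel
theorem gg_19_16_5 : GG T19 19 16 5 := gg_of (l := [147, 131, 115, 99, 83, 67, 51, 35, 19, 3]) (by decide +kernel)
  ⟨c_19_16_5_147, c_19_16_5_131, c_19_16_5_115, c_19_16_5_99, c_19_16_5_83, c_19_16_5_67, c_19_16_5_51, c_19_16_5_35, c_19_16_5_19, c_19_16_5_3, trivial⟩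

theorem gg_19_16_6 : GG T19 19 16 6 := gg_of (l := []) (by decide +kernel)
  trivial

def c_19_16_7_137 : cellOK T19 19 137 16 ((7 * 137 + 1) / 16) 7 = true := by
  decide +kernel
def c_19_16_7_121 : cellOK T19 19 121 16 ((7 * 121 + 1) / 16) 7 = true := by
  decide +kernel
def c_19_16_7_105 : cellOK T19 19 105 16 ((7 * 105 + 1) / 16) 7 = true := by
  decide +kernel
def c_19_16_7_89 : cellOK T19 19 89 16 ((7 * 89 + 1) / 16) 7 = true := by
  decide +kernel
def c_19_16_7_73 : cellOK T19 19 73 16 ((7 * 73 + 1) / 16) 7 = true := by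
  decide +kernel
def c_19_16_7_57 : cellOK T19 19 57 16 ((7 * 57 + 1) / 16) 7 = true := by
  decide +kernel
def c_19_16_7_41 : cellOK T19 19 41 16 ((7 * 41 + 1) / 16) 7 = true := by
  decide +kernel
def c_19_16_7_25 : cellOK T19 19 25 16 ((7 * 25 + 1) / 16) 7 = true := by
  decide +kernel
def c_19_16_7_9 : cellOK T19 19 9 16 ((7 * 9 + 1) / 16) 7 = true := by
  decide +kernel
theorem gg_19_16_7 : GG T19 19 16 7 := gg_of (l := [137, 121, 105, 89, 73, 57, 41, 25, 9]) (by decide +kernel)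
  ⟨c_19_16_7_137, c_19_16_7_121, c_19_16_7_105, c_19_16_7_89, c_19_16_7_73, c_19_16_7_57, c_19_16_7_41, c_19_16_7_25, c_19_16_7_9, trivial⟩

theorem gg_19_16_8 : GG T19 19 16 8 := gg_of (l := []) (by decide +kernel)
  trivial

def c_19_16_9_151 : cellOK T19 19 151 16 ((9 * 151 + 1) / 16) 9 = true := by
  decide +kernel
def c_19_16_9_135 : cellOK T19 19 135 16 ((9 * 135 + 1) / 16) 9 = true := by
  decide +kernel
def c_19_16_9_119 : cellOK T19 19 119 16 ((9 * 119 + 1) / 16) 9 = true := by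
  decide +kernel
def c_19_16_9_103 : cellOK T19 19 103 16 ((9 * 103 + 1) / 16) 9 = true := by
  decide +kernel
def c_19_16_9_87 : cellOK T19 19 87 16 ((9 * 87 + 1) / 16) 9 = true := by
  decide +kernel
def c_19_16_9_71 : cellOK T19 19 71 16 ((9 * 71 + 1) / 16) 9 = true := by
  decide +kernel
def c_19_16_9_55 : cellOK T19 19 55 16 ((9 * 55 + 1) / 16) 9 = true := by
  decide +kernel
def c_19_16_9_39 : cellOK T19 19 39 16 ((9 * 39 + 1) / 16) 9 = true := by
  decide +kernel
def c_19_16_9_23 : cellOK T19 19 23 16 ((9 * 23 + 1) / 16) 9 = true := by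
  decide +kernel
def c_19_16_9_7 : cellOK T19 19 7 16 ((9 * 7 + 1) / 16) 9 = true := by
  decide +kernel
theorem gg_19_16_9 : GG T19 19 16 9 := gg_of (l := [151, 135, 119, 103, 87, 71, 55, 39, 23, 7]) (by decide +kernel)
  ⟨c_19_16_9_151, c_19_16_9_135, c_19_16_9_119, c_19_16_9_103, c_19_16_9_87, c_19_16_9_71, c_19_16_9_55, c_19_16_9_39, c_19_16_9_23, c_19_16_9_7, trivial⟩

theorem gg_19_16_10 : GG T19 19 16 10 := gg_of (l := []) (by decide +kernel)
  trivial

def c_19_16_11_141 : cellOK T19 19 141 16 ((11 * 141 + 1) / 16) 11 = true := by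
  decide +kernel
def c_19_16_11_125 : cellOK T19 19 125 16 ((11 * 125 + 1) / 16) 11 = true := by
  decide +kernel
def c_19_16_11_109 : cellOK T19 19 109 16 ((11 * 109 + 1) / 16) 11 = true := by
  decide +kernel
def c_19_16_11_93 : cellOK T19 19 93 16 ((11 * 93 + 1) / 16) 11 = true := by
  decide +kernel
def c_19_16_11_77 : cellOK T19 19 77 16 ((11 * 77 + 1) / 16) 11 = true := by
  decide +kernel
def c_19_16_11_61 : cellOK T19 19 61 16 ((11 * 61 + 1) / 16) 11 = true := by
  decide +kernel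
def c_19_16_11_45 : cellOK T19 19 45 16 ((11 * 45 + 1) / 16) 11 = true := by
  decide +kernel
def c_19_16_11_29 : cellOK T19 19 29 16 ((11 * 29 + 1) / 16) 11 = true := by
  decide +kernel
def c_19_16_11_13 : cellOK T19 19 13 16 ((11 * 13 + 1) / 16) 11 = true := by
  decide +kernel
theorem gg_19_16_11 : GG T19 19 16 11 := gg_of (l := [141, 125, 109, 93, 77, 61, 45, 29, 13]) (by decide +kernel)
  ⟨c_19_16_11_141, c_19_16_11_125, c_19_16_11_109, c_19_16_11_93, c_19_16_11_77, c_19_16_11_61, c_19_16_11_45, c_19_16_11_29, c_19_16_11_13, trivial⟩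

theorem gg_19_16_12 : GG T19 19 16 12 := gg_of (l := []) (by decide +kernel)
  trivial

def c_19_16_13_139 : cellOK T19 19 139 16 ((13 * 139 + 1) / 16) 13 = true := by
  decide +kernel
def c_19_16_13_123 : cellOK T19 19 123 16 ((13 * 123 + 1) / 16) 13 = true := by
  decide +kernel
def c_19_16_13_107 : cellOK T19 19 107 16 ((13 * 107 + 1) / 16) 13 = true := by
  decide +kernel
def c_19_16_13_91 : cellOK T19 19 91 16 ((13 * 91 + 1) / 16) 13 = true := by
  decide +kernel
def c_19_16_13_75 : cellOK T19 19 75 16 ((13 * 75 + 1) / 16) 13 = true := by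
  decide +kernel
def c_19_16_13_59 : cellOK T19 19 59 16 ((13 * 59 + 1) / 16) 13 = true := by
  decide +kernel
def c_19_16_13_43 : cellOK T19 19 43 16 ((13 * 43 + 1) / 16) 13 = true := by
  decide +kernel
def c_19_16_13_27 : cellOK T19 19 27 16 ((13 * 27 + 1) / 16) 13 = true := by
  decide +kernel
def c_19_16_13_11 : cellOK T19 19 11 16 ((13 * 11 + 1) / 16) 13 = true := by
  decide +kernel
theorem gg_19_16_13 : GG T19 19 16 13 := gg_of (l := [139, 123, 107, 91, 75, 59, 43, 27, 11]) (by decide +kernel)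
  ⟨c_19_16_13_139, c_19_16_13_123, c_19_16_13_107, c_19_16_13_91, c_19_16_13_75, c_19_16_13_59, c_19_16_13_43, c_19_16_13_27, c_19_16_13_11, trivial⟩

theorem gg_19_16_14 : GG T19 19 16 14 := gg_of (l := []) (by decide +kernel)
  trivial

def c_19_16_15_145 : cellOK T19 19 145 16 ((15 * 145 + 1) / 16) 15 = true := by
  decide +kernel
def c_19_16_15_129 : cellOK T19 19 129 16 ((15 * 129 + 1) / 16) 15 = true := by
  decide +kernel
def c_19_16_15_113 : cellOK T19 19 113 16 ((15 * 113 + 1) / 16) 15 = true := by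
  decide +kernel
def c_19_16_15_97 : cellOK T19 19 97 16 ((15 * 97 + 1) / 16) 15 = true := by
  decide +kernel
def c_19_16_15_81 : cellOK T19 19 81 16 ((15 * 81 + 1) / 16) 15 = true := by
  decide +kernel
def c_19_16_15_65 : cellOK T19 19 65 16 ((15 * 65 + 1) / 16) 15 = true := by
  decide +kernel
def c_19_16_15_49 : cellOK T19 19 49 16 ((15 * 49 + 1) / 16) 15 = true := by
  decide +kernel
def c_19_16_15_33 : cellOK T19 19 33 16 ((15 * 33 + 1) / 16) 15 = true := by
  decide +kernel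
def c_19_16_15_17 : cellOK T19 19 17 16 ((15 * 17 + 1) / 16) 15 = true := by
  decide +kernel
def c_19_16_15_1 : cellOK T19 19 1 16 ((15 * 1 + 1) / 16) 15 = true := by
  decide +kernel
theorem gg_19_16_15 : GG T19 19 16 15 := gg_of (l := [145, 129, 113, 97, 81, 65, 49, 33, 17, 1]) (by decide +kernel)
  ⟨c_19_16_15_145, c_19_16_15_129, c_19_16_15_113, c_19_16_15_97, c_19_16_15_81, c_19_16_15_65, c_19_16_15_49, c_19_16_15_33, c_19_16_15_17, c_19_16_15_1, trivial⟩

theorem gg_19_16_16 : GG T19 19 16 16 := gg_of (l := []) (by decide +kernel)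
  trivial

def c_19_16_17_143 : cellOK T19 19 143 16 ((17 * 143 + 1) / 16) 17 = true := by
  decide +kernel
def c_19_16_17_127 : cellOK T19 19 127 16 ((17 * 127 + 1) / 16) 17 = true := by
  decide +kernel
def c_19_16_17_111 : cellOK T19 19 111 16 ((17 * 111 + 1) / 16) 17 = true := by
  decide +kernel
def c_19_16_17_95 : cellOK T19 19 95 16 ((17 * 95 + 1) / 16) 17 = true := by
  decide +kernel
def c_19_16_17_79 : cellOK T19 19 79 16 ((17 * 79 + 1) / 16) 17 = true := by
  decide +kernel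
def c_19_16_17_63 : cellOK T19 19 63 16 ((17 * 63 + 1) / 16) 17 = true := by
  decide +kernel
def c_19_16_17_47 : cellOK T19 19 47 16 ((17 * 47 + 1) / 16) 17 = true := by
  decide +kernel
def c_19_16_17_31 : cellOK T19 19 31 16 ((17 * 31 + 1) / 16) 17 = true := by
  decide +kernel
def c_19_16_17_15 : cellOK T19 19 15 16 ((17 * 15 + 1) / 16) 17 = true := by
  decide +kernel
theorem gg_19_16_17 : GG T19 19 16 17 := gg_of (l := [143, 127, 111, 95, 79, 63, 47, 31, 15]) (by decide +kernel)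
  ⟨c_19_16_17_143, c_19_16_17_127, c_19_16_17_111, c_19_16_17_95, c_19_16_17_79, c_19_16_17_63, c_19_16_17_47, c_19_16_17_31, c_19_16_17_15, trivial⟩

theorem gg_19_16_18 : GG T19 19 16 18 := gg_of (l := []) (by decide +kernel)
  trivial

def c_19_17_2_161 : cellOK T19 19 161 17 ((2 * 161 + 1) / 17) 2 = true := by
  decide +kernel
def c_19_17_2_144 : cellOK T19 19 144 17 ((2 * 144 + 1) / 17) 2 = true := by
  decide +kernel
def c_19_17_2_127 : cellOK T19 19 127 17 ((2 * 127 + 1) / 17) 2 = true := by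
  decide +kernel
def c_19_17_2_110 : cellOK T19 19 110 17 ((2 * 110 + 1) / 17) 2 = true := by
  decide +kernel
def c_19_17_2_93 : cellOK T19 19 93 17 ((2 * 93 + 1) / 17) 2 = true := by
  decide +kernel
def c_19_17_2_76 : cellOK T19 19 76 17 ((2 * 76 + 1) / 17) 2 = true := by
  decide +kernel
def c_19_17_2_59 : cellOK T19 19 59 17 ((2 * 59 + 1) / 17) 2 = true := by
  decide +kernel
def c_19_17_2_42 : cellOK T19 19 42 17 ((2 * 42 + 1) / 17) 2 = true := by
  decide +kernel
def c_19_17_2_25 : cellOK T19 19 25 17 ((2 * 25 + 1) / 17) 2 = true := by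
  decide +kernel
def c_19_17_2_8 : cellOK T19 19 8 17 ((2 * 8 + 1) / 17) 2 = true := by
  decide +kernel
theorem gg_19_17_2 : GG T19 19 17 2 := gg_of (l := [161, 144, 127, 110, 93, 76, 59, 42, 25, 8]) (by decide +kernel)
  ⟨c_19_17_2_161, c_19_17_2_144, c_19_17_2_127, c_19_17_2_110, c_19_17_2_93, c_19_17_2_76, c_19_17_2_59, c_19_17_2_42, c_19_17_2_25, c_19_17_2_8, trivial⟩

def c_19_17_3_147 : cellOK T19 19 147 17 ((3 * 147 + 1) / 17) 3 = true := by
  decide +kernel
def c_19_17_3_130 : cellOK T19 19 130 17 ((3 * 130 + 1) / 17) 3 = true := by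
  decide +kernel
def c_19_17_3_113 : cellOK T19 19 113 17 ((3 * 113 + 1) / 17) 3 = true := by
  decide +kernel
def c_19_17_3_96 : cellOK T19 19 96 17 ((3 * 96 + 1) / 17) 3 = true := by
  decide +kernel
def c_19_17_3_79 : cellOK T19 19 79 17 ((3 * 79 + 1) / 17) 3 = true := by
  decide +kernel
def c_19_17_3_62 : cellOK T19 19 62 17 ((3 * 62 + 1) / 17) 3 = true := by
  decide +kernel
def c_19_17_3_45 : cellOK T19 19 45 17 ((3 * 45 + 1) / 17) 3 = true := by
  decide +kernel
def c_19_17_3_28 : cellOK T19 19 28 17 ((3 * 28 + 1) / 17) 3 = true := by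
  decide +kernel
def c_19_17_3_11 : cellOK T19 19 11 17 ((3 * 11 + 1) / 17) 3 = true := by
  decide +kernel
theorem gg_19_17_3 : GG T19 19 17 3 := gg_of (l := [147, 130, 113, 96, 79, 62, 45, 28, 11]) (by decide +kernel)
  ⟨c_19_17_3_147, c_19_17_3_130, c_19_17_3_113, c_19_17_3_96, c_19_17_3_79, c_19_17_3_62, c_19_17_3_45, c_19_17_3_28, c_19_17_3_11, trivial⟩

def c_19_17_4_157 : cellOK T19 19 157 17 ((4 * 157 + 1) / 17) 4 = true := by
  decide +kernel
def c_19_17_4_140 : cellOK T19 19 140 17 ((4 * 140 + 1) / 17) 4 = true := by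
  decide +kernel
def c_19_17_4_123 : cellOK T19 19 123 17 ((4 * 123 + 1) / 17) 4 = true := by
  decide +kernel
def c_19_17_4_106 : cellOK T19 19 106 17 ((4 * 106 + 1) / 17) 4 = true := by
  decide +kernel
def c_19_17_4_89 : cellOK T19 19 89 17 ((4 * 89 + 1) / 17) 4 = true := by
  decide +kernel
def c_19_17_4_72 : cellOK T19 19 72 17 ((4 * 72 + 1) / 17) 4 = true := by
  decide +kernel
def c_19_17_4_55 : cellOK T19 19 55 17 ((4 * 55 + 1) / 17) 4 = true := by
  decide +kernel
def c_19_17_4_38 : cellOK T19 19 38 17 ((4 * 38 + 1) / 17) 4 = true := by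
  decide +kernel
def c_19_17_4_21 : cellOK T19 19 21 17 ((4 * 21 + 1) / 17) 4 = true := by
  decide +kernel
def c_19_17_4_4 : cellOK T19 19 4 17 ((4 * 4 + 1) / 17) 4 = true := by
  decide +kernel
theorem gg_19_17_4 : GG T19 19 17 4 := gg_of (l := [157, 140, 123, 106, 89, 72, 55, 38, 21, 4]) (by decide +kernel)
  ⟨c_19_17_4_157, c_19_17_4_140, c_19_17_4_123, c_19_17_4_106, c_19_17_4_89, c_19_17_4_72, c_19_17_4_55, c_19_17_4_38, c_19_17_4_21, c_19_17_4_4, trivial⟩

def c_19_17_5_146 : cellOK T19 19 146 17 ((5 * 146 + 1) / 17) 5 = true := by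
  decide +kernel
def c_19_17_5_129 : cellOK T19 19 129 17 ((5 * 129 + 1) / 17) 5 = true := by
  decide +kernel
def c_19_17_5_112 : cellOK T19 19 112 17 ((5 * 112 + 1) / 17) 5 = true := by
  decide +kernel
def c_19_17_5_95 : cellOK T19 19 95 17 ((5 * 95 + 1) / 17) 5 = true := by
  decide +kernel
def c_19_17_5_78 : cellOK T19 19 78 17 ((5 * 78 + 1) / 17) 5 = true := by
  decide +kernel
def c_19_17_5_61 : cellOK T19 19 61 17 ((5 * 61 + 1) / 17) 5 = true := by
  decide +kernel
def c_19_17_5_44 : cellOK T19 19 44 17 ((5 * 44 + 1) / 17) 5 = true := by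
  decide +kernel
def c_19_17_5_27 : cellOK T19 19 27 17 ((5 * 27 + 1) / 17) 5 = true := by
  decide +kernel
def c_19_17_5_10 : cellOK T19 19 10 17 ((5 * 10 + 1) / 17) 5 = true := by
  decide +kernel
theorem gg_19_17_5 : GG T19 19 17 5 := gg_of (l := [146, 129, 112, 95, 78, 61, 44, 27, 10]) (by decide +kernel)
  ⟨c_19_17_5_146, c_19_17_5_129, c_19_17_5_112, c_19_17_5_95, c_19_17_5_78, c_19_17_5_61, c_19_17_5_44, c_19_17_5_27, c_19_17_5_10, trivial⟩

end Pool.Agent.Helper55.FT
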