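import Pool.Agent.Helper55.FT.TabB

set_option autoImplicit false

/-!
# Cell checks
-/

namespace Pool.Agent.Helper55.FT

set_option maxRecDepth 100000
set_option linter.defProp false

def c_19_17_6_150 : cellOK T19 19 150 17 ((6 * 150 + 1) / 17) 6 = true := by
  decide +kernel
def c_19_17_6_133 : cellOK T19 19 133 17 ((6 * 133 + 1) / 17) 6 = true := by
  decide +kernel
def c_19_17_6_116 : cellOK T19 19 116 17 ((6 * 116 + 1) / 17) 6 = true := by
  decide +kernel
def c_19_17_6_99 : cellOK T19 19 99 17 ((6 * 99 + 1) / 17) 6 = true := by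
  decide +kernel
def c_19_17_6_82 : cellOK T19 19 82 17 ((6 * 82 + 1) / 17) 6 = true := by
  decide +kernel
def c_19_17_6_65 : cellOK T19 19 65 17 ((6 * 65 + 1) / 17) 6 = true := by
  decide +kernel
def c_19_17_6_48 : cellOK T19 19 48 17 ((6 * 48 + 1) / 17) 6 = true := by
  decide +kernel
def c_19_17_6_31 : cellOK T19 19 31 17 ((6 * 31 + 1) / 17) 6 = true := by
  decide +kernel
def c_19_17_6_14 : cellOK T19 19 14 17 ((6 * 14 + 1) / 17) 6 = true := by
  decide +kernel
theorem gg_19_17_6 : GG T19 19 17 6 := gg_of (l := [150, 133, 116, 99, 82, 65, 48, 31, 14]) (by decide +kernel)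
  ⟨c_19_17_6_150, c_19_17_6_133, c_19_17_6_116, c_19_17_6_99, c_19_17_6_82, c_19_17_6_65, c_19_17_6_48, c_19_17_6_31, c_19_17_6_14, trivial⟩

def c_19_17_7_148 : cellOK T19 19 148 17 ((7 * 148 + 1) / 17) 7 = true := by
  decide +kernel
def c_19_17_7_131 : cellOK T19 19 131 17 ((7 * 131 + 1) / 17) 7 = true := by
  decide +kernel
def c_19_17_7_114 : cellOK T19 19 114 17 ((7 * 114 + 1) / 17) 7 = true := by
  decide +kernel
def c_19_17_7_97 : cellOK T19 19 97 17 ((7 * 97 + 1) / 17) 7 = true := by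
  decide +kernel
def c_19_17_7_80 : cellOK T19 19 80 17 ((7 * 80 + 1) / 17) 7 = true := by
  decide +kernel
def c_19_17_7_63 : cellOK T19 19 63 17 ((7 * 63 + 1) / 17) 7 = true := by
  decide +kernel
def c_19_17_7_46 : cellOK T19 19 46 17 ((7 * 46 + 1) / 17) 7 = true := by
  decide +kernel
def c_19_17_7_29 : cellOK T19 19 29 17 ((7 * 29 + 1) / 17) 7 = true := by
  decide +kernel
def c_19_17_7_12 : cellOK T19 19 12 17 ((7 * 12 + 1) / 17) 7 = true := by
  decide +kernel
theorem gg_19_17_7 : GG T19 19 17 7 := gg_of (l := [148, 131, 114, 97, 80, 63, 46, 29, 12]) (by decide +kernel)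
  ⟨c_19_17_7_148, c_19_17_7_131, c_19_17_7_114, c_19_17_7_97, c_19_17_7_80, c_19_17_7_63, c_19_17_7_46, c_19_17_7_29, c_19_17_7_12, trivial⟩

def c_19_17_8_155 : cellOK T19 19 155 17 ((8 * 155 + 1) / 17) 8 = true := by
  decide +kernel
def c_19_17_8_138 : cellOK T19 19 138 17 ((8 * 138 + 1) / 17) 8 = true := by
  decide +kernel
def c_19_17_8_121 : cellOK T19 19 121 17 ((8 * 121 + 1) / 17) 8 = true := by
  decide +kernel
def c_19_17_8_104 : cellOK T19 19 104 17 ((8 * 104 + 1) / 17) 8 = true := by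
  decide +kernel
def c_19_17_8_87 : cellOK T19 19 87 17 ((8 * 87 + 1) / 17) 8 = true := by
  decide +kernel
def c_19_17_8_70 : cellOK T19 19 70 17 ((8 * 70 + 1) / 17) 8 = true := by
  decide +kernel
def c_19_17_8_53 : cellOK T19 19 53 17 ((8 * 53 + 1) / 17) 8 = true := by
  decide +kernel
def c_19_17_8_36 : cellOK T19 19 36 17 ((8 * 36 + 1) / 17) 8 = true := by
  decide +kernel
def c_19_17_8_19 : cellOK T19 19 19 17 ((8 * 19 + 1) / 17) 8 = true := by
  decide +kernel
def c_19_17_8_2 : cellOK T19 19 2 17 ((8 * 2 + 1) / 17) 8 = true := by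
  decide +kernel
theorem gg_19_17_8 : GG T19 19 17 8 := gg_of (l := [155, 138, 121, 104, 87, 70, 53, 36, 19, 2]) (by decide +kernel)
  ⟨c_19_17_8_155, c_19_17_8_138, c_19_17_8_121, c_19_17_8_104, c_19_17_8_87, c_19_17_8_70, c_19_17_8_53, c_19_17_8_36, c_19_17_8_19, c_19_17_8_2, trivial⟩

def c_19_17_9_151 : cellOK T19 19 151 17 ((9 * 151 + 1) / 17) 9 = true := by
  decide +kernel
def c_19_17_9_134 : cellOK T19 19 134 17 ((9 * 134 + 1) / 17) 9 = true := by
  decide +kernel
def c_19_17_9_117 : cellOK T19 19 117 17 ((9 * 117 + 1) / 17) 9 = true := by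
  decide +kernel
def c_19_17_9_100 : cellOK T19 19 100 17 ((9 * 100 + 1) / 17) 9 = true := by
  decide +kernel
def c_19_17_9_83 : cellOK T19 19 83 17 ((9 * 83 + 1) / 17) 9 = true := by
  decide +kernel
def c_19_17_9_66 : cellOK T19 19 66 17 ((9 * 66 + 1) / 17) 9 = true := by
  decide +kernel
def c_19_17_9_49 : cellOK T19 19 49 17 ((9 * 49 + 1) / 17) 9 = true := by
  decide +kernel
def c_19_17_9_32 : cellOK T19 19 32 17 ((9 * 32 + 1) / 17) 9 = true := by
  decide +kernel
def c_19_17_9_15 : cellOK T19 19 15 17 ((9 * 15 + 1) / 17) 9 = true := by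
  decide +kernel
theorem gg_19_17_9 : GG T19 19 17 9 := gg_of (l := [151, 134, 117, 100, 83, 66, 49, 32, 15]) (by decide +kernel)
  ⟨c_19_17_9_151, c_19_17_9_134, c_19_17_9_117, c_19_17_9_100, c_19_17_9_83, c_19_17_9_66, c_19_17_9_49, c_19_17_9_32, c_19_17_9_15, trivial⟩

def c_19_17_10_158 : cellOK T19 19 158 17 ((10 * 158 + 1) / 17) 10 = true := by
  decide +kernel
def c_19_17_10_141 : cellOK T19 19 141 17 ((10 * 141 + 1) / 17) 10 = true := by
  decide +kernel
def c_19_17_10_124 : cellOK T19 19 124 17 ((10 * 124 + 1) / 17) 10 = true := by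
  decide +kernel
def c_19_17_10_107 : cellOK T19 19 107 17 ((10 * 107 + 1) / 17) 10 = true := by
  decide +kernel
def c_19_17_10_90 : cellOK T19 19 90 17 ((10 * 90 + 1) / 17) 10 = true := by
  decide +kernel
def c_19_17_10_73 : cellOK T19 19 73 17 ((10 * 73 + 1) / 17) 10 = true := by
  decide +kernel
def c_19_17_10_56 : cellOK T19 19 56 17 ((10 * 56 + 1) / 17) 10 = true := by
  decide +kernel
def c_19_17_10_39 : cellOK T19 19 39 17 ((10 * 39 + 1) / 17) 10 = true := by
  decide +kernel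
def c_19_17_10_22 : cellOK T19 19 22 17 ((10 * 22 + 1) / 17) 10 = true := by
  decide +kernel
def c_19_17_10_5 : cellOK T19 19 5 17 ((10 * 5 + 1) / 17) 10 = true := by
  decide +kernel
theorem gg_19_17_10 : GG T19 19 17 10 := gg_of (l := [158, 141, 124, 107, 90, 73, 56, 39, 22, 5]) (by decide +kernel)
  ⟨c_19_17_10_158, c_19_17_10_141, c_19_17_10_124, c_19_17_10_107, c_19_17_10_90, c_19_17_10_73, c_19_17_10_56, c_19_17_10_39, c_19_17_10_22, c_19_17_10_5, trivial⟩

def c_19_17_11_156 : cellOK T19 19 156 17 ((11 * 156 + 1) / 17) 11 = true := by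
  decide +kernel
def c_19_17_11_139 : cellOK T19 19 139 17 ((11 * 139 + 1) / 17) 11 = true := by
  decide +kernel
def c_19_17_11_122 : cellOK T19 19 122 17 ((11 * 122 + 1) / 17) 11 = true := by
  decide +kernel
def c_19_17_11_105 : cellOK T19 19 105 17 ((11 * 105 + 1) / 17) 11 = true := by
  decide +kernel
def c_19_17_11_88 : cellOK T19 19 88 17 ((11 * 88 + 1) / 17) 11 = true := by
  decide +kernel
def c_19_17_11_71 : cellOK T19 19 71 17 ((11 * 71 + 1) / 17) 11 = true := by
  decide +kernel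
def c_19_17_11_54 : cellOK T19 19 54 17 ((11 * 54 + 1) / 17) 11 = true := by
  decide +kernel
def c_19_17_11_37 : cellOK T19 19 37 17 ((11 * 37 + 1) / 17) 11 = true := by
  decide +kernel
def c_19_17_11_20 : cellOK T19 19 20 17 ((11 * 20 + 1) / 17) 11 = true := by
  decide +kernel
def c_19_17_11_3 : cellOK T19 19 3 17 ((11 * 3 + 1) / 17) 11 = true := by
  decide +kernel
theorem gg_19_17_11 : GG T19 19 17 11 := gg_of (l := [156, 139, 122, 105, 88, 71, 54, 37, 20, 3]) (by decide +kernel)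
  ⟨c_19_17_11_156, c_19_17_11_139, c_19_17_11_122, c_19_17_11_105, c_19_17_11_88, c_19_17_11_71, c_19_17_11_54, c_19_17_11_37, c_19_17_11_20, c_19_17_11_3, trivial⟩

def c_19_17_12_160 : cellOK T19 19 160 17 ((12 * 160 + 1) / 17) 12 = true := by
  decide +kernel
def c_19_17_12_143 : cellOK T19 19 143 17 ((12 * 143 + 1) / 17) 12 = true := by
  decide +kernel
def c_19_17_12_126 : cellOK T19 19 126 17 ((12 * 126 + 1) / 17) 12 = true := by
  decide +kernel
def c_19_17_12_109 : cellOK T19 19 109 17 ((12 * 109 + 1) / 17) 12 = true := by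
  decide +kernel
def c_19_17_12_92 : cellOK T19 19 92 17 ((12 * 92 + 1) / 17) 12 = true := by
  decide +kernel
def c_19_17_12_75 : cellOK T19 19 75 17 ((12 * 75 + 1) / 17) 12 = true := by
  decide +kernel
def c_19_17_12_58 : cellOK T19 19 58 17 ((12 * 58 + 1) / 17) 12 = true := by
  decide +kernel
def c_19_17_12_41 : cellOK T19 19 41 17 ((12 * 41 + 1) / 17) 12 = true := by
  decide +kernel
def c_19_17_12_24 : cellOK T19 19 24 17 ((12 * 24 + 1) / 17) 12 = true := by
  decide +kernel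
def c_19_17_12_7 : cellOK T19 19 7 17 ((12 * 7 + 1) / 17) 12 = true := by
  decide +kernel
theorem gg_19_17_12 : GG T19 19 17 12 := gg_of (l := [160, 143, 126, 109, 92, 75, 58, 41, 24, 7]) (by decide +kernel)
  ⟨c_19_17_12_160, c_19_17_12_143, c_19_17_12_126, c_19_17_12_109, c_19_17_12_92, c_19_17_12_75, c_19_17_12_58, c_19_17_12_41, c_19_17_12_24, c_19_17_12_7, trivial⟩

def c_19_17_13_149 : cellOK T19 19 149 17 ((13 * 149 + 1) / 17) 13 = true := by
  decide +kernel
def c_19_17_13_132 : cellOK T19 19 132 17 ((13 * 132 + 1) / 17) 13 = true := by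
  decide +kernel
def c_19_17_13_115 : cellOK T19 19 115 17 ((13 * 115 + 1) / 17) 13 = true := by
  decide +kernel
def c_19_17_13_98 : cellOK T19 19 98 17 ((13 * 98 + 1) / 17) 13 = true := by
  decide +kernel
def c_19_17_13_81 : cellOK T19 19 81 17 ((13 * 81 + 1) / 17) 13 = true := by
  decide +kernel
def c_19_17_13_64 : cellOK T19 19 64 17 ((13 * 64 + 1) / 17) 13 = true := by
  decide +kernel
def c_19_17_13_47 : cellOK T19 19 47 17 ((13 * 47 + 1) / 17) 13 = true := by
  decide +kernel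
def c_19_17_13_30 : cellOK T19 19 30 17 ((13 * 30 + 1) / 17) 13 = true := by
  decide +kernel
def c_19_17_13_13 : cellOK T19 19 13 17 ((13 * 13 + 1) / 17) 13 = true := by
  decide +kernel
theorem gg_19_17_13 : GG T19 19 17 13 := gg_of (l := [149, 132, 115, 98, 81, 64, 47, 30, 13]) (by decide +kernel)
  ⟨c_19_17_13_149, c_19_17_13_132, c_19_17_13_115, c_19_17_13_98, c_19_17_13_81, c_19_17_13_64, c_19_17_13_47, c_19_17_13_30, c_19_17_13_13, trivial⟩

def c_19_17_14_159 : cellOK T19 19 159 17 ((14 * 159 + 1) / 17) 14 = true := by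
  decide +kernel
def c_19_17_14_142 : cellOK T19 19 142 17 ((14 * 142 + 1) / 17) 14 = true := by
  decide +kernel
def c_19_17_14_125 : cellOK T19 19 125 17 ((14 * 125 + 1) / 17) 14 = true := by
  decide +kernel
def c_19_17_14_108 : cellOK T19 19 108 17 ((14 * 108 + 1) / 17) 14 = true := by
  decide +kernel
def c_19_17_14_91 : cellOK T19 19 91 17 ((14 * 91 + 1) / 17) 14 = true := by
  decide +kernel
def c_19_17_14_74 : cellOK T19 19 74 17 ((14 * 74 + 1) / 17) 14 = true := by
  decide +kernel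
def c_19_17_14_57 : cellOK T19 19 57 17 ((14 * 57 + 1) / 17) 14 = true := by
  decide +kernel
def c_19_17_14_40 : cellOK T19 19 40 17 ((14 * 40 + 1) / 17) 14 = true := by
  decide +kernel
def c_19_17_14_23 : cellOK T19 19 23 17 ((14 * 23 + 1) / 17) 14 = true := by
  decide +kernel
def c_19_17_14_6 : cellOK T19 19 6 17 ((14 * 6 + 1) / 17) 14 = true := by
  decide +kernel
theorem gg_19_17_14 : GG T19 19 17 14 := gg_of (l := [159, 142, 125, 108, 91, 74, 57, 40, 23, 6]) (by decide +kernel)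
  ⟨c_19_17_14_159, c_19_17_14_142, c_19_17_14_125, c_19_17_14_108, c_19_17_14_91, c_19_17_14_74, c_19_17_14_57, c_19_17_14_40, c_19_17_14_23, c_19_17_14_6, trivial⟩

def c_19_17_15_145 : cellOK T19 19 145 17 ((15 * 145 + 1) / 17) 15 = true := by
  decide +kernel
def c_19_17_15_128 : cellOK T19 19 128 17 ((15 * 128 + 1) / 17) 15 = true := by
  decide +kernel
def c_19_17_15_111 : cellOK T19 19 111 17 ((15 * 111 + 1) / 17) 15 = true := by
  decide +kernel
def c_19_17_15_94 : cellOK T19 19 94 17 ((15 * 94 + 1) / 17) 15 = true := by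
  decide +kernel
def c_19_17_15_77 : cellOK T19 19 77 17 ((15 * 77 + 1) / 17) 15 = true := by
  decide +kernel
def c_19_17_15_60 : cellOK T19 19 60 17 ((15 * 60 + 1) / 17) 15 = true := by
  decide +kernel
def c_19_17_15_43 : cellOK T19 19 43 17 ((15 * 43 + 1) / 17) 15 = true := by
  decide +kernel
def c_19_17_15_26 : cellOK T19 19 26 17 ((15 * 26 + 1) / 17) 15 = true := by
  decide +kernel
def c_19_17_15_9 : cellOK T19 19 9 17 ((15 * 9 + 1) / 17) 15 = true := by
  decide +kernel
theorem gg_19_17_15 : GG T19 19 17 15 := gg_of (l := [145, 128, 111, 94, 77, 60, 43, 26, 9]) (by decide +kernel)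
  ⟨c_19_17_15_145, c_19_17_15_128, c_19_17_15_111, c_19_17_15_94, c_19_17_15_77, c_19_17_15_60, c_19_17_15_43, c_19_17_15_26, c_19_17_15_9, trivial⟩

def c_19_17_16_154 : cellOK T19 19 154 17 ((16 * 154 + 1) / 17) 16 = true := by
  decide +kernel
def c_19_17_16_137 : cellOK T19 19 137 17 ((16 * 137 + 1) / 17) 16 = true := by
  decide +kernel
def c_19_17_16_120 : cellOK T19 19 120 17 ((16 * 120 + 1) / 17) 16 = true := by
  decide +kernel
def c_19_17_16_103 : cellOK T19 19 103 17 ((16 * 103 + 1) / 17) 16 = true := by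
  decide +kernel
def c_19_17_16_86 : cellOK T19 19 86 17 ((16 * 86 + 1) / 17) 16 = true := by
  decide +kernel
def c_19_17_16_69 : cellOK T19 19 69 17 ((16 * 69 + 1) / 17) 16 = true := by
  decide +kernel
def c_19_17_16_52 : cellOK T19 19 52 17 ((16 * 52 + 1) / 17) 16 = true := by
  decide +kernel
def c_19_17_16_35 : cellOK T19 19 35 17 ((16 * 35 + 1) / 17) 16 = true := by
  decide +kernel
def c_19_17_16_18 : cellOK T19 19 18 17 ((16 * 18 + 1) / 17) 16 = true := by
  decide +kernel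
def c_19_17_16_1 : cellOK T19 19 1 17 ((16 * 1 + 1) / 17) 16 = true := by
  decide +kernel
theorem gg_19_17_16 : GG T19 19 17 16 := gg_of (l := [154, 137, 120, 103, 86, 69, 52, 35, 18, 1]) (by decide +kernel)
  ⟨c_19_17_16_154, c_19_17_16_137, c_19_17_16_120, c_19_17_16_103, c_19_17_16_86, c_19_17_16_69, c_19_17_16_52, c_19_17_16_35, c_19_17_16_18, c_19_17_16_1, trivial⟩

theorem gg_19_17_17 : GG T19 19 17 17 := gg_of (l := []) (by decide +kernel)
  trivial

def c_19_17_18_152 : cellOK T19 19 152 17 ((18 * 152 + 1) / 17) 18 = true := by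
  decide +kernel
def c_19_17_18_135 : cellOK T19 19 135 17 ((18 * 135 + 1) / 17) 18 = true := by
  decide +kernel
def c_19_17_18_118 : cellOK T19 19 118 17 ((18 * 118 + 1) / 17) 18 = true := by
  decide +kernel
def c_19_17_18_101 : cellOK T19 19 101 17 ((18 * 101 + 1) / 17) 18 = true := by
  decide +kernel
def c_19_17_18_84 : cellOK T19 19 84 17 ((18 * 84 + 1) / 17) 18 = true := by
  decide +kernel
def c_19_17_18_67 : cellOK T19 19 67 17 ((18 * 67 + 1) / 17) 18 = true := by
  decide +kernel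
def c_19_17_18_50 : cellOK T19 19 50 17 ((18 * 50 + 1) / 17) 18 = true := by
  decide +kernel
def c_19_17_18_33 : cellOK T19 19 33 17 ((18 * 33 + 1) / 17) 18 = true := by
  decide +kernel
def c_19_17_18_16 : cellOK T19 19 16 17 ((18 * 16 + 1) / 17) 18 = true := by
  decide +kernel
theorem gg_19_17_18 : GG T19 19 17 18 := gg_of (l := [152, 135, 118, 101, 84, 67, 50, 33, 16]) (by decide +kernel)
  ⟨c_19_17_18_152, c_19_17_18_135, c_19_17_18_118, c_19_17_18_101, c_19_17_18_84, c_19_17_18_67, c_19_17_18_50, c_19_17_18_33, c_19_17_18_16, trivial⟩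

end Pool.Agent.Helper55.FT
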