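import Pool.Agent.Helper55.FT.TabB

set_option autoImplicit false

/-!
# Cell checks
-/

namespace Pool.Agent.Helper55.FT

set_option maxRecDepth 100000
set_option linter.defProp false

def c_19_18_1_161 : cellOK T19 19 161 18 ((1 * 161 + 1) / 18) 1 = true := by
  decide +kernel
def c_19_18_1_143 : cellOK T19 19 143 18 ((1 * 143 + 1) / 18) 1 = true := by
  decide +kernel
def c_19_18_1_125 : cellOK T19 19 125 18 ((1 * 125 + 1) / 18) 1 = true := by
  decide +kernel
def c_19_18_1_107 : cellOK T19 19 107 18 ((1 * 107 + 1) / 18) 1 = true := by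
  decide +kernel
def c_19_18_1_89 : cellOK T19 19 89 18 ((1 * 89 + 1) / 18) 1 = true := by
  decide +kernel
def c_19_18_1_71 : cellOK T19 19 71 18 ((1 * 71 + 1) / 18) 1 = true := by
  decide +kernel
def c_19_18_1_53 : cellOK T19 19 53 18 ((1 * 53 + 1) / 18) 1 = true := by
  decide +kernel
def c_19_18_1_35 : cellOK T19 19 35 18 ((1 * 35 + 1) / 18) 1 = true := by
  decide +kernel
def c_19_18_1_17 : cellOK T19 19 17 18 ((1 * 17 + 1) / 18) 1 = true := by
  decide +kernel
theorem gg_19_18_1 : GG T19 19 18 1 := gg_of (l := [161, 143, 125, 107, 89, 71, 53, 35, 17]) (by decide +kernel)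
  ⟨c_19_18_1_161, c_19_18_1_143, c_19_18_1_125, c_19_18_1_107, c_19_18_1_89, c_19_18_1_71, c_19_18_1_53, c_19_18_1_35, c_19_18_1_17, trivial⟩

theorem gg_19_18_2 : GG T19 19 18 2 := gg_of (l := []) (by decide +kernel)
  trivial

theorem gg_19_18_3 : GG T19 19 18 3 := gg_of (l := []) (by decide +kernel)
  trivial

theorem gg_19_18_4 : GG T19 19 18 4 := gg_of (l := []) (by decide +kernel)
  trivial

def c_19_18_5_169 : cellOK T19 19 169 18 ((5 * 169 + 1) / 18) 5 = true := by
  decide +kernel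
def c_19_18_5_151 : cellOK T19 19 151 18 ((5 * 151 + 1) / 18) 5 = true := by
  decide +kernel
def c_19_18_5_133 : cellOK T19 19 133 18 ((5 * 133 + 1) / 18) 5 = true := by
  decide +kernel
def c_19_18_5_115 : cellOK T19 19 115 18 ((5 * 115 + 1) / 18) 5 = true := by
  decide +kernel
def c_19_18_5_97 : cellOK T19 19 97 18 ((5 * 97 + 1) / 18) 5 = true := by
  decide +kernel
def c_19_18_5_79 : cellOK T19 19 79 18 ((5 * 79 + 1) / 18) 5 = true := by
  decide +kernel
def c_19_18_5_61 : cellOK T19 19 61 18 ((5 * 61 + 1) / 18) 5 = true := by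
  decide +kernel
def c_19_18_5_43 : cellOK T19 19 43 18 ((5 * 43 + 1) / 18) 5 = true := by
  decide +kernel
def c_19_18_5_25 : cellOK T19 19 25 18 ((5 * 25 + 1) / 18) 5 = true := by
  decide +kernel
def c_19_18_5_7 : cellOK T19 19 7 18 ((5 * 7 + 1) / 18) 5 = true := by
  decide +kernel
theorem gg_19_18_5 : GG T19 19 18 5 := gg_of (l := [169, 151, 133, 115, 97, 79, 61, 43, 25, 7]) (by decide +kernel)
  ⟨c_19_18_5_169, c_19_18_5_151, c_19_18_5_133, c_19_18_5_115, c_19_18_5_97, c_19_18_5_79, c_19_18_5_61, c_19_18_5_43, c_19_18_5_25, c_19_18_5_7, trivial⟩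

theorem gg_19_18_6 : GG T19 19 18 6 := gg_of (l := []) (by decide +kernel)
  trivial

def c_19_18_7_167 : cellOK T19 19 167 18 ((7 * 167 + 1) / 18) 7 = true := by
  decide +kernel
def c_19_18_7_149 : cellOK T19 19 149 18 ((7 * 149 + 1) / 18) 7 = true := by
  decide +kernel
def c_19_18_7_131 : cellOK T19 19 131 18 ((7 * 131 + 1) / 18) 7 = true := by
  decide +kernel
def c_19_18_7_113 : cellOK T19 19 113 18 ((7 * 113 + 1) / 18) 7 = true := by
  decide +kernel
def c_19_18_7_95 : cellOK T19 19 95 18 ((7 * 95 + 1) / 18) 7 = true := by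
  decide +kernel
def c_19_18_7_77 : cellOK T19 19 77 18 ((7 * 77 + 1) / 18) 7 = true := by
  decide +kernel
def c_19_18_7_59 : cellOK T19 19 59 18 ((7 * 59 + 1) / 18) 7 = true := by
  decide +kernel
def c_19_18_7_41 : cellOK T19 19 41 18 ((7 * 41 + 1) / 18) 7 = true := by
  decide +kernel
def c_19_18_7_23 : cellOK T19 19 23 18 ((7 * 23 + 1) / 18) 7 = true := by
  decide +kernel
def c_19_18_7_5 : cellOK T19 19 5 18 ((7 * 5 + 1) / 18) 7 = true := by
  decide +kernel
theorem gg_19_18_7 : GG T19 19 18 7 := gg_of (l := [167, 149, 131, 113, 95, 77, 59, 41, 23, 5]) (by decide +kernel)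
  ⟨c_19_18_7_167, c_19_18_7_149, c_19_18_7_131, c_19_18_7_113, c_19_18_7_95, c_19_18_7_77, c_19_18_7_59, c_19_18_7_41, c_19_18_7_23, c_19_18_7_5, trivial⟩

theorem gg_19_18_8 : GG T19 19 18 8 := gg_of (l := []) (by decide +kernel)
  trivial

theorem gg_19_18_9 : GG T19 19 18 9 := gg_of (l := []) (by decide +kernel)
  trivial

theorem gg_19_18_10 : GG T19 19 18 10 := gg_of (l := []) (by decide +kernel)
  trivial

def c_19_18_11_157 : cellOK T19 19 157 18 ((11 * 157 + 1) / 18) 11 = true := by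
  decide +kernel
def c_19_18_11_139 : cellOK T19 19 139 18 ((11 * 139 + 1) / 18) 11 = true := by
  decide +kernel
def c_19_18_11_121 : cellOK T19 19 121 18 ((11 * 121 + 1) / 18) 11 = true := by
  decide +kernel
def c_19_18_11_103 : cellOK T19 19 103 18 ((11 * 103 + 1) / 18) 11 = true := by
  decide +kernel
def c_19_18_11_85 : cellOK T19 19 85 18 ((11 * 85 + 1) / 18) 11 = true := by
  decide +kernel
def c_19_18_11_67 : cellOK T19 19 67 18 ((11 * 67 + 1) / 18) 11 = true := by
  decide +kernel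
def c_19_18_11_49 : cellOK T19 19 49 18 ((11 * 49 + 1) / 18) 11 = true := by
  decide +kernel
def c_19_18_11_31 : cellOK T19 19 31 18 ((11 * 31 + 1) / 18) 11 = true := by
  decide +kernel
def c_19_18_11_13 : cellOK T19 19 13 18 ((11 * 13 + 1) / 18) 11 = true := by
  decide +kernel
theorem gg_19_18_11 : GG T19 19 18 11 := gg_of (l := [157, 139, 121, 103, 85, 67, 49, 31, 13]) (by decide +kernel)
  ⟨c_19_18_11_157, c_19_18_11_139, c_19_18_11_121, c_19_18_11_103, c_19_18_11_85, c_19_18_11_67, c_19_18_11_49, c_19_18_11_31, c_19_18_11_13, trivial⟩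

theorem gg_19_18_12 : GG T19 19 18 12 := gg_of (l := []) (by decide +kernel)
  trivial

def c_19_18_13_155 : cellOK T19 19 155 18 ((13 * 155 + 1) / 18) 13 = true := by
  decide +kernel
def c_19_18_13_137 : cellOK T19 19 137 18 ((13 * 137 + 1) / 18) 13 = true := by
  decide +kernel
def c_19_18_13_119 : cellOK T19 19 119 18 ((13 * 119 + 1) / 18) 13 = true := by
  decide +kernel
def c_19_18_13_101 : cellOK T19 19 101 18 ((13 * 101 + 1) / 18) 13 = true := by
  decide +kernel
def c_19_18_13_83 : cellOK T19 19 83 18 ((13 * 83 + 1) / 18) 13 = true := by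
  decide +kernel
def c_19_18_13_65 : cellOK T19 19 65 18 ((13 * 65 + 1) / 18) 13 = true := by
  decide +kernel
def c_19_18_13_47 : cellOK T19 19 47 18 ((13 * 47 + 1) / 18) 13 = true := by
  decide +kernel
def c_19_18_13_29 : cellOK T19 19 29 18 ((13 * 29 + 1) / 18) 13 = true := by
  decide +kernel
def c_19_18_13_11 : cellOK T19 19 11 18 ((13 * 11 + 1) / 18) 13 = true := by
  decide +kernel
theorem gg_19_18_13 : GG T19 19 18 13 := gg_of (l := [155, 137, 119, 101, 83, 65, 47, 29, 11]) (by decide +kernel)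
  ⟨c_19_18_13_155, c_19_18_13_137, c_19_18_13_119, c_19_18_13_101, c_19_18_13_83, c_19_18_13_65, c_19_18_13_47, c_19_18_13_29, c_19_18_13_11, trivial⟩

theorem gg_19_18_14 : GG T19 19 18 14 := gg_of (l := []) (by decide +kernel)
  trivial

theorem gg_19_18_15 : GG T19 19 18 15 := gg_of (l := []) (by decide +kernel)
  trivial

theorem gg_19_18_16 : GG T19 19 18 16 := gg_of (l := []) (by decide +kernel)
  trivial

def c_19_18_17_163 : cellOK T19 19 163 18 ((17 * 163 + 1) / 18) 17 = true := by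
  decide +kernel
def c_19_18_17_145 : cellOK T19 19 145 18 ((17 * 145 + 1) / 18) 17 = true := by
  decide +kernel
def c_19_18_17_127 : cellOK T19 19 127 18 ((17 * 127 + 1) / 18) 17 = true := by
  decide +kernel
def c_19_18_17_109 : cellOK T19 19 109 18 ((17 * 109 + 1) / 18) 17 = true := by
  decide +kernel
def c_19_18_17_91 : cellOK T19 19 91 18 ((17 * 91 + 1) / 18) 17 = true := by
  decide +kernel
def c_19_18_17_73 : cellOK T19 19 73 18 ((17 * 73 + 1) / 18) 17 = true := by
  decide +kernel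
def c_19_18_17_55 : cellOK T19 19 55 18 ((17 * 55 + 1) / 18) 17 = true := by
  decide +kernel
def c_19_18_17_37 : cellOK T19 19 37 18 ((17 * 37 + 1) / 18) 17 = true := by
  decide +kernel
def c_19_18_17_19 : cellOK T19 19 19 18 ((17 * 19 + 1) / 18) 17 = true := by
  decide +kernel
def c_19_18_17_1 : cellOK T19 19 1 18 ((17 * 1 + 1) / 18) 17 = true := by
  decide +kernel
theorem gg_19_18_17 : GG T19 19 18 17 := gg_of (l := [163, 145, 127, 109, 91, 73, 55, 37, 19, 1]) (by decide +kernel)
  ⟨c_19_18_17_163, c_19_18_17_145, c_19_18_17_127, c_19_18_17_109, c_19_18_17_91, c_19_18_17_73, c_19_18_17_55, c_19_18_17_37, c_19_18_17_19, c_19_18_17_1, trivial⟩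

theorem gg_19_18_18 : GG T19 19 18 18 := gg_of (l := []) (by decide +kernel)
  trivial

end Pool.Agent.Helper55.FT
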