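import Pool.Agent.Helper55.FT.Q19x1
import Pool.Agent.Helper55.FT.Q19x2
import Pool.Agent.Helper55.FT.Q19x3
import Pool.Agent.Helper55.FT.Q19x4
import Pool.Agent.Helper55.FT.Q19x5
import Pool.Agent.Helper55.FT.Q19x6
import Pool.Agent.Helper55.FT.Q19x7
import Pool.Agent.Helper55.FT.Q19x8
import Pool.Agent.Helper55.FT.Q19x9

set_option autoImplicit false

/-!
# Cell checks
-/

namespace Pool.Agent.Helper55.FT

set_option maxRecDepth 100000
set_option linter.defProp false

theorem rows_19 : ∀ g, g < 19 → ∀ g', g' < 19 → 19 ≤ g + g' → GG T19 19 g g' := by
  intro g hg g' hg' hs
  interval_cases g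
  · omega
  · interval_cases g'
    · omega
    · omega
    · omega
    · omega
    · omega
    · omega
    · omega
    · omega
    · omega
    · omega
    · omega
    · omega
    · omega
    · omega
    · omega
    · omega
    · omega
    · omega
    · exact gg_19_1_18
  · interval_cases g'
    · omega
    · omega
    · omega
    · omega
    · omega
    · omega
    · omega
    · omega
    · omega
    · omega
    · omega
    · omega
    · omega
    · omega
    · omega
    · omega
    · omega
    · exact gg_19_2_17
    · exact gg_19_2_18
  · interval_cases g'
    · omega
    · omega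
    · omega
    · omega
    · omega
    · omega
    · omega
    · omega
    · omega
    · omega
    · omega
    · omega
    · omega
    · omega
    · omega
    · omega
    · exact gg_19_3_16
    · exact gg_19_3_17
    · exact gg_19_3_18
  · interval_cases g'
    · omega
    · omega
    · omega
    · omega
    · omega
    · omega
    · omega
    · omega
    · omega
    · omega
    · omega
    · omega
    · omega
    · omega
    · omega
    · exact gg_19_4_15
    · exact gg_19_4_16
    · exact gg_19_4_17
    · exact gg_19_4_18
  · interval_cases g'
    · omega
    · omega
    · omega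
    · omega
    · omega
    · omega
    · omega
    · omega
    · omega
    · omega
    · omega
    · omega
    · omega
    · omega
    · exact gg_19_5_14
    · exact gg_19_5_15
    · exact gg_19_5_16
    · exact gg_19_5_17
    · exact gg_19_5_18
  · interval_cases g'
    · omega
    · omega
    · omega
    · omega
    · omega
    · omega
    · omega
    · omega
    · omega
    · omega
    · omega
    · omega
    · omega
    · exact gg_19_6_13
    · exact gg_19_6_14
    · exact gg_19_6_15
    · exact gg_19_6_16
    · exact gg_19_6_17
    · exact gg_19_6_18
  · interval_cases g'
    · omega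
    · omega
    · omega
    · omega
    · omega
    · omega
    · omega
    · omega
    · omega
    · omega
    · omega
    · omega
    · exact gg_19_7_12
    · exact gg_19_7_13
    · exact gg_19_7_14
    · exact gg_19_7_15
    · exact gg_19_7_16
    · exact gg_19_7_17
    · exact gg_19_7_18
  · interval_cases g'
    · omega
    · omega
    · omega
    · omega
    · omega
    · omega
    · omega
    · omega
    · omega
    · omega
    · omega
    · exact gg_19_8_11
    · exact gg_19_8_12
    · exact gg_19_8_13
    · exact gg_19_8_14
    · exact gg_19_8_15
    · exact gg_19_8_16
    · exact gg_19_8_17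
    · exact gg_19_8_18
  · interval_cases g'
    · omega
    · omega
    · omega
    · omega
    · omega
    · omega
    · omega
    · omega
    · omega
    · omega
    · exact gg_19_9_10
    · exact gg_19_9_11
    · exact gg_19_9_12
    · exact gg_19_9_13
    · exact gg_19_9_14
    · exact gg_19_9_15
    · exact gg_19_9_16
    · exact gg_19_9_17
    · exact gg_19_9_18
  · interval_cases g'
    · omega
    · omega
    · omega
    · omega
    · omega
    · omega
    · omega
    · omega
    · omega
    · exact gg_19_10_9
    · exact gg_19_10_10
    · exact gg_19_10_11
    · exact gg_19_10_12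
    · exact gg_19_10_13
    · exact gg_19_10_14
    · exact gg_19_10_15
    · exact gg_19_10_16
    · exact gg_19_10_17
    · exact gg_19_10_18
  · interval_cases g'
    · omega
    · omega
    · omega
    · omega
    · omega
    · omega
    · omega
    · omega
    · exact gg_19_11_8
    · exact gg_19_11_9
    · exact gg_19_11_10
    · exact gg_19_11_11
    · exact gg_19_11_12
    · exact gg_19_11_13
    · exact gg_19_11_14
    · exact gg_19_11_15
    · exact gg_19_11_16
    · exact gg_19_11_17
    · exact gg_19_11_18
  · interval_cases g'
    · omega
    · omega
    · omega
    · omega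
    · omega
    · omega
    · omega
    · exact gg_19_12_7
    · exact gg_19_12_8
    · exact gg_19_12_9
    · exact gg_19_12_10
    · exact gg_19_12_11
    · exact gg_19_12_12
    · exact gg_19_12_13
    · exact gg_19_12_14
    · exact gg_19_12_15
    · exact gg_19_12_16
    · exact gg_19_12_17
    · exact gg_19_12_18
  · interval_cases g'
    · omega
    · omega
    · omega
    · omega
    · omega
    · omega
    · exact gg_19_13_6
    · exact gg_19_13_7
    · exact gg_19_13_8
    · exact gg_19_13_9
    · exact gg_19_13_10
    · exact gg_19_13_11
    · exact gg_19_13_12
    · exact gg_19_13_13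
    · exact gg_19_13_14
    · exact gg_19_13_15
    · exact gg_19_13_16
    · exact gg_19_13_17
    · exact gg_19_13_18
  · interval_cases g'
    · omega
    · omega
    · omega
    · omega
    · omega
    · exact gg_19_14_5
    · exact gg_19_14_6
    · exact gg_19_14_7
    · exact gg_19_14_8
    · exact gg_19_14_9
    · exact gg_19_14_10
    · exact gg_19_14_11
    · exact gg_19_14_12
    · exact gg_19_14_13
    · exact gg_19_14_14
    · exact gg_19_14_15
    · exact gg_19_14_16
    · exact gg_19_14_17
    · exact gg_19_14_18
  · interval_cases g'
    · omega
    · omega
    · omega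
    · omega
    · exact gg_19_15_4
    · exact gg_19_15_5
    · exact gg_19_15_6
    · exact gg_19_15_7
    · exact gg_19_15_8
    · exact gg_19_15_9
    · exact gg_19_15_10
    · exact gg_19_15_11
    · exact gg_19_15_12
    · exact gg_19_15_13
    · exact gg_19_15_14
    · exact gg_19_15_15
    · exact gg_19_15_16
    · exact gg_19_15_17
    · exact gg_19_15_18
  · interval_cases g'
    · omega
    · omega
    · omega
    · exact gg_19_16_3
    · exact gg_19_16_4
    · exact gg_19_16_5
    · exact gg_19_16_6
    · exact gg_19_16_7
    · exact gg_19_16_8
    · exact gg_19_16_9
    · exact gg_19_16_10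
    · exact gg_19_16_11
    · exact gg_19_16_12
    · exact gg_19_16_13
    · exact gg_19_16_14
    · exact gg_19_16_15
    · exact gg_19_16_16
    · exact gg_19_16_17
    · exact gg_19_16_18
  · interval_cases g'
    · omega
    · omega
    · exact gg_19_17_2
    · exact gg_19_17_3
    · exact gg_19_17_4
    · exact gg_19_17_5
    · exact gg_19_17_6
    · exact gg_19_17_7
    · exact gg_19_17_8
    · exact gg_19_17_9
    · exact gg_19_17_10
    · exact gg_19_17_11
    · exact gg_19_17_12
    · exact gg_19_17_13
    · exact gg_19_17_14
    · exact gg_19_17_15
    · exact gg_19_17_16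
    · exact gg_19_17_17
    · exact gg_19_17_18
  · interval_cases g'
    · omega
    · exact gg_19_18_1
    · exact gg_19_18_2
    · exact gg_19_18_3
    · exact gg_19_18_4
    · exact gg_19_18_5
    · exact gg_19_18_6
    · exact gg_19_18_7
    · exact gg_19_18_8
    · exact gg_19_18_9
    · exact gg_19_18_10
    · exact gg_19_18_11
    · exact gg_19_18_12
    · exact gg_19_18_13
    · exact gg_19_18_14
    · exact gg_19_18_15
    · exact gg_19_18_16
    · exact gg_19_18_17
    · exact gg_19_18_18

end Pool.Agent.Helper55.FT
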