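import Pool.Agent.Helper55.FT.Tab

set_option autoImplicit false

/-!
# Cell checks
-/

namespace Pool.Agent.Helper55.FT

set_option maxRecDepth 100000
set_option linter.defProp false

def c_5_1_4_2 : cellOK T5 5 2 1 ((4 * 2 + 1) / 1) 4 = true := by
  decide +kernel
def c_5_1_4_1 : cellOK T5 5 1 1 ((4 * 1 + 1) / 1) 4 = true := by
  decide +kernel
def c_5_1_4_0 : cellOK T5 5 0 1 ((4 * 0 + 1) / 1) 4 = true := by
  decide +kernel
theorem gg_5_1_4 : GG T5 5 1 4 := gg_of (l := [2, 1, 0]) (by decide +kernel)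
  ⟨c_5_1_4_2, c_5_1_4_1, c_5_1_4_0, trivial⟩

def c_5_2_3_3 : cellOK T5 5 3 2 ((3 * 3 + 1) / 2) 3 = true := by
  decide +kernel
def c_5_2_3_1 : cellOK T5 5 1 2 ((3 * 1 + 1) / 2) 3 = true := by
  decide +kernel
theorem gg_5_2_3 : GG T5 5 2 3 := gg_of (l := [3, 1]) (by decide +kernel)
  ⟨c_5_2_3_3, c_5_2_3_1, trivial⟩

theorem gg_5_2_4 : GG T5 5 2 4 := gg_of (l := []) (by decide +kernel)
  trivial

def c_5_3_2_7 : cellOK T5 5 7 3 ((2 * 7 + 1) / 3) 2 = true := by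
  decide +kernel
def c_5_3_2_4 : cellOK T5 5 4 3 ((2 * 4 + 1) / 3) 2 = true := by
  decide +kernel
def c_5_3_2_1 : cellOK T5 5 1 3 ((2 * 1 + 1) / 3) 2 = true := by
  decide +kernel
theorem gg_5_3_2 : GG T5 5 3 2 := gg_of (l := [7, 4, 1]) (by decide +kernel)
  ⟨c_5_3_2_7, c_5_3_2_4, c_5_3_2_1, trivial⟩

theorem gg_5_3_3 : GG T5 5 3 3 := gg_of (l := []) (by decide +kernel)
  trivial

def c_5_3_4_5 : cellOK T5 5 5 3 ((4 * 5 + 1) / 3) 4 = true := by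
  decide +kernel
def c_5_3_4_2 : cellOK T5 5 2 3 ((4 * 2 + 1) / 3) 4 = true := by
  decide +kernel
theorem gg_5_3_4 : GG T5 5 3 4 := gg_of (l := [5, 2]) (by decide +kernel)
  ⟨c_5_3_4_5, c_5_3_4_2, trivial⟩

def c_5_4_1_7 : cellOK T5 5 7 4 ((1 * 7 + 1) / 4) 1 = true := by
  decide +kernel
def c_5_4_1_3 : cellOK T5 5 3 4 ((1 * 3 + 1) / 4) 1 = true := by
  decide +kernel
theorem gg_5_4_1 : GG T5 5 4 1 := gg_of (l := [7, 3]) (by decide +kernel)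
  ⟨c_5_4_1_7, c_5_4_1_3, trivial⟩

theorem gg_5_4_2 : GG T5 5 4 2 := gg_of (l := []) (by decide +kernel)
  trivial

def c_5_4_3_9 : cellOK T5 5 9 4 ((3 * 9 + 1) / 4) 3 = true := by
  decide +kernel
def c_5_4_3_5 : cellOK T5 5 5 4 ((3 * 5 + 1) / 4) 3 = true := by
  decide +kernel
def c_5_4_3_1 : cellOK T5 5 1 4 ((3 * 1 + 1) / 4) 3 = true := by
  decide +kernel
theorem gg_5_4_3 : GG T5 5 4 3 := gg_of (l := [9, 5, 1]) (by decide +kernel)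
  ⟨c_5_4_3_9, c_5_4_3_5, c_5_4_3_1, trivial⟩

theorem gg_5_4_4 : GG T5 5 4 4 := gg_of (l := []) (by decide +kernel)
  trivial

end Pool.Agent.Helper55.FT
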