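import Pool.Agent.Helper55.FT.Tab

set_option autoImplicit false

/-!
# Cell checks
-/

namespace Pool.Agent.Helper55.FT

set_option maxRecDepth 100000
set_option linter.defProp false

def c_7_1_6_3 : cellOK T7 7 3 1 ((6 * 3 + 1) / 1) 6 = true := by
  decide +kernel
def c_7_1_6_2 : cellOK T7 7 2 1 ((6 * 2 + 1) / 1) 6 = true := by
  decide +kernel
def c_7_1_6_1 : cellOK T7 7 1 1 ((6 * 1 + 1) / 1) 6 = true := by
  decide +kernel
def c_7_1_6_0 : cellOK T7 7 0 1 ((6 * 0 + 1) / 1) 6 = true := by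
  decide +kernel
theorem gg_7_1_6 : GG T7 7 1 6 := gg_of (l := [3, 2, 1, 0]) (by decide +kernel)
  ⟨c_7_1_6_3, c_7_1_6_2, c_7_1_6_1, c_7_1_6_0, trivial⟩

def c_7_2_5_5 : cellOK T7 7 5 2 ((5 * 5 + 1) / 2) 5 = true := by
  decide +kernel
def c_7_2_5_3 : cellOK T7 7 3 2 ((5 * 3 + 1) / 2) 5 = true := by
  decide +kernel
def c_7_2_5_1 : cellOK T7 7 1 2 ((5 * 1 + 1) / 2) 5 = true := by
  decide +kernel
theorem gg_7_2_5 : GG T7 7 2 5 := gg_of (l := [5, 3, 1]) (by decide +kernel)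
  ⟨c_7_2_5_5, c_7_2_5_3, c_7_2_5_1, trivial⟩

theorem gg_7_2_6 : GG T7 7 2 6 := gg_of (l := []) (by decide +kernel)
  trivial

def c_7_3_4_8 : cellOK T7 7 8 3 ((4 * 8 + 1) / 3) 4 = true := by
  decide +kernel
def c_7_3_4_5 : cellOK T7 7 5 3 ((4 * 5 + 1) / 3) 4 = true := by
  decide +kernel
def c_7_3_4_2 : cellOK T7 7 2 3 ((4 * 2 + 1) / 3) 4 = true := by
  decide +kernel
theorem gg_7_3_4 : GG T7 7 3 4 := gg_of (l := [8, 5, 2]) (by decide +kernel)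
  ⟨c_7_3_4_8, c_7_3_4_5, c_7_3_4_2, trivial⟩

def c_7_3_5_10 : cellOK T7 7 10 3 ((5 * 10 + 1) / 3) 5 = true := by
  decide +kernel
def c_7_3_5_7 : cellOK T7 7 7 3 ((5 * 7 + 1) / 3) 5 = true := by
  decide +kernel
def c_7_3_5_4 : cellOK T7 7 4 3 ((5 * 4 + 1) / 3) 5 = true := by
  decide +kernel
def c_7_3_5_1 : cellOK T7 7 1 3 ((5 * 1 + 1) / 3) 5 = true := by
  decide +kernel
theorem gg_7_3_5 : GG T7 7 3 5 := gg_of (l := [10, 7, 4, 1]) (by decide +kernel)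
  ⟨c_7_3_5_10, c_7_3_5_7, c_7_3_5_4, c_7_3_5_1, trivial⟩

theorem gg_7_3_6 : GG T7 7 3 6 := gg_of (l := []) (by decide +kernel)
  trivial

def c_7_4_3_13 : cellOK T7 7 13 4 ((3 * 13 + 1) / 4) 3 = true := by
  decide +kernel
def c_7_4_3_9 : cellOK T7 7 9 4 ((3 * 9 + 1) / 4) 3 = true := by
  decide +kernel
def c_7_4_3_5 : cellOK T7 7 5 4 ((3 * 5 + 1) / 4) 3 = true := by
  decide +kernel
def c_7_4_3_1 : cellOK T7 7 1 4 ((3 * 1 + 1) / 4) 3 = true := by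
  decide +kernel
theorem gg_7_4_3 : GG T7 7 4 3 := gg_of (l := [13, 9, 5, 1]) (by decide +kernel)
  ⟨c_7_4_3_13, c_7_4_3_9, c_7_4_3_5, c_7_4_3_1, trivial⟩

theorem gg_7_4_4 : GG T7 7 4 4 := gg_of (l := []) (by decide +kernel)
  trivial

def c_7_4_5_11 : cellOK T7 7 11 4 ((5 * 11 + 1) / 4) 5 = true := by
  decide +kernel
def c_7_4_5_7 : cellOK T7 7 7 4 ((5 * 7 + 1) / 4) 5 = true := by
  decide +kernel
def c_7_4_5_3 : cellOK T7 7 3 4 ((5 * 3 + 1) / 4) 5 = true := by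
  decide +kernel
theorem gg_7_4_5 : GG T7 7 4 5 := gg_of (l := [11, 7, 3]) (by decide +kernel)
  ⟨c_7_4_5_11, c_7_4_5_7, c_7_4_5_3, trivial⟩

theorem gg_7_4_6 : GG T7 7 4 6 := gg_of (l := []) (by decide +kernel)
  trivial

def c_7_5_2_17 : cellOK T7 7 17 5 ((2 * 17 + 1) / 5) 2 = true := by
  decide +kernel
def c_7_5_2_12 : cellOK T7 7 12 5 ((2 * 12 + 1) / 5) 2 = true := by
  decide +kernel
def c_7_5_2_7 : cellOK T7 7 7 5 ((2 * 7 + 1) / 5) 2 = true := by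
  decide +kernel
def c_7_5_2_2 : cellOK T7 7 2 5 ((2 * 2 + 1) / 5) 2 = true := by
  decide +kernel
theorem gg_7_5_2 : GG T7 7 5 2 := gg_of (l := [17, 12, 7, 2]) (by decide +kernel)
  ⟨c_7_5_2_17, c_7_5_2_12, c_7_5_2_7, c_7_5_2_2, trivial⟩

def c_7_5_3_13 : cellOK T7 7 13 5 ((3 * 13 + 1) / 5) 3 = true := by
  decide +kernel
def c_7_5_3_8 : cellOK T7 7 8 5 ((3 * 8 + 1) / 5) 3 = true := by
  decide +kernel
def c_7_5_3_3 : cellOK T7 7 3 5 ((3 * 3 + 1) / 5) 3 = true := by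
  decide +kernel
theorem gg_7_5_3 : GG T7 7 5 3 := gg_of (l := [13, 8, 3]) (by decide +kernel)
  ⟨c_7_5_3_13, c_7_5_3_8, c_7_5_3_3, trivial⟩

def c_7_5_4_16 : cellOK T7 7 16 5 ((4 * 16 + 1) / 5) 4 = true := by
  decide +kernel
def c_7_5_4_11 : cellOK T7 7 11 5 ((4 * 11 + 1) / 5) 4 = true := by
  decide +kernel
def c_7_5_4_6 : cellOK T7 7 6 5 ((4 * 6 + 1) / 5) 4 = true := by
  decide +kernel
def c_7_5_4_1 : cellOK T7 7 1 5 ((4 * 1 + 1) / 5) 4 = true := by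
  decide +kernel
theorem gg_7_5_4 : GG T7 7 5 4 := gg_of (l := [16, 11, 6, 1]) (by decide +kernel)
  ⟨c_7_5_4_16, c_7_5_4_11, c_7_5_4_6, c_7_5_4_1, trivial⟩

theorem gg_7_5_5 : GG T7 7 5 5 := gg_of (l := []) (by decide +kernel)
  trivial

def c_7_5_6_14 : cellOK T7 7 14 5 ((6 * 14 + 1) / 5) 6 = true := by
  decide +kernel
def c_7_5_6_9 : cellOK T7 7 9 5 ((6 * 9 + 1) / 5) 6 = true := by
  decide +kernel
def c_7_5_6_4 : cellOK T7 7 4 5 ((6 * 4 + 1) / 5) 6 = true := by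
  decide +kernel
theorem gg_7_5_6 : GG T7 7 5 6 := gg_of (l := [14, 9, 4]) (by decide +kernel)
  ⟨c_7_5_6_14, c_7_5_6_9, c_7_5_6_4, trivial⟩

def c_7_6_1_17 : cellOK T7 7 17 6 ((1 * 17 + 1) / 6) 1 = true := by
  decide +kernel
def c_7_6_1_11 : cellOK T7 7 11 6 ((1 * 11 + 1) / 6) 1 = true := by
  decide +kernel
def c_7_6_1_5 : cellOK T7 7 5 6 ((1 * 5 + 1) / 6) 1 = true := by
  decide +kernel
theorem gg_7_6_1 : GG T7 7 6 1 := gg_of (l := [17, 11, 5]) (by decide +kernel)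
  ⟨c_7_6_1_17, c_7_6_1_11, c_7_6_1_5, trivial⟩

theorem gg_7_6_2 : GG T7 7 6 2 := gg_of (l := []) (by decide +kernel)
  trivial

theorem gg_7_6_3 : GG T7 7 6 3 := gg_of (l := []) (by decide +kernel)
  trivial

theorem gg_7_6_4 : GG T7 7 6 4 := gg_of (l := []) (by decide +kernel)
  trivial

def c_7_6_5_19 : cellOK T7 7 19 6 ((5 * 19 + 1) / 6) 5 = true := by
  decide +kernel
def c_7_6_5_13 : cellOK T7 7 13 6 ((5 * 13 + 1) / 6) 5 = true := by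
  decide +kernel
def c_7_6_5_7 : cellOK T7 7 7 6 ((5 * 7 + 1) / 6) 5 = true := by
  decide +kernel
def c_7_6_5_1 : cellOK T7 7 1 6 ((5 * 1 + 1) / 6) 5 = true := by
  decide +kernel
theorem gg_7_6_5 : GG T7 7 6 5 := gg_of (l := [19, 13, 7, 1]) (by decide +kernel)
  ⟨c_7_6_5_19, c_7_6_5_13, c_7_6_5_7, c_7_6_5_1, trivial⟩

theorem gg_7_6_6 : GG T7 7 6 6 := gg_of (l := []) (by decide +kernel)
  trivial

end Pool.Agent.Helper55.FT
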