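import Pool.Agent.Helper55.FT.Check

set_option autoImplicit false

/-!
# The loops over all cells, and the theorem for one prime `p`
-/

namespace Pool.Agent.Helper55.FT

open Finset

/-- table lookup, 16 bits per entry -/
def look (T q : ℕ) : ℕ := Nat.land (Nat.shiftRight T (Nat.mul 16 q)) 65535

/-- lazy disjunction -/
def orb (a b : Bool) : Bool := Bool.rec (motive := fun _ => Bool) b true a

theorem orb_eq {a b : Bool} (h : orb a b = true) : a = true ∨ b = true := by
  cases a
  · exact Or.inr h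
  · exact Or.inl rfl

/-- try all tables -/
def tabs (p q D : ℕ) (Ts : List ℕ) : Bool :=
  List.rec (motive := fun _ => Bool) false (fun T _ acc => orb (viol p q D (look T q)) acc) Ts

theorem tabs_sound {p q D : ℕ} (hp : 2 ≤ p) (hq : 0 < q) (Ts : List ℕ)
    (h : tabs p q D Ts = true) : Viol p q D := by
  induction Ts with
  | nil => exact Bool.noConfusion (show false = true from h)
  | cons T Ts ih =>
    rcases orb_eq h with h1 | h1
    · exact viol_sound hp hq h1
    · exact ih h1

/-- the check of one pair -/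
def pairOK (Ts : List ℕ) (p q D : ℕ) : Bool :=
  frc q fun q => frc D fun D =>
  orb (Nat.beq (Nat.mod q p) 0) (orb (Nat.beq (Nat.mod q p) 1)
    (orb (Nat.beq (Nat.mod q p) (Nat.sub p 1)) (orb (Nat.beq (Nat.mod D p) 0)
    (orb (Nat.beq D 1) (tabs p q D Ts)))))

theorem pairOK_sound {Ts : List ℕ} {p q D : ℕ} (hp : 2 ≤ p) (hpc : PC p q D)
    (h : pairOK Ts p q D = true) : Viol p q D := by
  have hq : 0 < q := by
    rcases Nat.eq_zero_or_pos q with h | h
    · subst h; exact absurd (Nat.zero_mod p) hpc.q0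
    · exact h
  unfold pairOK at h
  simp only [frc_eq] at h
  rcases orb_eq h with h | h
  · exact absurd (Nat.beq_eq ▸ h) hpc.q0
  rcases orb_eq h with h | h
  · exact absurd (Nat.beq_eq ▸ h) hpc.q1
  rcases orb_eq h with h | h
  · exact absurd (Nat.beq_eq ▸ h) hpc.q2
  rcases orb_eq h with h | h
  · exact absurd (Nat.beq_eq ▸ h) hpc.D0
  rcases orb_eq h with h | h
  · exact absurd (Nat.beq_eq ▸ h) hpc.D1
  exact tabs_sound hp hq Ts h

/-- bounded conjunction -/
def loop (f : ℕ → Bool) (n : ℕ) : Bool :=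
  Nat.rec (motive := fun _ => Bool) true
    (fun i acc => Bool.rec (motive := fun _ => Bool) false acc (f i)) n

theorem loop_sound {f : ℕ → Bool} {n : ℕ} (h : loop f n = true) : ∀ i, i < n → f i = true := by
  induction n with
  | zero => intro i hi; omega
  | succ n ih =>
    have h1 : loop f (n + 1) =
        Bool.rec (motive := fun _ => Bool) false (loop f n) (f n) := rfl
    rw [h1] at h
    have hfn : f n = true := by
      by_contra h2
      rw [Bool.not_eq_true] at h2
      rw [h2] at h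
      exact Bool.noConfusion (show false = true from h)
    rw [hfn] at h
    intro i hi
    rcases Nat.lt_succ_iff_lt_or_eq.1 hi with h2 | h2
    · exact ih h i h2
    · rw [h2]; exact hfn

/-- the number of values of the first coordinate -/
def ns (p f : ℕ) : ℕ := Nat.rec (motive := fun _ => ℕ) (Nat.succ p) (fun _ _ => p) f

/-- the check of one cell -/
def cellOK (Ts : List ℕ) (p f g f' g' : ℕ) : Bool :=
  frc f fun f => frc f' fun f' =>
  loop (fun s => loop (fun t => pairOK Ts p
    (Nat.add (Nat.mul g' (Nat.succ s)) (Nat.mul g (Nat.succ t)))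
    (Nat.add (Nat.mul f' (Nat.succ s)) (Nat.mul f (Nat.succ t)))) p) (ns p f)

/-- all cells with given denominators pass -/
def GG (Ts : List ℕ) (p g g' : ℕ) : Prop :=
  ∀ f, f < g * p → (g' * f + 1) % g = 0 → 2 * ((g' * f + 1) / g) ≤ p * g' →
    cellOK Ts p f g ((g' * f + 1) / g) g' = true

/-- the numerators of the cells with given denominators, in decreasing order -/
def flt (p g g' : ℕ) (n : ℕ) : List ℕ :=
  Nat.rec (motive := fun _ => List ℕ) [] (fun f acc =>
    Bool.rec (motive := fun _ => List ℕ) acc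
      (Bool.rec (motive := fun _ => List ℕ) acc (f :: acc)
        (Nat.ble (Nat.mul 2 (Nat.div (Nat.succ (Nat.mul g' f)) g)) (Nat.mul p g')))
      (Nat.beq (Nat.mod (Nat.succ (Nat.mul g' f)) g) 0)) n

theorem mem_flt {p g g' f : ℕ} (h1 : (g' * f + 1) % g = 0)
    (h2 : 2 * ((g' * f + 1) / g) ≤ p * g') {n : ℕ} (hf : f < n) : f ∈ flt p g g' n := by
  have hmod : Nat.beq (Nat.mod (Nat.succ (Nat.mul g' f)) g) 0 = true := by
    rw [Nat.beq_eq]; exact h1
  have hble : Nat.ble (Nat.mul 2 (Nat.div (Nat.succ (Nat.mul g' f)) g)) (Nat.mul p g') = true := by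
    rw [Nat.ble_eq]; exact h2
  induction n with
  | zero => omega
  | succ n ih =>
    have hstep : flt p g g' (n + 1) =
      Bool.rec (motive := fun _ => List ℕ) (flt p g g' n)
        (Bool.rec (motive := fun _ => List ℕ) (flt p g g' n) (n :: flt p g g' n)
          (Nat.ble (Nat.mul 2 (Nat.div (Nat.succ (Nat.mul g' n)) g)) (Nat.mul p g')))
        (Nat.beq (Nat.mod (Nat.succ (Nat.mul g' n)) g) 0) := rfl
    rw [hstep]
    rcases Nat.lt_succ_iff_lt_or_eq.1 hf with h3 | h3
    · have h4 := ih h3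
      cases Nat.beq (Nat.mod (Nat.succ (Nat.mul g' n)) g) 0
      · exact h4
      · cases Nat.ble (Nat.mul 2 (Nat.div (Nat.succ (Nat.mul g' n)) g)) (Nat.mul p g')
        · exact h4
        · exact List.mem_cons_of_mem _ h4
    · subst h3
      rw [hmod, hble]
      exact List.mem_cons_self

/-- all listed cells pass -/
def AllF (Ts : List ℕ) (p g g' : ℕ) : List ℕ → Prop
  | [] => True
  | f :: l => cellOK Ts p f g ((g' * f + 1) / g) g' = true ∧ AllF Ts p g g' l

theorem AllF_mem {Ts : List ℕ} {p g g' : ℕ} {l : List ℕ} (h : AllF Ts p g g' l) :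
    ∀ f ∈ l, cellOK Ts p f g ((g' * f + 1) / g) g' = true := by
  induction l with
  | nil => intro f hf; exact absurd hf List.not_mem_nil
  | cons a l ih =>
    intro f hf
    rcases List.mem_cons.1 hf with h1 | h1
    · rw [h1]; exact h.1
    · exact ih h.2 f h1

theorem gg_of {Ts : List ℕ} {p g g' : ℕ} {l : List ℕ} (hl : flt p g g' (g * p) = l)
    (h : AllF Ts p g g' l) : GG Ts p g g' := by
  intro f hf h1 h2
  apply AllF_mem h
  rw [← hl]
  exact mem_flt h1 h2 hf

theorem row_sound {Ts : List ℕ} {p g g' : ℕ} (hp : 2 ≤ p) (h : GG Ts p g g')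
    {f f' s t : ℕ} (hg : 0 < g)
    (hdet : g * f' = g' * f + 1) (hf' : 2 * f' ≤ p * g')
    (hs0 : 0 < s) (hs : s ≤ p ∨ f = 0 ∧ s ≤ p + 1) (ht0 : 0 < t) (ht : t ≤ p)
    (hpc : PC p (g' * s + g * t) (f' * s + f * t)) :
    Viol p (g' * s + g * t) (f' * s + f * t) := by
  have hflt : f < g * p := by
    by_contra h3
    push Not at h3
    have hf1 : g * f' ≤ g * (p * g') := Nat.mul_le_mul_left _ (by omega)
    have hf2 : g' * (g * p) ≤ g' * f := Nat.mul_le_mul_left _ h3
    have e1 : g * (p * g') = g' * (g * p) := by ring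
    omega
  have hdiv : (g' * f + 1) / g = f' := by
    rw [← hdet, Nat.mul_div_cancel_left _ hg]
  have h3 := h f hflt (by rw [← hdet, Nat.mul_mod_right]) (by rw [hdiv]; exact hf')
  rw [hdiv] at h3
  unfold cellOK at h3
  simp only [frc_eq] at h3
  have hsn : s - 1 < ns p f := by
    rcases hs with h4 | ⟨h4, h5⟩
    · have : p ≤ ns p f := by
        cases f with
        | zero => exact Nat.le_succ p
        | succ f => exact le_rfl
      omega
    · subst h4
      have : ns p 0 = p + 1 := rfl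
      omega
  have h4 := loop_sound (loop_sound h3 (s - 1) hsn) (t - 1) (by omega)
  have es : Nat.succ (s - 1) = s := by omega
  have et : Nat.succ (t - 1) = t := by omega
  simp only [es, et] at h4
  exact pairOK_sound hp hpc h4

/-- The theorem for one prime, from the row checks. -/
theorem of_rows {p : ℕ} {Ts : List ℕ} (hp3 : 3 ≤ p)
    (rows : ∀ g, g < p → ∀ g', g' < p → p ≤ g + g' → GG Ts p g g')
    {q D : ℕ} (hpc : PC p q D) (hD2 : 2 * D < p * q)
    (hw : ∀ g, 1 ≤ g → g < p → ¬ q ∣ g * D) : Viol p q D := by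
  refine reduce hp3 ?_ hpc hD2 hw
  intro f g f' g' s t h1 h2 h3 h4 h5 h6 h7 h8 h9 h10 h11 h12
  exact row_sound (by omega) (rows g h2 g' h4 h5) h1 h6 h7 h8 h9 h10 h11 h12

open Polynomial in
/-- The conjecture for one prime `p`, from the pair statement. -/
theorem conj_of_pairs {p : ℕ} (hp : p.Prime) (hp3 : 3 ≤ p)
    (hall : ∀ q D : ℕ, PC p q D → 2 * D < p * q → (∀ g, 1 ≤ g → g < p → ¬ q ∣ g * D) → Viol p q D)
    {q r : ℕ} (hq : q.Prime) (hr : r.Prime) (hpq : p < q) (hqr : q < r)
    (hflat : ∀ n, |(cyclotomic (p * q * r) ℤ).coeff n| ≤ 1) :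
    (Int.ModEq (p : ℤ) (q : ℤ) 1 ∨ Int.ModEq (p : ℤ) (q : ℤ) (-1)) ∨
    (Int.ModEq ((p * q : ℕ) : ℤ) (r : ℤ) 1 ∨ Int.ModEq ((p * q : ℕ) : ℤ) (r : ℤ) (-1)) := by
  by_contra hcon
  push Not at hcon
  obtain ⟨⟨hq1, hq2⟩, hr1, hr2⟩ := hcon
  have hM : 0 < p * q := Nat.mul_pos hp.pos hq.pos
  have hM1 : 1 < p * q := by nlinarith [hp.two_le, hq.two_le]
  -- an inverse of `r`
  have hcop : Nat.Coprime r (p * q) := by
    apply Nat.Coprime.mul_right
    · exact (Nat.coprime_primes hr hp).2 (by omega)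
    · exact (Nat.coprime_primes hr hq).2 (by omega)
  obtain ⟨D0, hD0⟩ := Nat.exists_mul_mod_eq_one_of_coprime hcop hM1
  set D1 := D0 % (p * q) with hD1
  have hD1lt : D1 < p * q := Nat.mod_lt _ hM
  have hD1r : ((p * q : ℕ) : ℤ) ∣ (D1 : ℤ) * r - 1 := by
    have h1 : D1 * r ≡ 1 [MOD p * q] := by
      have h2 : D1 * r ≡ D0 * r [MOD p * q] := (Nat.mod_modEq _ _).mul_right _
      refine h2.trans ?_
      unfold Nat.ModEq
      rw [mul_comm D0 r, hD0.2, Nat.mod_eq_of_lt hM1]
    have := (Nat.modEq_iff_dvd.1 h1.symm)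
    push_cast at this ⊢
    exact this
  -- the representative below `p q / 2`
  obtain ⟨D, ε, hε, hDr, hD2⟩ : ∃ (D : ℕ) (ε : ℤ), (ε = 1 ∨ ε = -1) ∧
      ((p * q : ℕ) : ℤ) ∣ (D : ℤ) * r - ε ∧ 2 * D ≤ p * q := by
    by_cases h : 2 * D1 ≤ p * q
    · exact ⟨D1, 1, Or.inl rfl, hD1r, h⟩
    · refine ⟨p * q - D1, -1, Or.inr rfl, ?_, by omega⟩
      have e1 : ((p * q - D1 : ℕ) : ℤ) * r - (-1) = ((p * q : ℕ) : ℤ) * r - (D1 * r - 1) := by
        rw [Nat.cast_sub hD1lt.le]; ring
      rw [e1]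
      exact dvd_sub (dvd_mul_right _ _) hD1r
  have hflatG : ∀ N k : ℤ, 0 ≤ N → N < p * q → |G p q D N k| ≤ 1 := by
    intro N k hN hN1
    rcases hε with h | h
    · subst h
      exact G_le hp hq hr hpq hqr hflat hDr hN hN1
    · subst h
      have h1 : ((p * q : ℕ) : ℤ) ∣ (-(D : ℤ)) * r - 1 := by
        have := hDr.neg_right
        have e1 : -((D : ℤ) * r - -1) = (-(D : ℤ)) * r - 1 := by ring
        rwa [e1] at this
      have h2 := G_neg p q (-(D : ℤ)) N k
      rw [neg_neg] at h2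
      rw [h2, abs_neg]
      exact G_le hp hq hr hpq hqr hflat h1 hN hN1
  -- side conditions
  have hndvd : ∀ m : ℕ, (m = p ∨ m = q) → ¬ m ∣ D := by
    intro m hm hmD
    have hmpos : 1 < m := by rcases hm with h | h <;> subst h; exacts [hp.one_lt, hq.one_lt]
    have h1 : (m : ℤ) ∣ ((p * q : ℕ) : ℤ) := by
      rcases hm with h | h
      · subst h; exact_mod_cast dvd_mul_right m q
      · subst h; exact_mod_cast dvd_mul_left m p
    have h2 : (m : ℤ) ∣ (D : ℤ) * r - ε := h1.trans hDr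
    have h3 : (m : ℤ) ∣ (D : ℤ) * r := (by exact_mod_cast hmD : (m : ℤ) ∣ (D : ℤ)).mul_right _
    have h4 : (m : ℤ) ∣ ε := by
      have := dvd_sub h3 h2
      simpa using this
    have h5 : (m : ℤ) ∣ 1 := by
      rcases hε with h | h
      · rwa [h] at h4
      · rw [h, dvd_neg] at h4; exact h4
    have := Int.le_of_dvd one_pos h5
    omega
  have hpD : ¬ p ∣ D := hndvd p (Or.inl rfl)
  have hqD : ¬ q ∣ D := hndvd q (Or.inr rfl)
  have hw : ∀ g, 1 ≤ g → g < p → ¬ q ∣ g * D := by
    intro g hg hgp h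
    rcases (Nat.Prime.dvd_mul hq).1 h with h1 | h1
    · have := Nat.le_of_dvd hg h1
      omega
    · exact hqD h1
  have hD1' : D ≠ 1 := by
    rintro rfl
    rcases hε with h | h
    · subst h
      apply hr1
      rw [Int.modEq_iff_dvd]
      have := hDr.neg_right
      have e1 : -(((1 : ℕ) : ℤ) * r - 1) = 1 - (r : ℤ) := by push_cast; ring
      rwa [e1] at this
    · subst h
      apply hr2
      rw [Int.modEq_iff_dvd]
      have := hDr.neg_right
      have e1 : -(((1 : ℕ) : ℤ) * r - -1) = -1 - (r : ℤ) := by push_cast; ring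
      rwa [e1] at this
  have hqp : ¬ p ∣ q := by
    intro h
    have := (Nat.prime_dvd_prime_iff_eq hp hq).1 h
    omega
  have hpc : PC p q D := by
    refine ⟨fun h => hqp (Nat.dvd_of_mod_eq_zero h), ?_, ?_, fun h => hpD (Nat.dvd_of_mod_eq_zero h),
      hD1'⟩
    · intro h
      apply hq1
      have : (q : ℤ) % p = 1 := by exact_mod_cast h
      unfold Int.ModEq
      rw [this, Int.emod_eq_of_lt (by norm_num) (by exact_mod_cast hp.one_lt)]
    · intro h
      apply hq2
      rw [Int.modEq_iff_dvd]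
      have h1 := Nat.div_add_mod q p
      rw [h] at h1
      refine ⟨-((q / p : ℕ) : ℤ) - 1, ?_⟩
      have h2 : (q : ℤ) = p * ((q / p : ℕ) : ℤ) + (p - 1) := by
        have h3 : ((p * (q / p) + (p - 1) : ℕ) : ℤ) = q := by exact_mod_cast h1
        rw [← h3, Nat.cast_add, Nat.cast_mul, Nat.cast_sub hp.one_lt.le, Nat.cast_one]
      rw [h2]
      ring
  have hD2' : 2 * D < p * q := by
    refine lt_of_le_of_ne hD2 ?_
    intro h
    have hodd : 2 ∣ p * q := ⟨D, h.symm⟩
    rcases (Nat.Prime.dvd_mul Nat.prime_two).1 hodd with h1 | h1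
    · have := (Nat.prime_dvd_prime_iff_eq Nat.prime_two hp).1 h1
      omega
    · have := (Nat.prime_dvd_prime_iff_eq Nat.prime_two hq).1 h1
      omega
  obtain ⟨N, k, hN, hN1, hv⟩ := hall q D hpc hD2' hw
  have := hflatG N k hN hN1
  omega

end Pool.Agent.Helper55.FT
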